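import Pool.Agent.P.MP_746f10_nt.LP.St

/-! F3: from thresholds that depend on the scale X to thresholds that depend on N. -/

open Finset Filter MeasureTheory
open scoped ComplexConjugate

namespace Pool.Agent.P.MP_746f10_nt.LP

open Pool.Agent.P.MP_a14ce1_nt

namespace BlkP

theorem dens_anti {k : ℕ} (a b : Fin k → ℕ) {y z : ℝ} (h : y ≤ z) (N : ℕ) :
    dens a b z N ≤ dens a b y N := by
  classical
  unfold dens
  refine div_le_div_of_nonneg_right (Nat.cast_le.2 (card_le_card fun n hn => ?_))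
    (Nat.cast_nonneg _)
  rw [mem_filter] at hn ⊢
  refine ⟨hn.1, fun i => ?_⟩
  obtain ⟨p, hp, hd, hy⟩ := hn.2 i
  exact ⟨p, hp, hd, h.trans_lt hy⟩

theorem prop_mem {s : Finset ℕ} {N : ℕ} (h : s ⊆ Icc 1 N) :
    0 ≤ (s.card : ℝ) / N ∧ (s.card : ℝ) / N ≤ 1 := by
  refine ⟨by positivity, div_le_one_of_le₀ ?_ (Nat.cast_nonneg _)⟩
  have := card_le_card h
  rw [Nat.card_Icc, Nat.add_sub_cancel] at this
  exact_mod_cast this

theorem dens_mem {k : ℕ} (a b : Fin k → ℕ) (y : ℝ) (N : ℕ) :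
    0 ≤ dens a b y N ∧ dens a b y N ≤ 1 := by
  classical
  unfold dens
  exact prop_mem (filter_subset _ _)

theorem den1_mem (y : ℝ) (N : ℕ) : 0 ≤ den1 y N ∧ den1 y N ≤ 1 := by
  classical
  unfold den1
  exact prop_mem (filter_subset _ _)

theorem rho_mem {δ : ℝ} (h0 : 0 < δ) (h1 : δ < 1 / 2) :
    0 ≤ -Real.log (1 - δ) ∧ -Real.log (1 - δ) ≤ 1 := by
  have h2 : 0 < 1 - δ := by linarith
  refine ⟨neg_nonneg.2 (Real.log_nonpos h2.le (by linarith)), ?_⟩
  have h3 := Real.log_le_sub_one_of_pos (inv_pos.2 h2)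
  have h4 : (1 - δ)⁻¹ ≤ 2 := by
    rw [inv_le_comm₀ h2 two_pos]
    linarith
  rw [Real.log_inv] at h3
  linarith

theorem pow_sub {x y : ℝ} (hx : 0 ≤ x ∧ x ≤ 1) (hy : 0 ≤ y ∧ y ≤ 1) (k : ℕ) :
    |x ^ k - y ^ k| ≤ |x - y| * k := by
  refine (abs_pow_sub_pow_le x y k).trans (mul_le_of_le_one_right (by positivity) ?_)
  refine pow_le_one₀ (le_max_of_le_left (abs_nonneg _)) (max_le ?_ ?_)
  · rw [abs_of_nonneg hx.1]; exact hx.2
  · rw [abs_of_nonneg hy.1]; exact hy.2

/-- one threshold -/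
theorem thr {C δ u j i : ℝ} {N : ℕ} (k : ℕ)
    (hD : ∀ (y : ℝ) (N : ℕ), 2 ≤ y → y ≤ N → (N : ℝ) ≤ y ^ 2 →
      |den1 y N - Real.log (Real.log N / Real.log y)| ≤ C / Real.log y)
    (h0 : 0 < δ) (h1 : δ < 1 / 2) (hu : 1 ≤ u) (hCu : 2 * C ≤ u) (hj : 2 ≤ δ * j)
    (hj' : 2 ≤ (1 - 2 * δ) * j) (hi : j ≤ i) (hi' : i ≤ j + 2) (hN : 1 ≤ N)
    (hl : j * u ≤ Real.log N) (hl' : Real.log N ≤ (j + 1) * u) :
    Real.exp ((j + 2) * u) ≤ Real.exp ((1 - δ) * i * u) ^ 2 ∧
      |den1 (Real.exp ((1 - δ) * i * u)) N ^ k - (-Real.log (1 - δ)) ^ k| ≤ 3 / j * k := by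
  have hj0 : 0 < j := by
    by_contra hc
    nlinarith [not_lt.1 hc]
  have hj4 : 4 ≤ j := by nlinarith
  have hN0 : (0 : ℝ) < N := by exact_mod_cast hN
  have hδ : 0 < 1 - δ := by linarith
  have hi0 : 0 < i := by linarith
  have hu0 : 0 < u := by linarith
  have e1 : Real.exp ((j + 2) * u) ≤ Real.exp ((1 - δ) * i * u) ^ 2 := by
    rw [sq, ← Real.exp_add, Real.exp_le_exp]
    have : j + 2 ≤ 2 * ((1 - δ) * i) := by nlinarith
    nlinarith
  have hlz : j / 2 * u ≤ (1 - δ) * i * u :=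
    mul_le_mul_of_nonneg_right (by nlinarith) hu0.le
  have e2 : 2 ≤ Real.exp ((1 - δ) * i * u) := by
    have := Real.add_one_le_exp ((1 - δ) * i * u)
    nlinarith
  have e3 : Real.exp ((1 - δ) * i * u) ≤ N := by
    rw [← Real.le_log_iff_exp_le hN0]
    refine le_trans (mul_le_mul_of_nonneg_right ?_ hu0.le) hl
    nlinarith
  have e4 : (N : ℝ) ≤ Real.exp ((1 - δ) * i * u) ^ 2 := by
    refine le_trans ?_ e1
    rw [← Real.log_le_iff_le_exp hN0]
    nlinarith
  refine ⟨e1, ?_⟩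
  have h5 := hD _ N e2 e3 e4
  rw [Real.log_exp] at h5
  have hL : 0 < Real.log N := lt_of_lt_of_le (by positivity) hl
  have h6 : C / ((1 - δ) * i * u) ≤ 1 / j := by
    rw [div_le_div_iff₀ (by positivity) hj0]
    nlinarith
  have e5 : Real.log (Real.log N / ((1 - δ) * i * u)) =
      Real.log (Real.log N / (i * u)) + -Real.log (1 - δ) := by
    rw [mul_assoc, mul_comm, ← div_div, Real.log_div (by positivity) hδ.ne', sub_eq_add_neg]
  have h7 : Real.log (Real.log N / (i * u)) ≤ 2 / j := by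
    refine (Real.log_le_sub_one_of_pos (by positivity)).trans ?_
    rw [sub_le_iff_le_add, div_add_one hj0.ne', div_le_div_iff₀ (by positivity) hj0]
    have : (j + 1) * j ≤ (2 + j) * i := by nlinarith
    nlinarith
  have h8 : -Real.log (Real.log N / (i * u)) ≤ 2 / j := by
    rw [← Real.log_inv, inv_div]
    refine (Real.log_le_sub_one_of_pos (by positivity)).trans ?_
    rw [sub_le_iff_le_add, div_add_one hj0.ne', div_le_div_iff₀ hL hj0]
    have h9 : i * (j * u) ≤ (2 + j) * Real.log N :=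
      mul_le_mul (by linarith) hl (by positivity) (by positivity)
    nlinarith
  refine (pow_sub (den1_mem _ _) (rho_mem h0 h1) k).trans
    (mul_le_mul_of_nonneg_right ?_ (Nat.cast_nonneg _))
  rw [e5] at h5
  have e6 : 3 / j = 2 / j + 1 / j := by ring
  rw [abs_le] at h5 ⊢
  constructor <;> linarith [h5.1, h5.2]

end BlkP

open BlkP in
theorem blk (h1 : S_Ind) (h2 : S_Den) : S_Blk := by
  classical
  intro k a b δ lam ε y ha hab h0 hδ hlam hε hy
  obtain ⟨C, hC, hD⟩ := h2
  have hδ2 : 0 < 1 - 2 * δ := by linarith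
  have hδ1 : 0 < 1 - δ := by linarith
  obtain ⟨j0, hj0⟩ := exists_nat_ge (2 / δ + 2 / (1 - 2 * δ) + 24 * k / ε)
  have p1 : 0 < 2 / δ := by positivity
  have p2 : 0 < 2 / (1 - 2 * δ) := by positivity
  have p3 : 0 ≤ 24 * k / ε := by positivity
  have j1 : 2 ≤ δ * j0 := by rw [← div_le_iff₀' h0]; linarith
  have j2 : 2 ≤ (1 - 2 * δ) * j0 := by rw [← div_le_iff₀' hδ2]; linarith
  have j3 : 24 * k ≤ ε * j0 := by rw [← div_le_iff₀' hε]; linarith
  have j4 : (0 : ℝ) < j0 := by linarith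
  obtain ⟨m, hm⟩ := exists_nat_ge (4 * j0 / ε)
  have m0 : (0 : ℝ) < m := lt_of_lt_of_le (by positivity) hm
  have m1 : 4 * j0 ≤ ε * m := by rwa [← div_le_iff₀' hε]
  set S : ℝ := ∑ i, ((a i : ℝ) + b i) with hS
  have hS0 : 0 ≤ S := sum_nonneg fun i _ => by positivity
  have hSi : ∀ i, (a i : ℝ) + b i ≤ S := fun i =>
    single_le_sum (f := fun i => (a i : ℝ) + b i) (fun i _ => by positivity) (mem_univ i)
  have hlog : Tendsto (fun X : ℕ => Real.log X) atTop atTop :=
    Real.tendsto_log_atTop.comp tendsto_natCast_atTop_atTop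
  filter_upwards [h1 k a b ((1 - δ) * j0 / m) (ε / (4 * (m + 3))) ha hab (by positivity)
    (by positivity), hlog.eventually_ge_atTop (m * (lam + S + 2 * C)),
    hlog.eventually_ge_atTop (4 / ε), hlog.eventually_ge_atTop 1, eventually_ge_atTop 1]
    with X hX hL hL4 hL1 hX1
  have hX0 : (0 : ℝ) < X := by exact_mod_cast hX1
  set L := Real.log X with hLd
  set u := L / m with hu
  have hum : L = u * m := by rw [hu]; field_simp
  have hub : lam + S + 2 * C ≤ u := by rw [hu, le_div_iff₀' m0]; exact hL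
  have hu1 : 1 ≤ u := by linarith
  have hu0 : 0 < u := by linarith
  set ρ := -Real.log (1 - δ) with hρ
  set z : ℕ → ℝ := fun i => Real.exp ((1 - δ) * i * u) with hz
  set c : ℕ → ℕ → Prop := fun i N =>
    (N : ℝ) ≤ z i ^ 2 ∧ ∀ l, ((a l * N + b l : ℕ) : ℝ) ≤ z i ^ 2 with hc
  set T : ℕ → ℕ → ℝ := fun i N =>
    if c i N then (1 / (N : ℝ)) * |dens a b (z i) N - den1 (z i) N ^ k| else 0 with hT
  have hT0 : ∀ i N, 0 ≤ T i N := fun i N => by
    simp only [hT]
    split_ifs
    · positivity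
    · exact le_rfl
  have hTs : ∀ i ∈ Icc j0 (m + 2), ∑ N ∈ Icc 1 X, T i N ≤ ε / (4 * (m + 3)) * L := fun i hi => by
    rw [← sum_filter]
    refine hX (z i) ?_
    rw [Real.rpow_def_of_pos hX0, Real.exp_le_exp, ← hLd, hum]
    have : (j0 : ℝ) ≤ i := by exact_mod_cast (mem_Icc.1 hi).1
    have e : u * m * ((1 - δ) * j0 / m) = (1 - δ) * j0 * u := by field_simp
    rw [e]
    gcongr
  set M := ⌊Real.exp (j0 * u)⌋₊ with hM
  have key : ∀ N ∈ Icc 1 X, (1 / (N : ℝ)) * |dens a b (y N) N - ρ ^ k| ≤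
      ∑ i ∈ Icc j0 (m + 2), T i N + 3 / j0 * k * (1 / (N : ℝ)) +
        if N ≤ M then 1 / (N : ℝ) else 0 := fun N hN => by
    obtain ⟨hN1, hNX⟩ := mem_Icc.1 hN
    have hN0 : (0 : ℝ) < N := by exact_mod_cast hN1
    have s0 : 0 ≤ ∑ i ∈ Icc j0 (m + 2), T i N := sum_nonneg fun i _ => hT0 i N
    have s1 : 0 ≤ 3 / (j0 : ℝ) * k * (1 / (N : ℝ)) := by positivity
    split_ifs with hNM
    · have d := dens_mem a b (y N) N
      have r := rho_mem h0 hδ
      have r1 : 0 ≤ ρ ^ k := pow_nonneg r.1 k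
      have r2 : ρ ^ k ≤ 1 := pow_le_one₀ r.1 r.2
      have : |dens a b (y N) N - ρ ^ k| ≤ 1 := abs_le.2 ⟨by linarith [d.1], by linarith [d.2]⟩
      have := mul_le_of_le_one_right (a := 1 / (N : ℝ)) (by positivity) this
      linarith
    · have hlo : j0 * u ≤ Real.log N := by
        rw [Real.le_log_iff_exp_le hN0]
        exact (Nat.floor_lt' (by omega)).1 (not_le.1 hNM) |>.le
      have hl0 : 0 ≤ Real.log N := Real.log_natCast_nonneg N
      set j := ⌊Real.log N / u⌋₊ with hj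
      have q1 : j * u ≤ Real.log N := by
        rw [← le_div_iff₀ hu0]; exact Nat.floor_le (by positivity)
      have q2 : Real.log N ≤ (j + 1) * u := by
        rw [← div_le_iff₀ hu0]; exact (Nat.lt_floor_add_one _).le
      have q3 : j0 ≤ j := Nat.le_floor (by rwa [le_div_iff₀ hu0])
      have q4 : j ≤ m := by
        refine Nat.floor_le_of_le ?_
        rw [div_le_iff₀' hu0, ← hum]
        exact Real.log_le_log hN0 (by exact_mod_cast hNX)
      have q5 : (j0 : ℝ) ≤ j := by exact_mod_cast q3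
      have main : ∀ i : ℕ, j ≤ i → i ≤ j + 2 → (1 / (N : ℝ)) * |dens a b (z i) N - ρ ^ k| ≤
          ∑ i ∈ Icc j0 (m + 2), T i N + 3 / j0 * k * (1 / (N : ℝ)) := fun i hi hi' => by
        obtain ⟨t1, t2⟩ := thr (j := j) (i := i) k hD h0 hδ hu1 (by linarith)
          (by nlinarith) (by nlinarith) (by exact_mod_cast hi) (by exact_mod_cast hi') hN1 q1 q2
        have hb : ∀ x : ℝ, 0 < x → x ≤ u → x * N ≤ z i ^ 2 := fun x hx hxu => by
          refine le_trans ?_ t1
          rw [← Real.log_le_iff_le_exp (by positivity), Real.log_mul hx.ne' hN0.ne']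
          have := Real.log_le_sub_one_of_pos hx
          linarith
        have hci : c i N := by
          refine ⟨by simpa using hb 1 one_pos hu1, fun l => ?_⟩
          have al : (1 : ℝ) ≤ a l := by exact_mod_cast ha l
          have bl : (0 : ℝ) ≤ b l := Nat.cast_nonneg _
          have n1 : (1 : ℝ) ≤ N := by exact_mod_cast hN1
          refine le_trans ?_ (hb (a l + b l) (by linarith) (by linarith [hSi l]))
          push_cast
          nlinarith
        have t3 : T i N ≤ ∑ i ∈ Icc j0 (m + 2), T i N :=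
          single_le_sum (f := fun i => T i N) (fun i _ => hT0 i N) (mem_Icc.2 ⟨by omega, by omega⟩)
        have t4 : T i N = (1 / (N : ℝ)) * |dens a b (z i) N - den1 (z i) N ^ k| := if_pos hci
        have t5 : 3 / (j : ℝ) * k ≤ 3 / j0 * k := by gcongr
        have t6 : |dens a b (z i) N - ρ ^ k| ≤
            |dens a b (z i) N - den1 (z i) N ^ k| + 3 / j0 * k :=
          (abs_sub_le _ (den1 (z i) N ^ k) _).trans (add_le_add le_rfl (t2.trans t5))
        have t7 := mul_le_mul_of_nonneg_left t6 (by positivity : 0 ≤ 1 / (N : ℝ))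
        rw [mul_add, ← t4] at t7
        linarith
      have y1 : z j ≤ y N := by
        refine le_trans ?_ (hy N hN1).1
        rw [Real.rpow_def_of_pos hN0, Real.exp_le_exp]
        nlinarith
      have y2 : y N ≤ z (j + 2) := by
        refine (hy N hN1).2.trans ?_
        rw [Real.rpow_def_of_pos (by positivity), Real.exp_le_exp,
          Real.log_mul (by positivity) hN0.ne']
        have := Real.log_le_sub_one_of_pos (by linarith : 0 < lam)
        have h3 : Real.log lam + Real.log N ≤ (j + 2) * u := by linarith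
        push_cast
        nlinarith
      have a1 := dens_anti a b y1 N
      have a2 := dens_anti a b y2 N
      rw [add_zero]
      rcases le_total (dens a b (y N) N) (ρ ^ k) with hle | hle
      · refine le_trans (mul_le_mul_of_nonneg_left ?_ (by positivity))
          (main (j + 2) (by omega) le_rfl)
        rw [abs_of_nonpos (by linarith), abs_of_nonpos (by linarith)]
        linarith
      · refine le_trans (mul_le_mul_of_nonneg_left ?_ (by positivity))
          (main j le_rfl (by omega))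
        rw [abs_of_nonneg (by linarith), abs_of_nonneg (by linarith)]
        linarith
  refine (sum_le_sum key).trans ?_
  rw [sum_add_distrib, sum_add_distrib, sum_comm, ← mul_sum, ← sum_filter]
  have b1 : ∑ i ∈ Icc j0 (m + 2), ∑ N ∈ Icc 1 X, T i N ≤ ε / 4 * L := by
    refine (sum_le_card_nsmul _ _ _ hTs).trans ?_
    have hcard : ((Icc j0 (m + 2)).card : ℝ) ≤ m + 3 := by
      rw [Nat.card_Icc]
      exact_mod_cast (by omega : m + 2 + 1 - j0 ≤ m + 3)
    have e : ε / 4 * L = (m + 3) * (ε / (4 * (m + 3)) * L) := by field_simp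
    rw [nsmul_eq_mul, e]
    gcongr
  have b2 : 3 / (j0 : ℝ) * k * ∑ N ∈ Icc 1 X, 1 / (N : ℝ) ≤ ε / 4 * L := by
    have c1 : 3 / (j0 : ℝ) * k ≤ ε / 8 := by
      rw [div_mul_eq_mul_div, div_le_div_iff₀ j4 (by norm_num)]
      linarith
    have c2 : ∑ N ∈ Icc 1 X, 1 / (N : ℝ) ≤ 2 * L := by linarith [IV.harm_le X]
    calc _ ≤ ε / 8 * (2 * L) :=
          mul_le_mul c1 c2 (sum_nonneg fun _ _ => by positivity) (by positivity)
      _ = ε / 4 * L := by ring
  have b3 : ∑ N ∈ (Icc 1 X).filter (fun N => N ≤ M), 1 / (N : ℝ) ≤ 1 + j0 * u := by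
    have hM1 : 1 ≤ M := Nat.le_floor (by
      rw [Nat.cast_one]; exact Real.one_le_exp (by positivity))
    refine (sum_le_sum_of_subset_of_nonneg (t := Icc 1 M) (fun N hN => ?_)
      fun _ _ _ => by positivity).trans ((IV.harm_le M).trans ?_)
    · exact mem_Icc.2 ⟨(mem_Icc.1 (mem_filter.1 hN).1).1, (mem_filter.1 hN).2⟩
    · have : Real.log M ≤ j0 * u := by
        rw [Real.log_le_iff_le_exp (by exact_mod_cast hM1)]
        exact Nat.floor_le (Real.exp_pos _).le
      linarith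
  have b4 : 1 ≤ ε / 4 * L := by
    rw [div_le_iff₀' hε] at hL4
    linarith
  have b5 : j0 * u ≤ ε / 4 * L := by
    rw [hum]
    nlinarith
  linarith

end Pool.Agent.P.MP_746f10_nt.LP
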