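import Pool.Agent.P.MP_746f10_nt.LP.St
import Pool.Agent.P.MP_a14ce1_nt.IV.Win
import Pool.Agent.P.MP_a14ce1_nt.V.Final

/-! The running mean on a grid. -/

open Finset Filter MeasureTheory
open scoped ComplexConjugate

namespace Pool.Agent.P.MP_746f10_nt.LP

open Pool.Agent.P.MP_a14ce1_nt
open Pool.Agent.P.MP_a14ce1_nt.Ch (CM rs om pr Fx pv)
open Pool.Agent.P.MP_a14ce1_nt.V (av cube PP)
open Pool.Agent.P.MP_a14ce1_nt.IV (Hull ESW App cell wa ws gn Ew pS)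
open Pool.Agent.P.MP_e30989_nt.W (UCM tw)

namespace CellP

theorem move {f : ℕ → ℂ} (hf : ∀ n, ‖f n‖ ≤ 1) {ρ : ℝ} (hρ : 1 ≤ ρ) {j m : ℕ} (hj : 1 ≤ j)
    (hm : m ∈ cell ρ j) : ‖av f m - av f ⌈(j : ℝ) * ρ⌉₊‖ ≤ 2 / j := by
  obtain ⟨b1, b2⟩ := IV.mem_cell.1 hm
  have c1 : (1 : ℝ) ≤ j := by exact_mod_cast hj
  have c2 : (1 : ℝ) ≤ m := by nlinarith
  refine (av_sub_le hf (Nat.ceil_le.2 b1) (by exact_mod_cast c2)).trans ?_
  have c3 := Nat.le_ceil ((j : ℝ) * ρ)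
  rw [div_le_div_iff₀ (by linarith) (by linarith)]
  nlinarith

theorem sq_le {a b : ℂ} (ha : ‖a‖ ≤ 1) (hb : ‖b‖ ≤ 1) : ‖a‖ ^ 2 ≤ ‖b‖ ^ 2 + 2 * ‖b - a‖ := by
  have h := norm_sub_norm_le a b
  rw [norm_sub_rev] at h
  nlinarith [norm_nonneg a, norm_nonneg b, norm_nonneg (b - a)]

theorem gn_le {z u v : ℂ} (hz : ‖z‖ ≤ 1) (hu : ‖u‖ ≤ 1) (hv : ‖v‖ ≤ 1) :
    gn z u ≤ gn z v + 4 * ‖u - v‖ := by
  rw [IV.gn_eq, IV.gn_eq]
  have h1 := norm_sub_le z u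
  have h2 := norm_sub_le z v
  have h3 : ‖z - v‖ ≤ ‖z - u‖ + ‖u - v‖ := norm_sub_le_norm_sub_add_norm_sub z u v
  nlinarith [norm_nonneg (z - u), norm_nonneg (z - v), norm_nonneg (u - v)]

theorem sq_Ico (J : ℕ) : ∑ j ∈ Ico 1 J, (1 / (j : ℝ)) * (1 / (j : ℝ)) ≤ 2 :=
  (sum_le_sum_of_subset_of_nonneg Ico_subset_Icc_self fun _ _ _ => by positivity).trans
    (V.Final.sq_Icc J)

theorem step {f : ℕ → ℂ} (hf : ∀ n, ‖f n‖ ≤ 1) (n : ℕ) :
    ‖av f (n + 1)‖ ^ 2 / (n + 1 : ℕ) + (‖av f (n + 1)‖ ^ 2 - ‖av f n‖ ^ 2) -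
      4 * (1 / ((n + 1 : ℕ) : ℝ) * (1 / ((n + 1 : ℕ) : ℝ))) ≤
      gn (f (n + 1)) (av f (n + 1)) / (n + 1 : ℕ) := by
  have e1 : f (n + 1) = av f (n + 1) + n * (av f (n + 1) - av f n) := by
    have h1 := mul_av f (n + 1)
    rw [sum_Icc_succ_top (by omega), ← mul_av] at h1
    push_cast at h1
    linear_combination -h1
  have h2 := av_sub_le hf (Nat.le_succ n) (Nat.succ_le_succ (Nat.zero_le n))
  have h3 := sq_le (V.norm_av_le hf (n + 1)) (V.norm_av_le hf n)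
  rw [norm_sub_rev] at h3
  set a := av f (n + 1)
  set b := av f n
  have e2 : gn (f (n + 1)) a = ‖a‖ ^ 2 + n * (‖a‖ ^ 2 - ‖b‖ ^ 2 + ‖a - b‖ ^ 2) := by
    rw [e1]
    simp only [gn, ← Complex.normSq_eq_norm_sq, Complex.normSq_apply, Complex.mul_re,
      Complex.mul_im, Complex.add_re, Complex.add_im, Complex.sub_re, Complex.sub_im,
      Complex.conj_re, Complex.conj_im, Complex.natCast_re, Complex.natCast_im]
    ring
  have h0 : (0 : ℝ) < (n : ℝ) + 1 := by positivity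
  rw [e2]
  push_cast at h2 ⊢
  rw [add_sub_cancel_left, mul_one] at h2
  have h4 : ‖a‖ ^ 2 - ‖b‖ ^ 2 ≤ 4 * (1 / ((n : ℝ) + 1)) := by
    have : 2 / ((n : ℝ) + 1) = 2 * (1 / ((n : ℝ) + 1)) := by ring
    linarith
  have h5 : 0 ≤ (n : ℝ) * ‖a - b‖ ^ 2 := by positivity
  rw [le_div_iff₀ h0]
  have e3 : (‖a‖ ^ 2 / ((n : ℝ) + 1) + (‖a‖ ^ 2 - ‖b‖ ^ 2) -
      4 * (1 / ((n : ℝ) + 1) * (1 / ((n : ℝ) + 1)))) * (n + 1) =
      ‖a‖ ^ 2 + (n + 1) * (‖a‖ ^ 2 - ‖b‖ ^ 2) - 4 * (1 / ((n : ℝ) + 1)) := by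
    field_simp
  rw [e3]
  linarith

theorem tele {f : ℕ → ℂ} (hf : ∀ n, ‖f n‖ ≤ 1) (X : ℕ) :
    en f X + ‖av f X‖ ^ 2 - 4 * ∑ n ∈ Icc 1 X, (1 / (n : ℝ)) * (1 / (n : ℝ)) ≤
      ∑ n ∈ Icc 1 X, gn (f n) (av f n) / n := by
  induction X with
  | zero => simp [en, av]
  | succ n ih =>
    have := step hf n
    unfold en at ih ⊢
    rw [sum_Icc_succ_top (by omega), sum_Icc_succ_top (by omega), sum_Icc_succ_top (by omega)]
    linarith

end CellP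

open CellP

theorem cellc (hC : IV.S_Conv) : S_Cell := by
  intro f ρ J X hf hρ hJ
  have h0 : 0 < ρ := by linarith
  have hX := Real.log_natCast_nonneg X
  have hen : ∑ m ∈ Ico ⌈ρ⌉₊ ⌈(J : ℝ) * ρ⌉₊, ‖av f m‖ ^ 2 / m ≤ en f X := by
    refine sum_le_sum_of_subset_of_nonneg (fun m hm => ?_) fun _ _ _ => by positivity
    obtain ⟨b1, b2⟩ := mem_Ico.1 hm
    exact mem_Icc.2 ⟨(Nat.one_le_ceil_iff.2 h0).trans b1, b2.le.trans (Nat.ceil_le.2 hJ)⟩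
  rcases Nat.eq_zero_or_pos J with rfl | hJ0
  · have : 0 ≤ en f X := sum_nonneg fun _ _ => by positivity
    have : 0 ≤ (1 + Real.log X) / ρ := by positivity
    simp only [Ico_eq_empty_of_le (Nat.zero_le _), sum_empty]
    linarith
  have hb : ∀ m, ‖av f m‖ ^ 2 ≤ 1 := fun m =>
    pow_le_one₀ (norm_nonneg _) (V.norm_av_le hf m)
  have a1 := (abs_le.1 (hC ρ 1 J (fun m => ‖av f m‖ ^ 2) hρ hJ0 fun m => by
    rw [abs_of_nonneg (sq_nonneg _)]; exact hb m)).2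
  have a2 : ∀ j ∈ Ico 1 J, (1 / (j : ℝ)) * ‖av f ⌈(j : ℝ) * ρ⌉₊‖ ^ 2 ≤
      (1 / (j : ℝ)) * wa ρ j (fun m => ‖av f m‖ ^ 2) + 8 * ((1 / (j : ℝ)) * (1 / (j : ℝ))) +
        1 / ρ * (1 / (j : ℝ)) := fun j hj => by
    have hj1 := (mem_Ico.1 hj).1
    have b1 := IV.WinP.wa_le hρ (b := 4 * (1 / (j : ℝ))) (by positivity) (j := j)
      (φ := fun _ => ‖av f ⌈(j : ℝ) * ρ⌉₊‖ ^ 2) (ψ := fun m => ‖av f m‖ ^ 2) fun m hm => by
        have c1 := move hf hρ hj1 hm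
        have c2 := sq_le (V.norm_av_le hf ⌈(j : ℝ) * ρ⌉₊) (V.norm_av_le hf m)
        have : 2 / (j : ℝ) = 2 * (1 / (j : ℝ)) := by ring
        linarith
    have b2 : ‖av f ⌈(j : ℝ) * ρ⌉₊‖ ^ 2 - 1 / ρ ≤ wa ρ j fun _ => ‖av f ⌈(j : ℝ) * ρ⌉₊‖ ^ 2 := by
      have c1 := IV.le_card_cell h0.le j
      have c2 := hb ⌈(j : ℝ) * ρ⌉₊
      simp only [wa, smul_eq_mul, sum_const, nsmul_eq_mul]
      rw [one_div_mul_eq_div, le_div_iff₀ h0, sub_mul, one_div_mul_cancel h0.ne']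
      nlinarith [sq_nonneg ‖av f ⌈(j : ℝ) * ρ⌉₊‖]
    have b3 : (0 : ℝ) ≤ 1 / j := by positivity
    nlinarith
  have a3 := sum_le_sum a2
  rw [sum_add_distrib, sum_add_distrib, ← mul_sum, ← mul_sum] at a3
  have a4 := sq_Ico J
  have a5 : ∑ j ∈ Ico 1 J, 1 / (j : ℝ) ≤ 1 + Real.log X :=
    ((sum_le_sum_of_subset_of_nonneg Ico_subset_Icc_self fun _ _ _ => by positivity).trans
      (IV.harm_le J)).trans (by linarith [IV.WinP.J_le hρ hJ])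
  have a6 : 1 / ρ * ∑ j ∈ Ico 1 J, 1 / (j : ℝ) ≤ (1 + Real.log X) / ρ := by
    rw [one_div_mul_eq_div]
    exact div_le_div_of_nonneg_right a5 h0.le
  unfold ws at a1
  linarith

theorem base (hC : IV.S_Conv) : S_Base := by
  intro f h X hf h1 h2
  have hρ : (1 : ℝ) ≤ h := by exact_mod_cast h1
  have hJ : 1 ≤ X / h := (Nat.one_le_div_iff (by omega)).2 h2
  have hJ1 : X / h * h ≤ X := Nat.div_mul_le_self X h
  have hJ2 : X ≤ 2 * (X / h * h) := by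
    have := Nat.lt_div_mul_add (a := X) (show 0 < h by omega)
    have : h ≤ X / h * h := Nat.le_mul_of_pos_left h hJ
    omega
  have ec : ∀ j : ℕ, ⌈(j : ℝ) * h⌉₊ = j * h := fun j => by
    rw [← Nat.cast_mul, Nat.ceil_natCast]
  have a1 := (abs_le.1 (hC h 3 (X / h) (fun m => gn (f m) (av f m)) hρ hJ fun m =>
    IV.WinP.abs_gn (hf m) (V.norm_av_le hf m))).1
  rw [ec, Nat.ceil_natCast] at a1
  have a2 : ∀ j ∈ Ico 1 (X / h), (1 / (j : ℝ)) * wa (h : ℝ) j (fun m => gn (f m) (av f m)) ≤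
      (1 / (j : ℝ)) * wa (h : ℝ) j (fun m => gn (f m) (av f (j * h))) +
        16 * ((1 / (j : ℝ)) * (1 / (j : ℝ))) := fun j hj => by
    have hj1 := (mem_Ico.1 hj).1
    have b1 := IV.WinP.wa_le hρ (b := 8 * (1 / (j : ℝ))) (by positivity) (j := j)
      (φ := fun m => gn (f m) (av f m)) (ψ := fun m => gn (f m) (av f (j * h))) fun m hm => by
        have c1 := move hf hρ hj1 hm
        rw [ec] at c1
        have c2 := gn_le (hf m) (V.norm_av_le hf m) (V.norm_av_le hf (j * h))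
        have : 2 / (j : ℝ) = 2 * (1 / (j : ℝ)) := by ring
        linarith
    have b3 : (0 : ℝ) ≤ 1 / j := by positivity
    nlinarith
  have a3 := sum_le_sum a2
  rw [sum_add_distrib, ← mul_sum] at a3
  have a4 := sq_Ico (X / h)
  have a5 := IV.WinP.cut (ψ := fun m => gn (f m) (av f m)) (fun m => IV.WinP.gn_le _ (hf m))
    (a := h) (b := X / h * h) (X := X) h1 (Nat.le_mul_of_pos_left h hJ) hJ1
  have a6 := tele hf X
  have a7 := V.Final.sq_Icc X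
  have b1 : Real.log (h - 1 : ℕ) ≤ Real.log h := by
    rcases Nat.eq_zero_or_pos (h - 1) with e | e
    · rw [e]; simpa using Real.log_natCast_nonneg h
    · exact Real.log_le_log (by exact_mod_cast e) (by exact_mod_cast Nat.sub_le h 1)
  have b2 : Real.log X ≤ 1 + Real.log (X / h * h : ℕ) := by
    have c0 : (0 : ℝ) < (X / h * h : ℕ) := by exact_mod_cast Nat.mul_pos hJ h1
    have c1 : Real.log X ≤ Real.log (2 * (X / h * h : ℕ)) :=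
      Real.log_le_log (by exact_mod_cast (show 0 < X by omega)) (by exact_mod_cast hJ2)
    rw [Real.log_mul two_ne_zero c0.ne'] at c1
    linarith [Real.log_two_lt_d9]
  unfold ws at a1 ⊢
  nlinarith [sq_nonneg ‖av f X‖]

end Pool.Agent.P.MP_746f10_nt.LP
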