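import Pool.Agent.P.MP_746f10_nt.LP.St

/-!
Equidistribution in residue classes of functions equal to one at the small primes.
-/

open Finset Filter MeasureTheory
open scoped ComplexConjugate

namespace Pool.Agent.P.MP_746f10_nt.LP

open Pool.Agent.P.MP_a14ce1_nt
open Pool.Agent.P.MP_a14ce1_nt.Ch (CM rs om pr Fx pv)
open Pool.Agent.P.MP_a14ce1_nt.V (av cube PP)

namespace ClsP

/-- the number of elements of one residue class -/
theorem count1 (m k N : ℕ) (hm : 0 < m) :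
    |((((Icc 1 N).filter fun n => n ≡ k [MOD m]).card : ℕ) : ℝ) - (N : ℝ) / m| ≤ 1 := by
  have e : Icc 1 N = Ioc 0 N := by ext n; simp only [mem_Icc, mem_Ioc]; omega
  have h := Nat.Ioc_filter_modEq_card 0 N hm k
  have hq : (0 : ℚ) < m := by exact_mod_cast hm
  have hN : (0 : ℚ) ≤ (N : ℚ) / m := by positivity
  have e1 : ((N : ℚ) - k) / m = (((0 : ℕ) : ℚ) - k) / m + N / m := by push_cast; ring
  have a1 := Int.floor_le (((N : ℚ) - k) / m)
  have a2 := Int.lt_floor_add_one (((N : ℚ) - k) / m)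
  have a3 := Int.floor_le ((((0 : ℕ) : ℚ) - k) / m)
  have a4 := Int.lt_floor_add_one ((((0 : ℕ) : ℚ) - k) / m)
  have a5 : ⌊(((0 : ℕ) : ℚ) - k) / m⌋ ≤ ⌊((N : ℚ) - k) / m⌋ := Int.floor_mono (by linarith)
  rw [max_eq_left (by linarith)] at h
  have h' : ((((Ioc 0 N).filter fun n => n ≡ k [MOD m]).card : ℕ) : ℚ) =
      (⌊((N : ℚ) - k) / m⌋ : ℚ) - (⌊(((0 : ℕ) : ℚ) - k) / m⌋ : ℚ) := by exact_mod_cast h
  have h2 : |((((Ioc 0 N).filter fun n => n ≡ k [MOD m]).card : ℕ) : ℚ) - (N : ℚ) / m| ≤ 1 := by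
    rw [h', abs_le]
    constructor <;> linarith
  rw [e]
  have h3 := (Rat.cast_le (K := ℝ)).2 h2
  push_cast at h3
  exact h3

/-- the number of multiples of d in a residue class -/
theorem count2 (b c d N : ℕ) (hb : 0 < b) (hd : 0 < d) (hbd : Nat.Coprime b d) :
    |((((Icc 1 N).filter fun n => n ≡ c [MOD b] ∧ d ∣ n).card : ℕ) : ℝ) - (N : ℝ) / (b * d)| ≤ 1 := by
  have h := count1 (b * d) (Nat.chineseRemainder hbd c 0 : ℕ) N (Nat.mul_pos hb hd)
  have hk := (Nat.chineseRemainder hbd c 0).prop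
  have e : ((Icc 1 N).filter fun n => n ≡ c [MOD b] ∧ d ∣ n) =
      (Icc 1 N).filter fun n => n ≡ (Nat.chineseRemainder hbd c 0 : ℕ) [MOD b * d] := by
    refine filter_congr fun n _ => ?_
    rw [← Nat.modEq_and_modEq_iff_modEq_mul hbd, ← Nat.modEq_zero_iff_dvd]
    exact ⟨fun H => ⟨H.1.trans hk.1.symm, H.2.trans hk.2.symm⟩,
      fun H => ⟨H.1.trans hk.1, H.2.trans hk.2⟩⟩
  rw [e]
  simpa using h

/-- exchange of the two sums -/
theorem swap (g h : ℕ → ℂ) (hg : ∀ n, n ≠ 0 → g n = ∑ d ∈ n.divisors, h d) (b c N : ℕ) :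
    ∑ n ∈ (Icc 1 N).filter (fun n => n ≡ c [MOD b]), g n =
      ∑ d ∈ Icc 1 N, h d * ((((Icc 1 N).filter fun n => n ≡ c [MOD b] ∧ d ∣ n).card : ℕ) : ℂ) := by
  have h1 : ∀ n ∈ (Icc 1 N).filter (fun n => n ≡ c [MOD b]),
      g n = ∑ d ∈ Icc 1 N, if d ∣ n then h d else 0 := fun n hn => by
    have hn' := mem_Icc.1 (mem_filter.1 hn).1
    rw [hg n (by omega), ← sum_filter]
    refine sum_congr ?_ fun _ _ => rfl
    ext d
    simp only [Nat.mem_divisors, mem_filter, mem_Icc]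
    constructor
    · intro H
      have := Nat.le_of_dvd (by omega) H.1
      exact ⟨⟨Nat.pos_of_dvd_of_pos H.1 (by omega), by omega⟩, H.1⟩
    · intro H
      exact ⟨H.2, by omega⟩
  rw [sum_congr rfl h1, sum_comm]
  refine sum_congr rfl fun d _ => ?_
  rw [← sum_filter, filter_filter, sum_const, nsmul_eq_mul, mul_comm]

/-- the error in terms of the sum of the norms of h -/
theorem diff (g h : ℕ → ℂ) (hg : ∀ n, n ≠ 0 → g n = ∑ d ∈ n.divisors, h d) (b c N : ℕ)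
    (hb : 0 < b) (hh : ∀ d, ¬ Nat.Coprime b d → h d = 0) :
    ‖∑ n ∈ (Icc 1 N).filter (fun n => n ≡ c [MOD b]), g n - (N : ℂ) / b * av g N‖ ≤
      ∑ d ∈ Icc 1 N, 2 * ‖h d‖ := by
  have h1 := swap g h hg 1 0 N
  rw [filter_true_of_mem fun n _ => Nat.modEq_one] at h1
  have e : (N : ℂ) / b * av g N = (1 / (b : ℂ)) * ((N : ℂ) * av g N) := by ring
  rw [e, mul_av, h1, swap g h hg b c N, mul_sum, ← sum_sub_distrib]
  refine (norm_sum_le _ _).trans (sum_le_sum fun d hd => ?_)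
  by_cases hc : Nat.Coprime b d
  · have hd0 : 0 < d := (mem_Icc.1 hd).1
    have a1 := count2 b c d N hb hd0 hc
    have a2 := count2 1 0 d N Nat.one_pos hd0 (Nat.coprime_one_left d)
    set u := ((Icc 1 N).filter fun n => n ≡ c [MOD b] ∧ d ∣ n).card
    set v := ((Icc 1 N).filter fun n => n ≡ 0 [MOD 1] ∧ d ∣ n).card
    have e2 : h d * (u : ℂ) - 1 / (b : ℂ) * (h d * (v : ℂ)) =
        h d * (((u : ℝ) - 1 / (b : ℝ) * v : ℝ) : ℂ) := by push_cast; ring
    rw [e2, norm_mul, Complex.norm_real, Real.norm_eq_abs, mul_comm]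
    refine mul_le_mul_of_nonneg_right ?_ (norm_nonneg _)
    have hb1 : (1 : ℝ) ≤ b := by exact_mod_cast hb
    have hi0 : (0 : ℝ) ≤ 1 / (b : ℝ) := by positivity
    have hi1 : 1 / (b : ℝ) ≤ 1 := by rw [div_le_one (by linarith)]; exact hb1
    have e3 : (u : ℝ) - 1 / (b : ℝ) * v = ((u : ℝ) - (N : ℝ) / (b * d)) -
        1 / (b : ℝ) * ((v : ℝ) - (N : ℝ) / (((1 : ℕ) : ℝ) * d)) := by
      have : (d : ℝ) ≠ 0 := by positivity
      push_cast; field_simp; ring
    rw [e3]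
    refine (abs_sub _ _).trans ?_
    rw [abs_mul, abs_of_nonneg hi0]
    nlinarith [abs_nonneg ((v : ℝ) - (N : ℝ) / (((1 : ℕ) : ℝ) * d))]
  · simp [hh d hc]

/-- the sum of the norms of h -/
theorem sumh (h : ℕ → ℂ) (y N : ℕ) (B : ℝ) (h1 : h 1 = 1)
    (h0 : ∀ d, ¬ Nat.Coprime d (primorial y) → h d = 0) (hB : ∀ d ∈ Icc 1 N, ‖h d‖ ≤ B) :
    ∑ d ∈ Icc 1 N, 2 * ‖h d‖ ≤
      2 + 2 * B * (((Ioc 1 N).filter fun d => Nat.Coprime d (primorial y)).card : ℝ) := by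
  rcases Nat.eq_zero_or_pos N with rfl | hN
  · simp
  rw [← Ioc_insert_left hN, sum_insert (by simp), h1, norm_one, mul_one,
    ← sum_filter_add_sum_filter_not (Ioc 1 N) fun d => Nat.Coprime d (primorial y)]
  have a1 : ∑ d ∈ (Ioc 1 N).filter (fun d => ¬ Nat.Coprime d (primorial y)), 2 * ‖h d‖ = 0 :=
    sum_eq_zero fun d hd => by simp [h0 d (mem_filter.1 hd).2]
  have a2 := sum_le_card_nsmul ((Ioc 1 N).filter fun d => Nat.Coprime d (primorial y))
    (fun d => 2 * ‖h d‖) (2 * B) fun d hd => by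
      have := mem_Ioc.1 (mem_filter.1 hd).1
      have := hB d (mem_Icc.2 ⟨by omega, this.2⟩)
      linarith
  rw [nsmul_eq_mul] at a2
  rw [a1]
  linarith

end ClsP

theorem cls (h1 : S_RC) (h2 : S_Conv) : S_Cls := by
  intro η K hη
  obtain ⟨C, y0, hC, hRC⟩ := h1
  obtain ⟨L, hL⟩ := exists_nat_ge ((K : ℝ) / η)
  refine ⟨2 * 2 ^ (2 * L) * C * (2 / η), by positivity, ?_⟩
  have t1 : Tendsto (fun X : ℕ => (X : ℝ) ^ η) atTop atTop :=
    (tendsto_rpow_atTop hη).comp tendsto_natCast_atTop_atTop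
  filter_upwards [t1.eventually_ge_atTop ((max y0 2 : ℕ) : ℝ), eventually_ge_atTop 2]
    with X hX hX2 g hg ht b c N hb hbX hN
  have hz0 : (0 : ℝ) ≤ (X : ℝ) ^ η := by positivity
  set y := ⌊(X : ℝ) ^ η⌋₊ with hy
  have hy1 : max y0 2 ≤ y := Nat.le_floor hX
  have hy2 : 2 ≤ y := (le_max_right _ _).trans hy1
  have hy2' : (2 : ℝ) ≤ y := by exact_mod_cast hy2
  have hz1 : (X : ℝ) ^ η ≤ (y : ℝ) ^ 2 := by
    have := Nat.lt_floor_add_one ((X : ℝ) ^ η)
    rw [← hy] at this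
    nlinarith
  have hX1 : (1 : ℝ) < X := by exact_mod_cast hX2
  have hlX : 0 < Real.log X := Real.log_pos hX1
  have hly : 0 < Real.log y := Real.log_pos (by linarith)
  have hlog : η * Real.log X ≤ 2 * Real.log y := by
    have := Real.log_le_log (Real.rpow_pos_of_pos (by linarith) η) hz1
    rwa [Real.log_rpow (by linarith), Real.log_pow, Nat.cast_ofNat] at this
  have hpow : X ^ K ≤ y ^ (2 * L) := by
    have a1 : (X : ℝ) ^ K ≤ ((X : ℝ) ^ η) ^ L := by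
      rw [← Real.rpow_natCast, ← Real.rpow_natCast, ← Real.rpow_mul (by linarith)]
      refine Real.rpow_le_rpow_of_exponent_le hX1.le ?_
      rwa [div_le_iff₀' hη] at hL
    have a2 : ((X : ℝ) ^ η) ^ L ≤ ((y : ℝ) ^ 2) ^ L := pow_le_pow_left₀ hz0 hz1 L
    rw [← pow_mul] at a2
    exact_mod_cast a1.trans a2
  obtain ⟨h, e1, e2, e3, e4⟩ := h2 y g hy2 hg (ht.mono (Nat.floor_le hz0))
  have hby : b ≤ y := Nat.le_floor hbX
  have hh : ∀ d, ¬ Nat.Coprime b d → h d = 0 := fun d hd => by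
    refine e3 d fun hc => hd ?_
    refine Nat.Coprime.symm (Nat.coprime_of_dvd fun p hp hpd hpb => ?_)
    have a1 : p ∣ primorial y := hp.dvd_primorial_iff.2 ((Nat.le_of_dvd hb hpb).trans hby)
    exact hp.one_lt.ne' (Nat.eq_one_of_dvd_coprimes hc hpd a1)
  have a1 := ClsP.diff g h e2 b c N hb hh
  have a2 := ClsP.sumh h y N (2 ^ (2 * L)) e1 e3 fun d hd =>
    e4 d (2 * L) (by have := (mem_Icc.1 hd).1; omega) ((mem_Icc.1 hd).2.trans (hN.trans hpow))
  have a3 := hRC y ((le_max_left _ _).trans hy1) N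
  have a4 : C * N / Real.log y ≤ C * (2 / η) * N / Real.log X := by
    rw [div_le_div_iff₀ hly hlX]
    have a5 : Real.log X ≤ 2 / η * Real.log y := by
      rw [div_mul_eq_mul_div, le_div_iff₀' hη]
      exact hlog
    have a6 : (0 : ℝ) ≤ C * N := by positivity
    calc C * N * Real.log X ≤ C * N * (2 / η * Real.log y) := mul_le_mul_of_nonneg_left a5 a6
      _ = _ := by ring
  have a7 := mul_le_mul_of_nonneg_left (a3.trans a4) (show (0 : ℝ) ≤ 2 * 2 ^ (2 * L) by positivity)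
  have e5 : 2 * 2 ^ (2 * L) * C * (2 / η) * N / Real.log X =
      2 * 2 ^ (2 * L) * (C * (2 / η) * N / Real.log X) := by ring
  rw [e5]
  linarith

end Pool.Agent.P.MP_746f10_nt.LP
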