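import Pool.Agent.P.MP_746f10_nt.LP.St

/-! The Moebius transform of a completely multiplicative function which is one at small primes. -/

open Finset Filter MeasureTheory
open scoped ComplexConjugate

namespace Pool.Agent.P.MP_746f10_nt.LP

open Pool.Agent.P.MP_a14ce1_nt
open Pool.Agent.P.MP_a14ce1_nt.Ch (CM)

namespace ConvP

/-- the arithmetic function with the values of g -/
noncomputable def ar (g : ℕ → ℂ) : ArithmeticFunction ℂ :=
  ⟨fun n => if n = 0 then 0 else g n, if_pos rfl⟩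

theorem ar_apply (g : ℕ → ℂ) {n : ℕ} (hn : n ≠ 0) : ar g n = g n := if_neg hn

/-- the Moebius transform -/
noncomputable def mt (g : ℕ → ℂ) : ArithmeticFunction ℂ :=
  (ArithmeticFunction.moebius : ArithmeticFunction ℂ) * ar g

theorem mt_mult {g : ℕ → ℂ} (hg : CM g) (h1 : g 1 = 1) : (mt g).IsMultiplicative := by
  refine ArithmeticFunction.isMultiplicative_moebius.intCast.mul ?_
  refine ArithmeticFunction.IsMultiplicative.iff_ne_zero.2 ⟨(ar_apply g one_ne_zero).trans h1, ?_⟩
  intro m n hm hn _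
  rw [ar_apply g hm, ar_apply g hn, ar_apply g (mul_ne_zero hm hn), hg.mul m n hm hn]

theorem sum_mt (g : ℕ → ℂ) {n : ℕ} (hn : n ≠ 0) : g n = ∑ d ∈ n.divisors, mt g d := by
  rw [← ArithmeticFunction.coe_zeta_mul_apply, mt, ← mul_assoc,
    ArithmeticFunction.coe_zeta_mul_coe_moebius, one_mul, ar_apply g hn]

theorem mt_pow (g : ℕ → ℂ) {p : ℕ} (hp : p.Prime) (k : ℕ) :
    mt g (p ^ (k + 1)) = g (p ^ (k + 1)) - g (p ^ k) := by
  rw [sum_mt g (pow_ne_zero (k + 1) hp.ne_zero), sum_mt g (pow_ne_zero k hp.ne_zero),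
    Nat.sum_divisors_prime_pow hp, Nat.sum_divisors_prime_pow hp, sum_range_succ _ (k + 1)]
  ring

theorem mt_prod {g : ℕ → ℂ} (hg : CM g) (h1 : g 1 = 1) {d : ℕ} (hd : d ≠ 0) :
    mt g d = ∏ p ∈ d.primeFactors,
      (g (p ^ d.factorization p) - g (p ^ (d.factorization p - 1))) := by
  rw [(mt_mult hg h1).multiplicative_factorization _ hd, Finsupp.prod, Nat.support_factorization]
  refine prod_congr rfl fun p hp => ?_
  have h := Nat.mem_primeFactors.1 hp
  have h2 := h.1.factorization_pos_of_dvd hd h.2.1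
  have h3 := mt_pow g h.1 (d.factorization p - 1)
  rwa [Nat.sub_add_cancel h2] at h3

end ConvP

open ConvP in
theorem conv : S_Conv := by
  intro y g hy hg ht
  have h1 : g 1 = 1 := cm_one_eq hg two_ne_zero (ht 2 Nat.prime_two (by exact_mod_cast hy))
  have hz : ∀ d, ¬ Nat.Coprime d (primorial y) → mt g d = 0 := by
    intro d hd
    by_cases h0 : d = 0
    · rw [h0, ArithmeticFunction.map_zero]
    obtain ⟨p, hp, hpd, hpy⟩ := Nat.Prime.not_coprime_iff_dvd.1 hd
    have h2 : ∀ k, g (p ^ k) = 1 := fun k =>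
      eq_one_of_primes hg h1 (pow_ne_zero k hp.ne_zero) fun q hq hqp => by
        rw [(Nat.prime_dvd_prime_iff_eq hq hp).1 (hq.dvd_of_dvd_pow hqp)]
        exact ht p hp (by exact_mod_cast hp.dvd_primorial_iff.1 hpy)
    rw [mt_prod hg h1 h0]
    exact prod_eq_zero (Nat.mem_primeFactors.2 ⟨hp, hpd, h0⟩) (by rw [h2, h2, sub_self])
  refine ⟨mt g, (mt_mult hg h1).map_one, fun n hn => sum_mt g hn, hz, fun d K h0 hK => ?_⟩
  by_cases hd : Nat.Coprime d (primorial y)
  swap
  · rw [hz d hd, norm_zero]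
    positivity
  have h2 : y ^ d.primeFactors.card ≤ y ^ K := by
    refine le_trans ?_ ((Nat.le_of_dvd (Nat.pos_of_ne_zero h0) (Nat.prod_primeFactors_dvd d)).trans hK)
    refine pow_card_le_prod _ _ _ fun p hp => ?_
    have h := Nat.mem_primeFactors.1 hp
    by_contra c
    exact Nat.Prime.not_coprime_iff_dvd.2
      ⟨p, h.1, h.2.1, h.1.dvd_primorial_iff.2 (not_le.1 c).le⟩ hd
  have h3 : d.primeFactors.card ≤ K := (Nat.pow_le_pow_iff_right hy).1 h2
  rw [mt_prod hg h1 h0, norm_prod]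
  refine le_trans ?_ (pow_le_pow_right₀ one_le_two h3)
  rw [← prod_const]
  refine prod_le_prod (fun _ _ => norm_nonneg _) fun p _ => (norm_sub_le _ _).trans ?_
  linarith [hg.bd (p ^ d.factorization p), hg.bd (p ^ (d.factorization p - 1))]

end Pool.Agent.P.MP_746f10_nt.LP
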