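import Pool.Agent.P.MP_746f10_nt.LP.St
import Pool.Agent.P.MP_a14ce1_nt.IV.TiltA

/-! The tilted step, centred: the inequality without parameters. -/

open Finset Filter MeasureTheory
open scoped ComplexConjugate

namespace Pool.Agent.P.MP_746f10_nt.LP

open Pool.Agent.P.MP_a14ce1_nt
open Pool.Agent.P.MP_a14ce1_nt.Ch (CM rs om pr Fx pv)
open Pool.Agent.P.MP_a14ce1_nt.V (av cube PP)
open Pool.Agent.P.MP_a14ce1_nt.IV (Hull ESW App cell wa ws gn Ew pS)
open Pool.Agent.P.MP_e30989_nt.W (UCM tw)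

namespace CoreP

theorem point {z μ u w : ℂ} {τ : ℝ} (hτ : 0 < τ) (hz : ‖z‖ ≤ 1) (hμ : ‖μ‖ ≤ 1) :
    gn z u ≤ (‖μ‖ ^ 2 + 4 * τ) + 2 * ((z - μ) * conj w).re + 1 / τ * ‖u - w‖ ^ 2 := by
  have h1 : z * conj u = μ * conj u + (z - μ) * conj w + (z - μ) * conj (u - w) := by
    rw [map_sub]; ring
  have h2 : ((z - μ) * conj (u - w)).re ≤ 2 * ‖u - w‖ := by
    refine (Complex.re_le_norm _).trans ?_
    rw [norm_mul, RCLike.norm_conj]
    exact mul_le_mul_of_nonneg_right (by linarith [norm_sub_le z μ]) (norm_nonneg _)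
  have h3 : 4 * ‖u - w‖ ≤ 4 * τ + 1 / τ * ‖u - w‖ ^ 2 := by
    have : 0 ≤ 1 / τ * (‖u - w‖ - 2 * τ) ^ 2 := by positivity
    have e : 1 / τ * (‖u - w‖ - 2 * τ) ^ 2 =
      1 / τ * ‖u - w‖ ^ 2 - 4 * ‖u - w‖ + 4 * τ := by field_simp; ring
    linarith
  have h4 : (μ * conj u).re ≤ ‖μ‖ * ‖u‖ := by
    refine (Complex.re_le_norm _).trans ?_
    rw [norm_mul, RCLike.norm_conj]
  rw [gn, h1, Complex.add_re, Complex.add_re]
  nlinarith [sq_nonneg (‖μ‖ - ‖u‖)]

theorem wa_lin {ρ Pm s τ : ℝ} (hP : 2 ≤ Pm) (hρ : Pm ≤ ρ) (j : ℕ) {φ ψ χ : ℕ → ℝ} {y z : ℝ}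
    (hs : 0 ≤ s) (hs1 : s ≤ 1) (hτ : 0 ≤ τ)
    (h : ∀ m ∈ cell ρ j, φ m ≤ (s + 4 * τ) + y * ψ m + z * χ m) :
    wa ρ j φ ≤ (s + (8 * τ + 1 / Pm)) + y * wa ρ j ψ + z * wa ρ j χ := by
  have h0 : 0 < ρ := by linarith
  have h1 := sum_le_sum h
  rw [sum_add_distrib, sum_add_distrib, ← mul_sum, ← mul_sum, sum_const, nsmul_eq_mul] at h1
  have h4 : 1 ≤ ρ * (1 / Pm) := by
    rw [mul_one_div, le_div_iff₀ (by linarith)]; linarith
  have h2 : ((cell ρ j).card : ℝ) * (s + 4 * τ) ≤ ρ * (s + (8 * τ + 1 / Pm)) := by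
    refine (mul_le_mul_of_nonneg_right (IV.card_cell_le h0.le j) (by linarith)).trans ?_
    nlinarith
  simp only [wa, smul_eq_mul]
  have h3 := mul_le_mul_of_nonneg_left (h1.trans (add_le_add_left (add_le_add_left h2 _) _))
    (one_div_pos.2 h0).le
  refine h3.trans (le_of_eq ?_)
  field_simp

end CoreP

open IV (loc Gr dst Up Ep loc_mem mem_cell) in
open IV.TiltP (Ew_le Ew_add Ew_mul Ew_re Ew_ws wa_re harm_Ico ud ud_mem ud_eq) in
theorem core (hW1 : IV.S_W1) (hW2 : IV.S_W2) (hE : IV.S_Ew) : S_Core := by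
  intro XX hX f hf ι _ _ P X J l0 R ρ Pm τ e η Q H Ψ Ψ1 cT μ hrs hP hPm hτ hQ hΨ hΨ1 hJ hJX hμ ha0
    hη hES hL
  have ha : ∀ a ∈ Fintype.piFinset P, 1 ≤ R / pS univ a ∧ R / pS univ a ≤ 1 / Pm * ρ ∧
      J * (R / pS univ a) ≤ X ∧ X ≤ 2 * Pm * (J * (R / pS univ a)) ∧ R / pS univ a ≤ H :=
    fun a h => ⟨by linarith [(ha0 a h).1], (ha0 a h).2⟩
  obtain ⟨E1, -, E3, -⟩ := hE ι P hrs
  have t0 : 0 < 1 / Pm := by positivity
  have t1 : 1 / Pm ≤ 1 / 2 := one_div_le_one_div_of_le two_pos hPm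
  have pos : ∀ a ∈ Fintype.piFinset P, ∀ S, 0 < pS S a := fun a ha S =>
    prod_pos fun k _ => (hP k _ (Fintype.mem_piFinset.1 ha k)).1
  let F : ℕ → (ι → ℕ) → ℕ → ℂ := fun j a =>
    ud XX (pS univ a) fun m => f (pS univ a) * loc XX Ψ1 (R / pS univ a) j m
  let G : ℕ → ι → (ι → ℕ) → ℕ → ℂ := fun j k a => ud XX (pS (univ.erase k) a) fun m =>
    f (pS (univ.erase k) a) * loc XX Ψ (R / pS (univ.erase k) a) j m
  have hG : ∀ j k a p, G j k (Function.update a k p) = G j k a := fun j k a p => by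
    have : pS (univ.erase k) (Function.update a k p) = pS (univ.erase k) a :=
      prod_congr rfl fun i hi => Function.update_of_ne (ne_of_mem_erase hi) _ _
    simp only [G, this]
  choose M M1 M2 M3 using fun j => hES j (F j) (G j) (fun a => ud_mem hX _ _)
    (fun k a => ud_mem hX _ _) (hG j)
  have eF : ∀ j, ∀ a ∈ Fintype.piFinset P, ∀ m, F j a (pS univ a * m) =
      f (pS univ a) * loc XX Ψ1 (R / pS univ a) j m := fun j a ha m =>
    ud_eq hX (pos a ha _) (hX.sc _ (loc_mem hX _ _ _) _ (hf.1.bd _)) m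
  have A1 : Real.log X - dst X f Ψ1 -
      30 * (1 / Pm * (1 + Real.log X) + Real.log H + Real.log (2 * Pm) + 1) ≤
      Ew P fun a => ws (R / pS univ a) J fun j m => gn (f m) (loc XX Ψ1 (R / pS univ a) j m) := by
    rw [← E1 ℝ (Real.log X - _ - _)]
    refine Ew_le fun a h => ?_
    obtain ⟨a1, a2, a3, a4, a5⟩ := ha a h
    refine le_trans ?_ (hW1 XX hX f Ψ1 ρ _ _ _ X J hf hΨ1 a1 a2 t0 t1 hJ a3 a4)
    linarith [Real.log_le_log (by linarith) a5]
  have A2 : ∀ k, ∑ j ∈ Ico 1 J, (1 / (j : ℝ)) * Ew P (fun a => wa (R / pS univ a) j fun m =>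
      ‖F j a (pS univ a * m) - G j k a (pS univ a * m)‖ ^ 2) ≤
      2 * η + 32 * (1 / Pm) * (1 + Real.log X) := fun k => by
    rw [← Ew_ws (fun a => R / pS univ a) J fun a j m =>
      ‖F j a (pS univ a * m) - G j k a (pS univ a * m)‖ ^ 2]
    refine le_trans (Ew_le (Ψ := fun a => 2 * dst X Ψ1 (Up f (a k) Ψ) +
      32 * (1 / Pm) * (1 + Real.log X)) fun a h => ?_) ?_
    · obtain ⟨a1, a2, a3, -, -⟩ := ha a h
      obtain ⟨p0, p1, -⟩ := hP k _ (Fintype.mem_piFinset.1 h k)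
      have c0 := pos a h (univ.erase k)
      have e1 : pS univ a = pS (univ.erase k) a * a k := (prod_erase_mul _ _ (mem_univ k)).symm
      have e2 : R / pS (univ.erase k) a = a k * (R / pS univ a) := by
        have : (a k : ℝ) ≠ 0 := by exact_mod_cast p0.ne'
        have : (pS (univ.erase k) a : ℝ) ≠ 0 := by exact_mod_cast c0.ne'
        rw [e1]; push_cast; field_simp
      refine le_trans (le_of_eq ?_) (hW2 XX hX f Ψ Ψ1 _ ρ _ _ X J (a k) hf hΨ hΨ1 a1 a2 ?_ t0 t1 p0 a3)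
      · congr 1
        ext j m
        have e3 : G j k a (pS univ a * m) =
            f (pS (univ.erase k) a) * loc XX Ψ (R / pS (univ.erase k) a) j (a k * m) := by
          rw [e1, mul_assoc]
          exact ud_eq hX c0 (hX.sc _ (loc_mem hX _ _ _) _ (hf.1.bd _)) _
        have n1 := hf.2 _ c0.ne'
        have n2 := hf.2 _ p0.ne'
        have n3 : f (a k) * conj (f (a k)) = 1 := by
          rw [Complex.mul_conj, Complex.normSq_eq_norm_sq, n2]; simp
        have e4 : F j a (pS univ a * m) - G j k a (pS univ a * m) =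
            f (pS (univ.erase k) a) * f (a k) * (loc XX Ψ1 (R / pS univ a) j m -
              conj (f (a k)) * loc XX Ψ (a k * (R / pS univ a)) j (a k * m)) := by
          rw [eF j a h, e3, e2, ← hf.1.mul _ _ c0.ne' p0.ne', ← e1, mul_sub, e1,
            hf.1.mul _ _ c0.ne' p0.ne', ← e1]
          linear_combination (f (pS (univ.erase k) a) *
            loc XX Ψ (a k * (R / pS univ a)) j (a k * m)) * n3
        rw [e4, norm_mul, norm_mul, n1, n2, one_mul, one_mul]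
      · calc _ ≤ Pm * (1 / Pm * ρ) := mul_le_mul p1 a2 (by linarith) (by linarith)
          _ = 1 / Pm * (ρ * Pm) := by ring
          _ ≤ _ := by
            have : 0 ≤ ρ := by
              by_contra q
              nlinarith
            gcongr
            nlinarith
    · rw [Ew_add, Ew_mul, E1, E3 k fun p => dst X Ψ1 (Up f p Ψ)]
      linarith [hη k]
  have A3 : ∀ j ∈ Ico 1 J, Ew P (fun a => wa (R / pS univ a) j fun m =>
      gn (f m) (loc XX Ψ1 (R / pS univ a) j m)) ≤ (‖μ j‖ ^ 2 + (8 * τ + 1 / Pm)) +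
      2 * ‖Ew P fun a => wa (R / pS univ a) j fun m =>
        (f (pS univ a * m) - μ j) * conj (∑ T, cT T * M j T a (pS univ a * m))‖ +
      1 / τ * ((∑ k, Ew P fun a => wa (R / pS univ a) j fun m =>
        ‖F j a (pS univ a * m) - G j k a (pS univ a * m)‖ ^ 2) / (l0 + 1) + 1 / Q) := by
    intro j hj
    refine le_trans (Ew_le fun a h => CoreP.wa_lin hPm (ha0 a h).1 j (sq_nonneg ‖μ j‖)
      (pow_le_one₀ (norm_nonneg _) (hμ j)) hτ.le (y := 2) (z := 1 / τ)
      (ψ := fun m => ((f (pS univ a * m) - μ j) * conj (∑ T, cT T * M j T a (pS univ a * m))).re)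
      (χ := fun m => ‖F j a (pS univ a * m) - ∑ T, cT T * M j T a (pS univ a * m)‖ ^ 2)
      fun m hm => ?_) ?_
    · have m0 : m ≠ 0 := by
        rintro rfl
        have h1 := (mem_cell.1 hm).1
        have h2 : (1 : ℝ) ≤ j := by exact_mod_cast (mem_Ico.1 hj).1
        have h3 := (ha a h).1
        push_cast at h1
        nlinarith
      have f1 := (pS_eq_one hf (fun k p hp => ⟨(hP k p hp).1, (hP k p hp).2.2⟩) h univ).2
      rw [eF j a h, hf.1.mul _ _ (pos a h _).ne' m0, f1, one_mul, one_mul]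
      exact CoreP.point hτ (hf.1.bd _) (hμ j)
    · rw [Ew_add, Ew_add, E1, Ew_mul, Ew_mul]
      simp only [← wa_re]
      rw [← Ew_re]
      exact add_le_add (add_le_add le_rfl (mul_le_mul_of_nonneg_left (Complex.re_le_norm _)
        zero_le_two)) (mul_le_mul_of_nonneg_left (M3 j) (by positivity))
  rw [Ew_ws (fun a => R / pS univ a) J fun a j m => gn (f m) (loc XX Ψ1 (R / pS univ a) j m)] at A1
  refine A1.trans ((sum_le_sum fun j hj => mul_le_mul_of_nonneg_left (A3 j hj)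
    (by positivity)).trans ?_)
  have B1 := harm_Ico hJX
  have B2 := hL M M1 M2
  have B3 := sum_le_sum fun k (_ : k ∈ univ) => A2 k
  rw [sum_comm, sum_const, card_univ, nsmul_eq_mul] at B3
  simp only [← mul_sum] at B3
  have e : ∀ x s y z : ℝ, x * (s + (8 * τ + 1 / Pm) + 2 * y + 1 / τ * (z / (l0 + 1) + 1 / Q)) =
      x * s + (8 * τ + 1 / Pm) * x + 2 * (x * y) +
        1 / τ * (1 / (l0 + 1) * (x * z) + 1 / Q * x) := fun x s y z => by ring
  simp only [e, sum_add_distrib, ← mul_sum]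
  rw [div_eq_inv_mul (Fintype.card ι * _ : ℝ), ← one_div]
  gcongr

end Pool.Agent.P.MP_746f10_nt.LP
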