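import Pool.Agent.P.MP_746f10_nt.LP.St
import Pool.Agent.P.MP_a14ce1_nt.Ch.Mertens

/-! The proportion of integers with a prime factor beyond the square root. -/

open Finset Filter MeasureTheory
open scoped ComplexConjugate

namespace Pool.Agent.P.MP_746f10_nt.LP

open Pool.Agent.P.MP_a14ce1_nt
open Pool.Agent.P.MP_a14ce1_nt.Ch.Mertens

namespace DenP

open Classical in
theorem count {y : ℝ} {N : ℕ} (hy : 2 ≤ y) (hN : (N : ℝ) ≤ y ^ 2) :
    ((Icc 1 N).filter (big y)).card = ∑ p ∈ (Ioc ⌊y⌋₊ N).filter Nat.Prime, N / p := by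
  have hy0 : 0 ≤ y := by linarith
  have e : (Icc 1 N).filter (big y) =
      ((Ioc ⌊y⌋₊ N).filter Nat.Prime).biUnion fun p => (Ioc 0 N).filter (p ∣ ·) := by
    ext n
    simp only [mem_filter, mem_biUnion, mem_Icc, mem_Ioc, big]
    constructor
    · rintro ⟨⟨h1, h2⟩, p, hp, hd, hlt⟩
      exact ⟨p, ⟨⟨(Nat.floor_lt hy0).2 hlt, (Nat.le_of_dvd h1 hd).trans h2⟩, hp⟩, ⟨h1, h2⟩, hd⟩
    · rintro ⟨p, ⟨⟨h1, -⟩, hp⟩, h2, hd⟩
      exact ⟨h2, p, hp, hd, (Nat.floor_lt hy0).1 h1⟩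
  rw [e, card_biUnion]
  · exact sum_congr rfl fun p _ => Nat.Ioc_filter_dvd_card_eq_div N p
  · intro p hp q hq hpq
    rw [mem_coe, mem_filter, mem_Ioc] at hp hq
    refine disjoint_left.2 fun n h1 h2 => ?_
    rw [mem_filter, mem_Ioc] at h1 h2
    have h3 := Nat.le_of_dvd h1.1.1
      (((Nat.coprime_primes hp.2 hq.2).2 hpq).mul_dvd_of_dvd_of_dvd h1.2 h2.2)
    have h4 : ((p * q : ℕ) : ℝ) ≤ N := by exact_mod_cast h3.trans h1.1.2
    have h5 := (Nat.floor_lt hy0).1 hp.1.1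
    have h6 := (Nat.floor_lt hy0).1 hq.1.1
    push_cast at h4
    nlinarith

theorem card_le {a N : ℕ} (hN : 2 ≤ N) :
    (((Ioc a N).filter Nat.Prime).card : ℝ) ≤ 6 * N / Real.log N := by
  have hN' : (2 : ℝ) ≤ N := by exact_mod_cast hN
  have h1 := Chebyshev.pi_le_log4_mul_div (x := N) (by linarith)
  rw [Nat.floor_natCast, Real.log_sqrt (by linarith)] at h1
  have h2 : ((Ioc a N).filter Nat.Prime).card ≤ Nat.primeCounting N := by
    rw [Nat.primeCounting, ← Nat.primesBelow_card_eq_primeCounting']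
    refine card_le_card fun p hp => ?_
    rw [mem_filter, mem_Ioc] at hp
    exact Nat.mem_primesBelow.2 ⟨Nat.lt_succ_of_le hp.1.2, hp.2⟩
  have hL : 0 < Real.log N := Real.log_pos (by linarith)
  have h4 : Real.log 4 ≤ 2 := by
    have : Real.log 4 = 2 * Real.log 2 := by
      rw [show (4 : ℝ) = 2 ^ 2 by norm_num, Real.log_pow]; norm_num
    linarith [Real.log_two_lt_d9]
  have hs : 0 < √(N : ℝ) := Real.sqrt_pos.2 (by linarith)
  have h5 : Real.log N ≤ 2 * √(N : ℝ) := by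
    have := Real.log_le_sub_one_of_pos hs
    rw [Real.log_sqrt (by linarith)] at this
    linarith
  have h6 : √(N : ℝ) ≤ 2 * N / Real.log N := by
    rw [le_div_iff₀ hL]
    nlinarith [Real.mul_self_sqrt (show (0 : ℝ) ≤ N by linarith)]
  have h7 : Real.log 4 * N / (Real.log N / 2) ≤ 4 * N / Real.log N := by
    rw [div_div_eq_mul_div]
    exact div_le_div_of_nonneg_right (by nlinarith) hL.le
  have h8 : (((Ioc a N).filter Nat.Prime).card : ℝ) ≤ Nat.primeCounting N := by exact_mod_cast h2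
  have e : 6 * (N : ℝ) / Real.log N = 4 * N / Real.log N + 2 * N / Real.log N := by ring
  linarith

theorem near {y : ℝ} {N : ℕ} (hy : 2 ≤ y) (hN2 : 2 ≤ N) (hN : (N : ℝ) ≤ y ^ 2) :
    |den1 y N - S ⌊y⌋₊ N| ≤ 6 / Real.log N := by
  have hN0 : (0 : ℝ) < N := by exact_mod_cast (by omega : 0 < N)
  have h1 : den1 y N - S ⌊y⌋₊ N =
      (∑ p ∈ (Ioc ⌊y⌋₊ N).filter Nat.Prime, (((N / p : ℕ) : ℝ) - N / p)) / N := by
    rw [den1, count hy hN, S, Nat.cast_sum, sum_sub_distrib, sub_div,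
      sum_div _ (fun p : ℕ => (N : ℝ) / p)]
    congr 1
    exact sum_congr rfl fun p _ => by field_simp
  have h2 : |∑ p ∈ (Ioc ⌊y⌋₊ N).filter Nat.Prime, (((N / p : ℕ) : ℝ) - N / p)| ≤
      ((Ioc ⌊y⌋₊ N).filter Nat.Prime).card := by
    refine (abs_sum_le_sum_abs _ _).trans ((sum_le_card_nsmul _ _ 1 fun p _ => ?_).trans (by simp))
    rw [← Nat.floor_div_eq_div (K := ℝ), abs_sub_comm, abs_of_nonneg (sub_nonneg.2
      (Nat.floor_le (by positivity)))]
    linarith [Nat.lt_floor_add_one ((N : ℝ) / p)]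
  rw [h1, abs_div, abs_of_pos hN0, div_le_iff₀ hN0]
  refine h2.trans ((card_le hN2).trans (le_of_eq ?_))
  ring

end DenP

theorem den : S_Den := by
  obtain ⟨C, hC0, hC⟩ := mertens_nat
  refine ⟨6 * C + 10, by linarith, fun y N hy hyN hN => ?_⟩
  have ha : 2 ≤ ⌊y⌋₊ := Nat.le_floor (by simpa using hy)
  have hab : ⌊y⌋₊ ≤ N := by
    have := Nat.floor_le_floor hyN
    rwa [Nat.floor_natCast] at this
  have ha' : (2 : ℝ) ≤ ⌊y⌋₊ := by exact_mod_cast ha
  have h0 := DenP.near hy (ha.trans hab) hN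
  have h1 := S_bound hC ha _ hab
  have h2 := log_floor (y := y) (by linarith)
  have h3 : Real.log y ≤ Real.log ⌊y⌋₊ * 2 := by
    have h4 : y ≤ (⌊y⌋₊ : ℝ) ^ 2 := by nlinarith [Nat.lt_floor_add_one y]
    have h5 := Real.log_le_log (by linarith) h4
    rw [Real.log_pow] at h5
    push_cast at h5
    linarith
  have h4 : Real.log y ≤ Real.log N := Real.log_le_log (by linarith) hyN
  have h5 := hC _ (show 1 ≤ ⌊y⌋₊ by omega)
  have h6 := hC N (by omega)
  have hLa : 0 < Real.log ⌊y⌋₊ := Real.log_pos (by linarith)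
  generalize Real.log ⌊y⌋₊ = La at *
  generalize Real.log y = Ly at *
  generalize Real.log N = LN at *
  have hLy : 0 < Ly := by linarith [h2.1]
  have hLN : 0 < LN := by linarith
  have i1 : 1 / LN ≤ 1 / Ly := one_div_le_one_div_of_le hLy h4
  have i2 : 1 / La ≤ 2 * (1 / Ly) := by
    rw [mul_one_div, div_le_div_iff₀ hLa hLy]; linarith
  have i0 : 0 < 1 / LN := by positivity
  have q1 : |(A N - LN) / LN| ≤ C * (1 / LN) := by
    rw [abs_div, abs_of_pos hLN, mul_one_div]; exact div_le_div_of_nonneg_right h6 hLN.le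
  have q2 : |(A ⌊y⌋₊ - La) / La| ≤ C * (1 / La) := by
    rw [abs_div, abs_of_pos hLa, mul_one_div]; exact div_le_div_of_nonneg_right h5 hLa.le
  have q3 : Real.log La ≤ Real.log Ly := Real.log_le_log hLa h2.1
  have q4 : Real.log Ly - Real.log La ≤ 1 / La := by
    have := Real.log_le_sub_one_of_pos (x := Ly / La) (by positivity)
    rw [Real.log_div hLy.ne' hLa.ne'] at this
    have e : Ly / La - 1 = (Ly - La) / La := by field_simp
    have : (Ly - La) / La ≤ 1 / La := div_le_div_of_nonneg_right (by linarith [h2.2]) hLa.le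
    linarith
  have e1 : 6 / LN = 6 * (1 / LN) := by ring
  have e2 : (6 * C + 10) / Ly = (6 * C + 10) * (1 / Ly) := by ring
  have j1 := mul_le_mul_of_nonneg_left i1 hC0.le
  have j2 := mul_le_mul_of_nonneg_left i2 hC0.le
  have j0 := mul_pos hC0 i0
  rw [Real.log_div hLN.ne' hLy.ne', e2]
  rw [e1] at h0
  rw [abs_le] at h0 h1 q1 q2 ⊢
  constructor <;> nlinarith [h0.1, h0.2, h1.1, h1.2, q1.1, q1.2, q2.1, q2.2]

end Pool.Agent.P.MP_746f10_nt.LP
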