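import Pool.Agent.P.MP_746f10_nt.LP.St
import Pool.Agent.P.MP_a14ce1_nt.IV.End

/-! The last step, centred. -/

open Finset Filter MeasureTheory
open scoped ComplexConjugate

namespace Pool.Agent.P.MP_746f10_nt.LP

open Pool.Agent.P.MP_a14ce1_nt
open Pool.Agent.P.MP_a14ce1_nt.Ch (rs om)
open Pool.Agent.P.MP_a14ce1_nt.IV (cell wa Ew pS le_card_cell card_cell_le harm_le)
open Pool.Agent.P.MP_e30989_nt.W (UCM)

open IV.EndP in
theorem endc (hE : IV.S_Ew) (hM : S_Maj) : S_End := by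
  rintro AA ⟨C, hC⟩
  refine ⟨2 * C + 2, fun ι _ _ δ ε lam hδ hε hlam => ?_⟩
  set B : ℝ := max 1 ((1 + 1 / δ) / δ / lam) ^ Fintype.card ι with hBd
  have hB : 0 < B := by positivity
  have hd : 0 < min δ 1 := lt_min hδ one_pos
  obtain ⟨W, Z0, hW, hZ⟩ := hC (ε / (16 * B ^ 2)) (by positivity) (2 * ⌈1 / δ / min δ 1⌉₊)
  filter_upwards [hM ι W δ (ε / 2) lam hW hδ (by positivity) hlam,
    eventually_ge_atTop 4, ((tendsto_rpow_atTop hd).comp
      tendsto_natCast_atTop_atTop).eventually_ge_atTop ((max Z0 2 : ℕ) : ℝ)] with X hX h4 hz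
  intro f hf htr P S S2 Λ e J μ ψ hdis hp' hrs hS ha hΛ hJ hψ he hμ hN
  have hp : ∀ k, ∀ p ∈ P k, p.Prime ∧ (X : ℝ) ^ δ < p := fun k p h =>
    ⟨(hp' k p h).1, (hp' k p h).2.1⟩
  have hP : ∀ k, 0 < rs (P k) := fun k => hlam.trans_le (hrs k)
  have hX4 : (4 : ℝ) ≤ X := by exact_mod_cast h4
  have hX0 : (0 : ℝ) < X := by linarith
  have hX1 : (1 : ℝ) ≤ X := by linarith
  have hlog : 1 ≤ Real.log X := by
    rw [Real.le_log_iff_exp_le hX0]
    linarith [Real.exp_one_lt_d9]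
  have hc : (1 : ℝ) ≤ (X : ℝ) ^ (2 * C) := one_le_pow₀ hX1
  have hΛ1 : (X : ℝ) ^ (2 * C) * X ^ 2 ≤ Λ := by
    obtain ⟨a, ha'⟩ : (Fintype.piFinset P).Nonempty := Fintype.piFinset_nonempty.2 fun k =>
      nonempty_iff_ne_empty.2 fun c => by simpa [c, rs] using hP k
    obtain ⟨k1, k2⟩ := ha a ha'
    have k3 : (1 : ℝ) ≤ pS S2 a := by exact_mod_cast (Nat.one_le_pow _ _ (by omega)).trans k1
    rw [← pow_add]
    exact (le_mul_of_one_le_left (by positivity) k3).trans k2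
  have hΛ2 : 4 * (X : ℝ) ≤ Λ := by nlinarith
  have hΛ0 : 0 < Λ := by linarith
  set z := ⌊(X : ℝ) ^ min δ 1⌋₊ with hzd
  have z1 : max Z0 2 ≤ z := Nat.le_floor hz
  have z2 : (z : ℝ) ≤ (X : ℝ) ^ min δ 1 := Nat.floor_le (by positivity)
  have z3 : z ≤ X ^ 2 := by
    have := z2.trans (Real.rpow_le_rpow_of_exponent_le hX1 (min_le_right _ _))
    rw [Real.rpow_one] at this
    exact le_trans (by exact_mod_cast this) (Nat.le_self_pow two_ne_zero X)
  set M2 := ⌊Λ / (X : ℝ) ^ (2 * C + 2)⌋₊ with hM2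
  have m1 : (M2 : ℝ) * (X : ℝ) ^ (2 * C + 2) ≤ Λ :=
    (le_div_iff₀ (by positivity)).1 (Nat.floor_le (by positivity))
  have m2 : (M2 : ℝ) ≤ Λ := (le_mul_of_one_le_right (by positivity) (one_le_pow₀ hX1)).trans m1
  have m3 : M2 ≤ z ^ (2 * ⌈1 / δ / min δ 1⌉₊) := by
    have k1 : (X : ℝ) ^ min δ 1 ≤ (z : ℝ) ^ 2 := by
      have k2 : (2 : ℝ) ≤ z := by exact_mod_cast (le_max_right _ _).trans z1
      nlinarith [Nat.lt_floor_add_one ((X : ℝ) ^ min δ 1)]
    have : (M2 : ℝ) ≤ (z : ℝ) ^ (2 * ⌈1 / δ / min δ 1⌉₊) := by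
      rw [pow_mul]
      refine (m2.trans hΛ).trans (le_trans ?_ (pow_le_pow_left₀ (by positivity) k1 _))
      rw [← Real.rpow_natCast, ← Real.rpow_mul hX0.le]
      exact Real.rpow_le_rpow_of_exponent_le hX1 ((div_le_iff₀' hd).1 (Nat.le_ceil _))
    exact_mod_cast this
  have hex : ∀ j : ℕ, ∃ (χ : ℤ → ℂ) (D : Finset ℤ), (∀ n, ‖χ n‖ ≤ 1) ∧ Nil.Maj W D χ ∧
      (D.card + 1) * (X : ℝ) ≤ Λ ∧ (j ∈ Ico 1 J → Nil.TII (Nil.roughs z (X ^ (2 * C + 2)) M2)
        ⌈(j : ℝ) * Λ⌉₊ (cell Λ j).card (fun n => ψ j n - χ n)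
        (ε / (16 * B ^ 2) * (cell Λ j).card)) := fun j => by
    by_cases hj : j ∈ Ico 1 J
    · have k1 := le_card_cell hΛ0.le j
      have k2 : (j : ℝ) + 1 ≤ X := by exact_mod_cast le_trans (mem_Ico.1 hj).2 hJ
      obtain ⟨χ, D, d1, d2, d3, d4⟩ := hZ (X ^ 2) z ⌈(j : ℝ) * Λ⌉₊ (cell Λ j).card
        (X ^ (2 * C + 2)) M2 ((le_max_left _ _).trans z1) z3
        (by rw [← pow_mul]; exact Nat.pow_le_pow_right (by omega) (by omega)) m3
        (by
          have : (M2 : ℝ) * ((X : ℝ) ^ 2) ^ C ≤ (cell Λ j).card := by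
            rw [pow_add, ← mul_assoc] at m1
            rw [← pow_mul]
            have k3 : (0 : ℝ) ≤ M2 * (X : ℝ) ^ (2 * C) := by positivity
            have k4 : (2 : ℝ) ≤ (X : ℝ) ^ 2 := by nlinarith
            nlinarith
          exact_mod_cast this)
        (Nat.ceil_le.2 (by
          push_cast
          calc (j : ℝ) * Λ ≤ X * (2 * (cell Λ j).card) :=
                mul_le_mul (by linarith) (by linarith) hΛ0.le hX0.le
            _ = X * 2 * (cell Λ j).card := by ring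
            _ ≤ X * X * (cell Λ j).card := by gcongr; linarith
            _ = _ := by ring)) (ψ j) (hψ j)
      refine ⟨χ, D, d1, d3, le_trans ?_ hΛ1, fun _ => d4⟩
      push_cast at d2
      rw [← pow_mul] at d2
      calc (D.card + 1) * (X : ℝ) ≤ ((X : ℝ) ^ (2 * C) * X) * X := by gcongr; nlinarith
        _ = _ := by ring
    · exact ⟨0, ∅, by simp, fun _ _ _ _ _ => rfl, by simpa using by linarith, fun c => (hj c).elim⟩
  choose χ D d1 d2 d3 d4 using hex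
  have h0 : ∀ a ∈ Fintype.piFinset P, ∀ S, 0 < pS S a := fun a ha S =>
    prod_pos fun k _ => (hp k _ (Fintype.mem_piFinset.1 ha k)).1.pos
  have hI : ∀ g, UCM g → ∀ j ∈ Ico 1 J, ‖Ew P fun a => wa (Λ / pS S a) j fun m =>
      g (pS S a * m) * conj (ψ j ((pS S a * m : ℕ) : ℤ) - χ j ((pS S a * m : ℕ) : ℤ))‖ ≤ ε / 8 :=
    fun g hg j hj => by
    have k2 : (j : ℝ) + 1 ≤ X := by exact_mod_cast le_trans (mem_Ico.1 hj).2 hJ
    refine (two hE hP hdis (fun k p h => (hp k p h).1) hS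
      (fun m h => (Nat.pow_pos (by omega)).trans_le (Nil.mem_roughs.1 h).1.1)
      (fun a h => Nil.mem_roughs.2 ⟨⟨(ha a h).1, Nat.le_floor ((le_div_iff₀ (by positivity)).2
        (ha a h).2)⟩, fun q hq hqz hd => ?_⟩) hΛ0 (mem_Ico.1 hj).1 (d4 j hj) hg hB
      (fun m h => le_trans (Nat.cast_le.2 (Nil.mem_roughs.1 h).1.2) m2)
      fun T u h1 h2 => nu_le hlam hrs T fun k => om_le (by linarith) hδ (hp k) h1 ?_).trans ?_
    · obtain ⟨k, -, hk⟩ := (hq.prime.dvd_finsetProd_iff _).1 hd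
      obtain ⟨k1, k3⟩ := hp k _ (Fintype.mem_piFinset.1 h k)
      rw [← (Nat.prime_dvd_prime_iff_eq hq k1).1 hk] at k3
      have k4 : (q : ℝ) ≤ z := by exact_mod_cast hqz
      linarith [Real.rpow_le_rpow_of_exponent_le hX1 (min_le_left δ 1)]
    · rw [Real.rpow_add hX0, Real.rpow_one]
      exact h2.le.trans (by gcongr)
    · rw [div_le_iff₀ hΛ0, ← mul_assoc, show B ^ 2 * (ε / (16 * B ^ 2)) = ε / 16 by field_simp]
      nlinarith [card_cell_le hΛ0.le j]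
  have hII : ∀ j ∈ Ico 1 J, ‖Ew P fun a => wa (Λ / pS S a) j fun m => (f (pS S a * m) - μ j) *
      conj (ψ j ((pS S a * m : ℕ) : ℤ) - χ j ((pS S a * m : ℕ) : ℤ))‖ ≤ ε / 4 := fun j hj => by
    have k1 := hI f hf j hj
    have k2 := hI _ ucm_one j hj
    have k3 := mul_le_mul (hμ j) k2 (norm_nonneg _) zero_le_one
    rw [← norm_mul] at k3
    refine le_trans (le_of_eq ?_) ((norm_sub_le_of_le k1 k3).trans (by linarith))
    congr 1
    simp only [Ew, wa, Complex.real_smul, mul_sum, ← sum_sub_distrib]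
    exact sum_congr rfl fun _ _ => sum_congr rfl fun _ _ => by ring
  have h1 := hX f hf htr P S Λ e J μ χ D hdis hp' hrs hΛ hJ d1 d2 d3 he hμ hN
  have h2 : ∑ j ∈ Ico 1 J, 1 / (j : ℝ) ≤ 2 * Real.log X :=
    (sum_le_sum_of_subset_of_nonneg (fun j hj => mem_Icc.2 ⟨(mem_Ico.1 hj).1,
      (mem_Ico.1 hj).2.le.trans hJ⟩) fun _ _ _ => by positivity).trans
      ((harm_le X).trans (by linarith))
  calc _ ≤ ∑ j ∈ Ico 1 J, ((1 / (j : ℝ)) * ‖wa Λ j fun n =>
        (f n - μ j) * ((∏ k ∈ S, om (P k) n / rs (P k) : ℝ) : ℂ) * conj (χ j n)‖ +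
          1 / (j : ℝ) * (ε / 4)) := by
        refine sum_le_sum fun j hj => ?_
        rw [← mul_add]
        refine mul_le_mul_of_nonneg_left (le_trans (le_of_eq ?_)
          (norm_add_le_of_le le_rfl (hII j hj))) (by positivity)
        have e1 : (fun n : ℕ => (f n - μ j) * ((∏ k ∈ S, om (P k) n / rs (P k) : ℝ) : ℂ) *
            conj (χ j n)) = fun n : ℕ => nu P S n • ((f n - μ j) * conj (χ j n)) :=
          funext fun n => by
          rw [Complex.real_smul, nu]; ring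
        rw [e1, ← key h0 ((hE ι P hP).2.2.2 hdis (fun k p h => (hp k p h).1) S)]
        simp only [Ew, wa, ← sum_add_distrib, ← smul_add, ← mul_add, map_sub, add_sub_cancel]
    _ ≤ (ε / 2 + 16 * e) * Real.log X + 2 * Real.log X * (ε / 4) := by
        rw [sum_add_distrib, ← sum_mul]
        gcongr
    _ = _ := by ring

end Pool.Agent.P.MP_746f10_nt.LP
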