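import Pool.Agent.P.MP_746f10_nt.LP.St

/-! F4: from the statement on blocks to the target, by splitting into classes modulo W. -/

open Finset Filter MeasureTheory
open scoped ComplexConjugate

namespace Pool.Agent.P.MP_746f10_nt.LP

namespace FinP

theorem sq_le (Y : ℕ) : ∑ m ∈ Icc 1 Y, (1 / (m : ℝ)) * (1 / (m : ℝ)) ≤ 2 := by
  have h := sum_Ioo_inv_sq_le (α := ℝ) 0 (Y + 1)
  have e : Ioo 0 (Y + 1) = Icc 1 Y := by ext m; simp only [mem_Ioo, mem_Icc]; omega
  rw [e] at h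
  refine le_trans (le_of_eq (sum_congr rfl fun m _ => ?_)) (h.trans (by norm_num))
  rw [sq, mul_inv, one_div]

/-- counting on whole periods -/
theorem card_per (P : ℕ → Prop) [DecidablePred P] {W : ℕ} (hW : 0 < W) (M : ℕ) :
    ((Ico W (W * (M + 1))).filter P).card =
      ∑ c ∈ range W, ((Icc 1 M).filter fun m => P (W * m + c)).card := by
  rw [card_eq_sum_card_fiberwise (f := fun n => n % W) (t := range W)
    fun n _ => mem_coe.2 (mem_range.2 (Nat.mod_lt _ hW))]
  refine sum_congr rfl fun c hc => ?_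
  have hc' := mem_range.1 hc
  symm
  refine card_bij (fun m _ => W * m + c) ?_ ?_ ?_
  · intro m hm
    obtain ⟨h1, h2⟩ := mem_filter.1 hm
    obtain ⟨h3, h4⟩ := mem_Icc.1 h1
    refine mem_filter.2 ⟨mem_filter.2 ⟨mem_Ico.2 ⟨?_, ?_⟩, h2⟩, ?_⟩
    · nlinarith
    · nlinarith
    · rw [Nat.mul_add_mod, Nat.mod_eq_of_lt hc']
  · intro m _ m' _ e
    exact Nat.eq_of_mul_eq_mul_left hW (Nat.add_right_cancel e)
  · intro n hn
    obtain ⟨h1, h2⟩ := mem_filter.1 hn
    obtain ⟨h3, h4⟩ := mem_filter.1 h1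
    obtain ⟨h5, h6⟩ := mem_Ico.1 h3
    have e : W * (n / W) + c = n := by rw [← h2]; exact Nat.div_add_mod n W
    refine ⟨n / W, mem_filter.2 ⟨mem_Icc.2 ⟨Nat.div_pos h5 hW, ?_⟩, by rwa [e]⟩, e⟩
    exact Nat.lt_succ_iff.1 (Nat.div_lt_of_lt_mul h6)

theorem card_near (P : ℕ → Prop) [DecidablePred P] {W : ℕ} (hW : 0 < W) (N : ℕ) :
    |(((Icc 1 N).filter P).card : ℝ) - ((Ico W (W * (N / W + 1))).filter P).card| ≤ W := by
  have e := Nat.div_add_mod N W
  have hr := Nat.mod_lt N hW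
  have h1 : (Icc 1 N).filter P ⊆ (Ico W (W * (N / W + 1))).filter P ∪ range W := by
    intro n hn
    obtain ⟨h1, h2⟩ := mem_filter.1 hn
    obtain ⟨h3, h4⟩ := mem_Icc.1 h1
    by_cases c : n < W
    · exact mem_union_right _ (mem_range.2 c)
    · refine mem_union_left _ (mem_filter.2 ⟨mem_Ico.2 ⟨not_lt.1 c, ?_⟩, h2⟩)
      rw [mul_add, mul_one]; omega
  have h2 : (Ico W (W * (N / W + 1))).filter P ⊆
      (Icc 1 N).filter P ∪ Ico (W * (N / W)) (W * (N / W) + W) := by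
    intro n hn
    obtain ⟨h1, h2⟩ := mem_filter.1 hn
    obtain ⟨h3, h4⟩ := mem_Ico.1 h1
    rw [mul_add, mul_one] at h4
    by_cases c : n ≤ N
    · exact mem_union_left _ (mem_filter.2 ⟨mem_Icc.2 ⟨by omega, c⟩, h2⟩)
    · exact mem_union_right _ (mem_Ico.2 ⟨by omega, h4⟩)
  have h3 := (card_le_card h1).trans (card_union_le _ _)
  have h4 := (card_le_card h2).trans (card_union_le _ _)
  rw [card_range] at h3
  rw [Nat.card_Ico, Nat.add_sub_cancel_left] at h4
  have h5 : (((Icc 1 N).filter P).card : ℝ) ≤ ((Ico W (W * (N / W + 1))).filter P).card + W := by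
    exact_mod_cast h3
  have h6 : (((Ico W (W * (N / W + 1))).filter P).card : ℝ) ≤ ((Icc 1 N).filter P).card + W := by
    exact_mod_cast h4
  rw [abs_le]
  constructor <;> linarith

/-- the real inequality for one value of N -/
theorem term_le {C : Finset ℕ} {d : ℕ → ℝ} {A ρ : ℝ} {W N : ℕ} (hW : 0 < W) (hN : 1 ≤ N)
    (hC : C.card ≤ W) (h0 : 0 ≤ ρ) (h1 : ρ ≤ 1)
    (hA : |A - ∑ c ∈ C, ((N / W : ℕ) : ℝ) * d c| ≤ W) :
    (1 / (N : ℝ)) * |A / N - (C.card : ℝ) / W * ρ| ≤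
      2 * W * ((1 / (N : ℝ)) * (1 / (N : ℝ))) +
        ∑ c ∈ C, (1 / ((N / W : ℕ) : ℝ)) * |d c - ρ| := by
  have e := Nat.div_add_mod N W
  have hr := Nat.mod_lt N hW
  have hM : N / W ≤ N := Nat.div_le_self _ _
  generalize N / W = M at *
  generalize N % W = r at *
  have hW' : (0 : ℝ) < W := by exact_mod_cast hW
  have hN' : (0 : ℝ) < N := by exact_mod_cast hN
  have e' : (W : ℝ) * M + r = N := by exact_mod_cast e
  have hr' : (r : ℝ) ≤ W := by exact_mod_cast hr.le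
  have hC' : (C.card : ℝ) ≤ W := by exact_mod_cast hC
  have hM' : (M : ℝ) ≤ N := by exact_mod_cast hM
  have e1 : A / N - (C.card : ℝ) / W * ρ = (A - ∑ c ∈ C, (M : ℝ) * d c) / N +
      ∑ c ∈ C, (M : ℝ) / N * (d c - ρ) - (C.card : ℝ) / W * ρ * r / N := by
    rw [← mul_sum, ← mul_sum, sum_sub_distrib, sum_const, nsmul_eq_mul]
    field_simp
    rw [← e']
    ring
  have b1 : |(A - ∑ c ∈ C, (M : ℝ) * d c) / N| ≤ W / N := by
    rw [abs_div, abs_of_pos hN']
    exact div_le_div_of_nonneg_right hA hN'.le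
  have b2 : |∑ c ∈ C, (M : ℝ) / N * (d c - ρ)| ≤ ∑ c ∈ C, (M : ℝ) / N * |d c - ρ| := by
    refine (abs_sum_le_sum_abs _ _).trans (le_of_eq (sum_congr rfl fun c _ => ?_))
    rw [abs_mul, abs_of_nonneg (by positivity : (0 : ℝ) ≤ (M : ℝ) / N)]
  have b3 : |(C.card : ℝ) / W * ρ * r / N| ≤ W / N := by
    rw [abs_of_nonneg (by positivity)]
    refine div_le_div_of_nonneg_right ?_ hN'.le
    have : (C.card : ℝ) / W ≤ 1 := (div_le_one hW').2 hC'
    have h2 : (C.card : ℝ) / W * ρ ≤ 1 := mul_le_one₀ this h0 h1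
    calc (C.card : ℝ) / W * ρ * r ≤ 1 * r := mul_le_mul_of_nonneg_right h2 (by positivity)
      _ ≤ W := by rw [one_mul]; exact hr'
  have b4 : |A / N - (C.card : ℝ) / W * ρ| ≤
      2 * W * (1 / (N : ℝ)) + ∑ c ∈ C, (M : ℝ) / N * |d c - ρ| := by
    rw [e1]
    refine (abs_sub _ _).trans ?_
    have := abs_add_le ((A - ∑ c ∈ C, (M : ℝ) * d c) / N) (∑ c ∈ C, (M : ℝ) / N * (d c - ρ))
    have e2 : 2 * W * (1 / (N : ℝ)) = W / N + W / N := by ring
    linarith
  refine (mul_le_mul_of_nonneg_left b4 (by positivity)).trans ?_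
  rw [mul_add, mul_sum]
  refine add_le_add (le_of_eq (by ring)) (sum_le_sum fun c _ => ?_)
  rw [← mul_assoc]
  refine mul_le_mul_of_nonneg_right ?_ (abs_nonneg _)
  rcases Nat.eq_zero_or_pos M with rfl | hM0
  · simp
  · have hM1 : (0 : ℝ) < M := by exact_mod_cast hM0
    have h2 : (M : ℝ) / N ≤ 1 := (div_le_one hN').2 hM'
    calc 1 / (N : ℝ) * ((M : ℝ) / N) ≤ 1 / (N : ℝ) * 1 :=
          mul_le_mul_of_nonneg_left h2 (by positivity)
      _ ≤ 1 / (M : ℝ) := by rw [mul_one]; exact one_div_le_one_div_of_le hM1 hM'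

/-- summation over quotient and remainder -/
theorem sum_divmod {g : ℕ → ℕ → ℝ} (hg : ∀ r M, 0 ≤ g r M) (h0 : ∀ r, g r 0 = 0) {W : ℕ}
    (hW : 0 < W) (X : ℕ) :
    ∑ N ∈ Icc 1 X, g (N % W) (N / W) ≤ ∑ r ∈ range W, ∑ M ∈ Icc 1 X, g r M := by
  have e : ∀ r, ∑ M ∈ Icc 1 X, g r M = ∑ M ∈ range (X + 1), g r M := fun r => by
    rw [range_eq_Ico, sum_eq_sum_Ico_succ_bot (Nat.succ_pos X), h0, zero_add]
    rfl
  simp only [e]
  rw [← sum_product']
  have inj : Set.InjOn (fun N => (N % W, N / W)) (Icc 1 X : Finset ℕ) := by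
    intro N _ N' _ h
    have h1 : N % W = N' % W := congrArg Prod.fst h
    have h2 : N / W = N' / W := congrArg Prod.snd h
    rw [← Nat.div_add_mod N W, ← Nat.div_add_mod N' W, h1, h2]
  rw [← sum_image (f := fun p : ℕ × ℕ => g p.1 p.2) inj]
  refine sum_le_sum_of_subset_of_nonneg (fun p hp => ?_) fun p _ _ => hg _ _
  obtain ⟨N, hN, rfl⟩ := mem_image.1 hp
  refine mem_product.2 ⟨mem_range.2 (Nat.mod_lt _ hW), mem_range.2 ?_⟩
  exact Nat.lt_succ_of_le ((Nat.div_le_self _ _).trans (mem_Icc.1 hN).2)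

theorem mul_dens {k : ℕ} (a b : Fin k → ℕ) (y : ℝ) (M : ℕ)
    [DecidablePred fun n => ∀ i, big y (a i * n + b i)] :
    (M : ℝ) * dens a b y M = ((Icc 1 M).filter fun n => ∀ i, big y (a i * n + b i)).card := by
  rcases Nat.eq_zero_or_pos M with rfl | hM
  · simp
  · have : (M : ℝ) ≠ 0 := by exact_mod_cast hM.ne'
    rw [dens, mul_div_cancel₀ _ this]
    congr

end FinP

open Classical in
theorem fin (h : S_Blk) : S_F := by
  intro k a b ha hab W hW δ hδ hδ'
  set ρ : ℝ := (-Real.log (1 - δ)) ^ k with hρ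
  have l0 : 0 ≤ -Real.log (1 - δ) := neg_nonneg.2 (Real.log_nonpos (by linarith) (by linarith))
  have l1 : -Real.log (1 - δ) ≤ 1 := by
    rw [← Real.log_inv]
    refine (Real.log_le_sub_one_of_pos (inv_pos.2 (by linarith))).trans ?_
    have : (1 - δ)⁻¹ ≤ 2 := by
      rw [inv_le_comm₀ (by linarith) two_pos]; linarith
    linarith
  have r0 : 0 ≤ ρ := pow_nonneg l0 _
  have r1 : ρ ≤ 1 := pow_le_one₀ l0 l1
  set C : Finset ℕ := (range W).filter fun c => ∀ i, Nat.Coprime (a i * c + b i) W with hC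
  have hCW : C.card ≤ W := (card_filter_le _ _).trans (card_range W).le
  have eC : Set.ncard {c : ℕ | c < W ∧ ∀ i, Nat.Coprime (a i * c + b i) W} = C.card := by
    rw [← Set.ncard_coe_finset]
    congr 1
    ext c
    simp [hC]
  let g : ℕ → ℕ → ℝ := fun r M => ∑ c ∈ C, (1 / (M : ℝ)) *
    |dens (fun i => a i * W) (fun i => a i * c + b i) (((W * M + r : ℕ) : ℝ) ^ (1 - δ)) M - ρ|
  have hW' : (0 : ℝ) < W := by exact_mod_cast hW
  have key : ∀ N : ℕ, 1 ≤ N → (1 / (N : ℝ)) *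
      |(Set.ncard {n : ℕ | 1 ≤ n ∧ n ≤ N ∧ ∀ i, Nat.Coprime (a i * n + b i) W ∧
          ∃ p : ℕ, p.Prime ∧ p ∣ a i * n + b i ∧ (N : ℝ) ^ (1 - δ) < p} : ℝ) / N -
        (C.card : ℝ) / W * ρ| ≤
      2 * W * ((1 / (N : ℝ)) * (1 / (N : ℝ))) + g (N % W) (N / W) := by
    intro N hN
    let P : ℕ → Prop := fun n => ∀ i, Nat.Coprime (a i * n + b i) W ∧
      big ((N : ℝ) ^ (1 - δ)) (a i * n + b i)
    have eA : Set.ncard {n : ℕ | 1 ≤ n ∧ n ≤ N ∧ ∀ i, Nat.Coprime (a i * n + b i) W ∧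
          ∃ p : ℕ, p.Prime ∧ p ∣ a i * n + b i ∧ (N : ℝ) ^ (1 - δ) < p} =
        ((Icc 1 N).filter P).card := by
      rw [← Set.ncard_coe_finset]
      congr 1
      ext n
      simp only [P, big, Set.mem_ofPred_eq, coe_filter, mem_Icc, and_assoc]
    rw [eA]
    simp only [g, Nat.div_add_mod]
    refine FinP.term_le hW hN hCW r0 r1 ?_
    have h1 := FinP.card_near P hW N
    rw [FinP.card_per P hW] at h1
    refine le_trans (le_of_eq ?_) h1
    congr 2
    rw [Nat.cast_sum, hC, sum_filter]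
    refine sum_congr rfl fun c _ => ?_
    have e : ∀ i m, a i * (W * m + c) + b i = a i * W * m + (a i * c + b i) := fun i m => by ring
    have e' : ∀ i m, Nat.Coprime (a i * (W * m + c) + b i) W ↔ Nat.Coprime (a i * c + b i) W :=
      fun i m => by
        rw [show a i * (W * m + c) + b i = a i * c + b i + a i * m * W by ring,
          Nat.coprime_add_mul_right_left]
    split_ifs with hc
    · rw [FinP.mul_dens]
      congr 2
      ext m
      simp only [P, mem_filter, e']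
      simp only [e]
      exact and_congr_right fun _ => forall_congr' fun i => (and_iff_right (hc i)).symm
    · symm
      rw [Nat.cast_eq_zero, card_eq_zero, filter_eq_empty_iff]
      exact fun m _ hm => hc fun i => (e' i m).1 (hm i).1
  rw [eC, Asymptotics.isLittleO_iff]
  intro ε hε
  have hε' : 0 < ε / (2 * W ^ 2) := by positivity
  have ev : ∀ᶠ X : ℕ in atTop, ∀ r ∈ range W, ∀ c ∈ C, ∑ M ∈ Icc 1 X, (1 / (M : ℝ)) *
      |dens (fun i => a i * W) (fun i => a i * c + b i) (((W * M + r : ℕ) : ℝ) ^ (1 - δ)) M - ρ| ≤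
      ε / (2 * W ^ 2) * Real.log X := by
    refine (eventually_all_finset _).2 fun r hr => (eventually_all_finset _).2 fun c _ => ?_
    have hr' := mem_range.1 hr
    have hW1 : (1 : ℝ) ≤ W := by exact_mod_cast hW
    refine h k (fun i => a i * W) (fun i => a i * c + b i) δ (2 * W) _
      (fun M => ((W * M + r : ℕ) : ℝ) ^ (1 - δ)) (fun i => Nat.mul_pos (ha i) hW) ?_ hδ hδ'
      (by linarith) hε' fun M hM => ⟨?_, ?_⟩
    · intro i j hij e
      refine hab i j hij (Nat.eq_of_mul_eq_mul_left hW ?_)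
      have e1 : a i * W * (a j * c + b j) = W * (a i * b j) + a i * a j * c * W := by ring
      have e2 : a j * W * (a i * c + b i) = W * (a j * b i) + a i * a j * c * W := by ring
      rw [e1, e2] at e
      exact Nat.add_right_cancel e
    · refine Real.rpow_le_rpow (by positivity) ?_ (by linarith)
      exact_mod_cast (by nlinarith : M ≤ W * M + r)
    · refine Real.rpow_le_rpow (by positivity) ?_ (by linarith)
      exact_mod_cast (by nlinarith : W * M + r ≤ 2 * W * M)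
  have ev2 : ∀ᶠ X : ℕ in atTop, 8 * W / ε ≤ Real.log X :=
    (Real.tendsto_log_atTop.comp tendsto_natCast_atTop_atTop).eventually_ge_atTop _
  filter_upwards [ev, ev2] with X hX hX2
  have hl : 0 ≤ Real.log X := Real.log_natCast_nonneg X
  rw [Real.norm_of_nonneg (sum_nonneg fun N _ => by positivity), Real.norm_of_nonneg hl]
  refine (sum_le_sum fun N hN => key N (mem_Icc.1 hN).1).trans ?_
  rw [sum_add_distrib, ← mul_sum]
  have b1 : 2 * (W : ℝ) * ∑ N ∈ Icc 1 X, (1 / (N : ℝ)) * (1 / (N : ℝ)) ≤ ε / 2 * Real.log X := by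
    rw [div_le_iff₀' hε] at hX2
    have := mul_le_mul_of_nonneg_left (FinP.sq_le X) (by positivity : (0 : ℝ) ≤ 2 * W)
    linarith
  have b2 : ∑ N ∈ Icc 1 X, g (N % W) (N / W) ≤ ε / 2 * Real.log X := by
    refine (FinP.sum_divmod (g := g) (fun r M => sum_nonneg fun c _ => by positivity)
      (fun r => by simp [g]) hW X).trans ?_
    have hb : ∀ r ∈ range W, ∑ M ∈ Icc 1 X, g r M ≤ W * (ε / (2 * W ^ 2) * Real.log X) := by
      intro r hr
      simp only [g]
      rw [sum_comm]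
      refine (sum_le_card_nsmul _ _ _ (hX r hr)).trans ?_
      rw [nsmul_eq_mul]
      exact mul_le_mul_of_nonneg_right (by exact_mod_cast hCW) (by positivity)
    refine (sum_le_card_nsmul _ _ _ hb).trans (le_of_eq ?_)
    rw [card_range, nsmul_eq_mul]
    field_simp
  linarith

end Pool.Agent.P.MP_746f10_nt.LP
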