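import Pool.Agent.P.MP_746f10_nt.LP.St
import Pool.Agent.P.MP_a14ce1_nt.IV.Init

/-! The gain on one cell, centred. -/

open Finset Filter MeasureTheory
open scoped ComplexConjugate

namespace Pool.Agent.P.MP_746f10_nt.LP

open Pool.Agent.P.MP_a14ce1_nt
open Pool.Agent.P.MP_a14ce1_nt.IV (Hull cell wa gn)

namespace GainP

theorem gn_add (z μ d : ℂ) : gn z (μ + d) = gn z μ + 2 * ((z - μ) * conj d).re - ‖d‖ ^ 2 := by
  simp only [gn, ← Complex.normSq_eq_norm_sq, Complex.normSq_apply, map_add, Complex.mul_re,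
    Complex.add_re, Complex.add_im, Complex.sub_re, Complex.sub_im, Complex.conj_re,
    Complex.conj_im]
  ring

theorem card_cell (h j : ℕ) : (cell (h : ℝ) j).card = h := by
  rw [IV.InitP.cell_nat, Nat.card_Ico, add_mul, one_mul, Nat.add_sub_cancel_left]

theorem step (f d : ℕ → ℂ) (μ : ℂ) {D : ℝ} (hd : ∀ n, ‖d n‖ ≤ D) {h : ℕ} (hh : 0 < h) (j : ℕ) :
    wa (h : ℝ) j (fun m => gn (f m) μ) +
        2 * ((∑ n ∈ cell (h : ℝ) j, (f n - μ) * conj (d n)).re / h) - D ^ 2 ≤
      wa (h : ℝ) j fun m => gn (f m) (μ + d m) := by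
  have hh' : (0 : ℝ) < h := by exact_mod_cast hh
  have e1 : ∀ m, gn (f m) μ + 2 * ((f m - μ) * conj (d m)).re - D ^ 2 ≤ gn (f m) (μ + d m) := by
    intro m
    rw [gn_add]
    linarith [pow_le_pow_left₀ (norm_nonneg _) (hd m) 2]
  have e2 := sum_le_sum fun m (_ : m ∈ cell (h : ℝ) j) => e1 m
  rw [sum_sub_distrib, sum_add_distrib, ← mul_sum, ← Complex.re_sum, sum_const, card_cell,
    nsmul_eq_mul] at e2
  rw [wa, wa, smul_eq_mul, smul_eq_mul, one_div, ← div_eq_inv_mul, ← div_eq_inv_mul,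
    le_div_iff₀ hh']
  refine le_trans (le_of_eq ?_) e2
  field_simp

end GainP

open GainP in
theorem gain : S_Gain := by
  intro XX hX h1 f b μ τ h j hf hb hμ h0 hτ hh
  have hh' : (0 : ℝ) < h := by exact_mod_cast hh
  have hc : ∀ z : ℂ, ‖z‖ ≤ 1 → (fun _ : ℕ => z) ∈ XX := fun z hz => by
    simpa using hX.sc _ h1 z hz
  set S := ∑ n ∈ cell (h : ℝ) j, (f n - μ) * conj (b n) with hS
  set R := (∑ n ∈ cell (h : ℝ) j, (f n - μ) * conj μ).re with hR
  have hs0 : 0 ≤ ‖S‖ / h := by positivity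
  have hn : ‖(τ : ℂ)‖ = τ := by rw [Complex.norm_real, Real.norm_of_nonneg h0]
  by_cases c1 : R / h ≤ ‖S‖ / h / 2
  · obtain ⟨w, hw, hw'⟩ := Complex.exists_norm_eq_mul_self S
    have hw1 : ‖conj w‖ = 1 := by rw [RCLike.norm_conj, hw]
    have hm := hX.cvx (hc μ hμ) (hX.sc b hb (conj w) hw1.le) (sub_nonneg.2 hτ) h0 (by ring)
    refine ⟨_, hm, ?_⟩
    have h2 := step f (fun n => τ * (conj w * b n - μ)) μ (D := 2 * τ) (fun n => by
      rw [norm_mul, hn]
      have h3 := norm_sub_le (conj w * b n) μ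
      rw [norm_mul, hw1, one_mul] at h3
      nlinarith [hX.bd b hb n]) hh j
    have e1 : ∑ n ∈ cell (h : ℝ) j, (f n - μ) * conj (τ * (conj w * b n - μ)) =
        τ * (w * S - ∑ n ∈ cell (h : ℝ) j, (f n - μ) * conj μ) := by
      rw [hS, mul_sum, ← sum_sub_distrib, mul_sum]
      refine sum_congr rfl fun n _ => ?_
      simp only [map_mul, map_sub, Complex.conj_ofReal, Complex.conj_conj]
      ring
    rw [e1, Complex.re_ofReal_mul, Complex.sub_re, ← hw', Complex.ofReal_re, ← hR] at h2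
    refine le_trans ?_ (h2.trans (le_of_eq ?_))
    · have e2 : τ * (‖S‖ - R) / h = τ * (‖S‖ / h - R / h) := by ring
      rw [e2]
      nlinarith [mul_le_mul_of_nonneg_left c1 h0]
    · congr 1
      funext m
      congr 1
      simp only [Pi.add_apply, Pi.smul_apply, Complex.real_smul]
      push_cast
      ring
  by_cases c2 : τ ≤ ‖S‖ / h / 2
  · have hRle : R / h ≤ ‖μ‖ * (1 - ‖μ‖) := by
      rw [div_le_iff₀ hh', hR, Complex.re_sum]
      refine (sum_le_card_nsmul _ _ (‖μ‖ * (1 - ‖μ‖)) fun n _ => ?_).trans (le_of_eq ?_)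
      · have h3 := Complex.re_le_norm (f n * conj μ)
        rw [norm_mul, RCLike.norm_conj] at h3
        rw [sub_mul, Complex.sub_re, Complex.mul_conj, Complex.ofReal_re, Complex.normSq_eq_norm_sq]
        nlinarith [hf n, norm_nonneg μ]
      · rw [card_cell, nsmul_eq_mul, mul_comm]
    have hu : ‖μ + τ * μ‖ ≤ 1 := by
      refine (norm_add_le _ _).trans ?_
      rw [norm_mul, hn]
      have h3 : τ ≤ 1 - ‖μ‖ := by nlinarith [norm_nonneg μ]
      nlinarith [norm_nonneg μ]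
    refine ⟨_, hc _ hu, ?_⟩
    have h2 := step f (fun _ => τ * μ) μ (D := τ) (fun n => by
      rw [norm_mul, hn]
      exact mul_le_of_le_one_right h0 hμ) hh j
    have e1 : ∑ n ∈ cell (h : ℝ) j, (f n - μ) * conj (τ * μ) =
        τ * ∑ n ∈ cell (h : ℝ) j, (f n - μ) * conj μ := by
      rw [mul_sum]
      refine sum_congr rfl fun n _ => ?_
      simp only [map_mul, Complex.conj_ofReal]
      ring
    rw [e1, Complex.re_ofReal_mul, ← hR] at h2
    refine le_trans ?_ h2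
    rw [mul_div_assoc]
    nlinarith [mul_le_mul_of_nonneg_left (not_le.1 c1).le h0]
  · refine ⟨_, hc μ hμ, ?_⟩
    nlinarith [mul_le_mul_of_nonneg_left (not_le.1 c2).le h0]

end Pool.Agent.P.MP_746f10_nt.LP
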