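import Pool.Agent.P.MP_746f10_nt.LP.St
import Pool.Agent.P.MP_a14ce1_nt.Ch.Final

/-!
High frequencies for functions that agree with a character at the small primes.
-/

open Finset MeasureTheory

namespace Pool.Agent.P.MP_746f10_nt.LP

open Pool.Agent.P.MP_a14ce1_nt
open Pool.Agent.P.MP_a14ce1_nt.Ch Pool.Agent.P.MP_a14ce1_nt.Ch.Final

namespace HighP

/-- averaging a shifted function against the Cauchy weight over a set of finite measure -/
theorem fubini {U : Set ℝ} {X Y : ℝ} (hX : 0 < X) (hU : U ⊆ Set.Icc (-Y) Y) {g : ℝ → ℝ}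
    (hg : Continuous g) {B K1 K2 : ℝ} (hB : ∀ s, |g s| ≤ B) (hK1 : 0 ≤ K1) (hK2 : 0 ≤ K2)
    (h1 : ∀ u, |u| ≤ X → ∫ t in U, g (t + u) ≤ K1) (h2 : ∀ u, ∫ t in U, g (t + u) ≤ K2) :
    IntegrableOn (fun t => ∫ u, cw 1 u * g (t + u)) U ∧
    ∫ t in U, ∫ u, cw 1 u * g (t + u) ≤ Real.pi * K1 + 2 * Real.pi * K2 / X := by
  have : IsFiniteMeasure (volume.restrict U) := ⟨by simpa using finite_of_subset hU⟩
  have hi : Integrable (Function.uncurry fun t u => cw 1 u * g (t + u))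
      ((volume.restrict U).prod volume) := by
    have h0 : Integrable (fun z : ℝ × ℝ => B * cw 1 z.2) ((volume.restrict U).prod volume) :=
      Integrable.mul_prod (integrable_const B) (integrable_cw one_pos)
    refine h0.mono' ?_ (Filter.Eventually.of_forall fun z => ?_)
    · have hc : Continuous (Function.uncurry fun t u => cw 1 u * g (t + u)) :=
        ((continuous_cw 1).comp continuous_snd).mul (hg.comp (continuous_fst.add continuous_snd))
      exact hc.aestronglyMeasurable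
    · change ‖cw 1 z.2 * g (z.1 + z.2)‖ ≤ _
      rw [Real.norm_eq_abs, abs_mul, abs_of_pos (cw_pos _ _), mul_comm]
      exact mul_le_mul_of_nonneg_right (hB _) (cw_pos _ _).le
  refine ⟨hi.integral_prod_left, ?_⟩
  rw [integral_integral_swap hi]
  have hle : ∀ u, ∫ t in U, cw 1 u * g (t + u) ≤ K1 * cw 1 u + (2 * K2 / X ^ 2) * cw X u := by
    intro u
    rw [integral_const_mul]
    have c1 := cw_pos 1 u
    have cX := cw_pos X u
    by_cases hu : |u| ≤ X
    · have := mul_le_mul_of_nonneg_left (h1 u hu) c1.le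
      have h3 : 0 ≤ (2 * K2 / X ^ 2) * cw X u := by positivity
      linarith
    · have h4 : X ^ 2 ≤ u ^ 2 := by
        rw [← sq_abs u]; exact pow_le_pow_left₀ hX.le (not_le.1 hu).le 2
      have h5 : cw 1 u ≤ 2 / X ^ 2 * cw X u := by
        unfold cw
        rw [div_one, div_pow, div_mul_div_comm, div_le_div_iff₀ (by positivity) (by positivity)]
        have : X ^ 2 * (1 + u ^ 2 / X ^ 2) = X ^ 2 + u ^ 2 := by field_simp
        rw [this]; nlinarith
      have h6 := mul_le_mul_of_nonneg_left (h2 u) c1.le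
      have h7 := mul_le_mul_of_nonneg_right h5 hK2
      have h8 : 0 ≤ K1 * cw 1 u := by positivity
      have h9 : 2 / X ^ 2 * cw X u * K2 = (2 * K2 / X ^ 2) * cw X u := by ring
      linarith
  have i1 : Integrable (fun u => K1 * cw 1 u) := (integrable_cw one_pos).const_mul _
  have i2 : Integrable (fun u => (2 * K2 / X ^ 2) * cw X u) := (integrable_cw hX).const_mul _
  have i3 : Integrable (fun u => K1 * cw 1 u + (2 * K2 / X ^ 2) * cw X u) := i1.add i2
  refine (integral_mono hi.integral_prod_right i3 hle).trans (le_of_eq ?_)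
  rw [integral_add i1 i2, integral_const_mul, integral_const_mul, integral_cw one_pos,
    integral_cw hX]
  field_simp

/-- mean square of Gx -/
theorem Gx_high (A B : Finset ℕ) {f : ℕ → ℂ} (hf : CM f) (X : ℕ) (hx : 20 ≤ Real.log X)
    (hA : ∀ p ∈ A, p.Prime ∧ Real.log p ≤ Real.log X / 10)
    (hB : ∀ p ∈ B, p.Prime ∧ Real.log p ≤ Real.log X / 10) (hAB : Disjoint A B)
    (Θ : ℝ → ℂ) {CF : ℝ} (hCF : 0 < CF) (hΘc : Continuous Θ) (hΘ : ∀ u, ‖Θ u‖ ≤ CF * cw 1 u)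
    (hψ : ∀ v, (psi v : ℂ) = ∫ u : ℝ, Θ u * ex (-(u * v)))
    {SB C1 KH T0 : ℝ} (hT0 : 0 < T0) (hSB : ∀ t, sm B (fun p => f p / p) t ≤ SB)
    (hC1 : ∀ s : ℝ, 1 ≤ |s| → |s| ≤ 2 * X → ‖Dp A f s‖ ≤ C1)
    {U : Set ℝ} (hUm : MeasurableSet U) (hU : U ⊆ Set.Icc (-(X : ℝ)) X) 
    (hT : ∀ t ∈ U, T0 + 1 ≤ |t|)
    (hKH : ∀ u, ∫ t in U, ‖Rx f X (t + u)‖ ^ 2 ≤ KH) :
    ∫ t in U, ‖Gx A B f X t‖ ^ 2 ≤
      CF ^ 2 * SB * (Real.pi * (C1 ^ 2 * KH) + 2 * Real.pi * (rs A ^ 2 * KH) / T0) := by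
  have hΘi : Integrable Θ :=
    ((integrable_cw one_pos).const_mul CF).mono' hΘc.aestronglyMeasurable
      (Filter.Eventually.of_forall hΘ)
  set g : ℝ → ℝ := fun s => ‖Dp A f s‖ * ‖Rx f X s‖ with hg
  have hgc : Continuous g := (continuous_Dp A f).norm.mul (continuous_Rx f X).norm
  have hg0 : ∀ s, 0 ≤ g s := fun s => mul_nonneg (norm_nonneg _) (norm_nonneg _)
  have hgB : ∀ s, g s ≤ rs A * (1 + 2 * Real.log X) := fun s =>
    mul_le_mul (norm_Dp_le A hf.bd s) (norm_Rx_le hf.bd X s) (norm_nonneg _) (rs_nonneg _)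
  have hgB' : ∀ s, |g s| ≤ rs A * (1 + 2 * Real.log X) := fun s => by
    rw [abs_of_nonneg (hg0 s)]; exact hgB s
  have hg2 : ∀ s, g s ^ 2 ≤ (rs A * (1 + 2 * Real.log X)) ^ 2 := fun s =>
    pow_le_pow_left₀ (hg0 s) (hgB s) 2
  have hDB : ∀ s, |‖Dp B f s‖| ≤ rs B := fun s => by
    rw [abs_of_nonneg (norm_nonneg _)]; exact norm_Dp_le B hf.bd s
  have hSB0 : 0 ≤ SB := le_trans
    (integral_nonneg fun u => mul_nonneg (cw_pos _ _).le (sq_nonneg _)) (hSB 0)
  have hKH0 : 0 ≤ KH := le_trans (integral_nonneg fun u => sq_nonneg _) (hKH 0)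
  have hpt : ∀ t, ‖Gx A B f X t‖ ^ 2 ≤ CF ^ 2 * SB * ∫ u, cw 1 u * g (t + u) ^ 2 := by
    intro t
    have c1 : Continuous fun u => ‖Dp B f (t + u)‖ :=
      (continuous_Dp B f).norm.comp (continuous_const.add continuous_id)
    have c2 : Continuous fun u => g (t + u) := hgc.comp (continuous_const.add continuous_id)
    have i1 : Integrable (fun u => cw 1 u * (‖Dp B f (t + u)‖ * g (t + u))) := by
      refine integrable_cw_mul one_pos (c1.mul c2) (B := rs B * (rs A * (1 + 2 * Real.log X)))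
        fun u => ?_
      rw [abs_mul]
      exact mul_le_mul (hDB _) (hgB' _) (abs_nonneg _) (rs_nonneg _)
    have h1 : ‖Gx A B f X t‖ ≤ CF * ∫ u, cw 1 u * (‖Dp B f (t + u)‖ * g (t + u)) := by
      rw [Gx_eq_int A B hf X hx hA hB hAB Θ hΘi hψ t, ← integral_const_mul]
      refine norm_integral_le_of_norm_le (i1.const_mul CF) (Filter.Eventually.of_forall fun u => ?_)
      rw [norm_mul, norm_mul, norm_ex, mul_one, norm_mul, norm_mul]
      have h2 : 0 ≤ ‖Dp A f (t + u)‖ * ‖Dp B f (t + u)‖ * ‖Rx f X (t + u)‖ := by positivity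
      refine (mul_le_mul_of_nonneg_right (hΘ u) h2).trans (le_of_eq ?_)
      simp only [hg]; ring
    have h2 := cs_cw c1 c2 (fun u => hDB _) (fun u => hgB' _)
    have h3 : ∫ u, cw 1 u * ‖Dp B f (t + u)‖ ^ 2 ≤ SB := hSB t
    have h4 : 0 ≤ ∫ u, cw 1 u * g (t + u) ^ 2 :=
      integral_nonneg fun u => mul_nonneg (cw_pos _ _).le (sq_nonneg _)
    calc ‖Gx A B f X t‖ ^ 2 ≤ (CF * ∫ u, cw 1 u * (‖Dp B f (t + u)‖ * g (t + u))) ^ 2 :=
          pow_le_pow_left₀ (norm_nonneg _) h1 2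
      _ = CF ^ 2 * (∫ u, cw 1 u * (‖Dp B f (t + u)‖ * g (t + u))) ^ 2 := by ring
      _ ≤ CF ^ 2 * (SB * ∫ u, cw 1 u * g (t + u) ^ 2) :=
          mul_le_mul_of_nonneg_left (h2.trans (mul_le_mul_of_nonneg_right h3 h4)) (sq_nonneg _)
      _ = _ := by ring
  have hK : ∀ u C : ℝ, (∀ t ∈ U, ‖Dp A f (t + u)‖ ≤ C) →
      ∫ t in U, g (t + u) ^ 2 ≤ C ^ 2 * KH := by
    intro u C hC
    have i1 : IntegrableOn (fun t => g (t + u) ^ 2) U :=
      integrableOn_of_cont hU ((hgc.comp (continuous_id.add continuous_const)).pow 2)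
    have i3 : IntegrableOn (fun t => ‖Rx f X (t + u)‖ ^ 2) U :=
      integrableOn_of_cont hU
        (((continuous_Rx f X).norm.comp (continuous_id.add continuous_const)).pow 2)
    have i5 : IntegrableOn (fun t => C ^ 2 * ‖Rx f X (t + u)‖ ^ 2) U := i3.const_mul _
    refine (setIntegral_mono_on i1 i5 hUm fun t ht => ?_).trans ?_
    · rw [← mul_pow]
      exact pow_le_pow_left₀ (hg0 _) (mul_le_mul_of_nonneg_right (hC t ht) (norm_nonneg _)) 2
    · rw [integral_const_mul]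
      exact mul_le_mul_of_nonneg_left (hKH u) (sq_nonneg C)
  have hK2 : ∀ u, ∫ t in U, g (t + u) ^ 2 ≤ rs A ^ 2 * KH := fun u =>
    hK u _ fun t _ => norm_Dp_le A hf.bd _
  have hK1 : ∀ u : ℝ, |u| ≤ T0 → ∫ t in U, g (t + u) ^ 2 ≤ C1 ^ 2 * KH := fun u hu =>
    hK u _ fun t ht => by
      have h2 : |t| ≤ X := abs_le.2 ⟨(hU ht).1, (hU ht).2⟩
      have h3 := abs_add_le t u
      have h4 := hT t ht
      have h5 : |t| ≤ |t + u| + |u| := by simpa using abs_sub (t + u) u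
      exact hC1 _ (by linarith) (by linarith)
  obtain ⟨i1, h1⟩ := fubini hT0 hU (g := fun s => g s ^ 2) (hgc.pow 2)
    (B := (rs A * (1 + 2 * Real.log X)) ^ 2)
    (fun s => by rw [abs_of_nonneg (sq_nonneg _)]; exact hg2 s)
    (by positivity) (by positivity) hK1 hK2
  have i2 : IntegrableOn (fun t => ‖Gx A B f X t‖ ^ 2) U :=
    integrableOn_of_cont hU ((continuous_Gx A B f X).norm.pow 2)
  refine (integral_mono i2 (i1.const_mul _) hpt).trans ?_
  rw [integral_const_mul]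
  exact mul_le_mul_of_nonneg_left h1 (by positivity)

theorem arith {LA LB x k CF CP C1 CH T0 : ℝ} (hLA : 1 ≤ LA) (hLB : 1 ≤ LB) (hx : 0 < x)
    (hk : 0 < k) (hCP : 0 < CP) (hCH : 0 < CH) (hT0 : 0 < T0) :
    2 / (LA * LB) ^ 2 * (CF ^ 2 * (CP * LB / (x / k)) *
      (Real.pi * (C1 ^ 2 * (CH * x)) + 2 * Real.pi * (LA ^ 2 * (CH * x)) / T0)) ≤
    2 * CF ^ 2 * CP * k * Real.pi * C1 ^ 2 * CH / LA +
      4 * CF ^ 2 * CP * k * Real.pi * CH / T0 := by
  have hpi := Real.pi_pos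
  have hA : 0 < LA := by linarith
  have hB : 0 < LB := by linarith
  have h2 : 2 / (LA * LB) ^ 2 * (CF ^ 2 * (CP * LB / (x / k)) *
      (Real.pi * (C1 ^ 2 * (CH * x)) + 2 * Real.pi * (LA ^ 2 * (CH * x)) / T0)) =
      2 * CF ^ 2 * CP * k * Real.pi * C1 ^ 2 * CH / LA / (LA * LB) +
      4 * CF ^ 2 * CP * k * Real.pi * CH / T0 / LB := by
    field_simp
    ring
  rw [h2]
  have h3 : 1 ≤ LA * LB := one_le_mul_of_one_le_of_one_le hLA hLB
  exact add_le_add (div_le_self (by positivity) h3) (div_le_self (by positivity) hLB)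

end HighP

open HighP

theorem high (h1 : Ch.S_M1) (hT : Ch.S_TK) (hM : Ch.S_MVT) (hF : Ch.S_Fourier)
    (hP : Ch.S_SmPrimes) (hH : Ch.S_HM) (hH1 : Ch.S_H1) : S_High := by
  obtain ⟨C0, hC0, hM1⟩ := h1
  obtain ⟨Θ, CF, hCF, hΘc, hΘ, hψ, -⟩ := hF psi (contDiff_psi (n := 2)) compact_psi
  obtain ⟨CP, hCP, hP⟩ := hP
  obtain ⟨c, CH, XH, hc, hCH, hH⟩ := hH
  refine ⟨c, hc, fun b _ χ η δ hη hδ => ?_⟩
  obtain ⟨C1, hC1, hH1⟩ := hH1 b χ
  have hpi := Real.pi_pos
  obtain ⟨b0, hb1, hb2, hb3⟩ : ∃ b0 : ℝ, 1 ≤ b0 ∧ 3 * (2 * 14688 * Real.pi) / δ ≤ b0 ∧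
      1 / η ≤ b0 :=
    ⟨max 1 (max _ _), le_max_left _ _, (le_max_left _ _).trans (le_max_right _ _),
      (le_max_right _ _).trans (le_max_right _ _)⟩
  set k1 : ℝ := 10 * Real.exp (b0 + C0) with hk1
  have hk1' : 10 ≤ k1 := by
    have := Real.one_le_exp (show 0 ≤ b0 + C0 by linarith)
    linarith
  have hk1η : 1 / η ≤ k1 := by
    have := Real.add_one_le_exp (b0 + C0)
    linarith
  obtain ⟨T0, hT1, hT2⟩ : ∃ T0 : ℝ, 1 ≤ T0 ∧
      3 * (4 * CF ^ 2 * CP * k1 * Real.pi * CH) / δ ≤ T0 :=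
    ⟨max 1 _, le_max_left _ _, le_max_right _ _⟩
  have hT0 : 0 < T0 := by linarith
  obtain ⟨a0, ha1, ha2⟩ : ∃ a0 : ℝ, 1 ≤ a0 ∧ 3 * (2 * 14688 * Real.pi * (2 * k1) ^ 2 +
      2 * CF ^ 2 * CP * k1 * Real.pi * C1 ^ 2 * CH) / δ ≤ a0 :=
    ⟨max 1 _, le_max_left _ _, le_max_right _ _⟩
  set k2 : ℝ := k1 * Real.exp (a0 + C0) with hk2
  have hk2' : k1 ≤ k2 := by
    exact le_mul_of_one_le_right (by linarith) (Real.one_le_exp (by linarith))
  obtain ⟨k, hk⟩ := exists_nat_ge (4 * k2)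
  obtain ⟨y0, hy0⟩ := hH1 k
  obtain ⟨x0, hx1, hx2⟩ : ∃ x0 : ℝ, 2 * k2 ≤ x0 ∧ k2 * y0 ≤ x0 :=
    ⟨max (2 * k2) _, le_max_left _ _, le_max_right _ _⟩
  refine ⟨T0 + 1, max XH (max 3 ⌈Real.exp x0⌉₊), by linarith,
    fun X hXX f hf hfp U hUm hU hvol1 hUT => ?_⟩
  have hXH : XH ≤ X := (le_max_left _ _).trans hXX
  have hX3 : 3 ≤ X := ((le_max_left _ _).trans (le_max_right _ _)).trans hXX
  have hXe : ⌈Real.exp x0⌉₊ ≤ X := ((le_max_right _ _).trans (le_max_right _ _)).trans hXX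
  have hX0 : (0 : ℝ) < X := by exact_mod_cast (show 0 < X by omega)
  have hX3' : (3 : ℝ) ≤ X := by exact_mod_cast hX3
  have hxx : x0 ≤ Real.log X := by
    rw [Real.le_log_iff_exp_le hX0]
    exact (Nat.ceil_le.1 hXe)
  obtain ⟨x, hxdef⟩ : ∃ x, x = Real.log X := ⟨_, rfl⟩
  have hXexp : (X : ℝ) = Real.exp x := by rw [hxdef, Real.exp_log hX0]
  rw [← hxdef] at hxx
  have hk10 : 0 < k1 := by linarith
  have hk20 : 0 < k2 := by linarith
  have hx20 : 20 ≤ x := by linarith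
  have hx0 : 0 < x := by linarith
  have hr2 : 2 ≤ x / k2 := by rw [le_div_iff₀ hk20]; linarith
  have hr21 : x / k2 ≤ x / k1 := div_le_div_of_nonneg_left hx0.le hk10 hk2'
  have hr10 : x / k1 ≤ x / 10 := div_le_div_of_nonneg_left hx0.le (by norm_num) hk1'
  have hy2 : 2 ≤ Real.exp (x / k2) := by linarith [Real.add_one_le_exp (x / k2)]
  have hyQ : Real.exp (x / k2) ≤ Real.exp (x / k1) := Real.exp_le_exp.2 hr21
  have hQW : Real.exp (x / k1) ≤ Real.exp (x / 10) := Real.exp_le_exp.2 hr10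
  have hWX : Real.exp (x / 10) ≤ X := by rw [hXexp]; exact Real.exp_le_exp.2 (by linarith)
  set A := pr (Real.exp (x / k2)) (Real.exp (x / k1)) with hAdef
  set B := pr (Real.exp (x / k1)) (Real.exp (x / 10)) with hBdef
  have hmA : ∀ p ∈ A, p.Prime ∧ Real.exp (x / k2) < p ∧ (p : ℝ) ≤ Real.exp (x / k1) :=
    fun p hp => (mem_pr (Real.exp_pos _).le).1 hp
  have hmB : ∀ p ∈ B, p.Prime ∧ Real.exp (x / k1) < p ∧ (p : ℝ) ≤ Real.exp (x / 10) :=
    fun p hp => (mem_pr (Real.exp_pos _).le).1 hp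
  have hlog : ∀ p : ℕ, p.Prime → (p : ℝ) ≤ Real.exp (x / 10) → Real.log p ≤ Real.log X / 10 := by
    intro p hp h
    rw [← hxdef, Real.log_le_iff_le_exp (by exact_mod_cast hp.pos)]
    exact h
  have hA : ∀ p ∈ A, p.Prime ∧ Real.log p ≤ Real.log X / 10 :=
    fun p hp => ⟨(hmA p hp).1, hlog p (hmA p hp).1 ((hmA p hp).2.2.trans hQW)⟩
  have hB : ∀ p ∈ B, p.Prime ∧ Real.log p ≤ Real.log X / 10 :=
    fun p hp => ⟨(hmB p hp).1, hlog p (hmB p hp).1 (hmB p hp).2.2⟩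
  have hAB : Disjoint A B := disjoint_left.2 fun p hp hq =>
    absurd (hmA p hp).2.2 (not_le.2 (hmB p hq).2.1)
  have hLA : a0 ≤ rs A := by
    have h := hM1 _ _ hy2 hyQ
    rw [Real.log_exp, Real.log_exp] at h
    have h2 : x / k1 / (x / k2) = Real.exp (a0 + C0) := by
      rw [hk2]; field_simp
    rw [h2, Real.log_exp] at h
    linarith [(abs_le.1 h).1]
  have hLB : b0 ≤ rs B := by
    have h := hM1 _ _ (hy2.trans hyQ) hQW
    rw [Real.log_exp, Real.log_exp] at h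
    have h2 : x / 10 / (x / k1) = Real.exp (b0 + C0) := by
      rw [hk1]; field_simp
    rw [h2, Real.log_exp] at h
    linarith [(abs_le.1 h).1]
  have hLA1 : 1 ≤ rs A := ha1.trans hLA
  have hLB1 : 1 ≤ rs B := hb1.trans hLB
  have hcard : ∀ u v : ℝ, v ≤ X → (pr u v).card ≤ 8 * X := by
    intro u v hv
    have h2 : ⌊v⌋₊ ≤ X := by simpa using Nat.floor_le_floor hv
    have h3 := card_pr_le u v
    omega
  have hK : ∀ n ∈ Icc 1 (8 * X), om B n ≤ 2 * k1 := by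
    intro n hn
    rw [mem_Icc] at hn
    have h2 := om_le B (fun p hp => (hmB p hp).1) (l := x / k1) (fun p hp => by
      rw [Real.le_log_iff_exp_le (by exact_mod_cast (hmB p hp).1.pos)]
      exact (hmB p hp).2.1.le) hn.1
    have h3 : Real.log n ≤ 2 * x := by
      rw [Real.log_le_iff_le_exp (by exact_mod_cast hn.1), two_mul, Real.exp_add, ← hXexp]
      have h4 : (n : ℝ) ≤ 8 * X := by exact_mod_cast hn.2
      have h5 : (8 : ℝ) ≤ X := by rw [hXexp]; linarith [Real.add_one_le_exp x]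
      exact h4.trans (mul_le_mul_of_nonneg_right h5 hX0.le)
    have h4 : om B n * (x / k1) ≤ 2 * k1 * (x / k1) := by
      have : 2 * k1 * (x / k1) = 2 * x := by field_simp
      linarith
    exact le_of_mul_le_mul_right h4 (div_pos hx0 hk10)
  have hD := diff_bound hT hM A B hf.bd X (by omega) (fun p hp => (hmA p hp).1)
    (fun p hp => (hmB p hp).1) (hcard _ _ (hQW.trans hWX)) (hcard _ _ hWX) (by linarith) hLB1 hK hUm hU
  have hSB : ∀ t, sm B (fun p => f p / p) t ≤ CP * rs B / (x / k1) := by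
    intro t
    have h := hP (Real.exp (x / k1)) B (fun p => f p / p) (hy2.trans hyQ)
      (fun p hp => ⟨(hmB p hp).1, (hmB p hp).2.1⟩) (fun p _ => norm_div_le hf.bd p) t
    rwa [Real.log_exp] at h
  have hC1' : ∀ s : ℝ, 1 ≤ |s| → |s| ≤ 2 * X → ‖Dp A f s‖ ≤ C1 := by
    intro s hs1 hs2
    have h2 : y0 ≤ ⌊Real.exp (x / k2)⌋₊ := by
      apply Nat.le_floor
      have h3 : (y0 : ℝ) ≤ x / k2 := by rw [le_div_iff₀ hk20]; linarith
      linarith [Real.add_one_le_exp (x / k2)]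
    have e1 : Dp A f s = -∑ p ∈ A, lc χ p / p * nit s p := by
      rw [Dp, ← sum_neg_distrib]
      refine sum_congr rfl fun p hp => ?_
      have h3 : Real.exp (x / k1) ≤ (X : ℝ) ^ η := by
        rw [Real.rpow_def_of_pos hX0, ← hxdef, Real.exp_le_exp, div_le_iff₀ hk10, mul_assoc]
        rw [div_le_iff₀' hη] at hk1η
        exact le_mul_of_one_le_right hx0.le hk1η
      rw [hfp p (hmA p hp).1 ((hmA p hp).2.2.trans h3), lc, lam_prime (hmA p hp).1]
      push_cast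
      ring
    rw [e1, norm_neg]
    refine hy0 _ _ h2 (Nat.floor_le_floor hyQ) s hs1 (hs2.trans ?_)
    have h3 : Real.exp (x / k2 / 2) ≤ (⌊Real.exp (x / k2)⌋₊ : ℝ) := by
      have h4 := Nat.lt_floor_add_one (Real.exp (x / k2))
      have h5 : Real.exp (x / k2) = Real.exp (x / k2 / 2) * Real.exp (x / k2 / 2) := by
        rw [← Real.exp_add]; congr 1; ring
      have h6 : 2 ≤ Real.exp (x / k2 / 2) := by linarith [Real.add_one_le_exp (x / k2 / 2)]
      have h7 := mul_le_mul_of_nonneg_right h6 (Real.exp_pos (x / k2 / 2)).le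
      linarith
    have h4 := pow_le_pow_left₀ (Real.exp_pos _).le h3 k
    refine le_trans ?_ h4
    rw [← Real.exp_nat_mul]
    have h5 : x + x ≤ k * (x / k2 / 2) := by
      have h6 : 4 * k2 * (x / k2 / 2) = x + x := by field_simp; ring
      rw [← h6]
      exact mul_le_mul_of_nonneg_right hk (by positivity)
    refine le_trans ?_ (Real.exp_le_exp.2 h5)
    rw [Real.exp_add, ← hXexp]
    exact mul_le_mul_of_nonneg_right (by linarith) hX0.le
  have hKH : ∀ u, ∫ t in U, ‖Rx f X (t + u)‖ ^ 2 ≤ CH * x := by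
    intro u
    have h := hH X hXH (fun m => f m * nit u m)
      (fun m => by rw [norm_mul, norm_nit, mul_one]; exact hf.bd m) U hUm hU hvol1
    simp_rw [Rx_shift] at h
    rwa [← hxdef] at h
  have hG := Gx_high A B hf X (by rw [← hxdef]; exact hx20) hA hB hAB Θ hCF hΘc hΘ hψ hT0 hSB hC1'
    hUm hU hUT hKH
  have hS := split_bound A B f X (L := rs A * rs B) (by positivity) hU
  have hAr := HighP.arith (CF := CF) (C1 := C1) hLA1 hLB1 hx0 hk10 hCP hCH hT0
  have hG2 := (mul_le_mul_of_nonneg_left hG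
    (show 0 ≤ 2 / (rs A * rs B) ^ 2 by positivity)).trans hAr
  have t1 := div_le_third hδ (by linarith) (hb2.trans hLB)
  have t2 := div_le_third hδ (by linarith) (ha2.trans hLA)
  have t3 := div_le_third hδ hT0 hT2
  have e1 : 2 * (14688 * Real.pi * (1 / rs B + (2 * k1) ^ 2 / rs A)) +
      2 * CF ^ 2 * CP * k1 * Real.pi * C1 ^ 2 * CH / rs A =
      2 * 14688 * Real.pi / rs B + (2 * 14688 * Real.pi * (2 * k1) ^ 2 +
      2 * CF ^ 2 * CP * k1 * Real.pi * C1 ^ 2 * CH) / rs A := by ring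
  linarith

end Pool.Agent.P.MP_746f10_nt.LP
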