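import Pool.Agent.P.MP_746f10_nt.LP.St

/-!
Independence of the events that the forms have a large prime factor.
-/

open Finset Filter MeasureTheory
open scoped ComplexConjugate

namespace Pool.Agent.P.MP_746f10_nt.LP

open Pool.Agent.P.MP_a14ce1_nt
open Pool.Agent.P.MP_a14ce1_nt.Ch (CM rs om pr Fx pv)
open Pool.Agent.P.MP_a14ce1_nt.V (av cube PP)
open Pool.Agent.P.MP_e30989_nt.W (UCM tw)

namespace IndP

/-- the sign of the number of prime factors in (y, y ^ 2] -/
noncomputable def sg (y : ℝ) (n : ℕ) : ℂ := (-1) ^ Nil.bigOm (pr y (y ^ 2)) n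

theorem norm_sg (y : ℝ) (n : ℕ) : ‖sg y n‖ = 1 := by simp [sg]

theorem ucm_sg (y : ℝ) : UCM (sg y) :=
  ⟨⟨fun m n hm hn => by rw [sg, sg, sg, Nil.Major.bigOm_mul _ hm hn, pow_add],
    fun n => (norm_sg y n).le⟩, fun n _ => norm_sg y n⟩

theorem tr_sg (y : ℝ) : Tr y (sg y) := fun p hp hy => by
  rw [sg, Nil.Major.bigOm_prime hp, pow_zero]
  intro h
  have h1 := (mem_Ioc.1 (mem_filter.1 h).1).1
  have h2 : p ≤ ⌊y⌋₊ := Nat.le_floor hy
  omega

open Classical in
theorem ind_eq {y : ℝ} (hy : 0 ≤ y) {n : ℕ} (hn : 1 ≤ n) (hny : (n : ℝ) ≤ y ^ 2) :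
    (1 - sg y n) / 2 = if big y n then 1 else 0 := by
  have hn0 : n ≠ 0 := by omega
  split_ifs with hb
  · obtain ⟨p, hp, hd, hyp⟩ := hb
    have hpn : (p : ℝ) ≤ n := by exact_mod_cast Nat.le_of_dvd hn hd
    have hm : p ∈ pr y (y ^ 2) := mem_filter.2 ⟨mem_Ioc.2 ⟨(Nat.floor_lt hy).2 hyp,
      Nat.le_floor (hpn.trans hny)⟩, hp⟩
    have h1 : 1 ≤ Nil.bigOm (pr y (y ^ 2)) n :=
      le_trans (hp.factorization_pos_of_dvd hn0 hd)
        (single_le_sum (f := fun p => n.factorization p) (fun _ _ => Nat.zero_le _) hm)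
    have hZ : y < (⌊y⌋₊ : ℝ) + 1 := Nat.lt_floor_add_one y
    have hZ1 : (1 : ℝ) ≤ (⌊y⌋₊ : ℝ) + 1 := by
      have : (0 : ℝ) ≤ ⌊y⌋₊ := Nat.cast_nonneg _
      linarith
    have h2 := Nil.Major.pow_bigOm_le (P := pr y (y ^ 2)) (Z := (⌊y⌋₊ : ℝ) + 1) (by linarith)
      (fun q hq => by exact_mod_cast (mem_Ioc.1 (mem_filter.1 hq).1).1) hn0
    have h3 : Nil.bigOm (pr y (y ^ 2)) n = 1 := by
      by_contra h
      have h4 := pow_le_pow_right₀ hZ1 (show 2 ≤ Nil.bigOm (pr y (y ^ 2)) n by omega)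
      have h5 := pow_lt_pow_left₀ hZ hy two_ne_zero
      linarith
    rw [sg, h3]
    norm_num
  · have h3 : Nil.bigOm (pr y (y ^ 2)) n = 0 := by
      refine sum_eq_zero fun p hp => Nat.factorization_eq_zero_of_not_dvd fun hd => hb ?_
      exact ⟨p, (mem_filter.1 hp).2, hd, (Nat.floor_lt hy).1 (mem_Ioc.1 (mem_filter.1 hp).1).1⟩
    rw [sg, h3]
    norm_num

/-- the two functions -/
noncomputable def G (y : ℝ) : Bool → ℕ → ℂ
  | true => sg y
  | false => fun _ => 1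

/-- the two coefficients -/
noncomputable def c : Bool → ℂ
  | true => -1 / 2
  | false => 1 / 2

theorem norm_c (β : Bool) : ‖c β‖ ≤ 1 := by
  cases β <;> simp [c] <;> norm_num

theorem expand {k : ℕ} (u : Fin k → Bool → ℂ) (h : ∀ i, u i false = 1) :
    ∏ i, (1 - u i true) / 2 = ∑ s : Fin k → Bool, (∏ i, c (s i)) * ∏ i, u i (s i) := by
  have e : ∀ i, (1 - u i true) / 2 = ∑ β : Bool, c β * u i β := fun i => by
    rw [Fintype.sum_bool, h i, c, c]
    ring
  simp only [e]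
  rw [Fintype.prod_sum]
  exact sum_congr rfl fun s _ => prod_mul_distrib

theorem av_sum {ι : Type} (S : Finset ι) (w : ι → ℂ) (g : ι → ℕ → ℂ) (N : ℕ) :
    av (fun n => ∑ s ∈ S, w s * g s n) N = ∑ s ∈ S, w s * av (g s) N := by
  simp only [av]
  rw [sum_comm, mul_sum]
  refine sum_congr rfl fun s _ => ?_
  rw [← mul_sum]
  ring

open Classical in
theorem key {k : ℕ} {a b : Fin k → ℕ} (ha : ∀ i, 0 < a i) {y : ℝ} (hy : 0 ≤ y) {N : ℕ}
    (hN : 1 ≤ N) (h1 : (N : ℝ) ≤ y ^ 2) (h2 : ∀ i, ((a i * N + b i : ℕ) : ℝ) ≤ y ^ 2) :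
    |dens a b y N - den1 y N ^ k| ≤ ∑ s : Fin k → Bool,
      ‖av (fun n => ∏ i, G y (s i) (a i * n + b i)) N - ∏ i, av (G y (s i)) N‖ := by
  have hN0 : (N : ℂ) ≠ 0 := by exact_mod_cast (by omega : N ≠ 0)
  have e1 : (dens a b y N : ℂ) = av (fun n => ∏ i, (1 - sg y (a i * n + b i)) / 2) N := by
    have : ∀ n ∈ Icc 1 N, ∏ i, (1 - sg y (a i * n + b i)) / 2 =
        if ∀ i, big y (a i * n + b i) then 1 else 0 := fun n hn => by
      obtain ⟨hn1, hn2⟩ := mem_Icc.1 hn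
      have e : ∀ i, (1 - sg y (a i * n + b i)) / 2 = if big y (a i * n + b i) then 1 else 0 :=
        fun i => ind_eq hy (le_trans (Nat.mul_pos (ha i) hn1) (Nat.le_add_right _ _))
          (le_trans (by exact_mod_cast Nat.add_le_add_right (Nat.mul_le_mul_left _ hn2) _) (h2 i))
      simp only [e]
      convert Fintype.prod_boole
    rw [av, sum_congr rfl this, sum_boole, dens]
    push_cast
    ring
  have e2 : (den1 y N : ℂ) = (1 - av (sg y) N) / 2 := by
    have : ∀ n ∈ Icc 1 N, (1 - sg y n) / 2 = if big y n then 1 else 0 := fun n hn =>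
      ind_eq hy (mem_Icc.1 hn).1 (le_trans (by exact_mod_cast (mem_Icc.1 hn).2) h1)
    have e := sum_congr rfl this
    rw [sum_boole, ← sum_div, sum_sub_distrib, ← mul_av, ← mul_av, av_const _ hN] at e
    rw [den1]
    push_cast
    rw [← e]
    field_simp
  have e3 : ((dens a b y N - den1 y N ^ k : ℝ) : ℂ) = ∑ s : Fin k → Bool, (∏ i, c (s i)) *
      (av (fun n => ∏ i, G y (s i) (a i * n + b i)) N - ∏ i, av (G y (s i)) N) := by
    have e4 : (fun n => ∏ i, (1 - sg y (a i * n + b i)) / 2) = fun n => ∑ s : Fin k → Bool,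
        (∏ i, c (s i)) * ∏ i, G y (s i) (a i * n + b i) :=
      funext fun n => expand (fun i β => G y β (a i * n + b i)) fun _ => rfl
    have e5 := expand (k := k) (fun _ β => av (G y β) N) fun _ => av_const 1 hN
    rw [prod_const, card_univ, Fintype.card_fin] at e5
    push_cast
    rw [e1, e2, e4, av_sum]
    simp only [mul_sub, sum_sub_distrib]
    rw [← e5]
    rfl
  rw [← Real.norm_eq_abs, ← Complex.norm_real, e3]
  refine (norm_sum_le _ _).trans (sum_le_sum fun s _ => ?_)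
  rw [norm_mul, norm_prod]
  exact mul_le_of_le_one_left (norm_nonneg _)
    (prod_le_one (fun _ _ => norm_nonneg _) fun i _ => norm_c _)

end IndP

open IndP

theorem ind (h : S_G) : S_Ind := by
  intro k a b η δ ha hab hη hδ
  have hK : (0 : ℝ) < 2 ^ k := by positivity
  filter_upwards [h k a b η (δ / 2 ^ k) ha hab hη (by positivity)] with X hX y hy
  have hy0 : 0 ≤ y := le_trans (by positivity) hy
  have h1 : ∀ s : Fin k → Bool, ∑ N ∈ Icc 1 X, (1 / (N : ℝ)) *
      ‖av (fun n => ∏ i, G y (s i) (a i * n + b i)) N - ∏ i, av (G y (s i)) N‖ ≤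
      δ / 2 ^ k * Real.log X := fun s => hX (fun i => G y (s i)) fun i => by
    cases s i
    · exact ⟨ucm_one, tr_one _⟩
    · exact ⟨ucm_sg y, (tr_sg y).mono hy⟩
  have h2 := sum_le_sum fun s (_ : s ∈ (univ : Finset (Fin k → Bool))) => h1 s
  rw [sum_const, card_univ, Fintype.card_fun, Fintype.card_bool, Fintype.card_fin, nsmul_eq_mul,
    sum_comm] at h2
  have e : ((2 ^ k : ℕ) : ℝ) * (δ / 2 ^ k * Real.log X) = δ * Real.log X := by
    push_cast
    field_simp
  rw [e] at h2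
  refine le_trans (le_trans (sum_le_sum fun N hN => ?_)
    (sum_le_sum_of_subset_of_nonneg (filter_subset _ _) fun N _ _ => ?_)) h2
  · obtain ⟨hN1, hN2, hN3⟩ := mem_filter.1 hN
    rw [← mul_sum]
    exact mul_le_mul_of_nonneg_left (key ha hy0 (mem_Icc.1 hN1).1 hN2 hN3) (by positivity)
  · exact sum_nonneg fun s _ => by positivity

end Pool.Agent.P.MP_746f10_nt.LP
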