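import Pool.Agent.P.MP_746f10_nt.LP.St
import Pool.Agent.P.MP_a14ce1_nt.IV.Init

/-! The first step, centred at the running mean. -/

open Finset Filter MeasureTheory
open scoped ComplexConjugate

namespace Pool.Agent.P.MP_746f10_nt.LP

open Pool.Agent.P.MP_a14ce1_nt
open Pool.Agent.P.MP_a14ce1_nt.V (av)
open Pool.Agent.P.MP_a14ce1_nt.IV (Hull cell wa ws gn)
open Pool.Agent.P.MP_a14ce1_nt.IV.InitP

namespace InitP

theorem window2 {φ : ℕ → ℂ} (hφ : ∀ n, ‖φ n‖ ≤ 2) {x H h : ℕ} (hx : 1 ≤ x) (h0 : 0 < h)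
    (hh : h ≤ H) : ‖∑ n ∈ Ico x (x + H), φ n‖ ≤
      ∑ j ∈ Ico (x / h + 1) ((x + H) / h), ‖∑ n ∈ cell (h : ℝ) j, φ n‖ + 4 * h := by
  have h1 := window (φ := fun n => φ n / 2) (fun n _ => by
    rw [norm_div, Complex.norm_two]
    linarith [hφ n]) hx h0 hh
  simp only [← sum_div, norm_div, Complex.norm_two] at h1
  linarith

theorem centre {f b : ℕ → ℂ} (hf : ∀ n, ‖f n‖ ≤ 1) (hb : ∀ n, ‖b n‖ ≤ 1) {h j : ℕ} (h0 : 0 < h)
    (hj : 1 ≤ j) : ‖∑ n ∈ cell (h : ℝ) j, Ax.pc (fc f) b n‖ / h - 2 / j ≤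
      ‖∑ n ∈ cell (h : ℝ) j, (f n - av f (j * h)) * conj (b n)‖ / h := by
  have hh : (0 : ℝ) < h := by exact_mod_cast h0
  have hj' : (0 : ℝ) < j := by exact_mod_cast hj
  have e3 : (cell (h : ℝ) j).card = h := by
    rw [cell_nat, Nat.card_Ico, add_mul, one_mul, Nat.add_sub_cancel_left]
  have e1 : ‖∑ n ∈ cell (h : ℝ) j, Ax.pc (fc f) b n -
      ∑ n ∈ cell (h : ℝ) j, (f n - av f (j * h)) * conj (b n)‖ ≤ h * (2 / j) := by
    rw [← sum_sub_distrib]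
    refine (norm_sum_le _ _).trans ((sum_le_card_nsmul _ _ (2 / (j : ℝ)) fun n hn => ?_).trans
      (by rw [e3, nsmul_eq_mul]))
    rw [cell_nat, mem_Ico] at hn
    have n1 : 1 ≤ n := (Nat.mul_pos hj h0).trans_le hn.1
    have a1 := av_sub_le hf hn.1 n1
    have a2 : (j : ℝ) * h ≤ n := by exact_mod_cast hn.1
    have a3 : (n : ℝ) ≤ (j + 1) * h := by exact_mod_cast hn.2.le
    have e : Ax.pc (fc f) b n - (f n - av f (j * h)) * conj (b n) =
        -(av f n - av f (j * h)) * conj (b n) := by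
      rw [Ax.pc, fc]
      ring
    rw [e, norm_mul, norm_neg, RCLike.norm_conj]
    refine (mul_le_of_le_one_right (norm_nonneg _) (hb n)).trans (a1.trans ?_)
    push_cast
    rw [div_le_div_iff₀ (by exact_mod_cast n1) hj']
    nlinarith
  have e2 := norm_sub_norm_le (∑ n ∈ cell (h : ℝ) j, Ax.pc (fc f) b n)
    (∑ n ∈ cell (h : ℝ) j, (f n - av f (j * h)) * conj (b n))
  rw [sub_le_iff_le_add, div_le_iff₀ hh, add_mul, div_mul_cancel₀ _ hh.ne']
  linarith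

end InitP

open InitP in
theorem init (hH : IV.S_Hull) (h3 : IV.S_W3) (hB : S_Base) (hG : S_Gain) : S_Init := by
  classical
  intro A c ε hA h1A hc hε
  have hX := hH A hA
  obtain ⟨c1, hc0, hc1, hc2⟩ : ∃ c1 : ℝ, 0 < c1 ∧ c1 ≤ c ∧ c1 ≤ 1 :=
    ⟨min c 1, lt_min hc one_pos, min_le_left _ _, min_le_right _ _⟩
  obtain ⟨τ, hτ0, hτ1, hτ2⟩ : ∃ τ : ℝ, 0 < τ ∧ τ ≤ 1 ∧ τ ≤ c1 * ε / 64 :=
    ⟨min 1 (c1 * ε / 64), lt_min one_pos (by positivity), min_le_left _ _, min_le_right _ _⟩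
  refine ⟨τ * (c1 * ε) / 32, by positivity, fun H1 => ⟨⌈8 * (H1 + 1) / c1⌉₊, fun H hH0 => ?_⟩⟩
  obtain ⟨h, hh1, hh2⟩ : ∃ h : ℕ, H1 + 1 ≤ h ∧ (h : ℝ) ≤ c1 * H / 8 := by
    refine ⟨⌊c1 * H / 8⌋₊, Nat.le_floor ?_, Nat.floor_le (by positivity)⟩
    have := Nat.ceil_le.1 hH0
    rw [div_le_iff₀ hc0] at this
    push_cast
    linarith
  have hH' : (0 : ℝ) ≤ H := Nat.cast_nonneg H
  have hhH : h ≤ H := by
    have : (h : ℝ) ≤ H := by nlinarith
    exact_mod_cast this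
  have h0 : 0 < h := by omega
  refine ⟨h, by omega, ?_⟩
  have hlog : Tendsto (fun X : ℕ => Real.log X) atTop atTop :=
    Real.tendsto_log_atTop.comp tendsto_natCast_atTop_atTop
  filter_upwards [hlog.eventually_ge_atTop (4 * H / ε), eventually_ge_atTop h,
    hlog.eventually_gt_atTop ((81 + Real.log h) / (τ * (c1 * ε) / 32))] with X hX1 hX3 hX2 f hf hd
  rw [div_le_iff₀ hε] at hX1
  rw [div_lt_iff₀ (by positivity)] at hX2
  have hL : 0 ≤ Real.log X := Real.log_natCast_nonneg X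
  by_contra hcon
  rw [not_le] at hcon
  set G := (Icc 1 X).filter
    (fun x => ∃ a ∈ A, c * H ≤ ‖∑ n ∈ Ico x (x + H), Ax.pc (fc f) a n‖) with hG'
  have hne : G.Nonempty := by
    rw [nonempty_iff_ne_empty]
    intro e
    rw [e, sum_empty] at hcon
    exact absurd hcon (not_lt.2 (by positivity))
  have ha : ∀ x, ∃ a ∈ A, x ∈ G → c * H ≤ ‖∑ n ∈ Ico x (x + H), Ax.pc (fc f) a n‖ := fun x => by
    by_cases hx : x ∈ G
    · obtain ⟨a, h1, h2⟩ := (mem_filter.1 hx).2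
      exact ⟨a, h1, fun _ => h2⟩
    · obtain ⟨a, h1⟩ := hA.ne
      exact ⟨a, h1, fun h2 => absurd h2 hx⟩
  choose a haA ha using ha
  have hy : ∀ j, ∃ y ∈ G, ∀ x ∈ G, ‖∑ n ∈ cell (h : ℝ) j, Ax.pc (fc f) (a x) n‖ ≤
      ‖∑ n ∈ cell (h : ℝ) j, Ax.pc (fc f) (a y) n‖ := fun j => G.exists_max_image _ hne
  choose y _ hy using hy
  let s : ℕ → ℝ := fun j => ‖∑ n ∈ cell (h : ℝ) j, Ax.pc (fc f) (a (y j)) n‖
  have e1 := count (s := s) (fun j => norm_nonneg _) (G := G.filter fun x => H ≤ x ∧ x + H ≤ X)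
    (X := X) h0 (h0.trans_le hhH) (fun x hx => (mem_filter.1 hx).2) (b := c1 / 2) fun x hx => by
      have hxG := (mem_filter.1 hx).1
      have h1 := window2 (φ := Ax.pc (fc f) (a x)) (fun n => by
        rw [Ax.pc, norm_mul, RCLike.norm_conj]
        refine (mul_le_of_le_one_right (norm_nonneg _) (hA.bd _ (haA x) n)).trans ?_
        rw [fc]
        linarith [norm_sub_le (f n) (av f n), hf.1.bd n, V.norm_av_le hf.1.bd n])
        (mem_Icc.1 (mem_filter.1 hxG).1).1 h0 hhH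
      have h2 := sum_le_sum fun j (_ : j ∈ Ico (x / h + 1) ((x + H) / h)) => hy j x hxG
      have h4 := ha x hxG
      have h5 := mul_le_mul_of_nonneg_right hc1 hH'
      simp only [s]
      linarith
  have e2 : ∑ x ∈ G.filter (fun x => ¬(H ≤ x ∧ x + H ≤ X)), 1 / (x : ℝ) ≤ 2 * H := by
    have h1 : G.filter (fun x => ¬(H ≤ x ∧ x + H ≤ X)) ⊆ range H ∪ Ioc (X - H) X := by
      intro x hx
      have h1 := (mem_filter.1 hx).2
      have h2 := mem_Icc.1 (mem_filter.1 (mem_filter.1 hx).1).1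
      rw [mem_union, mem_range, mem_Ioc]
      omega
    have h2 := (card_le_card h1).trans (card_union_le _ _)
    rw [card_range, Nat.card_Ioc] at h2
    refine (sum_le_card_nsmul _ _ 1 fun x _ => ?_).trans ?_
    · rw [one_div]
      exact Nat.cast_inv_le_one x
    · rw [nsmul_eq_mul, mul_one]
      exact_mod_cast h2.trans (by omega)
  have e3 := sum_filter_add_sum_filter_not G (fun x => H ≤ x ∧ x + H ≤ X) fun x => 1 / (x : ℝ)
  have e4 : c1 * ε / 8 * Real.log X ≤ ∑ j ∈ Ico 1 (X / h), 1 / (j : ℝ) * (s j / h) := by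
    refine le_trans ?_ e1
    have : ε / 2 * Real.log X ≤
        ∑ x ∈ G.filter (fun x => H ≤ x ∧ x + H ≤ X), 1 / (x : ℝ) := by linarith
    nlinarith
  choose u hu hu' using fun j => hG _ hX (subset_convexHull ℝ A h1A) f (a (y j)) (av f (j * h)) τ h j
    hf.1.bd (subset_convexHull ℝ A (haA (y j))) (V.norm_av_le hf.1.bd _) hτ0.le hτ1 h0
  have e5 := (h3 _ hX f u h X (X / h) hf hu (by exact_mod_cast h0)
    (by exact_mod_cast Nat.div_mul_le_self X h)).dst_le h0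
  have e6 : ∑ j ∈ Ico 1 (X / h), 1 / (j : ℝ) * (wa (h : ℝ) j (fun m => gn (f m) (av f (j * h))) +
      τ * (s j / h - 2 / j) - 4 * τ ^ 2) ≤ ws h (X / h) fun j m => gn (f m) (u j m) :=
    sum_le_sum fun j hj => mul_le_mul_of_nonneg_left (le_trans (by
      have := mul_le_mul_of_nonneg_left
        (centre hf.1.bd (hA.bd _ (haA (y j))) h0 (mem_Ico.1 hj).1) hτ0.le
      simp only [s]
      linarith) (hu' j)) (by positivity)
  have e7 : ∑ j ∈ Ico 1 (X / h), 1 / (j : ℝ) * (wa (h : ℝ) j (fun m => gn (f m) (av f (j * h))) +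
      τ * (s j / h - 2 / j) - 4 * τ ^ 2) = (ws h (X / h) fun j m => gn (f m) (av f (j * h))) +
        τ * ∑ j ∈ Ico 1 (X / h), 1 / (j : ℝ) * (s j / h) -
        2 * τ * ∑ j ∈ Ico 1 (X / h), ((j : ℝ) ^ 2)⁻¹ -
        4 * τ ^ 2 * ∑ j ∈ Ico 1 (X / h), 1 / (j : ℝ) := by
    rw [ws, mul_sum, mul_sum, mul_sum, ← sum_add_distrib, ← sum_sub_distrib, ← sum_sub_distrib]
    exact sum_congr rfl fun j _ => by ring
  have e8 : ∑ j ∈ Ico 1 (X / h), 1 / (j : ℝ) ≤ 1 + Real.log X := by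
    refine le_trans (sum_le_sum_of_subset_of_nonneg (fun j hj => ?_) fun _ _ _ => by positivity)
      (IV.harm_le X)
    have h1 := mem_Ico.1 hj
    exact mem_Icc.2 ⟨h1.1, h1.2.le.trans (Nat.div_le_self _ _)⟩
  have e14 : ∑ j ∈ Ico 1 (X / h), ((j : ℝ) ^ 2)⁻¹ ≤ 2 := by
    have := sum_Ioo_inv_sq_le (α := ℝ) 0 (X / h)
    rw [Nat.cast_zero, zero_add, div_one] at this
    exact this
  have e15 := hB f h X hf.1.bd h0 hX3
  have e9 := mul_le_mul_of_nonneg_left e4 hτ0.le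
  have e10 := mul_le_mul_of_nonneg_left e8 (sq_nonneg τ)
  have e11 : τ ^ 2 ≤ 1 := pow_le_one₀ hτ0.le hτ1
  have e12 : τ ^ 2 * Real.log X ≤ τ * (c1 * ε / 64) * Real.log X :=
    mul_le_mul_of_nonneg_right (by nlinarith) hL
  have e16 := mul_le_mul_of_nonneg_left e14 hτ0.le
  linarith

end Pool.Agent.P.MP_746f10_nt.LP
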