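import Pool.Agent.P.MP_746f10_nt.LP.St

/-! From the tilted step, the iteration and the first step to centred local uniformity. -/

open Finset Filter

namespace Pool.Agent.P.MP_746f10_nt.LP

open Pool.Agent.P.MP_a14ce1_nt
open Pool.Agent.P.MP_a14ce1_nt.V (av cube)
open Pool.Agent.P.MP_e30989_nt.W (UCM)

theorem lift (hH : IV.S_Hull) (hW : IV.S_ESW) (hE : S_End) (hL : S_Low) (hT : S_Tilt)
    (hI : IV.S_Iter) : S_Lift := by
  intro A hA η δ hη hδ
  have hh := hH _ hA.sys.atm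
  obtain ⟨κ, hκ, h⟩ := hT _ hh (hW _ hA.sys) (hL A hA.sys.atm (hE A hA.dec)) η (δ / 2) hη
    (by positivity)
  obtain ⟨κ0, H0, h0, h1, hI⟩ := hI _ hA.sys (δ / 2) κ (by positivity) hκ
  refine ⟨H0, fun H hH => ?_⟩
  have ht : Tendsto (fun X : ℕ => (X : ℝ) ^ κ0) atTop atTop :=
    (tendsto_rpow_atTop h0).comp tendsto_natCast_atTop_atTop
  filter_upwards [h κ0 h0 h1, ht.eventually_ge_atTop 2, hI H hH] with X hX h2 h3 f hf hT
  have h4 : (1 - δ / 2) * Real.log X - en f X ≤ Ax.dst (Ax.res A) f ⌈(X : ℝ) ^ κ0⌉₊ X := by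
    by_contra hc
    refine hX f hf hT _ (Nat.le_ceil _) ?_
      (IV.app_of_lt hh (Nat.ceil_pos.2 (by linarith)) (not_le.1 hc))
    have := Nat.ceil_lt_add_one (show 0 ≤ (X : ℝ) ^ κ0 by positivity)
    rw [mul_comm, Real.rpow_mul (Nat.cast_nonneg X), Real.rpow_two]
    nlinarith
  linarith [h3 f hf]

theorem lu (hG : S_GI) (hL : S_Lift) (hI : S_Init) : S_LU := by
  classical
  intro k η δ hη hδ
  obtain ⟨A, c, H0, hA, h1, hc, hG⟩ := hG k δ hδ
  obtain ⟨δ1, hδ1, hI⟩ := hI _ c δ hA.sys.atm h1 hc hδ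
  obtain ⟨H1, hL⟩ := hL A hA η δ1 hη hδ1
  obtain ⟨H2, hI⟩ := hI H1
  refine ⟨c, max H0 H2, hc, fun H hH => ?_⟩
  obtain ⟨H', h2, h3⟩ := hI H ((le_max_right _ _).trans hH)
  filter_upwards [hL H' h2, h3] with X a b f hf hT
  refine ⟨_, b f hf (a f hf hT), fun x hx hxB μ hμ hm => ?_⟩
  by_contra hcon
  obtain ⟨u, hu, h4⟩ := hG (fun n => (f n - μ) / 2) x H (fun n => by
    rw [norm_div, Complex.norm_ofNat, div_le_one two_pos]
    linarith [norm_sub_le (f n) μ, hf.1.bd n]) ((le_max_left _ _).trans hH) (not_le.1 hcon).le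
  refine hxB (mem_filter.2 ⟨hx, u, hu, ?_⟩)
  have e : ∑ n ∈ Ico x (x + H), Ax.pc (fun n => (f n - μ) / 2) u n * 2 =
      ∑ n ∈ Ico x (x + H), Ax.pc (fc f) u n -
        ∑ n ∈ Ico x (x + H), (μ - av f n) * (starRingEnd ℂ) (u n) := by
    rw [← sum_sub_distrib]
    exact sum_congr rfl fun n _ => by simp only [Ax.pc, fc]; ring
  have h5 : ‖∑ n ∈ Ico x (x + H), (μ - av f n) * (starRingEnd ℂ) (u n)‖ ≤ c * H := by
    refine (norm_sum_le _ _).trans ((sum_le_card_nsmul _ _ c fun n hn => ?_).trans (le_of_eq ?_))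
    · rw [norm_mul, RCLike.norm_conj]
      exact (mul_le_of_le_one_right (norm_nonneg _) (hA.sys.atm.bd u hu n)).trans (hm n hn)
    · rw [Nat.card_Ico, Nat.add_sub_cancel_left, nsmul_eq_mul, mul_comm]
  have h6 := norm_sub_le (∑ n ∈ Ico x (x + H), Ax.pc (fc f) u n)
    (∑ n ∈ Ico x (x + H), (μ - av f n) * (starRingEnd ℂ) (u n))
  rw [← e, ← sum_mul, norm_mul, Complex.norm_ofNat] at h6
  linarith

end Pool.Agent.P.MP_746f10_nt.LP
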