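import Pool.Agent.P.MP_746f10_nt.LP.St

/-! The running mean varies slowly. -/

open Finset Filter MeasureTheory
open scoped ComplexConjugate

namespace Pool.Agent.P.MP_746f10_nt.LP

open Pool.Agent.P.MP_a14ce1_nt
open Pool.Agent.P.MP_a14ce1_nt.Ch (CM rs om pr Fx pv)
open Pool.Agent.P.MP_a14ce1_nt.V (av cube PP)

namespace LipP

theorem abel {c : ℕ → ℝ} {E : ℝ} (h0 : ∀ d, 0 ≤ c d) (hE : ∀ N : ℕ, ∑ d ∈ Ioc 1 N, c d ≤ E * N)
    {M N : ℕ} (hM : 1 ≤ M) (hN : M ≤ N) :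
    ∑ d ∈ Ioc M N, c d / d ≤ (∑ d ∈ Ioc 1 N, c d) / N + E * Real.log ((N : ℝ) / M) := by
  have hM0 : (0 : ℝ) < M := by exact_mod_cast hM
  have hE0 : 0 ≤ E := by simpa using hE 1
  induction N, hN using Nat.le_induction with
  | base =>
    rw [Ioc_self, sum_empty, div_self hM0.ne', Real.log_one, mul_zero, add_zero]
    exact div_nonneg (sum_nonneg fun d _ => h0 d) hM0.le
  | succ N hN ih =>
    have hN0 : (0 : ℝ) < N := by exact_mod_cast (by omega : 0 < N)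
    rw [sum_Ioc_succ_top hN, sum_Ioc_succ_top (hM.trans hN), Nat.cast_succ]
    have e1 : Real.log (((N : ℝ) + 1) / M) =
        Real.log ((N : ℝ) / M) + Real.log (((N : ℝ) + 1) / N) := by
      rw [← Real.log_mul (by positivity) (by positivity)]
      congr 1
      field_simp
    have e2 : 1 / ((N : ℝ) + 1) ≤ Real.log (((N : ℝ) + 1) / N) := by
      refine le_trans (le_of_eq ?_) (Real.one_sub_inv_le_log_of_pos (by positivity))
      field_simp
      ring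
    have e3 : (∑ d ∈ Ioc 1 N, c d) / N ≤
        (∑ d ∈ Ioc 1 N, c d) / ((N : ℝ) + 1) + E * (1 / ((N : ℝ) + 1)) := by
      have h1 : (∑ d ∈ Ioc 1 N, c d) / N ≤ E := (div_le_iff₀ hN0).2 (hE N)
      have h2 : (∑ d ∈ Ioc 1 N, c d) / N = (∑ d ∈ Ioc 1 N, c d) / ((N : ℝ) + 1) +
          (∑ d ∈ Ioc 1 N, c d) / N * (1 / ((N : ℝ) + 1)) := by
        field_simp
      have h3 := mul_le_mul_of_nonneg_right h1 (by positivity : 0 ≤ 1 / ((N : ℝ) + 1))
      linarith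
    rw [e1, add_div, mul_add]
    linarith [mul_le_mul_of_nonneg_left e2 hE0]

theorem swap {g h : ℕ → ℂ} (hg : ∀ n, n ≠ 0 → g n = ∑ d ∈ n.divisors, h d) (N : ℕ) :
    (N : ℂ) * av g N = ∑ d ∈ Ioc 0 N, h d * ((N / d : ℕ) : ℂ) := by
  have e : Icc 1 N = Ioc 0 N := by ext n; simp only [mem_Icc, mem_Ioc]; omega
  rw [mul_av, e, sum_congr rfl fun n hn => hg n (mem_Ioc.1 hn).1.ne',
    sum_comm' (t' := Ioc 0 N) (s' := fun d => (Ioc 0 N).filter fun n => d ∣ n)]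
  · refine sum_congr rfl fun d _ => ?_
    rw [sum_const, Nat.Ioc_filter_dvd_card_eq_div, nsmul_eq_mul, mul_comm]
  · intro n d
    simp only [mem_Ioc, Nat.mem_divisors, mem_filter]
    constructor
    · rintro ⟨⟨a, b⟩, c, -⟩
      exact ⟨⟨⟨a, b⟩, c⟩, Nat.pos_of_dvd_of_pos c a, (Nat.le_of_dvd a c).trans b⟩
    · rintro ⟨⟨⟨a, b⟩, c⟩, -⟩
      exact ⟨⟨a, b⟩, c, a.ne'⟩

theorem near {g h : ℕ → ℂ} (hg : ∀ n, n ≠ 0 → g n = ∑ d ∈ n.divisors, h d) {N : ℕ} (hN : 1 ≤ N) :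
    ‖av g N - ∑ d ∈ Ioc 0 N, h d / d‖ ≤ (∑ d ∈ Ioc 1 N, ‖h d‖) / N := by
  have hN0 : (0 : ℝ) < N := by exact_mod_cast hN
  have e : (N : ℂ) * (av g N - ∑ d ∈ Ioc 0 N, h d / d) =
      ∑ d ∈ Ioc 1 N, h d * ((((N / d : ℕ) : ℝ) - (N : ℝ) / d : ℝ) : ℂ) := by
    rw [mul_sub, swap hg, mul_sum, ← sum_sub_distrib, ← sum_Ioc_consecutive _ zero_le_one hN]
    have : ∑ d ∈ Ioc 0 1, (h d * ((N / d : ℕ) : ℂ) - N * (h d / d)) = 0 := by
      simp [mul_comm]
    rw [this, zero_add]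
    refine sum_congr rfl fun d _ => ?_
    push_cast
    ring
  rw [le_div_iff₀' hN0, ← Complex.norm_natCast, ← norm_mul, e]
  refine (norm_sum_le _ _).trans (sum_le_sum fun d hd => ?_)
  rw [norm_mul, Complex.norm_real, Real.norm_eq_abs]
  refine mul_le_of_le_one_right (norm_nonneg _) (abs_le.2 ⟨?_, ?_⟩)
  · have := Nat.lt_floor_add_one ((N : ℝ) / d)
    rw [Nat.floor_div_eq_div] at this
    linarith
  · linarith [Nat.cast_div_le (α := ℝ) (m := N) (n := d)]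

theorem core {g h : ℕ → ℂ} (hg : ∀ n, n ≠ 0 → g n = ∑ d ∈ n.divisors, h d) {c : ℕ → ℝ} {E : ℝ}
    (h0 : ∀ d, 0 ≤ c d) (hE : ∀ N : ℕ, ∑ d ∈ Ioc 1 N, c d ≤ E * N) {M N : ℕ} (hM : 1 ≤ M)
    (hN : M ≤ N) (hc : ∀ d, d ≠ 0 → d ≤ N → ‖h d‖ ≤ c d) :
    ‖av g N - av g M‖ ≤ 3 * E * (1 + Real.log ((N : ℝ) / M)) := by
  have hM0 : (0 : ℝ) < M := by exact_mod_cast hM
  have hN0 : (0 : ℝ) < N := by exact_mod_cast hM.trans hN
  have hE0 : 0 ≤ E := by simpa using hE 1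
  have hl : 0 ≤ Real.log ((N : ℝ) / M) :=
    Real.log_nonneg ((one_le_div hM0).2 (by exact_mod_cast hN))
  have a : ∀ L : ℕ, 1 ≤ L → L ≤ N → ‖av g L - ∑ d ∈ Ioc 0 L, h d / d‖ ≤ E := fun L h1 h2 => by
    refine (near hg h1).trans ((div_le_iff₀ (by exact_mod_cast h1)).2 (le_trans ?_ (hE L)))
    exact sum_le_sum fun d hd => hc d (by have := (mem_Ioc.1 hd).1; omega)
      ((mem_Ioc.1 hd).2.trans h2)
  have b : ‖∑ d ∈ Ioc M N, h d / d‖ ≤ E + E * Real.log ((N : ℝ) / M) := by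
    refine (norm_sum_le _ _).trans ((sum_le_sum fun d hd => ?_).trans ((abel h0 hE hM hN).trans ?_))
    · rw [norm_div, Complex.norm_natCast]
      exact div_le_div_of_nonneg_right
        (hc d (by have := (mem_Ioc.1 hd).1; omega) (mem_Ioc.1 hd).2) (Nat.cast_nonneg d)
    · linarith [(div_le_iff₀ hN0).2 (hE N)]
  have e : av g N - av g M = (av g N - ∑ d ∈ Ioc 0 N, h d / d) -
      (av g M - ∑ d ∈ Ioc 0 M, h d / d) + ∑ d ∈ Ioc M N, h d / d := by
    rw [← sum_Ioc_consecutive _ (Nat.zero_le M) hN]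
    ring
  rw [e]
  have a1 := a N (hM.trans hN) le_rfl
  have a2 := a M hM hN
  have a3 := norm_add_le ((av g N - ∑ d ∈ Ioc 0 N, h d / d) -
    (av g M - ∑ d ∈ Ioc 0 M, h d / d)) (∑ d ∈ Ioc M N, h d / d)
  have a4 := norm_sub_le (av g N - ∑ d ∈ Ioc 0 N, h d / d) (av g M - ∑ d ∈ Ioc 0 M, h d / d)
  nlinarith [mul_nonneg hE0 hl]

end LipP

theorem lip (h1 : S_RC) (h2 : S_Conv) : S_Lip := by
  intro η K hη
  obtain ⟨C, y0, hC, hR⟩ := h1
  refine ⟨3 * (2 ^ ⌈2 * K / η⌉₊ * (C * (2 / η))), by positivity, ?_⟩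
  have ht : Tendsto (fun X : ℕ => ⌊(X : ℝ) ^ η⌋₊) atTop atTop :=
    tendsto_nat_floor_atTop.comp ((tendsto_rpow_atTop hη).comp tendsto_natCast_atTop_atTop)
  filter_upwards [ht.eventually_ge_atTop y0, ht.eventually_ge_atTop 2, eventually_ge_atTop 2]
    with X hy0 hy2 hX g hg hT M N hM hN hK
  set y := ⌊(X : ℝ) ^ η⌋₊ with hy
  set K' := ⌈2 * K / η⌉₊ with hK'
  have hX1 : (1 : ℝ) < X := by exact_mod_cast hX
  have hy' : (2 : ℝ) ≤ y := by exact_mod_cast hy2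
  have hlX : 0 < Real.log X := Real.log_pos hX1
  have hly : 0 < Real.log y := Real.log_pos (by linarith)
  have l1 : η * Real.log X ≤ 2 * Real.log y := by
    have a1 : (X : ℝ) ^ η ≤ (y : ℝ) ^ 2 := by
      have := Nat.lt_floor_add_one ((X : ℝ) ^ η)
      rw [← hy] at this
      nlinarith
    have a2 := Real.log_le_log (by positivity) a1
    rwa [Real.log_rpow (by positivity), Real.log_pow, Nat.cast_ofNat] at a2
  have l2 : X ^ K ≤ y ^ K' := by
    have a1 : 2 * K / η ≤ (K' : ℝ) := Nat.le_ceil _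
    rw [div_le_iff₀ hη] at a1
    have a2 : (K : ℝ) * Real.log X ≤ K' * Real.log y := by
      refine le_of_mul_le_mul_left ?_ hη
      nlinarith [mul_le_mul_of_nonneg_left l1 (Nat.cast_nonneg (α := ℝ) K),
        mul_le_mul_of_nonneg_right a1 hly.le]
    rw [← Real.log_pow, ← Real.log_pow, Real.log_le_log_iff (by positivity) (by positivity)] at a2
    exact_mod_cast a2
  obtain ⟨h, -, hh, hz, hb⟩ := h2 y g hy2 hg (hT.mono (Nat.floor_le (by positivity)))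
  have l3 : C / Real.log y ≤ C * (2 / η) / Real.log X := by
    rw [div_le_div_iff₀ hly hlX, mul_assoc]
    refine mul_le_mul_of_nonneg_left ?_ hC.le
    rw [div_mul_eq_mul_div, le_div_iff₀' hη]
    exact l1
  have := LipP.core hh (c := fun d => if Nat.Coprime d (primorial y) then 2 ^ K' else 0)
    (E := 2 ^ K' * (C * (2 / η)) / Real.log X) (fun d => by split_ifs <;> positivity)
    (fun L => by
      rw [← sum_filter, sum_const, nsmul_eq_mul, mul_comm, mul_div_assoc, mul_assoc]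
      refine mul_le_mul_of_nonneg_left ((hR y hy0 L).trans ?_) (by positivity)
      rw [mul_div_right_comm]
      exact mul_le_mul_of_nonneg_right l3 (Nat.cast_nonneg L)) hM hN
    (fun d d0 dN => by
      split_ifs with c
      · exact hb d K' d0 (dN.trans (hK.trans l2))
      · rw [hz d c, norm_zero])
  refine this.trans (le_of_eq ?_)
  ring

theorem sv (h : S_Lip) : S_SV := by
  intro η e Z K hη he
  obtain ⟨C, hC, h⟩ := h η K hη
  have ht : Tendsto (fun X : ℕ => Real.log X) atTop atTop :=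
    Real.tendsto_log_atTop.comp tendsto_natCast_atTop_atTop
  filter_upwards [h, ht.eventually_ge_atTop (C * (1 + Real.log (max Z 1)) / e),
    ht.eventually_gt_atTop 0] with X hX hl hl0 g hg hT
  have key : ∀ M N : ℕ, 1 ≤ M → M ≤ N → N ≤ X ^ K → (N : ℝ) ≤ Z * M →
      ‖av g N - av g M‖ ≤ e := fun M N hM hN hK hZ => by
    have hM0 : (0 : ℝ) < M := by exact_mod_cast hM
    have hN0 : (0 : ℝ) < N := by exact_mod_cast hM.trans hN
    refine (hX g hg hT M N hM hN hK).trans ?_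
    rw [div_le_iff₀' he] at hl
    rw [div_le_iff₀ hl0]
    refine le_trans (mul_le_mul_of_nonneg_left ?_ hC.le) hl
    have : (N : ℝ) / M ≤ max Z 1 := ((div_le_iff₀ hM0).2 hZ).trans (le_max_left _ _)
    linarith [Real.log_le_log (by positivity) this]
  intro M N hM hN hMK hNK h1 h2
  rcases le_total M N with c | c
  · exact key M N hM c hNK h2
  · rw [norm_sub_rev]
    exact key N M hN c hMK h1

end Pool.Agent.P.MP_746f10_nt.LP
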