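import Pool.Agent.P.MP_746f10_nt.LP.St
import Pool.Agent.P.MP_a14ce1_nt.IV.Low

/-!
The low part of the decomposition does not correlate with the centred function.
-/

open Finset Filter MeasureTheory
open scoped ComplexConjugate

namespace Pool.Agent.P.MP_746f10_nt.LP

open Pool.Agent.P.MP_a14ce1_nt
open Pool.Agent.P.MP_a14ce1_nt.Ch (CM rs om pr Fx pv)
open Pool.Agent.P.MP_a14ce1_nt.V (av cube PP)
open Pool.Agent.P.MP_a14ce1_nt.IV (Hull ESW App cell wa ws gn Ew pS)
open Pool.Agent.P.MP_e30989_nt.W (UCM tw)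
open Pool.Agent.P.MP_a14ce1_nt.IV.LowP

namespace LowQ

variable {ι : Type} [Fintype ι] [DecidableEq ι] {P : ι → Finset ℕ}

/-- freezing the coordinates in T -/
theorem freeze {f : ℕ → ℂ} (hf : UCM f) (μ : ℂ) {R : ℝ} (hR : 0 < R) {j : ℕ} (hj : 1 ≤ j)
    (hp : ∀ a ∈ Fintype.piFinset P, ∀ S, 0 < pS S a ∧ f (pS S a) = 1) (T : Finset ι)
    (M : (ι → ℕ) → ℕ → ℂ) (hM : ∀ a a', (∀ k ∈ T, a k = a' k) → M a = M a') {b : ι → ℕ}
    (hb : b ∈ Fintype.piFinset P) :
    (Ew P fun a => wa (R / pS univ (T.piecewise b a)) j fun m =>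
      (f (pS univ (T.piecewise b a) * m) - μ) *
        conj (M (T.piecewise b a) (pS univ (T.piecewise b a) * m))) =
    LL P (fun n => f n - μ) Tᶜ (R / pS T b) j fun n => M b (pS T b * n) := by
  change _ = Ew P fun a => wa (R / pS T b / pS Tᶜ a) j fun m =>
    (f (pS Tᶜ a * m) - μ) * conj (M b (pS T b * (pS Tᶜ a * m)))
  refine Ew_congr fun a ha => ?_
  rw [hM (T.piecewise b a) b fun k hk => piecewise_eq_of_mem _ _ _ hk, pS_piecewise,
    Nat.cast_mul, ← div_div]
  unfold wa
  congr 1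
  refine sum_congr rfl fun m hm => ?_
  have h3 := hp b hb T
  have h4 := (hp a ha Tᶜ).1
  have hm0 : m ≠ 0 := by
    have h5 := (IV.mem_cell.1 hm).1
    have h7 := h3.1
    have h6 : (0 : ℝ) < j * (R / pS T b / pS Tᶜ a) := by positivity
    exact_mod_cast (h6.trans_le h5).ne'
  beta_reduce
  rw [mul_assoc (pS T b), hf.1.mul _ _ h3.1.ne' (Nat.mul_ne_zero h4.ne' hm0), h3.2, one_mul]

theorem near_compl {f : ℕ → ℂ} {R e : ℝ} {J : ℕ} {μ : ℕ → ℂ} (h : Near f P univ R J μ e)
    (T : Finset ι) {b : ι → ℕ} (hb : b ∈ Fintype.piFinset P) (b0 : 0 < pS T b) :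
    Near f P Tᶜ (R / pS T b) J μ e := by
  intro j hj a ha N h1 h2
  have b0' : (0 : ℝ) < pS T b := by exact_mod_cast b0
  have hm : T.piecewise b a ∈ Fintype.piFinset P := by
    refine Fintype.mem_piFinset.2 fun k => ?_
    by_cases hk : k ∈ T
    · rw [piecewise_eq_of_mem _ _ _ hk]
      exact Fintype.mem_piFinset.1 hb k
    · rw [piecewise_eq_of_notMem _ _ _ hk]
      exact Fintype.mem_piFinset.1 ha k
  refine h j hj _ hm N ?_ ?_
  · rw [pS_piecewise, Nat.cast_mul]
    rw [← mul_div_assoc, div_le_iff₀ b0'] at h1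
    exact h1.trans (le_of_eq (by ring))
  · rw [pS_piecewise, Nat.cast_mul]
    rw [← mul_div_assoc, ← mul_div_assoc, le_div_iff₀ b0'] at h2
    exact le_trans (le_of_eq (by ring)) h2

end LowQ

open LowQ in
theorem low (hH : IV.S_Hull) (hE : IV.S_Ew) : S_Low := by
  intro AA hA ⟨C, hC⟩
  have hX := hH _ hA
  refine ⟨C, fun n δ ε lam hδ hε hlam => ?_⟩
  have h4 : (0 : ℝ) < 4 ^ (10 * n) := by positivity
  filter_upwards [hC (Fin (10 * n)) δ (ε / 4 ^ (10 * n)) lam hδ (by positivity) hlam,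
    eventually_ge_atTop 1] with X hEnd hX1
  intro f hf hT0 P y R e J μ M hdis hy hyC hp hp1 hrs hR1 hR2 hJ hM hMT he hμ hN
  have hX1' : (1 : ℝ) ≤ X := by exact_mod_cast hX1
  have hy1 : 1 ≤ y := (Real.one_le_rpow hX1' hδ.le).trans hy
  have hy0 : 0 < y := by linarith
  have hR0 : 0 < R := lt_of_lt_of_le (by positivity) hR1
  have hP : ∀ k, 0 < rs (P k) := fun k => hlam.trans_le (hrs k)
  obtain ⟨E1, E2, -⟩ := hE _ P hP
  have hb := fun a (ha : a ∈ Fintype.piFinset P) => pS_bounds hy0.le hp ha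
  have hlog : 0 ≤ Real.log X := Real.log_nonneg hX1'
  have key : ∀ T : Finset (Fin (10 * n)), T.card ≤ n →
      ∑ j ∈ Ico 1 J, (1 / (j : ℝ)) * ‖Ew P fun a => wa (R / pS univ a) j fun m =>
        (f (pS univ a * m) - μ j) * conj (M j T a (pS univ a * m))‖ ≤
        (ε / 4 ^ (10 * n) + 16 * e) * Real.log X := by
    intro T hT
    obtain ⟨S2, hS2, hc2⟩ : ∃ S2 ⊆ Tᶜ, S2.card = 2 * n :=
      exists_subset_card_eq (by rw [card_compl, Fintype.card_fin]; omega)
    calc _ ≤ ∑ j ∈ Ico 1 J, (1 / (j : ℝ)) * Ew P fun b => ‖Ew P fun a =>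
          wa (R / pS univ (T.piecewise b a)) j fun m => (f (pS univ (T.piecewise b a) * m) - μ j) *
            conj (M j T (T.piecewise b a) (pS univ (T.piecewise b a) * m))‖ := by
          refine sum_le_sum fun j _ => mul_le_mul_of_nonneg_left ?_ (by positivity)
          rw [E2 ℂ _ T]
          exact norm_Ew_le hP _
      _ ≤ Ew P fun _ => (ε / 4 ^ (10 * n) + 16 * e) * Real.log X := by
          rw [Ew_sum]
          refine Ew_mono hP fun b hb' => ?_
          obtain ⟨b0, -, b2⟩ := hb b hb' T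
          have b0' : (0 : ℝ) < pS T b := by exact_mod_cast b0
          have b1' : (1 : ℝ) ≤ pS T b := by exact_mod_cast b0
          choose ψ hψ hle using fun j => exists_atom (hX.dil _ (hM j T b) _ b0)
            (LL P (fun n => f n - μ j) Tᶜ (R / pS T b) j)
          refine le_trans (sum_le_sum fun j hj => mul_le_mul_of_nonneg_left
            ((congrArg norm (freeze hf (μ j) hR0 (mem_Ico.1 hj).1 (fun a ha S =>
              pS_eq_one hf (fun k p hk => ⟨(hp k p hk).1.pos, hp1 k p hk⟩) ha S) T (M j T)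
              (hMT j T) hb')).le.trans (hle j)) (by positivity)) ?_
          refine hEnd f hf hT0 P Tᶜ S2 (R / pS T b) e J μ ψ hdis
            (fun k p hk => ⟨(hp k p hk).1, hy.trans_lt (hp k p hk).2.1, hp1 k p hk⟩) hrs hS2
            (fun a ha => ?_) ((div_le_self hR0.le b1').trans hR2) hJ hψ he hμ
            (near_compl hN T hb' b0)
          obtain ⟨-, a1, a2⟩ := hb a ha S2
          rw [hc2] at a1 a2
          constructor
          · have : (X : ℝ) ^ C ≤ pS S2 a :=
              (hyC.trans (pow_le_pow_right₀ hy1 (by omega))).trans a1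
            exact_mod_cast this
          · rw [le_div_iff₀ b0']
            calc _ ≤ y ^ (2 * (2 * n)) * y ^ n * y ^ (2 * T.card) := by gcongr
              _ = y ^ (2 * (2 * n) + n + 2 * T.card) := by rw [pow_add, pow_add]
              _ ≤ y ^ (10 * n) := pow_le_pow_right₀ hy1 (by omega)
              _ ≤ R := hR1
      _ = _ := E1 ℝ _
  set c := Nil.ES.cf (Nil.ES.lo (Fin (10 * n)) n) with hc
  calc _ ≤ ∑ j ∈ Ico 1 J, (1 / (j : ℝ)) * ∑ T, |c T| * ‖Ew P fun a => wa (R / pS univ a) j fun m =>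
        (f (pS univ a * m) - μ j) * conj (M j T a (pS univ a * m))‖ := by
        refine sum_le_sum fun j _ => mul_le_mul_of_nonneg_left ?_ (by positivity)
        rw [split fun n => f n - μ j]
        refine (norm_sum_le _ _).trans (le_of_eq (sum_congr rfl fun T _ => ?_))
        rw [norm_smul, Real.norm_eq_abs]
    _ = ∑ T, |c T| * ∑ j ∈ Ico 1 J, (1 / (j : ℝ)) * ‖Ew P fun a => wa (R / pS univ a) j fun m =>
        (f (pS univ a * m) - μ j) * conj (M j T a (pS univ a * m))‖ := by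
        simp only [mul_sum]
        rw [sum_comm]
        exact sum_congr rfl fun T _ => sum_congr rfl fun j _ => by ring
    _ ≤ ∑ T, |c T| * ((ε / 4 ^ (10 * n) + 16 * e) * Real.log X) := by
        refine sum_le_sum fun T _ => ?_
        by_cases h0 : c T = 0
        · simp [h0]
        · exact mul_le_mul_of_nonneg_left (key T (Nil.ES.cf_lo_ne_zero h0)) (abs_nonneg _)
    _ ≤ 4 ^ (10 * n) * ((ε / 4 ^ (10 * n) + 16 * e) * Real.log X) := by
        rw [← sum_mul]
        refine mul_le_mul_of_nonneg_right ?_ (by positivity)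
        simpa using Nil.ES.sum_abs_cf_le (Nil.ES.lo (Fin (10 * n)) n)
    _ = _ := by field_simp

end Pool.Agent.P.MP_746f10_nt.LP
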