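import Pool.Agent.P.MP_746f10_nt.LP.St

/-! Low frequencies: Abel summation against a smooth weight. -/

open Finset Filter MeasureTheory
open scoped ComplexConjugate

namespace Pool.Agent.P.MP_746f10_nt.LP

open Pool.Agent.P.MP_a14ce1_nt
open Pool.Agent.P.MP_a14ce1_nt.Ch (Fx psi nit ex)

namespace LowFP

theorem abel (a w : ℕ → ℂ) (N : ℕ) : ∑ n ∈ Icc 1 N, a n * w n =
    (∑ n ∈ Icc 1 N, a n) * w N - ∑ n ∈ range N, (∑ m ∈ Icc 1 n, a m) * (w (n + 1) - w n) := by
  induction N with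
  | zero => simp
  | succ N ih =>
    rw [sum_Icc_succ_top (by omega), sum_Icc_succ_top (by omega), sum_range_succ, ih]
    ring

theorem ex_sub (a b : ℝ) : ‖ex a - ex b‖ ≤ |a - b| := by
  have h : ex a - ex b = ex b * (ex (a - b) - 1) := by
    rw [mul_sub, ← Ch.ex_add]; simp
  rw [h, norm_mul, Ch.norm_ex, one_mul]
  have h2 := Real.norm_exp_I_mul_ofReal_sub_one_le (x := a - b)
  unfold ex
  rw [mul_comm]
  simpa using h2

theorem log_step {n : ℝ} (hn : 0 < n) :
    0 ≤ Real.log (n + 1) - Real.log n ∧ Real.log (n + 1) - Real.log n ≤ 1 / n := by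
  refine ⟨sub_nonneg.2 (Real.log_le_log hn (by linarith)), ?_⟩
  rw [← Real.log_div (by linarith) hn.ne']
  have h := Real.log_le_sub_one_of_pos (x := (n + 1) / n) (by positivity)
  have e : (n + 1) / n - 1 = 1 / n := by field_simp; ring
  linarith

theorem step {L : ℝ} (hL0 : 0 ≤ L) (hL : ∀ x y, |psi x - psi y| ≤ L * |x - y|) {X n : ℝ}
    (hX : 0 < X) (hn : 1 ≤ n) (t : ℝ) :
    ‖((psi (Real.log (n + 1) - Real.log X) / (n + 1) : ℝ) : ℂ) * nit t (n + 1) -
      ((psi (Real.log n - Real.log X) / n : ℝ) : ℂ) * nit t n‖ ≤ 36 * (L + 1 + |t|) / X ^ 2 := by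
  have hn0 : 0 < n := by linarith
  obtain ⟨l0, l1⟩ := log_step hn0
  by_cases hc : Real.log (n + 1) - Real.log X ≤ -1
  · rw [Ch.psi_eq_zero (Or.inl hc), Ch.psi_eq_zero (Or.inl (by linarith))]
    simp only [zero_div, Complex.ofReal_zero, zero_mul, sub_self, norm_zero]
    positivity
  have hX6 : X ≤ 6 * n := by
    have h1 : Real.log X < Real.log (3 * (n + 1)) := by
      rw [Real.log_mul (by norm_num) (by linarith)]
      have : 1 < Real.log 3 := by
        rw [Real.lt_log_iff_exp_lt (by norm_num)]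
        linarith [Real.exp_one_lt_d9]
      linarith
    have h2 := (Real.log_lt_log_iff hX (by linarith)).1 h1
    linarith
  set p := psi (Real.log (n + 1) - Real.log X)
  set q := psi (Real.log n - Real.log X)
  have hq0 : 0 ≤ q := Ch.psi_nonneg _
  have hq1 : q ≤ 1 := Ch.psi_le_one _
  have hpq : |p - q| ≤ L / n := by
    refine (hL _ _).trans ?_
    have e : Real.log (n + 1) - Real.log X - (Real.log n - Real.log X) =
      Real.log (n + 1) - Real.log n := by ring
    rw [e, abs_of_nonneg l0, div_eq_mul_one_div]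
    exact mul_le_mul_of_nonneg_left l1 hL0
  have h1 : |p / (n + 1) - q / n| ≤ (L + 1) / n ^ 2 := by
    have e : p / (n + 1) - q / n = (p - q) / (n + 1) - q / (n * (n + 1)) := by
      field_simp; ring
    rw [e]
    refine (abs_sub _ _).trans ?_
    rw [abs_div, abs_of_pos (by linarith : 0 < n + 1),
      abs_of_nonneg (by positivity : 0 ≤ q / (n * (n + 1)))]
    have a1 : |p - q| / (n + 1) ≤ L / n ^ 2 := by
      calc |p - q| / (n + 1) ≤ L / n / n := by gcongr; linarith
        _ = L / n ^ 2 := by rw [div_div, sq]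
    have a2 : q / (n * (n + 1)) ≤ 1 / n ^ 2 := by
      rw [sq]; gcongr; linarith
    rw [add_div]; linarith
  have h2 : ‖nit t (n + 1) - nit t n‖ ≤ |t| / n := by
    refine (ex_sub _ _).trans ?_
    have e : -(t * Real.log (n + 1)) - -(t * Real.log n) =
      -(t * (Real.log (n + 1) - Real.log n)) := by ring
    rw [e, abs_neg, abs_mul, abs_of_nonneg l0, div_eq_mul_one_div]
    exact mul_le_mul_of_nonneg_left l1 (abs_nonneg t)
  have e : ((p / (n + 1) : ℝ) : ℂ) * nit t (n + 1) - ((q / n : ℝ) : ℂ) * nit t n =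
      ((p / (n + 1) - q / n : ℝ) : ℂ) * nit t (n + 1) +
        ((q / n : ℝ) : ℂ) * (nit t (n + 1) - nit t n) := by
    push_cast; ring
  rw [e]
  refine (norm_add_le _ _).trans ?_
  rw [norm_mul, norm_mul, Ch.norm_nit, mul_one, Complex.norm_real, Complex.norm_real,
    Real.norm_eq_abs, Real.norm_eq_abs, abs_of_nonneg (by positivity : 0 ≤ q / n)]
  have h3 : q / n * ‖nit t (n + 1) - nit t n‖ ≤ |t| / n ^ 2 := by
    calc q / n * ‖nit t (n + 1) - nit t n‖ ≤ 1 / n * (|t| / n) := by gcongr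
      _ = |t| / n ^ 2 := by field_simp
  have h4 : (L + 1 + |t|) / n ^ 2 ≤ 36 * (L + 1 + |t|) / X ^ 2 := by
    rw [div_le_div_iff₀ (by positivity) (by positivity)]
    have : X ^ 2 ≤ 36 * n ^ 2 := by nlinarith
    have h5 : 0 ≤ L + 1 + |t| := by positivity
    nlinarith
  rw [add_div (L + 1)] at h4
  linarith

end LowFP

theorem lowF : S_LowF := by
  obtain ⟨L, hL⟩ := ContDiff.lipschitzWith_of_hasCompactSupport Ch.compact_psi
    (Ch.contDiff_psi (n := 1)) (by simp)
  have hL' : ∀ x y, |psi x - psi y| ≤ L * |x - y| := fun x y => by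
    simpa [Real.dist_eq] using hL.dist_le_mul x y
  refine ⟨288 * (L + 1), by positivity, fun a X E hX hE t => ?_⟩
  have hE0 : 0 ≤ E := (norm_nonneg _).trans (hE 0 (Nat.zero_le _))
  have hX0 : (0 : ℝ) < X := by exact_mod_cast hX
  let w : ℕ → ℂ := fun n => ((psi (Real.log n - Real.log X) / n : ℝ) : ℂ) * nit t n
  have e1 : Fx a X t = ∑ n ∈ Icc 1 (8 * X), a n * w n :=
    sum_congr rfl fun n _ => mul_assoc _ _ _
  have e2 : w (8 * X) = 0 := by
    have h8 : (2 : ℝ) ≤ Real.log ((8 * X : ℕ) : ℝ) - Real.log X := by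
      rw [Nat.cast_mul, Real.log_mul (by norm_num) hX0.ne']
      have h : Real.log ((8 : ℕ) : ℝ) = 3 * Real.log 2 := by
        rw [show ((8 : ℕ) : ℝ) = 2 ^ 3 by norm_num, Real.log_pow]; norm_num
      have := Real.log_two_gt_d9
      rw [h]; linarith
    simp only [w, Ch.psi_eq_zero (Or.inr h8), zero_div, Complex.ofReal_zero, zero_mul]
  rw [e1, LowFP.abel, e2, mul_zero, zero_sub, norm_neg]
  have hb : ∀ n ∈ range (8 * X), ‖(∑ m ∈ Icc 1 n, a m) * (w (n + 1) - w n)‖ ≤
      E * (36 * (L + 1 + |t|) / (X : ℝ) ^ 2) := by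
    intro n hn
    rcases Nat.eq_zero_or_pos n with rfl | h0
    · simp only [show Icc 1 0 = (∅ : Finset ℕ) by simp, sum_empty, zero_mul, norm_zero]
      positivity
    rw [norm_mul]
    refine mul_le_mul (hE n (mem_range.1 hn).le) ?_ (norm_nonneg _) hE0
    have h := LowFP.step (L := L) L.2 hL' hX0 (n := n) (by exact_mod_cast h0) t
    simpa only [w, Nat.cast_add, Nat.cast_one] using h
  refine (norm_sum_le _ _).trans ((sum_le_card_nsmul _ _ _ hb).trans ?_)
  rw [card_range, nsmul_eq_mul]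
  have e3 : ((8 * X : ℕ) : ℝ) * (E * (36 * (L + 1 + |t|) / (X : ℝ) ^ 2)) =
      288 * (L + 1 + |t|) * E / X := by
    push_cast; field_simp; ring
  rw [e3]
  have h5 : (L : ℝ) + 1 + |t| ≤ (L + 1) * (1 + |t|) := by
    nlinarith [L.2, abs_nonneg t, mul_nonneg L.2 (abs_nonneg t)]
  rw [mul_assoc 288 ((L : ℝ) + 1)]
  gcongr

end Pool.Agent.P.MP_746f10_nt.LP
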