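import Pool.Agent.P.MP_746f10_nt.LP.St
import Pool.Agent.P.MP_e30989_nt.W.MRH

/-! Short means of the centred twisted function. -/

open Finset Filter MeasureTheory
open scoped ComplexConjugate

namespace Pool.Agent.P.MP_746f10_nt.LP

open Pool.Agent.P.MP_a14ce1_nt
open Pool.Agent.P.MP_a14ce1_nt.Ch (CM rs om pr Fx pv)
open Pool.Agent.P.MP_a14ce1_nt.V (av cube PP)
open Pool.Agent.P.MP_a14ce1_nt.IV (Hull ESW App cell wa ws gn Ew pS)
open Pool.Agent.P.MP_e30989_nt.W (UCM tw)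

namespace MRcP

open Pool.Agent.P.MP_a14ce1_nt.Ch

theorem integ (f : ℕ → ℂ) (Y : ℕ) {S : ℝ} (hS : 0 < S) :
    Integrable fun t => cw S t * ‖Fx f Y t‖ ^ 2 := by
  obtain ⟨B, hB⟩ := MR.norm_Fx_le (f := f) Y
  exact integrable_cw_mul hS ((continuous_Fx f Y).norm.pow 2) hB

theorem off (f : ℕ → ℂ) (Y : ℕ) {S a b : ℝ} (hS : 0 < S) {U L : Set ℝ} (hU : MeasurableSet U)
    (hL : MeasurableSet L) (hU1 : U ⊆ Set.Icc (-(Y : ℝ)) Y)
    (h1 : ∫ t in Uᶜ, cw S t * ‖Fx f Y t‖ ^ 2 ≤ a) (h2 : ∫ t in Lᶜ ∩ U, ‖Fx f Y t‖ ^ 2 ≤ b) :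
    ∫ t in Lᶜ, cw S t * ‖Fx f Y t‖ ^ 2 ≤ a + b := by
  have hint := integ f Y hS
  have hcont : Continuous fun t => ‖Fx f Y t‖ ^ 2 := (continuous_Fx f Y).norm.pow 2
  have h3 : ∫ t in Lᶜ ∩ U, cw S t * ‖Fx f Y t‖ ^ 2 ≤ ∫ t in Lᶜ ∩ U, ‖Fx f Y t‖ ^ 2 :=
    setIntegral_mono hint.integrableOn
      (hcont.integrableOn_Icc.mono_set (Set.inter_subset_right.trans hU1)) fun t =>
      mul_le_of_le_one_left (by positivity) (cw_le_one _ _)
  have h4 : ∫ t in Lᶜ \ U, cw S t * ‖Fx f Y t‖ ^ 2 ≤ ∫ t in Uᶜ, cw S t * ‖Fx f Y t‖ ^ 2 :=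
    setIntegral_mono_set hint.integrableOn
      (Eventually.of_forall fun t => mul_nonneg (cw_pos _ _).le (by positivity))
      (HasSubset.Subset.eventuallyLE fun t ht => ht.2)
  rw [← integral_inter_add_diff hU hint.integrableOn]
  linarith

theorem fx_eq (g : ℕ → ℂ) (M : ℂ) {b : ℕ} (χ : DirichletCharacter ℂ b) (Y : ℕ) (t : ℝ) :
    Fx (tw (fun n => (g n - M) / 2) χ) Y t =
      (Fx (tw g χ) Y t - M * Fx (tw (fun _ => 1) χ) Y t) / 2 := by
  unfold Fx tw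
  rw [mul_sum, ← sum_sub_distrib, sum_div]
  exact sum_congr rfl fun n _ => by ring

theorem sq_le {x y M : ℂ} (hM : ‖M‖ ≤ 1) : ‖(x - M * y) / 2‖ ^ 2 ≤ ‖x‖ ^ 2 + ‖y‖ ^ 2 := by
  have h1 : ‖M * y‖ ≤ ‖y‖ := by
    rw [norm_mul]
    exact mul_le_of_le_one_left (norm_nonneg _) hM
  have h2 : ‖(x - M * y) / 2‖ ≤ (‖x‖ + ‖y‖) / 2 := by
    rw [norm_div, Complex.norm_ofNat]
    linarith [norm_sub_le x (M * y)]
  refine (pow_le_pow_left₀ (norm_nonneg _) h2 2).trans ?_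
  nlinarith [sq_nonneg (‖x‖ - ‖y‖), norm_nonneg x, norm_nonneg y]

theorem sum_half (g : ℕ → ℂ) (M : ℂ) {b : ℕ} (χ : DirichletCharacter ℂ b) (s : Finset ℕ)
    (u : ℕ → ℕ) : ‖∑ n ∈ s, tw (fun n => g n - M) χ (u n)‖ =
      2 * ‖∑ n ∈ s, tw (fun n => (g n - M) / 2) χ (u n)‖ := by
  rw [← Complex.norm_ofNat 2, ← norm_mul, mul_sum]
  congr 1
  exact sum_congr rfl fun n _ => by unfold tw; ring

end MRcP

open Pool.Agent.P.MP_a14ce1_nt.Ch in
theorem mrc (hR : Ch.S_Reduce) (hS : Ch.S_Scales) (hH : S_High) (hL : S_LowF) : S_MRc := by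
  obtain ⟨C, hC, hR⟩ := hR
  obtain ⟨c, hc, hH⟩ := hH
  obtain ⟨CL, hCL, hL⟩ := hL
  intro b _ χ η δ hη hδ
  set e : ℝ := δ / (6 * C) with he
  have he0 : 0 < e := by positivity
  obtain ⟨h, hh, hS⟩ := hS c (e ^ 2 / 5) hc (by positivity)
  obtain ⟨X2, hS⟩ := hS h le_rfl
  obtain ⟨T, X3, hT, hH⟩ := hH b χ η (e ^ 2 / 5) hη (by positivity)
  filter_upwards [eventually_ge_atTop ⌈h / e⌉₊, eventually_ge_atTop (X2 + X3 + ⌈h⌉₊ + 2),
    eventually_ge_atTop ⌈1 / e⌉₊, eventually_ge_atTop ⌈10 * T * (CL * (1 + T)) ^ 2 / e ^ 2⌉₊]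
    with K hK1 hK2 hK3 hK4
  intro Y hY g M hg hTr hM hE R hR0 hR1
  have hhR : h ≤ e * R := by
    have : h / e ≤ R := (Nat.le_ceil _).trans (by exact_mod_cast hK1.trans hR0)
    rwa [div_le_iff₀' he0] at this
  have hhY : h ≤ Y := (Nat.le_ceil _).trans (by exact_mod_cast (show ⌈h⌉₊ ≤ Y by omega))
  have hY0 : (0 : ℝ) < Y := by exact_mod_cast (show 0 < Y by omega)
  have hK0 : (1 : ℝ) ≤ K := by exact_mod_cast (show 1 ≤ K by omega)
  have hRY : (R : ℝ) ≤ e * Y := by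
    have h1 : 1 / e ≤ K := (Nat.le_ceil _).trans (by exact_mod_cast hK3)
    rw [div_le_iff₀' he0] at h1
    have h2 : (K : ℝ) * R ≤ Y := by exact_mod_cast hR1
    calc (R : ℝ) = 1 * R := (one_mul _).symm
      _ ≤ e * K * R := mul_le_mul_of_nonneg_right h1 (by positivity)
      _ = e * (K * R) := mul_assoc _ _ _
      _ ≤ e * Y := mul_le_mul_of_nonneg_left h2 he0.le
  have hRY' : R ≤ Y := le_trans (Nat.le_mul_of_pos_left R (by omega)) hR1
  have hS0 : (0 : ℝ) < Y / h := by positivity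
  have hoff : ∀ F : ℕ → ℂ, CM F →
      (∀ p : ℕ, p.Prime → (p : ℝ) ≤ (Y : ℝ) ^ η → F p = χ (p : ZMod b)) →
      ∫ t in (Set.Icc (-T) T)ᶜ, cw (Y / h) t * ‖Fx F Y t‖ ^ 2 ≤ e ^ 2 / 5 + e ^ 2 / 5 := by
    intro F hF hp
    obtain ⟨U, hU, hU1, hU2, hU3⟩ := hS Y (by omega) F hF
    refine MRcP.off F Y hS0 hU measurableSet_Icc hU1 hU3 ?_
    refine hH Y (by omega) F hF hp _ (measurableSet_Icc.compl.inter hU)
      (Set.inter_subset_right.trans hU1) (le_trans (measureReal_mono Set.inter_subset_right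
        (((measure_mono hU1).trans_lt measure_Icc_lt_top).ne)) hU2) fun t ht => ?_
    by_contra hlt
    exact ht.1 (abs_le.1 (not_le.1 hlt).le)
  have h1 := hoff (tw g χ) (MP_e30989_nt.W.MRH.tw_CM hg χ) fun p hp hpY => by
    rw [tw, hTr p hp hpY, one_mul]
  have h2 := hoff (tw (fun _ => 1) χ) (MP_e30989_nt.W.MRH.tw_CM ucm_one.1 χ) fun p _ _ => by
    rw [tw, one_mul]
  set a : ℕ → ℂ := tw (fun n => (g n - M) / 2) χ with ha
  have hab : ∀ n, ‖a n‖ ≤ 1 := fun n => by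
    rw [ha, tw, norm_mul, norm_div, Complex.norm_ofNat]
    refine mul_le_one₀ ?_ (norm_nonneg _) (χ.norm_le_one _)
    linarith [norm_sub_le (g n) M, hg.bd n]
  have hint := MRcP.integ a Y hS0
  have h3 : ∫ t in (Set.Icc (-T) T)ᶜ, cw (Y / h) t * ‖Fx a Y t‖ ^ 2 ≤ 4 * (e ^ 2 / 5) := by
    have i1 := (MRcP.integ (tw g χ) Y hS0).integrableOn (s := (Set.Icc (-T) T)ᶜ)
    have i2 := (MRcP.integ (tw (fun _ => 1) χ) Y hS0).integrableOn (s := (Set.Icc (-T) T)ᶜ)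
    refine (setIntegral_mono hint.integrableOn (i1.add i2) fun t => ?_).trans ?_
    · have := MRcP.sq_le (x := Fx (tw g χ) Y t) (y := Fx (tw (fun _ => 1) χ) Y t) hM
      rw [← MRcP.fx_eq] at this
      exact (mul_le_mul_of_nonneg_left this (cw_pos _ _).le).trans (mul_add _ _ _).le
    · have := integral_add i1 i2
      simp only [Pi.add_apply]
      rw [this]
      linarith
  have h4 : ∫ t in Set.Icc (-T) T, cw (Y / h) t * ‖Fx a Y t‖ ^ 2 ≤ e ^ 2 / 5 := by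
    have hb : ∀ t ∈ Set.Icc (-T) T, cw (Y / h) t * ‖Fx a Y t‖ ^ 2 ≤ (CL * (1 + T)) ^ 2 / K := by
      intro t ht
      have h5 := hL a Y (Y / K) (by omega) (fun N hN => by
        have h6 := hE N hN
        have h7 := MRcP.sum_half g M χ (Icc 1 N) id
        simp only [id] at h7
        rw [h7] at h6
        linarith [norm_nonneg (∑ n ∈ Icc 1 N, a n)]) t
      have h8 : CL * (1 + |t|) * (Y / K) / Y ≤ CL * (1 + T) / K := by
        rw [show CL * (1 + |t|) * (Y / K) / Y = CL * (1 + |t|) / K by field_simp]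
        have := abs_le.2 ht
        gcongr
      refine (mul_le_of_le_one_left (by positivity) (cw_le_one _ _)).trans
        ((pow_le_pow_left₀ (norm_nonneg _) (h5.trans h8) 2).trans ?_)
      rw [div_pow]
      exact div_le_div_of_nonneg_left (by positivity) (by positivity) (by nlinarith)
    refine (setIntegral_mono_on hint.integrableOn (continuous_const.integrableOn_Icc)
      measurableSet_Icc hb).trans ?_
    rw [setIntegral_const, Real.volume_real_Icc_of_le (by linarith), smul_eq_mul]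
    have h9 : 10 * T * (CL * (1 + T)) ^ 2 / e ^ 2 ≤ K :=
      (Nat.le_ceil _).trans (by exact_mod_cast hK4)
    rw [div_le_iff₀ (by positivity)] at h9
    rw [← mul_div_assoc, div_le_iff₀ (by positivity)]
    linarith
  have h5 : √(∫ t : ℝ, cw (Y / h) t * ‖Fx a Y t‖ ^ 2) ≤ e := by
    rw [Real.sqrt_le_left he0.le, ← integral_add_compl (s := Set.Icc (-T) T) measurableSet_Icc hint]
    linarith
  have h6 := hR a Y R h hab hh hhY hRY' (by omega)
  have h7 : (R : ℝ) * Y * √(∫ t : ℝ, cw (Y / h) t * ‖Fx a Y t‖ ^ 2) ≤ R * Y * e :=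
    mul_le_mul_of_nonneg_left h5 (by positivity)
  have h8 : h * Y ≤ e * R * Y := mul_le_mul_of_nonneg_right hhR hY0.le
  have h9 : (R : ℝ) ^ 2 ≤ R * (e * Y) := by
    rw [sq]; exact mul_le_mul_of_nonneg_left hRY (by positivity)
  rw [sum_congr rfl fun x _ => MRcP.sum_half g M χ (range R) fun j => x + j, ← mul_sum]
  calc _ ≤ 2 * (C * (3 * e * R * Y)) := mul_le_mul_of_nonneg_left
        (h6.trans (mul_le_mul_of_nonneg_left (by linarith) hC.le)) (by norm_num)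
    _ = δ * R * Y := by rw [he]; field_simp; ring

end Pool.Agent.P.MP_746f10_nt.LP
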