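import Pool.Agent.P.MP_746f10_nt.LP.St

/-! The major part of the end game, centred at the mean over a dyadic block. -/

open Finset Filter MeasureTheory
open scoped ComplexConjugate

namespace Pool.Agent.P.MP_746f10_nt.LP

open Pool.Agent.P.MP_a14ce1_nt
open Pool.Agent.P.MP_a14ce1_nt.Ch (CM rs om pr Fx pv)
open Pool.Agent.P.MP_a14ce1_nt.V (av cube PP)
open Pool.Agent.P.MP_a14ce1_nt.IV (Hull ESW App cell wa ws gn Ew pS)
open Pool.Agent.P.MP_e30989_nt.W (UCM tw)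

namespace MajorP

open Nil Nil.Major

theorem dv_congr {u v : ℕ → ℂ} {Y : ℕ} (h : ∀ n ∈ Ico Y (2 * Y), u n = v n) : dv u Y = dv v Y := by
  rw [dv, dv, sum_congr rfl h]

theorem major_bigOm (hR : S_RM) (ι : Type) [Fintype ι] {b : ℕ}
    (hb : 0 < b) {δ : ℝ} (hδ : 0 < δ) {ε : ℝ} (hε : 0 < ε) (B : ℝ) : ∃ C : ℝ, 0 < C ∧
    ∀ᶠ X : ℕ in atTop, ∀ f, UCM f → Tr ((X : ℝ) ^ δ) f → ∀ P : ι → Finset ℕ,
      (∀ k, ∀ p ∈ P k, (X : ℝ) ^ δ < p) →
      ∀ Φ : (ι → ℕ) → ℂ, (∀ v, ‖Φ v‖ ≤ B) → ∀ Y : ℕ, (X : ℝ) ^ δ ≤ Y → (Y : ℝ) ≤ (X : ℝ) ^ (1 / δ) →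
      ∀ (κ : Type) (S : Finset κ) (s t : κ → ℕ) (ψ : κ → ℕ → ℂ), Grid Y b S s t ψ →
        ∑ i ∈ S, ‖∑ n ∈ Ico (s i) (t i), (f n * Φ (fun k => bigOm (P k) n) -
          dv (fun m => f m * Φ (fun k => bigOm (P k) m)) Y) * ψ i n‖ ≤ ε * Y + C * S.card := by
  classical
  set J : ℕ := ⌈(1 + 1 / δ) / δ⌉₊ + 1 with hJ
  have : NeZero J := ⟨Nat.succ_ne_zero _⟩
  set A : ℝ := (J : ℝ) ^ Fintype.card ι * (|B| + 1) with hA
  have hJ0 : (0 : ℝ) < J := by exact_mod_cast NeZero.pos J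
  have hb0 : (0 : ℝ) < b := by exact_mod_cast hb
  have hA0 : 0 < A := by positivity
  obtain ⟨R0, ρ, hρ, hX⟩ := hR b hb (min δ (ε / (A * b))) (by positivity)
  have hev : ∀ᶠ X : ℕ in atTop, (R0 + 1) / ρ ≤ (X : ℝ) ^ δ :=
    ((tendsto_rpow_atTop hδ).comp tendsto_natCast_atTop_atTop).eventually_ge_atTop _
  refine ⟨A * (2 * (b * (2 * (R0 + 1)))), by positivity, ?_⟩
  filter_upwards [hX, hev, eventually_ge_atTop 2] with X hX h1 h2 f hf hT P hP Φ hΦ Y hY hY' κ S s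
    t ψ hG
  have hX1 : (1 : ℝ) ≤ X := by exact_mod_cast le_trans one_le_two h2
  have hm : (X : ℝ) ^ min δ (ε / (A * b)) ≤ (X : ℝ) ^ δ :=
    Real.rpow_le_rpow_of_exponent_le hX1 (min_le_left _ _)
  obtain ⟨c, hc, hΦ'⟩ := dft J Φ hΦ
  let g : (ι → ZMod J) → ℕ → ℂ := fun θ n =>
    f n * ∏ k, ZMod.stdAddChar (θ k * (bigOm (P k) n : ZMod J))
  have hn : ∀ θ n, ‖g θ n‖ = ‖f n‖ := fun θ n => by simp [g, norm_prod]
  have hg : ∀ θ, CM (g θ) := fun θ =>
    ⟨fun m n hm hn => by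
      simp only [g, hf.1.mul m n hm hn, bigOm_mul _ hm hn, Nat.cast_add, mul_add,
        AddChar.map_add_eq_mul, prod_mul_distrib]
      ring, fun n => (hn θ n).trans_le (hf.1.bd n)⟩
  have hθ : ∀ θ, ∑ i ∈ S, ‖∑ n ∈ Ico (s i) (t i), (g θ n - dv (g θ) Y) * ψ i n‖ ≤
      ε / A * Y + 2 * (b * (2 * (R0 + 1))) * S.card := by
    intro θ
    have h3 := hX (g θ) (hg θ)
      (fun p hp hp' => by
        have : ∀ k, bigOm (P k) p = 0 := fun k => bigOm_prime hp fun h =>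
          absurd (hP k p h) (not_lt.2 (hp'.trans hm))
        simp [g, this, hT p hp (hp'.trans hm)]) Y (hm.trans hY)
      (hY'.trans (Real.rpow_le_rpow_of_exponent_le hX1
        (one_div_le_one_div_of_le (by positivity) (min_le_left _ _)))) (R0 + 1) (Nat.le_succ _)
      (by
        rw [div_le_iff₀' hρ] at h1
        push_cast
        exact h1.trans (by gcongr))
    have := grid_le hG hb (g := fun n => (g θ n - dv (g θ) Y) / 2) (fun n => by
        rw [norm_div, Complex.norm_two, div_le_one two_pos]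
        linarith [norm_sub_le (g θ n) (dv (g θ) Y), (hg θ).bd n,
          norm_dv_le zero_le_one (Y := Y) fun m _ => (hg θ).bd m])
      (Nat.succ_pos R0) (δ := min δ (ε / (A * b)) / 2) fun c => by
        simp only [← sum_div, norm_div, Complex.norm_two]
        linarith [h3 c]
    simp only [div_mul_eq_mul_div, ← sum_div, norm_div, Complex.norm_two] at this
    push_cast at this
    have h4 : b * (min δ (ε / (A * b)) * Y) ≤ ε / A * Y :=
      calc _ ≤ b * (ε / (A * b) * Y) := by gcongr; exact min_le_right _ _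
        _ = _ := by field_simp
    linarith
  have hd : ∀ n ∈ Ico Y (2 * Y), f n * Φ (fun k => bigOm (P k) n) = ∑ θ, c θ * g θ n :=
    fun n hn => by
      rw [hΦ' _ fun k => bigOm_lt hδ h2 hY' hn (hP k), mul_sum]
      exact sum_congr rfl fun θ _ => by simp only [g]; ring
  have hd' : dv (fun m => f m * Φ (fun k => bigOm (P k) m)) Y = ∑ θ, c θ * dv (g θ) Y := by
    rw [dv_congr hd, dv, sum_comm, mul_sum]
    exact sum_congr rfl fun θ _ => by rw [dv, ← mul_sum]; ring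
  calc _ ≤ ∑ i ∈ S, ∑ θ, (|B| + 1) * ‖∑ n ∈ Ico (s i) (t i), (g θ n - dv (g θ) Y) * ψ i n‖ := by
        refine sum_le_sum fun i hi => ?_
        rw [sum_congr rfl fun n hn => show _ = ∑ θ, c θ * ((g θ n - dv (g θ) Y) * ψ i n) by
          rw [hd n (hG.sub i hi hn), hd', ← sum_sub_distrib, sum_mul]
          exact sum_congr rfl fun θ _ => by ring, sum_comm]
        refine norm_sum_le_of_le _ fun θ _ => ?_
        rw [← mul_sum, norm_mul]
        gcongr
        linarith [hc θ, le_abs_self B]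
    _ ≤ ∑ θ : ι → ZMod J, (|B| + 1) * (ε / A * Y + 2 * (b * (2 * (R0 + 1))) * S.card) := by
        rw [sum_comm]
        refine sum_le_sum fun θ _ => ?_
        rw [← mul_sum]
        exact mul_le_mul_of_nonneg_left (hθ θ) (by positivity)
    _ = _ := by
        rw [sum_const, card_univ, Fintype.card_fun, ZMod.card, nsmul_eq_mul, Nat.cast_pow,
          ← mul_assoc, ← hA]
        field_simp

theorem major_om (hR : S_RM) (ι : Type) [Fintype ι] {b : ℕ}
    (hb : 0 < b) {δ : ℝ} (hδ : 0 < δ) {ε : ℝ} (hε : 0 < ε) (B : ℝ) : ∃ C : ℝ, 0 < C ∧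
    ∀ᶠ X : ℕ in atTop, ∀ f, UCM f → Tr ((X : ℝ) ^ δ) f → ∀ P : ι → Finset ℕ,
      (∀ k, ∀ p ∈ P k, p.Prime ∧ (X : ℝ) ^ δ < p) →
      ∀ Φ : (ι → ℕ) → ℂ, (∀ v, ‖Φ v‖ ≤ B) → ∀ Y : ℕ, (X : ℝ) ^ δ ≤ Y → (Y : ℝ) ≤ (X : ℝ) ^ (1 / δ) →
      ∀ (κ : Type) (S : Finset κ) (s t : κ → ℕ) (ψ : κ → ℕ → ℂ), Grid Y b S s t ψ →
        ∑ i ∈ S, ‖∑ n ∈ Ico (s i) (t i), (f n * Φ (fun k => omN (P k) n) -
          dv (fun m => f m * Φ (fun k => omN (P k) m)) Y) * ψ i n‖ ≤ ε * Y + C * S.card := by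
  classical
  obtain ⟨C, hC, hX⟩ := major_bigOm hR ι hb hδ (half_pos hε) B
  have hev : ∀ᶠ X : ℕ in atTop, 32 * |B| / ε ≤ (X : ℝ) ^ δ :=
    ((tendsto_rpow_atTop hδ).comp tendsto_natCast_atTop_atTop).eventually_ge_atTop _
  refine ⟨C, hC, ?_⟩
  filter_upwards [hX, hev] with X hX h1 f hf hT P hP Φ hΦ Y hY hY' κ S s t ψ hG
  have h2 := hX f hf hT P (fun k p hp => (hP k p hp).2) Φ hΦ Y hY hY' κ S s t ψ hG
  let F : ℕ → ℝ := fun n => if ∃ p, ⌊(X : ℝ) ^ δ⌋₊ < p ∧ p ^ 2 ∣ n then 2 * |B| else 0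
  have hF : ∀ n, 0 ≤ F n := fun n => by
    simp only [F]
    split_ifs <;> positivity
  have h3 : ∑ n ∈ Ico Y (2 * Y), F n ≤ ε / 4 * Y := by
    rw [← sum_filter, sum_const, nsmul_eq_mul]
    have h4 := Nat.lt_floor_add_one ((X : ℝ) ^ δ)
    have h5 : 32 * |B| ≤ ε * (⌊(X : ℝ) ^ δ⌋₊ + 1) := by
      rw [div_le_iff₀' hε] at h1
      exact h1.trans (by gcongr)
    refine (mul_le_mul_of_nonneg_right (sq_count Y _) (by positivity)).trans ?_
    rw [div_mul_eq_mul_div, div_le_iff₀ (by positivity)]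
    have := mul_le_mul_of_nonneg_left h5 (Nat.cast_nonneg (α := ℝ) Y)
    linarith
  set u : ℕ → ℂ := fun m => f m * Φ (fun k => omN (P k) m) with hu
  set v : ℕ → ℂ := fun m => f m * Φ (fun k => bigOm (P k) m) with hv
  have h6 : ∀ n ∈ Ico Y (2 * Y), ‖u n - v n‖ ≤ F n := by
    intro n hn
    have hn0 : n ≠ 0 := by
      have := mem_Ico.1 hn
      omega
    simp only [F, hu, hv]
    split_ifs with h
    · rw [← mul_sub, norm_mul, hf.2 n hn0, one_mul]
      refine (norm_sub_le _ _).trans ?_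
      linarith [hΦ fun k => omN (P k) n, hΦ fun k => bigOm (P k) n, le_abs_self B]
    · have : (fun k => omN (P k) n) = fun k => bigOm (P k) n := funext fun k =>
        omN_eq (fun p hp => (hP k p hp).1) hn0 fun p hp h' =>
          h ⟨p, (Nat.floor_lt (by positivity)).2 (hP k p hp).2, h'⟩
      simp [this]
  have h7 : Y * ‖dv u Y - dv v Y‖ ≤ ∑ n ∈ Ico Y (2 * Y), F n := by
    rcases Nat.eq_zero_or_pos Y with rfl | hY0
    · simp
    have : (Y : ℝ) ≠ 0 := by exact_mod_cast hY0.ne'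
    rw [dv, dv, ← mul_sub, ← sum_sub_distrib, norm_mul, norm_div, norm_one, Complex.norm_natCast,
      ← mul_assoc, mul_one_div_cancel this, one_mul]
    exact norm_sum_le_of_le _ h6
  have h4 : ∀ i ∈ S, ‖∑ n ∈ Ico (s i) (t i), (u n - dv u Y) * ψ i n‖ ≤
      ‖∑ n ∈ Ico (s i) (t i), (v n - dv v Y) * ψ i n‖ +
        ∑ n ∈ Ico (s i) (t i), (F n + ‖dv u Y - dv v Y‖) := by
    intro i hi
    refine (norm_le_norm_add_norm_sub' _ _).trans (add_le_add_right ?_ _)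
    rw [← sum_sub_distrib]
    refine norm_sum_le_of_le _ fun n hn => ?_
    rw [← sub_mul, norm_mul, show u n - dv u Y - (v n - dv v Y) = u n - v n - (dv u Y - dv v Y) by
      ring]
    refine (mul_le_of_le_one_right (norm_nonneg _) (hG.bd i hi n hn)).trans
      ((norm_sub_le _ _).trans ?_)
    linarith [h6 n (hG.sub i hi hn)]
  have h5 := sum_le_sum h4
  rw [sum_add_distrib] at h5
  have h8 := Major.sum_le hG (F := fun n => F n + ‖dv u Y - dv v Y‖)
    fun n => add_nonneg (hF n) (norm_nonneg _)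
  rw [sum_add_distrib (s := Ico Y (2 * Y)), sum_const, Nat.card_Ico, show 2 * Y - Y = Y by omega,
    nsmul_eq_mul] at h8
  linarith

end MajorP

open Nil Nil.Major in
theorem major (h : S_RM) : S_Major := by
  intro ι _ b δ ε L hb hδ hε hL
  set J : ℕ := ⌈(1 + 1 / δ) / δ⌉₊ + 1 with hJ
  obtain ⟨C, hC, hX⟩ := MajorP.major_om h ι hb hδ hε ((J / L) ^ Fintype.card ι)
  refine ⟨C, hC, ?_⟩
  filter_upwards [hX, eventually_ge_atTop 2] with X hX h2 f hf hT P hP hL' Y hY hY' κ S s t ψ hG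
  have key : ∀ n ∈ Ico Y (2 * Y), f n * ((∏ k, om (P k) n / rs (P k) : ℝ) : ℂ) =
      f n * ((∏ k, ((min (omN (P k) n) J : ℕ) : ℝ) / rs (P k) : ℝ) : ℂ) := by
    intro n hn'
    have hn0 : n ≠ 0 := by
      have := mem_Ico.1 hn'
      omega
    have : ∀ k, min (omN (P k) n) J = omN (P k) n := fun k => min_eq_left
      ((omN_le (fun p hp => (hP k p hp).1) hn0).trans
        (bigOm_lt hδ h2 hY' hn' fun p hp => (hP k p hp).2).le)
    simp only [this]
    rfl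
  refine le_trans (le_of_eq ?_) (hX f hf hT P hP
    (fun v => ((∏ k, ((min (v k) J : ℕ) : ℝ) / rs (P k) : ℝ) : ℂ)) (fun v => ?_) Y hY hY' κ S s t
    ψ hG)
  · refine sum_congr rfl fun i hi => congrArg _ (sum_congr rfl fun n hn => ?_)
    rw [key n (hG.sub i hi hn), MajorP.dv_congr key]
  · rw [Complex.norm_real, norm_prod, ← card_univ, ← prod_const]
    refine prod_le_prod (fun k _ => norm_nonneg _) fun k _ => ?_
    have h1 := hL' k
    rw [Real.norm_of_nonneg (div_nonneg (Nat.cast_nonneg _) (hL.le.trans h1))]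
    have : ((min (v k) J : ℕ) : ℝ) ≤ J := by exact_mod_cast min_le_right _ _
    gcongr

end Pool.Agent.P.MP_746f10_nt.LP
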