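import Pool.Agent.P.MP_746f10_nt.LP.St
import Pool.Agent.P.MP_a14ce1_nt.V.One

/-!
Assembly at one scale, centred.
-/

open Finset Filter MeasureTheory
open scoped ComplexConjugate

namespace Pool.Agent.P.MP_746f10_nt.LP

open Pool.Agent.P.MP_a14ce1_nt
open Pool.Agent.P.MP_a14ce1_nt.Ch (CM rs om pr Fx pv)
open Pool.Agent.P.MP_a14ce1_nt.V (av cube PP)
open Pool.Agent.P.MP_a14ce1_nt.IV (Hull ESW App cell wa ws gn Ew pS)
open Pool.Agent.P.MP_e30989_nt.W (UCM tw)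

namespace OneP

/-- multiplicativity along the multiples of p, centred -/
theorem mult (hM : V.S_Mult) {r h0 b p M N : ℕ} [NeZero N] {h : Fin r → ℕ} {f : ℕ → ℂ}
    {g : Fin r → ℕ → ℂ} {μ : ℂ} (hf : CM f) (hg : ∀ j, CM (g j)) (hμ : ‖μ‖ ≤ 1) (hp : f p = 1)
    (hle : ∀ i : Option (Fin r), i.elim h0 h ≤ b) (hN : N = p * M) :
    ‖∑ n : ZMod N, (V.ind p n : ℂ) * ((f (n + ((p * h0 : ℕ) : ZMod N)).val - μ) / 2 *
        ∏ j, g j (n + ((p * h j : ℕ) : ZMod N)).val) -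
      (∏ j, g j p) * ∑ n ∈ Icc 1 M, (f (n + h0) - μ) / 2 * ∏ j, g j (n + h j)‖ ≤ 2 * b + 2 := by
  have key : ∀ F : ℕ → ℂ, CM F → F p = 1 →
      ‖∑ n : ZMod N, (V.ind p n : ℂ) * (F (n + ((p * h0 : ℕ) : ZMod N)).val *
        ∏ j, g j (n + ((p * h j : ℕ) : ZMod N)).val) -
      (∏ j, g j p) * ∑ n ∈ Icc 1 M, F (n + h0) * ∏ j, g j (n + h j)‖ ≤ 2 * b + 2 := by
    intro F hF hFp
    have h3 := hM (Option (Fin r)) (fun i => i.elim F g) (fun i => i.elim h0 h) b p M N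
      (by rintro (_ | j); exacts [hF, hg j]) hle hN
    simpa only [Fintype.prod_option, Option.elim, hFp, one_mul] using h3
  have h1 := key f hf hp
  have h2 := key (fun _ => 1) ucm_one.1 rfl
  set A1 := ∑ n : ZMod N, (V.ind p n : ℂ) * (f (n + ((p * h0 : ℕ) : ZMod N)).val *
    ∏ j, g j (n + ((p * h j : ℕ) : ZMod N)).val) -
    (∏ j, g j p) * ∑ n ∈ Icc 1 M, f (n + h0) * ∏ j, g j (n + h j) with hA1
  set A2 := ∑ n : ZMod N, (V.ind p n : ℂ) * (1 *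
    ∏ j, g j (n + ((p * h j : ℕ) : ZMod N)).val) -
    (∏ j, g j p) * ∑ n ∈ Icc 1 M, 1 * ∏ j, g j (n + h j) with hA2
  have e1 : ∑ n : ZMod N, (V.ind p n : ℂ) * ((f (n + ((p * h0 : ℕ) : ZMod N)).val - μ) / 2 *
        ∏ j, g j (n + ((p * h j : ℕ) : ZMod N)).val) =
      (∑ n : ZMod N, (V.ind p n : ℂ) * (f (n + ((p * h0 : ℕ) : ZMod N)).val *
        ∏ j, g j (n + ((p * h j : ℕ) : ZMod N)).val) - μ * ∑ n : ZMod N, (V.ind p n : ℂ) * (1 *
        ∏ j, g j (n + ((p * h j : ℕ) : ZMod N)).val)) / 2 := by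
    rw [mul_sum, ← sum_sub_distrib, sum_div]
    exact sum_congr rfl fun n _ => by ring
  have e2 : ∑ n ∈ Icc 1 M, (f (n + h0) - μ) / 2 * ∏ j, g j (n + h j) =
      (∑ n ∈ Icc 1 M, f (n + h0) * ∏ j, g j (n + h j) -
        μ * ∑ n ∈ Icc 1 M, 1 * ∏ j, g j (n + h j)) / 2 := by
    rw [mul_sum, ← sum_sub_distrib, sum_div]
    exact sum_congr rfl fun n _ => by ring
  have e3 : ∑ n : ZMod N, (V.ind p n : ℂ) * ((f (n + ((p * h0 : ℕ) : ZMod N)).val - μ) / 2 *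
        ∏ j, g j (n + ((p * h j : ℕ) : ZMod N)).val) -
      (∏ j, g j p) * ∑ n ∈ Icc 1 M, (f (n + h0) - μ) / 2 * ∏ j, g j (n + h j) =
      (A1 - μ * A2) / 2 := by
    rw [e1, e2, hA1, hA2]
    ring
  rw [e3, norm_div, Complex.norm_two]
  have h4 := norm_sub_le A1 (μ * A2)
  rw [norm_mul] at h4
  have h5 := mul_le_of_le_one_left (norm_nonneg A2) hμ
  linarith

end OneP

open V.OneP in
theorem one (hE : V.S_EDapp) (hG : V.S_GvN) (hM : V.S_Mult) (hW : V.S_Wrap) : S_One := by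
  intro r h0 h hh
  obtain ⟨D, hD, hG⟩ := hG r h0 h hh
  refine ⟨D, hD, fun ε hε => ?_⟩
  obtain ⟨CG, hCG, hG⟩ := hG (ε / 2) (half_pos hε)
  obtain ⟨CE, hCE, hE⟩ := hE (Option (Fin r)) (fun i => i.elim h0 h) ε hε
  refine ⟨CE + 2 * CG, by positivity, fun M0 M1 hM0 hM01 => ?_⟩
  set b := h0 + ∑ j, h j with hb
  have hle : ∀ i : Option (Fin r), i.elim h0 h ≤ b := by
    rintro (_ | j)
    · exact Nat.le_add_right _ _
    · exact (single_le_sum (fun _ _ => Nat.zero_le _) (mem_univ j)).trans (Nat.le_add_left _ _)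
  refine ⟨(PP M0 M1).card * (2 * b + 2) +
    ∑ m ∈ Ico M0 M1, 2 * CG * ((((D * 2 ^ m : ℕ) : ℝ) + 1) * 2 ^ r), by positivity,
    fun f g μ hf hg hμ hu L hL => ?_⟩
  set Q := pv (PP M0 M1) with hQ
  have hQ0 : 0 < Q := prod_pos fun p hp => (V.mem_PP.1 hp).1.pos
  have hdvd : ∀ p ∈ PP M0 M1, p ∣ Q := fun p hp => dvd_prod_of_mem _ hp
  have hLN : L ≤ Q * L := Nat.le_mul_of_pos_left _ hQ0
  have : NeZero (Q * L) := ⟨(Nat.mul_pos hQ0 hL).ne'⟩
  set F : ℕ → ℂ := fun n => (f n - μ) / 2 with hF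
  have hFb : ∀ n, ‖F n‖ ≤ 1 := fun n => by
    rw [hF, norm_div, Complex.norm_two]
    linarith [norm_sub_le (f n) μ, hf.bd n]
  set gg : Option (Fin r) → ℕ → ℂ := fun i => i.elim F g with hgg
  have hbd : ∀ i n, ‖gg i n‖ ≤ 1 := by
    rintro (_ | j) n
    exacts [hFb n, (hg j).bd n]
  choose σ hσ1 hσ using fun p : ℕ => Complex.exists_norm_eq_mul_self ((∏ j, g j p) *
    av (fun n => F (n + h0) * ∏ j, g j (n + h j)) (Q / p * L))
  have h1 := hE (Q * L) (fun i n => gg i n.val) σ M0 M1 hM01 (fun i n => hbd i _)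
    (fun p => (hσ1 p).le) fun p hp => (hdvd p hp).mul_right L
  have h2 : ∀ p ∈ PP M0 M1, (1 / (p : ℝ)) *
      ‖av (fun n => F (n + h0) * ∏ j, g j (n + h j)) (Q / p * L)‖ ≤
      (σ p * ((∑ n : ZMod (Q * L), ((V.ind p n - 1 / p : ℝ) : ℂ) *
        ∏ i : Option (Fin r), gg i (n + ((p * i.elim h0 h : ℕ) : ZMod (Q * L))).val) /
          (Q * L : ℕ))).re +
      (σ p / p * ((∑ n : ZMod (Q * L), F (n + ((p * h0 : ℕ) : ZMod (Q * L))).val *
        ∏ j, g j (n + ((p * h j : ℕ) : ZMod (Q * L))).val) / (Q * L : ℕ))).re +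
      (2 * b + 2) / L := by
    intro p hp
    have hp0 := (V.mem_PP.1 hp).1.pos
    have hN : Q * L = p * (Q / p * L) := by rw [← mul_assoc, Nat.mul_div_cancel' (hdvd p hp)]
    have hc : ‖∏ j, g j p‖ = 1 := by
      rw [norm_prod]
      exact prod_eq_one fun j _ => (hu p hp).2 j
    have h3 := OneP.mult hM hf hg hμ (hu p hp).1 hle hN
    refine (point hp0 (Nat.mul_pos (Nat.div_pos (Nat.le_of_dvd hQ0 (hdvd p hp)) hp0) hL) hN
      (hσ1 p).le hc (hσ p) h3 ?_).trans (add_le_add_right (div_le_div_of_nonneg_left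
        (by positivity) (by exact_mod_cast hL) (by exact_mod_cast hLN)) _)
    rw [mul_sum, ← sum_sub_distrib]
    refine sum_congr rfl fun n _ => ?_
    rw [Fintype.prod_option]
    push_cast
    simp only [hgg, hF, Option.elim]
    ring
  have h5 : ∀ m ∈ Ico M0 M1, ∑ p ∈ V.dy (2 ^ m),
      (σ p / p * ((∑ n : ZMod (Q * L), F (n + ((p * h0 : ℕ) : ZMod (Q * L))).val *
        ∏ j, g j (n + ((p * h j : ℕ) : ZMod (Q * L))).val) / (Q * L : ℕ))).re ≤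
      2 * CG * ((((D * 2 ^ m : ℕ) : ℝ) + 1) * 2 ^ r) / L +
        (ε + (CE + 2 * CG) * ((∑ x ∈ Icc 1 (Q * L), cube r F x (D * 2 ^ m)) /
          ((Q * L : ℕ) : ℝ))) / m := by
    intro m hm
    have hm1 : 1 ≤ m := hM0.trans (mem_Ico.1 hm).1
    rw [← Complex.re_sum]
    refine (Complex.re_le_norm _).trans ((hG (2 ^ m) (Q * L) (fun n => F n.val)
      (fun j n => g j n.val) σ (Nat.le_self_pow (by omega) 2) (fun j n => (hg j).bd _)
      fun p => (hσ1 p).le).trans ?_)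
    exact block hm1 hL hLN hε hCG (by linarith)
      (sum_nonneg fun x _ => div_nonneg (V.gow_nonneg _ _ _) (by positivity))
      (sum_nonneg fun x _ => V.cube_nonneg _ _ _ _) (by positivity)
      (hW (Q * L) r (D * 2 ^ m) F hFb)
  refine (sum_le_sum h2).trans ?_
  rw [sum_add_distrib, sum_add_distrib, V.sum_PP (fun p => (σ p / p *
    ((∑ n : ZMod (Q * L), F (n + ((p * h0 : ℕ) : ZMod (Q * L))).val *
      ∏ j, g j (n + ((p * h j : ℕ) : ZMod (Q * L))).val) / (Q * L : ℕ))).re) hM01, sum_const,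
    nsmul_eq_mul, add_div (_ * _ : ℝ) (∑ m ∈ Ico M0 M1, _), sum_div, mul_div_assoc]
  have h6 := sum_le_sum h5
  rw [sum_add_distrib] at h6
  linarith

end Pool.Agent.P.MP_746f10_nt.LP
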