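import Pool.Agent.P.MP_746f10_nt.LP.St

/-! Twisted partial sums of the centred function. -/

open Finset Filter MeasureTheory
open scoped ComplexConjugate

namespace Pool.Agent.P.MP_746f10_nt.LP

open Pool.Agent.P.MP_a14ce1_nt
open Pool.Agent.P.MP_a14ce1_nt.Ch (CM rs om pr Fx pv)
open Pool.Agent.P.MP_a14ce1_nt.V (av cube PP)
open Pool.Agent.P.MP_a14ce1_nt.IV (Hull ESW App cell wa ws gn Ew pS)
open Pool.Agent.P.MP_e30989_nt.W (UCM tw)

namespace PartP

/-- splitting a twisted sum into residue classes -/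
theorem split {q : ℕ} (hq : 0 < q) (χ : DirichletCharacter ℂ q) (φ : ℕ → ℂ) (N : ℕ) (E : ℝ)
    (hE : ∀ c, ‖∑ n ∈ (Icc 1 N).filter (fun n => n ≡ c [MOD q]), φ n‖ ≤ E) :
    ‖∑ n ∈ Icc 1 N, tw φ χ n‖ ≤ q * E := by
  rw [← sum_fiberwise_of_maps_to (s := Icc 1 N) (t := range q) (g := fun n => n % q)
    fun n _ => mem_range.2 (Nat.mod_lt n hq)]
  refine (norm_sum_le _ _).trans ((sum_le_card_nsmul _ _ E fun c hc => ?_).trans (by simp))
  have hc' : c % q = c := Nat.mod_eq_of_lt (mem_range.1 hc)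
  have e1 : (Icc 1 N).filter (fun n => n % q = c) = (Icc 1 N).filter (fun n => n ≡ c [MOD q]) :=
    filter_congr fun n _ => by rw [Nat.ModEq, hc']
  have e2 : ∑ n ∈ (Icc 1 N).filter (fun n => n ≡ c [MOD q]), tw φ χ n =
      (∑ n ∈ (Icc 1 N).filter (fun n => n ≡ c [MOD q]), φ n) * χ (c : ZMod q) := by
    rw [sum_mul]
    refine sum_congr rfl fun n hn => ?_
    rw [tw, (ZMod.natCast_eq_natCast_iff n c q).2 (mem_filter.1 hn).2]
  rw [e1, e2, norm_mul]
  have h1 := hE c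
  have h2 := χ.norm_le_one (c : ZMod q)
  nlinarith [norm_nonneg (∑ n ∈ (Icc 1 N).filter (fun n => n ≡ c [MOD q]), φ n),
    norm_nonneg (χ (c : ZMod q))]

/-- one residue class -/
theorem one_class {g : ℕ → ℂ} {M : ℂ} {q c N : ℕ} {E e : ℝ} (hM : ‖M‖ ≤ 1) (hN : 1 ≤ N)
    (h1 : ‖∑ n ∈ (Icc 1 N).filter (fun n => n ≡ c [MOD q]), g n - (N : ℂ) / q * av g N‖ ≤ E)
    (h2 : ‖∑ n ∈ (Icc 1 N).filter (fun n => n ≡ c [MOD q]), (1 : ℂ) -
      (N : ℂ) / q * av (fun _ => 1) N‖ ≤ E) (h3 : ‖av g N - M‖ ≤ e) :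
    ‖∑ n ∈ (Icc 1 N).filter (fun n => n ≡ c [MOD q]), (g n - M)‖ ≤ 2 * E + N / q * e := by
  rw [av_const 1 hN] at h2
  set s := (Icc 1 N).filter (fun n => n ≡ c [MOD q])
  have e1 : ∑ n ∈ s, (g n - M) = (∑ n ∈ s, g n - (N : ℂ) / q * av g N) -
      M * (∑ n ∈ s, (1 : ℂ) - (N : ℂ) / q * 1) + (N : ℂ) / q * (av g N - M) := by
    rw [sum_sub_distrib, mul_sub, mul_sum]
    simp only [mul_one]
    ring
  rw [e1]
  refine (norm_add_le _ _).trans (add_le_add ((norm_sub_le _ _).trans ?_) ?_)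
  · rw [norm_mul]
    nlinarith [norm_nonneg M, norm_nonneg (∑ n ∈ s, (1 : ℂ) - (N : ℂ) / q * 1)]
  · rw [norm_mul, norm_div, Complex.norm_natCast, Complex.norm_natCast]
    exact mul_le_mul_of_nonneg_left h3 (by positivity)

/-- the dyadic mean is close to a number that is close to two running means -/
theorem dv_near {g : ℕ → ℂ} {μ : ℂ} {Y : ℕ} {e : ℝ} (hY : 1 ≤ Y) (he : 0 ≤ e)
    (h1 : ‖av g (2 * Y - 1) - μ‖ ≤ e) (h2 : ‖av g (Y - 1) - μ‖ ≤ e) : ‖μ - dv g Y‖ ≤ 3 * e := by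
  have hY0 : (0 : ℝ) < Y := by exact_mod_cast hY
  have hYc : (Y : ℂ) ≠ 0 := by exact_mod_cast (by omega : Y ≠ 0)
  have e0 : ∀ L : ℕ, 1 ≤ L → Icc 1 (L - 1) = Ico 1 L := fun L hL => by
    ext n
    simp only [mem_Icc, mem_Ico]
    omega
  have e1 : (Y : ℂ) * (dv g Y - μ) = ((2 * Y - 1 : ℕ) : ℂ) * (av g (2 * Y - 1) - μ) -
      ((Y - 1 : ℕ) : ℂ) * (av g (Y - 1) - μ) := by
    rw [← sum_sub_const, ← sum_sub_const, e0 _ (by omega), e0 _ hY,
      ← sum_Ico_consecutive _ hY (by omega : Y ≤ 2 * Y), add_sub_cancel_left, sum_sub_distrib,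
      sum_const, Nat.card_Ico, show 2 * Y - Y = Y by omega, nsmul_eq_mul, dv]
    field_simp
  have h3 := norm_sub_le (((2 * Y - 1 : ℕ) : ℂ) * (av g (2 * Y - 1) - μ))
    (((Y - 1 : ℕ) : ℂ) * (av g (Y - 1) - μ))
  rw [← e1, norm_mul, norm_mul, norm_mul, Complex.norm_natCast, Complex.norm_natCast,
    Complex.norm_natCast] at h3
  have h4 : ((2 * Y - 1 : ℕ) : ℝ) ≤ 2 * Y := by exact_mod_cast Nat.sub_le _ _
  have h5 : ((Y - 1 : ℕ) : ℝ) ≤ Y := by exact_mod_cast Nat.sub_le _ _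
  have h6 := mul_le_mul h4 h1 (norm_nonneg _) (by positivity)
  have h7 := mul_le_mul h5 h2 (norm_nonneg _) hY0.le
  rw [norm_sub_rev]
  refine le_of_mul_le_mul_left ?_ hY0
  linarith

end PartP

open PartP in
theorem part (h1 : S_Cls) (h2 : S_SV) : S_Part := by
  intro b K η hK hη
  have hK1 : (1 : ℝ) ≤ K := by exact_mod_cast hK
  obtain ⟨C, hC, h1⟩ := h1 η (⌈1 / η⌉₊ + 1) hη
  have h2 := h2 η (1 / (72 * K)) (16 * K) (⌈1 / η⌉₊ + 1) hη (by positivity)
  have t1 : ∀ᶠ X : ℕ in atTop, 12 * (b : ℝ) * K + b + 2 ≤ (X : ℝ) ^ η :=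
    ((tendsto_rpow_atTop hη).comp tendsto_natCast_atTop_atTop).eventually_ge_atTop _
  have t2 : ∀ᶠ X : ℕ in atTop, 48 * (b : ℝ) * C * K + 1 ≤ Real.log X :=
    (Real.tendsto_log_atTop.comp tendsto_natCast_atTop_atTop).eventually_ge_atTop _
  filter_upwards [h1, h2, t1, t2, eventually_ge_atTop 8] with X h1 h2 t1 t2 t3
  intro g hg hT Y hY1 hY2 q hq hqb χ N hN
  have hb0 : (0 : ℝ) ≤ b := Nat.cast_nonneg b
  have hbK : (0 : ℝ) ≤ 12 * b * K := by positivity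
  have hM : ‖dv g Y‖ ≤ 1 := norm_dv_le zero_le_one fun n _ => hg.bd n
  have hY2' : 2 ≤ Y := by exact_mod_cast (by linarith : (2 : ℝ) ≤ Y)
  have hY0 : (0 : ℝ) < Y := by linarith
  by_cases hs : 2 * (K : ℝ) * N ≤ Y
  · have h3 : ‖∑ n ∈ Icc 1 N, tw (fun n => g n - dv g Y) χ n‖ ≤ N * 2 := by
      refine (norm_sum_le _ _).trans ((sum_le_card_nsmul _ _ 2 fun n _ => ?_).trans (by simp))
      rw [tw, norm_mul]
      nlinarith [norm_sub_le (g n) (dv g Y), hg.bd n, χ.norm_le_one (n : ZMod q),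
        norm_nonneg (g n - dv g Y), norm_nonneg (χ (n : ZMod q))]
    rw [le_div_iff₀ (by linarith)]
    nlinarith
  · have hs' : (Y : ℝ) < 2 * K * N := not_le.1 hs
    have hN1 : 1 ≤ N := Nat.one_le_iff_ne_zero.2 (by
      rintro rfl
      simp at hs'
      linarith)
    have hX1 : (1 : ℝ) ≤ X := by exact_mod_cast (by omega : 1 ≤ X)
    have h8 : 8 * Y ≤ X ^ (⌈1 / η⌉₊ + 1) := by
      have h3 : (X : ℝ) ^ (1 / η) ≤ (X : ℝ) ^ ⌈1 / η⌉₊ := by
        rw [← Real.rpow_natCast]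
        exact Real.rpow_le_rpow_of_exponent_le hX1 (Nat.le_ceil _)
      have h4 : Y ≤ X ^ ⌈1 / η⌉₊ := by exact_mod_cast hY2.trans h3
      rw [pow_succ, mul_comm]
      exact Nat.mul_le_mul h4 t3
    have hNr : (N : ℝ) ≤ 8 * Y := by exact_mod_cast hN
    have hN0 : (0 : ℝ) ≤ N := Nat.cast_nonneg N
    have hL : ∀ L : ℕ, Y ≤ 2 * L → L ≤ 2 * Y → ‖av g L - av g N‖ ≤ 1 / (72 * K) := by
      intro L h3 h4
      have h5 : (Y : ℝ) ≤ 2 * L := by exact_mod_cast h3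
      have h6 : (L : ℝ) ≤ 2 * Y := by exact_mod_cast h4
      refine h2 g hg hT N L hN1 (by omega) (by omega) (by omega) ?_ ?_
      · nlinarith
      · nlinarith
    have h3 := dv_near (by omega) (by positivity) (hL (2 * Y - 1) (by omega) (by omega))
      (hL (Y - 1) (by omega) (by omega))
    have hqr : (q : ℝ) ≤ b := by exact_mod_cast hqb
    have hq0 : (0 : ℝ) < q := by exact_mod_cast hq
    have hqX : (q : ℝ) ≤ (X : ℝ) ^ η := by linarith
    refine (split hq χ _ N _ fun c => one_class hM hN1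
      (h1 g hg hT q c N hq hqX (by omega))
      (h1 _ ucm_one.1 (tr_one _) q c N hq hqX (by omega)) h3).trans ?_
    have hbC : (0 : ℝ) ≤ 48 * b * C * K := by positivity
    have hlog : 0 < Real.log X := by linarith
    have e1 : (q : ℝ) * (2 * (C * N / Real.log X + 2) + N / q * (3 * (1 / (72 * K)))) =
        2 * q * C * N / Real.log X + 4 * q + N / (24 * K) := by
      field_simp
      ring
    have a1 : 2 * q * C * N / Real.log X ≤ Y / (3 * K) := by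
      rw [div_le_div_iff₀ hlog (by positivity)]
      have a2 : (q : ℝ) * N ≤ b * (8 * Y) := mul_le_mul hqr hNr hN0 hb0
      have a3 := mul_le_mul_of_nonneg_left a2 (show (0 : ℝ) ≤ 6 * C * K by positivity)
      have a4 := mul_le_mul_of_nonneg_left t2 hY0.le
      nlinarith
    have a2 : 4 * (q : ℝ) ≤ Y / (3 * K) := by
      rw [le_div_iff₀ (by positivity)]
      nlinarith
    have a3 : (N : ℝ) / (24 * K) ≤ Y / (3 * K) := by
      rw [div_le_div_iff₀ (by positivity) (by positivity)]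
      nlinarith
    have e2 : (Y : ℝ) / K = Y / (3 * K) + Y / (3 * K) + Y / (3 * K) := by
      field_simp
      ring
    rw [e1, e2]
    linarith

end Pool.Agent.P.MP_746f10_nt.LP
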