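import Pool.Agent.P.MP_746f10_nt.LP.St

/-! Counting integers without small prime factors. -/

open Finset Filter MeasureTheory
open scoped ComplexConjugate

namespace Pool.Agent.P.MP_746f10_nt.LP

open Pool.Agent.P.MP_a14ce1_nt

namespace RCP

theorem lt_of_coprime {d y : ℕ} (hd : 1 < d) (h : Nat.Coprime d (primorial y)) : y < d := by
  by_contra hc
  have hp := Nat.minFac_prime hd.ne'
  have h1 : d.minFac ∣ primorial y :=
    hp.dvd_primorial_iff.2 ((Nat.minFac_le (by omega)).trans (not_lt.1 hc))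
  exact hp.one_lt.ne' (Nat.eq_one_of_dvd_coprimes h (Nat.minFac_dvd d) h1)

end RCP

theorem rc (h : Ch.S_Rough) : S_RC := by
  obtain ⟨C, hC, h⟩ := h 1
  obtain ⟨y0, h⟩ := h 0
  refine ⟨2 * C, max y0 2, by positivity, fun y hy N => ?_⟩
  have hy2 : (2 : ℝ) ≤ y := by exact_mod_cast le_of_max_le_right hy
  have hl : 0 < Real.log y := Real.log_pos (by linarith)
  have hsub : ((Ioc 1 N).filter fun d => Nat.Coprime d (primorial y)) ⊆
      (Ioc y N).filter fun d => Nat.Coprime d (primorial y) := fun d hd => by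
    obtain ⟨h1, h2⟩ := mem_filter.1 hd
    exact mem_filter.2 ⟨mem_Ioc.2 ⟨RCP.lt_of_coprime (mem_Ioc.1 h1).1 h2, (mem_Ioc.1 h1).2⟩, h2⟩
  refine le_trans (Nat.cast_le.2 (card_le_card hsub)) ?_
  rcases lt_or_ge N y with hN | hN
  · rw [Ioc_eq_empty (by omega), filter_empty, card_empty, Nat.cast_zero]
    positivity
  obtain ⟨κ, hκ, h⟩ := h y (le_of_max_le_left hy) 1 0 (by simp)
  have h1 := h N hN
  have e0 : ∀ s : ℝ, Ch.nit 0 s = 1 := fun s => by simp [Ch.nit, Ch.ex]
  have e1 : ∑ n ∈ Ioc y N, Ch.rc (1 : DirichletCharacter ℂ 1) y n * Ch.nit 0 n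
      = (((Ioc y N).filter fun d => Nat.Coprime d (primorial y)).card : ℂ) := by
    rw [card_filter]
    push_cast
    refine sum_congr rfl fun n _ => ?_
    rw [e0, mul_one, Ch.rc, Subsingleton.elim (n : ZMod 1) 1, map_one]
  have hN' : (y : ℝ) ≤ N := by exact_mod_cast hN
  have e2 : ‖κ * ∫ s in (y : ℝ)..N, Ch.nit 0 s‖ ≤ C / Real.log y * N := by
    simp only [e0, intervalIntegral.integral_const, norm_mul, norm_smul, norm_one, mul_one,
      Real.norm_eq_abs]
    refine mul_le_mul hκ ?_ (abs_nonneg _) (by positivity)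
    rw [abs_of_nonneg (by linarith)]
    linarith
  have e3 : C * N * (Real.log y) ^ 2 / (Real.log N) ^ 3 ≤ C * N / Real.log y := by
    have h3 : Real.log y ≤ Real.log N := Real.log_le_log (by linarith) hN'
    calc C * N * (Real.log y) ^ 2 / (Real.log N) ^ 3
        ≤ C * N * (Real.log y) ^ 2 / (Real.log y) ^ 3 := by gcongr
      _ = C * N / Real.log y := by field_simp
  rw [e1] at h1
  have h4 := norm_le_norm_sub_add
    ((((Ioc y N).filter fun d => Nat.Coprime d (primorial y)).card : ℂ))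
    (κ * ∫ s in (y : ℝ)..N, Ch.nit 0 s)
  rw [Complex.norm_natCast] at h4
  have e4 : 2 * C * N / Real.log y = C * N / Real.log y + C / Real.log y * N := by ring
  linarith

end Pool.Agent.P.MP_746f10_nt.LP
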