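import Pool.Agent.P.MP_746f10_nt.LP.St
import Pool.Agent.P.MP_e30989_nt.W.MRH

/-! Short means in residue classes are close to the long mean. -/

open Finset Filter MeasureTheory
open scoped ComplexConjugate

namespace Pool.Agent.P.MP_746f10_nt.LP

open Pool.Agent.P.MP_a14ce1_nt
open Pool.Agent.P.MP_a14ce1_nt.Ch (CM rs om pr Fx pv)
open Pool.Agent.P.MP_a14ce1_nt.V (av cube PP)
open Pool.Agent.P.MP_e30989_nt.W (UCM tw)

namespace RMP

theorem point {f : ℕ → ℂ} (hf : ∀ n, ‖f n‖ ≤ 2) (d b c R x : ℕ) (hm : ∀ n, n ≠ 0 → f (d * n) = f n)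
    (hd : 0 < d) (hx : 0 < x) :
    ‖∑ j ∈ (range R).filter (fun j => x + j ≡ d * c [MOD d * b]), f (x + j)‖ ≤
      ‖∑ j ∈ (range (R / d)).filter (fun j => (x + d - 1) / d + j ≡ c [MOD b]),
        f ((x + d - 1) / d + j)‖ + 2 := by
  set y := (x + d - 1) / d with hy
  set z := (x + R + d - 1) / d with hz
  have hy' : ∀ n, y ≤ n ↔ x ≤ d * n := fun n => by
    rw [hy, Nat.div_le_iff_le_mul_add_pred hd]; omega
  have hz' : ∀ n, z ≤ n ↔ x + R ≤ d * n := fun n => by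
    rw [hz, Nat.div_le_iff_le_mul_add_pred hd]; omega
  clear_value y z
  have h4 := Nat.mul_div_le R d
  have h5 := Nat.div_add_mod R d
  have h6 := Nat.mod_lt R hd
  generalize R / d = r at *
  have hy0 : 0 < y := by
    by_contra h
    have := (hy' 0).1 (by omega)
    omega
  have h1 : y + r ≤ z := by
    by_contra h
    have h2 := (hz' (y + r - 1)).1 (by omega)
    have h3 := (hy' (y - 1)).not.1 (by omega)
    rw [show y + r - 1 = (y - 1) + r by omega, mul_add] at h2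
    omega
  have h2 : z ≤ y + r + 1 := by
    rw [hz', mul_add, mul_add]
    have h3 := (hy' y).1 le_rfl
    omega
  have e1 : ∑ j ∈ (range R).filter (fun j => x + j ≡ d * c [MOD d * b]), f (x + j) =
      ∑ n ∈ (Ico y z).filter (fun n => n ≡ c [MOD b]), f n := by
    symm
    refine sum_bij (fun n _ => d * n - x) (fun n hn => ?_) (fun n hn n' hn' e => ?_)
      (fun j hj => ?_) fun n hn => ?_
    · simp only [mem_filter, mem_Ico, mem_range] at hn ⊢
      have h3 := (hy' n).1 hn.1.1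
      have h4 := (hz' n).not.1 (by omega)
      refine ⟨by omega, ?_⟩
      rw [show x + (d * n - x) = d * n by omega]
      exact hn.2.mul_left' d
    · simp only [mem_filter, mem_Ico] at hn hn'
      have h3 := (hy' n).1 hn.1.1
      have h4 := (hy' n').1 hn'.1.1
      exact Nat.eq_of_mul_eq_mul_left hd (by omega)
    · simp only [mem_filter, mem_range] at hj
      obtain ⟨n, hn⟩ : d ∣ x + j :=
        (Nat.modEq_zero_iff_dvd).1 ((hj.2.of_mul_right b).trans
          (Nat.modEq_zero_iff_dvd.2 (dvd_mul_right d c)))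
      refine ⟨n, ?_, by omega⟩
      simp only [mem_filter, mem_Ico]
      refine ⟨⟨(hy' n).2 (by omega), not_le.1 ((hz' n).not.2 (by omega))⟩, ?_⟩
      have := hj.2
      rw [hn] at this
      exact Nat.ModEq.mul_left_cancel' hd.ne' this
    · simp only [mem_filter, mem_Ico] at hn
      have h3 := (hy' n).1 hn.1.1
      rw [show x + (d * n - x) = d * n by omega, hm n (by omega)]
  have e2 : ∑ j ∈ (range r).filter (fun j => y + j ≡ c [MOD b]), f (y + j) =
      ∑ n ∈ (Ico y (y + r)).filter (fun n => n ≡ c [MOD b]), f n := by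
    rw [sum_filter, sum_filter, sum_Ico_eq_sum_range, Nat.add_sub_cancel_left]
  rw [e1, e2, sum_filter, sum_filter]
  rcases h1.eq_or_lt with h | h
  · rw [h]; linarith
  · rw [show z = y + r + 1 by omega, sum_Ico_succ_top (by omega)]
    refine (norm_add_le _ _).trans (add_le_add_right ?_ _)
    split_ifs
    · exact hf _
    · simp

theorem scaled {f : ℕ → ℂ} (hf : ∀ n, ‖f n‖ ≤ 2) (d b c R Y : ℕ)
    (hm : ∀ n, n ≠ 0 → f (d * n) = f n) (hd : 0 < d) (hb : 0 < b) (hY : 0 < Y)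
    (hc : Nat.Coprime c b) (η : ℝ) (hη : 0 ≤ η)
    (h : ∀ χ : DirichletCharacter ℂ b, ∑ x ∈ Ico (Y / d) (2 * (Y / d)),
      ‖∑ j ∈ range (R / d), tw f χ (x + j)‖ ≤ η * (R / d : ℕ) * (Y / d : ℕ)) :
    ∑ x ∈ Ico Y (2 * Y), ‖∑ j ∈ (range R).filter (fun j => x + j ≡ d * c [MOD d * b]),
      f (x + j)‖ ≤ η * R * Y + 6 * R + 2 * Y := by
  let F : ℕ → ℝ := fun y => ‖∑ j ∈ (range (R / d)).filter (fun j => y + j ≡ c [MOD b]), f (y + j)‖
  have h1 : ∀ y, F y ≤ 2 * (R / d : ℕ) := fun y => by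
    refine (norm_sum_le _ _).trans ((sum_le_card_nsmul _ _ 2 fun j _ => hf _).trans ?_)
    rw [nsmul_eq_mul, mul_comm]
    refine mul_le_mul_of_nonneg_left ?_ (by norm_num)
    exact_mod_cast (card_filter_le _ _).trans (card_range _).le
  have h2 : ∑ y ∈ Ico (Y / d) (2 * (Y / d)), F y ≤ η * (R / d : ℕ) * (Y / d : ℕ) :=
    MP_e30989_nt.W.MRH.coprime_class f b hb _ _ c _ hc h
  have h3 : ∑ y ∈ Ico (Y / d) (2 * (Y / d) + 3), F y ≤
      η * (R / d : ℕ) * (Y / d : ℕ) + 6 * (R / d : ℕ) := by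
    rw [sum_Ico_succ_top (by omega), sum_Ico_succ_top (by omega), sum_Ico_succ_top (by omega)]
    linarith [h1 (2 * (Y / d)), h1 (2 * (Y / d) + 1), h1 (2 * (Y / d) + 2)]
  have h4 := MP_e30989_nt.W.MRH.sum_ceil F (fun _ => norm_nonneg _) d Y hd
  refine (sum_le_sum fun x hx => point hf d b c R x hm hd (hY.trans_le (mem_Ico.1 hx).1)).trans ?_
  rw [sum_add_distrib, sum_const, Nat.card_Ico, nsmul_eq_mul, show 2 * Y - Y = Y by omega,
    mul_comm (Y : ℝ) 2]
  refine add_le_add (h4.trans ((mul_le_mul_of_nonneg_left h3 (by positivity)).trans ?_)) le_rfl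
  have h6 : (d : ℝ) * (R / d : ℕ) ≤ R := by exact_mod_cast Nat.mul_div_le R d
  have h7 : ((Y / d : ℕ) : ℝ) ≤ Y := by exact_mod_cast Nat.div_le_self Y d
  have h8 : (d : ℝ) * (R / d : ℕ) * (Y / d : ℕ) ≤ R * Y :=
    mul_le_mul h6 h7 (by positivity) (by positivity)
  nlinarith [mul_le_mul_of_nonneg_left h8 hη]

end RMP

theorem rm (h1 : S_Part) (h2 : S_MRc) : S_RM := by
  intro b hb δ hδ
  have hall : ∀ᶠ K : ℕ in atTop, ∀ q ∈ Icc 1 b, ∀ χ : DirichletCharacter ℂ q, ∀ Y : ℕ, K ≤ Y →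
      ∀ (g : ℕ → ℂ) (M : ℂ), CM g → Tr ((Y : ℝ) ^ (δ ^ 2)) g → ‖M‖ ≤ 1 →
      (∀ N ≤ 8 * Y, ‖∑ n ∈ Icc 1 N, tw (fun n => g n - M) χ n‖ ≤ (Y : ℝ) / K) →
      ∀ R : ℕ, K ≤ R → K * R ≤ Y →
        ∑ x ∈ Ico Y (2 * Y), ‖∑ j ∈ range R, tw (fun n => g n - M) χ (x + j)‖ ≤
          δ / 3 * R * Y := by
    refine (eventually_all_finset _).2 fun q hq => ?_
    have : NeZero q := ⟨by have := (mem_Icc.1 hq).1; omega⟩
    exact eventually_all.2 fun χ => h2 q χ (δ ^ 2) (δ / 3) (by positivity) (by positivity)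
  obtain ⟨K, hK, hK1⟩ := (hall.and (eventually_ge_atTop 1)).exists
  have hb0 : (0 : ℝ) < b := by exact_mod_cast hb
  have hb1 : (1 : ℝ) ≤ b := by exact_mod_cast hb
  have hK0 : (0 : ℝ) < K := by exact_mod_cast hK1
  have hK2 : (1 : ℝ) ≤ K := by exact_mod_cast hK1
  have ev : ∀ᶠ X : ℕ in atTop, 2 * b * K + 18 / δ ≤ (X : ℝ) ^ δ :=
    ((tendsto_rpow_atTop hδ).comp tendsto_natCast_atTop_atTop).eventually_ge_atTop _
  refine ⟨b * K + ⌈6 / δ⌉₊, 1 / (2 * b * K), by positivity, ?_⟩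
  filter_upwards [h1 b (2 * b * K) δ (by positivity) hδ, ev] with X hP hy g hg hT Y hY1 hY2 R hR0
    hR1 c
  have p2 : 0 < 18 / δ := by positivity
  have y1 : (b : ℝ) ≤ 2 * b * K := by nlinarith
  have y2 : (2 : ℝ) ≤ 2 * b * K := by nlinarith
  have y3 : (2 * b * K : ℝ) ≤ Y := by linarith
  set d := Nat.gcd c b with hd
  have d0 : 0 < d := Nat.gcd_pos_of_pos_right c hb
  have d1 : d ≤ b := Nat.gcd_le_right c hb
  have d2 : (d : ℝ) ≤ b := by exact_mod_cast d1
  have bY : b ≤ Y := by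
    have : (b : ℝ) ≤ Y := by linarith
    exact_mod_cast this
  have Y1 : 0 < Y / d := Nat.div_pos (d1.trans bY) d0
  have Y2 : (Y : ℝ) ≤ 2 * b * (Y / d : ℕ) := by
    have h2 := Nat.div_add_mod Y d
    have h3 := Nat.mod_lt Y d0
    have h4 : d * (Y / d) ≤ b * (Y / d) := Nat.mul_le_mul_right _ d1
    have h5 : d ≤ d * (Y / d) := Nat.le_mul_of_pos_right _ Y1
    have : Y ≤ 2 * b * (Y / d) := by rw [mul_assoc]; omega
    exact_mod_cast this
  have Y3 : (K : ℝ) ≤ (Y / d : ℕ) := le_of_mul_le_mul_left (y3.trans Y2) (by positivity)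
  have Y4 : ((Y / d : ℕ) : ℝ) ≤ Y := by exact_mod_cast Nat.div_le_self Y d
  have Y5 : ((Y / d : ℕ) : ℝ) ^ (δ ^ 2) ≤ (X : ℝ) ^ δ := by
    refine (Real.rpow_le_rpow (by positivity) (Y4.trans hY2) (by positivity)).trans (le_of_eq ?_)
    rw [← Real.rpow_mul (by positivity)]
    congr 1
    field_simp
  have g1 : g 1 = 1 := cm_one_eq hg (p := 2) two_ne_zero (hT 2 Nat.prime_two (by push_cast; linarith))
  have gd : g d = 1 := hT.eq_one hg g1 d0.ne' (by linarith)
  have hM : ‖dv g Y‖ ≤ 1 := norm_dv_le zero_le_one fun n _ => hg.bd n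
  have b1 : 0 < b / d := Nat.div_pos d1 d0
  have b2 : b / d ≤ b := Nat.div_le_self _ _
  have key := RMP.scaled (f := fun n => g n - dv g Y)
    (fun n => by linarith [norm_sub_le (g n) (dv g Y), hg.bd n]) d (b / d) (c / d) R Y
    (fun n hn => by rw [hg.mul d n d0.ne' hn, gd, one_mul]) d0 b1 (hb.trans_le bY)
    (Nat.coprime_div_gcd_div_gcd d0) (δ / 3) (by positivity) fun χ => by
      refine hK (b / d) (mem_Icc.2 ⟨b1, b2⟩) χ (Y / d) (by exact_mod_cast Y3) g _ hg (hT.mono Y5) hM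
        (fun N hN => ?_) (R / d) ?_ ?_
      · refine (hP g hg hT Y hY1 hY2 (b / d) b1 b2 χ N
          (hN.trans (Nat.mul_le_mul_left 8 (Nat.div_le_self Y d)))).trans ?_
        push_cast
        rw [div_le_div_iff₀ (by positivity) hK0]
        nlinarith
      · rw [Nat.le_div_iff_mul_le d0]
        have := Nat.mul_le_mul_left K d1
        rw [mul_comm K b] at this
        omega
      · have h1 : ((R / d : ℕ) : ℝ) ≤ R := by exact_mod_cast Nat.div_le_self R d
        have h3 : (K : ℝ) * (R / d : ℕ) ≤ (Y / d : ℕ) := by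
          rw [one_div_mul_eq_div, le_div_iff₀ (by positivity)] at hR1
          refine le_of_mul_le_mul_left (le_trans ?_ (hR1.trans Y2)) (show (0 : ℝ) < 2 * b by positivity)
          nlinarith [mul_le_mul_of_nonneg_left h1 (show (0 : ℝ) ≤ 2 * b * K by positivity)]
        exact_mod_cast h3
  rw [Nat.mul_div_cancel' (Nat.gcd_dvd_left c b), Nat.mul_div_cancel' (Nat.gcd_dvd_right c b)]
    at key
  refine key.trans ?_
  have r1 : 6 ≤ δ * R := by
    have : 6 / δ ≤ R := (Nat.le_ceil _).trans (by exact_mod_cast (show ⌈6 / δ⌉₊ ≤ R by omega))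
    rwa [div_le_iff₀' hδ] at this
  have r2 : 18 ≤ δ * Y := by
    have : 18 / δ ≤ Y := by linarith
    rwa [div_le_iff₀' hδ] at this
  nlinarith [mul_le_mul_of_nonneg_left r1 (Nat.cast_nonneg (α := ℝ) Y),
    mul_le_mul_of_nonneg_left r2 (Nat.cast_nonneg (α := ℝ) R)]

end Pool.Agent.P.MP_746f10_nt.LP
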