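import Pool.Agent.P.MP_746f10_nt.LP.St
import Pool.Agent.P.MP_a14ce1_nt.IV.Tilt

/-! The tilted step, centred: choice of the parameters. -/

open Finset Filter

namespace Pool.Agent.P.MP_746f10_nt.LP

open Pool.Agent.P.MP_a14ce1_nt
open Pool.Agent.P.MP_a14ce1_nt.Ch (CM rs om pr Fx pv)
open Pool.Agent.P.MP_a14ce1_nt.V (av cube PP)
open Pool.Agent.P.MP_a14ce1_nt.IV (Hull ESW App cell wa ws gn Ew pS grp grp_disjoint)
open Pool.Agent.P.MP_e30989_nt.W (UCM tw)

namespace TiltP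

theorem lip2 {g : ℕ → ℂ} {C x Z : ℝ} {B : ℕ} (hC : 0 ≤ C) (hx : 0 < x)
    (h : ∀ M N : ℕ, 1 ≤ M → M ≤ N → N ≤ B →
      ‖av g N - av g M‖ ≤ C * (1 + Real.log ((N : ℝ) / M)) / x)
    {M N : ℕ} (hM : 1 ≤ M) (hN : 1 ≤ N) (hMB : M ≤ B) (hNB : N ≤ B) (h1 : (M : ℝ) ≤ Z * N)
    (h2 : (N : ℝ) ≤ Z * M) : ‖av g N - av g M‖ ≤ C * (1 + Real.log Z) / x := by
  have key : ∀ M N : ℕ, 1 ≤ M → M ≤ N → N ≤ B → (N : ℝ) ≤ Z * M →
      ‖av g N - av g M‖ ≤ C * (1 + Real.log Z) / x := fun M N a b c d => by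
    have a0 : (0 : ℝ) < M := by exact_mod_cast a
    have b0 : (0 : ℝ) < N := by exact_mod_cast a.trans b
    have e : Real.log ((N : ℝ) / M) ≤ Real.log Z :=
      Real.log_le_log (by positivity) ((div_le_iff₀ a0).2 d)
    exact (h M N a b c).trans (by gcongr)
  rcases le_total M N with k | k
  · exact key M N hM k hNB h2
  · rw [norm_sub_rev]
    exact key N M hN k hMB h1

/-- the scales seen by a cell -/
theorem scales {j N : ℕ} {ρ am a Z X : ℝ} (hj : 1 ≤ j) (ham : 0 < am) (hZ : 1 ≤ Z) (hρ : 4 * Z ≤ ρ)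
    (a1 : am ≤ a) (a2 : a ≤ am * Z) (hX : j * ρ ≤ X) (h1 : j * (ρ * am) ≤ 2 * a * (N + 1))
    (h2 : a * N ≤ 4 * (j * (ρ * am))) :
    1 ≤ N ∧ 1 ≤ ⌈(j : ℝ) * ρ⌉₊ ∧ (N : ℝ) ≤ 4 * X ∧ (⌈(j : ℝ) * ρ⌉₊ : ℝ) ≤ 4 * X ∧
      (⌈(j : ℝ) * ρ⌉₊ : ℝ) ≤ 8 * Z * N ∧ (N : ℝ) ≤ 8 * Z * ⌈(j : ℝ) * ρ⌉₊ := by
  have j1 : (1 : ℝ) ≤ j := by exact_mod_cast hj
  have N0 : (0 : ℝ) ≤ N := Nat.cast_nonneg N
  have b0 : 4 * Z ≤ j * ρ := hρ.trans (le_mul_of_one_le_left (by linarith) j1)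
  have b1 : (N : ℝ) ≤ 4 * (j * ρ) := by
    refine le_of_mul_le_mul_left ?_ ham
    nlinarith
  have b2 : j * ρ ≤ 2 * Z * (N + 1) := by
    refine le_of_mul_le_mul_left ?_ ham
    nlinarith
  have b3 : j * ρ ≤ 4 * Z * N := by nlinarith
  have b4 := Nat.le_ceil ((j : ℝ) * ρ)
  have b5 := Nat.ceil_lt_add_one (show 0 ≤ (j : ℝ) * ρ by linarith)
  have b6 : (1 : ℝ) ≤ N := by
    refine le_of_mul_le_mul_left ?_ (show 0 < 4 * Z by linarith)
    linarith
  refine ⟨by exact_mod_cast b6, Nat.ceil_pos.2 (by linarith), by linarith, by linarith,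
    by linarith, ?_⟩
  nlinarith

theorem small {x K t : ℝ} (hK : 1 ≤ K) (h1 : 8 * K ≤ x) (h2 : 2 * K * (t * Real.log 2) ≤ x) :
    (1 + (3 + t) * Real.log 2) / x ≤ 1 / K := by
  rw [div_le_div_iff₀ (by linarith) (by linarith)]
  nlinarith [Real.log_two_lt_d9]

end TiltP

open TiltP IV.TiltP

theorem tilt (h1 : IV.S_Sec1) (hCo : S_Core) (hCe : S_Cell) (hLi : S_Lip) : S_Tilt := by
  intro XX hX ⟨CW, hES⟩ ⟨CL, hL⟩ η c0 hη hc0
  obtain ⟨C, s0, hC, h1⟩ := h1
  obtain ⟨Ci, hCi, hLi⟩ := hLi η 2 hη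
  set c := min (c0 / 2) 1 with hc
  have c1 : 0 < c := lt_min (by positivity) one_pos
  have c2 : c ≤ 1 := min_le_right _ _
  have c3 : 2 * c ≤ c0 := by linarith [min_le_left (c0 / 2) 1]
  set β : ℝ := c / 64 * (c / 8) / (140 * C + 700) with hβ
  have β0 : 0 < β := by positivity
  have β1 : β * (140 * C + 700) ≤ c / 64 * (c / 8) := le_of_eq (div_mul_cancel₀ _ (by positivity))
  have β2 : β ≤ 1 / 2 := by nlinarith
  have β3 : 128 * β ≤ c := by nlinarith
  refine ⟨min β η, lt_min β0 hη, fun κ κ0 κ2 => ?_⟩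
  have κ1 : κ ≤ β := κ2.trans (min_le_left _ _)
  have κ3 : κ ≤ η := κ2.trans (min_le_right _ _)
  set r : ℕ := ⌈1 / β⌉₊ with hr
  have r0 : 1 ≤ r := Nat.ceil_pos.2 (by positivity)
  have r1 : (1 : ℝ) ≤ r := by exact_mod_cast r0
  have r2 : 1 / (r : ℝ) ≤ β := by
    rw [div_le_iff₀' (by positivity), ← div_le_iff₀ β0]; exact Nat.le_ceil _
  set L : ℕ := r ^ 2 with hLd
  set E : ℕ := 2 * r + (2 * CW + 3) with hEd
  have E0 : (1 : ℝ) ≤ E := by exact_mod_cast (show 1 ≤ E by omega)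
  set δ0 : ℝ := κ / (2 * E * 2 ^ L) with hδ0
  have δ1 : 0 < δ0 := by positivity
  have L2 : (1 : ℝ) ≤ 2 ^ L := one_le_pow₀ one_le_two
  have δ2 : δ0 ≤ κ := div_le_self κ0.le (by nlinarith)
  set n : ℕ := ⌈CL / δ0⌉₊ + 1 with hn
  have n0 : (CL : ℝ) ≤ δ0 * n := by
    rw [← div_le_iff₀' δ1]; push_cast [hn]; linarith [Nat.le_ceil (CL / δ0)]
  obtain ⟨K, K1, K2⟩ : ∃ K : ℕ, 1 ≤ K ∧ 16 * 4 ^ (10 * n) * (Ci / K) ≤ c / 32 := by
    refine ⟨⌈512 * 4 ^ (10 * n) * Ci / c⌉₊ + 1, by omega, ?_⟩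
    have h := Nat.le_ceil (512 * 4 ^ (10 * n) * Ci / c)
    rw [div_le_iff₀ c1] at h
    rw [← mul_div_assoc, div_le_iff₀ (by positivity)]
    push_cast
    nlinarith
  have K3 : (1 : ℝ) ≤ K := by exact_mod_cast K1
  obtain ⟨j0, hj0⟩ : ∃ j0 : ℕ, j0 = 20 * n * K := ⟨_, rfl⟩
  have j3 : 20 * n ≤ j0 := hj0 ▸ Nat.le_mul_of_pos_right _ K1
  have j1 : 1 ≤ j0 := by omega
  have j2 : (1 : ℝ) ≤ j0 := by exact_mod_cast j1
  set lam : ℝ := 1 / (2 * (j0 * 2 ^ L)) with hlam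
  set A : ℝ := E * (j0 * 2 ^ L) * Real.log 2 with hA
  have l2 : 0 < Real.log 2 := Real.log_pos one_lt_two
  have A0 : 0 < A := by positivity
  filter_upwards [hL n (min δ0 (1 / (10 * n + 1))) (c / 32) lam (by positivity)
    (by positivity) (by positivity), ev_log (CW + 1) δ1
      (8 * K + 2 ^ (10 * n) + 2 * (j0 * 2 ^ L) + r / β + (s0 + 1) * A / κ), hLi,
      eventually_ge_atTop 4] with X hLX ⟨X2, hK, hlog⟩ hLiX X4 f hf hT H hH1 hH2 hApp
  set x := Real.log X with hx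
  have X1 : (1 : ℝ) ≤ X := by exact_mod_cast (show 1 ≤ X by omega)
  have X5 : (4 : ℝ) ≤ X := by exact_mod_cast X4
  have X0 : (0 : ℝ) < X := by linarith
  have p1 : (0 : ℝ) < 2 ^ (10 * n) := by positivity
  have p2 : (0 : ℝ) < 2 * (j0 * 2 ^ L) := by positivity
  have p3 : 0 < r / β := by positivity
  have p4 : 0 < (s0 + 1) * A / κ := by positivity
  have x4 : 8 * (K : ℝ) ≤ x := by linarith
  have x2 : 2 ≤ x := by linarith
  have x3 : (r : ℝ) ≤ β * x := by rw [← div_le_iff₀' β0]; linarith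
  set s : ℕ := ⌊κ * x / A⌋₊ with hs
  have s1 : (s0 : ℝ) + 1 ≤ κ * x / A := by
    rw [le_div_iff₀ A0, ← div_le_iff₀' κ0]; linarith
  have s2 : s0 + 1 ≤ s := Nat.le_floor (by exact_mod_cast s1)
  have s3 : (s : ℝ) * A ≤ κ * x := by rw [← le_div_iff₀ A0]; exact Nat.floor_le (by positivity)
  have s4 : κ * x ≤ 2 * s * A := by
    rw [← div_le_iff₀ A0]
    have : (1 : ℝ) ≤ s := by exact_mod_cast (show 1 ≤ s by omega)
    linarith [Nat.lt_floor_add_one (κ * x / A)]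
  set Pm : ℝ := 2 ^ (s * j0 * 2 ^ L) with hPm
  have P0 : 0 < Pm := by positivity
  have mono : ∀ {a : ℕ}, a ≤ s * (j0 * 2 ^ L) → (2 : ℝ) ^ a ≤ Pm := fun h =>
    pow_le_pow_right₀ one_le_two (by rw [mul_assoc]; exact h)
  have L1 : 1 ≤ 2 ^ L := Nat.one_le_two_pow
  have P2 : 2 ≤ Pm := by
    have := mono (a := 1) (Nat.mul_pos (by omega) (Nat.mul_pos j1 L1))
    rwa [pow_one] at this
  have P1 : 1 ≤ Pm := by linarith
  have lP : E * Real.log Pm ≤ κ * x := by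
    rw [hPm, Real.log_pow]; push_cast
    refine le_trans (le_of_eq ?_) s3
    rw [hA]; ring
  have lP' : Real.log Pm ≤ κ * x := le_trans (le_mul_of_one_le_left (Real.log_nonneg P1) E0) lP
  have PE : Pm ^ E ≤ H := by
    refine le_trans ?_ hH1
    rw [← Real.log_le_log_iff (by positivity) (by positivity), Real.log_pow, Real.log_rpow X0]
    exact lP
  have Pη : Pm ≤ (X : ℝ) ^ η := by
    rw [← Real.log_le_log_iff (by positivity) (by positivity), Real.log_rpow X0]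
    exact lP'.trans (by gcongr)
  have HX : H ≤ X := hH2.trans (by
    conv_rhs => rw [← Real.rpow_one X]
    exact Real.rpow_le_rpow_of_exponent_le X1 (by linarith))
  have PX : Pm ≤ X := ((le_self_pow₀ P1 (by omega)).trans PE).trans HX
  have y0 : (X : ℝ) ^ δ0 ≤ 2 ^ (s * j0) := by
    rw [← Real.log_le_log_iff (by positivity) (by positivity), Real.log_pow, Real.log_rpow X0,
      hδ0, div_mul_eq_mul_div, div_le_iff₀ (by positivity)]
    refine s4.trans (le_of_eq ?_)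
    rw [hA]; push_cast; ring
  have xy : x ≤ (X : ℝ) ^ δ0 := (le_self_pow₀ (by linarith) (by omega)).trans hlog
  obtain ⟨ρ, Ψ, Ψ1, J, q1, q2, q3, q4, q5, q6, q7, q8⟩ := h1 XX hX f hf s j0 L r X Pm H _
    (by omega) (by omega) j1 (Nat.one_le_pow _ _ r0) r0 rfl
    ((pow_le_pow_right₀ P1 (by omega)).trans PE)
    (hApp.mono (d' := (1 - 2 * c) * x - en f X) (by gcongr))
  obtain ⟨g, g1, g2⟩ := q8 (10 * n) (by omega)
  have ρ1 : Pm ^ (2 * CW + 3) ≤ ρ := by
    refine le_of_mul_le_mul_right (le_trans (le_of_eq ?_) (PE.trans q1)) (pow_pos P0 (2 * r))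
    rw [hEd, pow_add Pm (2 * r), mul_comm]
  have ρ5 : Pm ^ 3 ≤ ρ := (pow_le_pow_right₀ P1 (by omega)).trans ρ1
  have ρ2 : Pm ^ 2 ≤ ρ := (pow_le_pow_right₀ P1 (by omega)).trans ρ1
  have ρ3 : Pm ≤ ρ := (le_self_pow₀ P1 two_ne_zero).trans ρ2
  have ρ0 : 0 < ρ := by linarith
  have ρ4 : ρ ≤ H := (le_mul_of_one_le_right ρ0.le (one_le_pow₀ P1)).trans q2
  set y : ℝ := 2 ^ (s * J) with hy
  have y1 : (X : ℝ) ^ δ0 ≤ y := y0.trans (pow_le_pow_right₀ one_le_two (Nat.mul_le_mul_left _ q6))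
  set P : Fin (10 * n) → Finset ℕ := fun k => grp s (g k) with hP
  have m1 : ∀ k, ∀ p ∈ P k, p.Prime ∧ (2 : ℝ) ^ (s * g k) < p ∧ (p : ℝ) ≤ 2 ^ (s * (g k + 1)) :=
    fun k p hp => by
      obtain ⟨a, b, c⟩ := V.mem_PP.1 hp
      exact ⟨a, by exact_mod_cast b, by exact_mod_cast c⟩
  have m2 : ∀ k, ∀ p ∈ P k, y < p := fun k p hp =>
    (pow_le_pow_right₀ one_le_two (Nat.mul_le_mul_left _ (g2 k).1)).trans_lt (m1 k p hp).2.1
  have m3 : ∀ k, ∀ p ∈ P k, (p : ℝ) ≤ Pm := fun k p hp =>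
    (m1 k p hp).2.2.trans (mono (Nat.mul_le_mul_left _ (by have := (g2 k).2.1; omega)))
  have m5 : ∀ k, ∀ p ∈ P k, f p = 1 := fun k p hp => hT p (m1 k p hp).1 ((m3 k p hp).trans Pη)
  have m4 : ∀ k, lam ≤ rs (P k) := fun k => by
    have a1 := (g2 k).2.2.1
    have a2 : (2 : ℝ) * J ≤ j0 * 2 ^ L := by exact_mod_cast q7
    have a3 : 0 ≤ rs (P k) := sum_nonneg fun _ _ => by positivity
    rw [hlam, div_le_iff₀' p2]
    exact a1.trans (mul_le_mul_of_nonneg_right (by linarith) a3)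
  have dis : ∀ k k', k ≠ k' → Disjoint (P k) (P k') := fun k k' h => grp_disjoint s (g1.ne h)
  set am : ℝ := ∏ k, 2 ^ (s * g k) with ham
  have am0 : 0 < am := by positivity
  set Z : ℝ := 2 ^ (s * (10 * n)) with hZ
  have Z1 : 1 ≤ Z := one_le_pow₀ one_le_two
  have Z2 : Z ≤ Pm := mono (Nat.mul_le_mul_left _
    (le_trans (by omega) (Nat.le_mul_of_pos_right j0 L1)))
  have am2 : ∀ a ∈ Fintype.piFinset P, am ≤ pS univ a ∧ (pS univ a : ℝ) ≤ am * Z := fun a h => by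
    have h' := fun k => (m1 k _ (Fintype.mem_piFinset.1 h k)).2
    rw [pS, Nat.cast_prod]
    refine ⟨prod_le_prod (fun _ _ => by positivity) fun k _ => (h' k).1.le,
      (prod_le_prod (fun _ _ => by positivity) fun k _ => (h' k).2).trans (le_of_eq ?_)⟩
    simp only [mul_add, mul_one, pow_add, prod_mul_distrib, prod_const, card_univ,
      Fintype.card_fin, ← pow_mul]
    rfl
  have am1 : ∀ a ∈ Fintype.piFinset P, am ≤ pS univ a ∧ (pS univ a : ℝ) ≤ am * Pm := fun a h =>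
    ⟨(am2 a h).1, (am2 a h).2.trans (by gcongr)⟩
  set R : ℝ := ρ * am / Pm with hRd
  set J1 : ℕ := ⌊X * Pm / ρ⌋₊ with hJ1
  have J2 : 1 ≤ X * Pm / ρ := by
    rw [le_div_iff₀ ρ0, one_mul]
    exact (ρ4.trans HX).trans (le_mul_of_one_le_right X0.le P1)
  have J3 : 1 ≤ J1 := Nat.le_floor (by exact_mod_cast J2)
  have J4 : (J1 : ℝ) ≤ X * Pm / ρ := Nat.floor_le (by positivity)
  have J5 : X * Pm / ρ ≤ 2 * J1 := by
    have : (1 : ℝ) ≤ J1 := by exact_mod_cast J3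
    linarith [Nat.lt_floor_add_one (X * Pm / ρ)]
  have J6 : J1 ≤ X := by
    have : (J1 : ℝ) ≤ X := J4.trans (by rw [div_le_iff₀ ρ0]; gcongr)
    exact_mod_cast this
  have J7 : J1 * (ρ / Pm) ≤ X := by
    calc _ ≤ X * Pm / ρ * (ρ / Pm) := by gcongr
      _ = X := by field_simp
  have xP : x ≤ Pm := (xy.trans y0).trans (mono (Nat.mul_le_mul_left _ (Nat.le_mul_of_pos_right _ L1)))
  have ρ6 : Pm ^ 2 ≤ ρ / Pm := by rw [le_div_iff₀ P0]; linarith
  have ρ8 : 4 * Z ≤ ρ / Pm :=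
    (mul_le_mul (by linarith) Z2 (by linarith) P0.le).trans ((sq Pm).symm.trans_le ρ6)
  have ρ9 : Pm ≤ ρ / Pm := (le_self_pow₀ P1 two_ne_zero).trans ρ6
  have kx : κ * x ≤ β * x := by gcongr
  have kx1 : κ * x ≤ x := mul_le_of_le_one_left (by linarith) (by linarith)
  have hNear : Near f P univ R J1 (fun j => av f ⌈(j : ℝ) * (ρ / Pm)⌉₊) (Ci / K) := by
    intro j hj a ha N a1 a2
    obtain ⟨b1, b2⟩ := mem_Ico.1 hj
    have e : R = ρ / Pm * am := by rw [hRd]; ring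
    rw [e] at a1 a2
    obtain ⟨d1, d2, d3, d4, d5, d6⟩ := scales (X := X) b1 am0 Z1 ρ8 (am2 a ha).1
      (am2 a ha).2 (le_trans (by gcongr) J7) a1 a2
    have d7 : ∀ M : ℕ, (M : ℝ) ≤ 4 * X → M ≤ X ^ 2 := fun M h => by
      have : (M : ℝ) ≤ (X : ℝ) ^ 2 :=
        h.trans ((mul_le_mul_of_nonneg_right X5 X0.le).trans_eq (sq _).symm)
      exact_mod_cast this
    refine (lip2 hCi.le (by linarith) (hLiX f hf.1 hT) d2 d1 (d7 _ d4) (d7 _ d3) d5 d6).trans ?_
    have d8 : Real.log (8 * Z) = (3 + s * (10 * n)) * Real.log 2 := by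
      rw [hZ, show (8 : ℝ) = 2 ^ 3 by norm_num, ← pow_add, Real.log_pow]; push_cast; ring
    have d9 : 2 * K * (s * (10 * n) * Real.log 2) ≤ x := by
      calc _ = s * (1 * (j0 * 1) * Real.log 2) := by rw [hj0]; push_cast; ring
        _ ≤ s * A := by rw [hA]; gcongr
        _ ≤ x := s3.trans kx1
    rw [d8, mul_div_assoc]
    exact (mul_le_mul_of_nonneg_left (small K3 x4 d9) hCi.le).trans_eq (mul_one_div Ci K)
  have key := hCo XX hX f hf _ P X J1 n R ρ Pm (c / 64) (c / 16 * x) _ x H Ψ Ψ1 _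
    (fun j => av f ⌈(j : ℝ) * (ρ / Pm)⌉₊) (fun k => lt_of_lt_of_le (by positivity) (m4 k))
    (fun k p hp => ⟨(m1 k p hp).1.pos, m3 k p hp, m5 k p hp⟩) P2 (by positivity) (by linarith) q3 q4
    J3 J6 (fun j => V.norm_av_le hf.1.bd _)
    (fun a h => by
      obtain ⟨a1, a2⟩ := am1 a h
      have a0 : (0 : ℝ) < pS univ a := by linarith
      have b1 : R / pS univ a ≤ 1 / Pm * ρ := by
        rw [hRd, div_le_iff₀ a0, one_div_mul_eq_div, div_mul_eq_mul_div]; gcongr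
      have b2 : ρ / Pm ^ 2 ≤ R / pS univ a := by
        calc ρ / Pm ^ 2 = R / (am * Pm) := by rw [hRd]; field_simp
          _ ≤ _ := by gcongr
      refine ⟨le_trans ?_ b2, b1, ?_, ?_, b1.trans ?_⟩
      · rw [le_div_iff₀ (by positivity)]; linarith
      · calc _ ≤ X * Pm / ρ * (1 / Pm * ρ) := by gcongr
          _ = X := by field_simp
      · calc (X : ℝ) = Pm * (X * Pm / ρ * (ρ / Pm ^ 2)) := by field_simp
          _ ≤ Pm * (2 * J1 * (R / pS univ a)) := by gcongr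
          _ = _ := by ring
      · rw [one_div_mul_eq_div]; exact (div_le_self ρ0.le P1).trans ρ4)
    (fun k => (g2 k).2.2.2)
    (fun j => hES x x2 _ P Pm R j n (by rw [Fintype.card_fin]; omega)
      (by rw [Fintype.card_fin]; linarith) dis
      (fun k p hp => ⟨(m1 k p hp).1, (((pow_le_pow_right₀ (by linarith) (Nat.le_succ _)).trans
        hlog).trans y1).trans (m2 k p hp).le, m3 k p hp⟩)
      (lP'.trans kx1)
      (fun k => by
        refine le_trans ?_ (mul_le_mul_of_nonneg_left (m4 k) (by linarith))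
        rw [hlam, mul_one_div, le_div_iff₀ p2]; linarith)
      fun a h => by
        have ρ7 : Pm ^ (2 * CW + 2) ≤ ρ := (pow_le_pow_right₀ P1 (by omega)).trans ρ1
        calc _ ≤ am * Pm * (Pm * Pm) ^ CW := by gcongr; exact (am1 a h).2
          _ = Pm ^ (2 * CW + 2) * am / Pm := by field_simp; ring
          _ ≤ R := by rw [hRd]; gcongr)
    fun M M1 M2 => (hLX f hf (hT.mono (Real.rpow_le_rpow_of_exponent_le X1
      ((min_le_left _ _).trans (δ2.trans κ3)))) P y R (Ci / K) J1 _ M dis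
      ((Real.rpow_le_rpow_of_exponent_le X1 (min_le_left _ _)).trans y1)
      (by
        refine le_trans ?_ (pow_le_pow_left₀ (by positivity) y1 n)
        rw [← Real.rpow_natCast, ← Real.rpow_natCast, ← Real.rpow_mul X0.le]
        exact Real.rpow_le_rpow_of_exponent_le X1 n0)
      (fun k p hp => ⟨(m1 k p hp).1, m2 k p hp, (m1 k p hp).2.2.trans (by
        rw [hy, ← pow_mul, mul_assoc]
        exact pow_le_pow_right₀ one_le_two (Nat.mul_le_mul_left _
          (by have := (g2 k).2.1; omega)))⟩) m5 m4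
      (by
        have a1 : y ^ (10 * n) ≤ am := by
          have := prod_le_prod (s := univ) (f := fun _ : Fin (10 * n) => y)
            (fun _ _ => by positivity) fun k _ =>
              pow_le_pow_right₀ (one_le_two (α := ℝ)) (Nat.mul_le_mul_left s (g2 k).1)
          rwa [prod_const, card_univ, Fintype.card_fin] at this
        refine a1.trans ?_
        rw [hRd, le_div_iff₀ P0, mul_comm]; gcongr)
      (by
        have a1 : am ≤ (X : ℝ) ^ (10 * n) := by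
          have := prod_le_prod (s := univ) (g := fun _ : Fin (10 * n) => (X : ℝ))
            (f := fun k => 2 ^ (s * g k)) (fun _ _ => by positivity) fun k _ =>
              (mono (Nat.mul_le_mul_left s (by have := (g2 k).2.1; omega))).trans PX
          rwa [prod_const, card_univ, Fintype.card_fin] at this
        calc R ≤ ρ * am := div_le_self (by positivity) P1
          _ ≤ X * X ^ (10 * n) := by gcongr; exact ρ4.trans HX
          _ = (X : ℝ) ^ (((10 * n + 1 : ℕ)) : ℝ) := by rw [Real.rpow_natCast]; ring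
          _ ≤ _ := by
            refine Real.rpow_le_rpow_of_exponent_le X1 ?_
            rw [le_div_iff₀' (by positivity), ← le_div_iff₀ (by positivity)]
            push_cast
            exact min_le_right _ _) J6 M1 M2 (by positivity) (fun j => V.norm_av_le hf.1.bd _)
      hNear).trans (mul_le_mul_of_nonneg_right (by linarith) (by linarith))
  have rP : r / Pm ≤ β := by rw [div_le_iff₀ P0]; exact x3.trans (by gcongr)
  have iP : 1 / Pm ≤ β := (div_le_div_of_nonneg_right r1 P0.le).trans rP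
  have sL : √(L : ℝ) = r := by rw [hLd]; push_cast; exact Real.sqrt_sq (by positivity)
  have hG := hCe f (ρ / Pm) J1 X hf.1.bd (P1.trans ρ9) J7
  have hG1 : (1 + x) / (ρ / Pm) ≤ 1 / Pm * (1 + x) := by
    rw [one_div_mul_eq_div]
    exact div_le_div_of_nonneg_left (by linarith) P0 ρ9
  have hG2 : 1 / Pm * (1 + x) ≤ β * (2 * x) := by gcongr; linarith
  have hG3 : 1 ≤ β * x := r1.trans x3
  have hG4 : 128 * β * x ≤ c * x := by gcongr
  have hG5 : c * 1 ≤ c * x := by gcongr; linarith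
  rw [Fintype.card_fin, Nat.cast_mul, Nat.cast_ofNat, sL] at key
  refine arith (d := (1 - c) * x) (D := IV.dst X f Ψ1 + ∑ j ∈ Ico 1 J1, (1 / (j : ℝ)) *
      ‖av f ⌈(j : ℝ) * (ρ / Pm)⌉₊‖ ^ 2 + (6 * (c / 64) + 1 / Pm) * (1 + x))
    (lH := Real.log H) (lP := Real.log (2 * Pm)) (Q := x)
    (η := C * ((1 / r + 1 / r + 1 / Pm) * (1 + x) + Real.log Pm))
    c1 c2 hC β0 β1 (by linarith) hG3 rfl P0 r1 rP (by linarith) ?_ ?_ ?_ ?_
    (Nat.cast_nonneg n) ?_ (by linarith)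
  · refine (Real.log_le_log (by linarith) hH2).trans ?_
    rw [Real.log_rpow X0]; linarith
  · rw [Real.log_mul two_ne_zero P0.ne']
    linarith [Real.log_two_lt_d9]
  · have := Real.log_nonneg P1
    positivity
  · calc _ ≤ C * ((β + β + β) * (2 * x) + β * x) := by gcongr <;> linarith
      _ = _ := by ring
  · rw [div_le_iff₀ (by linarith)]; linarith

end Pool.Agent.P.MP_746f10_nt.LP
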