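import Pool.Agent.P.MP_746f10_nt.LP.St
import Pool.Agent.P.MP_a14ce1_nt.V.Final

/-! Centred correlations at almost all scales from the estimate at one scale. -/

open Finset Filter MeasureTheory
open scoped ComplexConjugate

namespace Pool.Agent.P.MP_746f10_nt.LP

open Pool.Agent.P.MP_a14ce1_nt
open Pool.Agent.P.MP_a14ce1_nt.Ch (CM rs om pr Fx pv)
open Pool.Agent.P.MP_a14ce1_nt.V (av cube PP)
open Pool.Agent.P.MP_a14ce1_nt.IV (Hull ESW App cell wa ws gn Ew pS)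
open Pool.Agent.P.MP_e30989_nt.W (UCM tw)

namespace VP

theorem half_le {z w : ℂ} (hz : ‖z‖ ≤ 1) (hw : ‖w‖ ≤ 1) : ‖(z - w) / 2‖ ≤ 1 := by
  rw [norm_div, Complex.norm_ofNat]
  linarith [norm_sub_le z w]

/-- replacing the running mean by a constant -/
theorem av_swap {u c G : ℕ → ℂ} {μ : ℂ} {M : ℕ} {e K : ℝ} (hM : 1 ≤ M) (he : 0 ≤ e) (hK : 0 < K)
    (hG : ∀ n, ‖G n‖ ≤ 1) (hc : ∀ n, ‖c n‖ ≤ 1) (hμ : ‖μ‖ ≤ 1)
    (h : ∀ n ∈ Icc 1 M, (M : ℝ) ≤ K * n → ‖c n - μ‖ ≤ e) :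
    ‖av (fun n => (u n - c n) / 2 * G n) M‖ ≤
      ‖av (fun n => (u n - μ) / 2 * G n) M‖ + (e + 2 / K) := by
  have hM0 : (0 : ℝ) < M := by exact_mod_cast hM
  have h1 := av_dist_le (φ := fun n => ‖c n - μ‖) he hK
    (fun n => by linarith [norm_sub_le (c n) μ, hc n]) h
  have h2 : av (fun n => (u n - c n) / 2 * G n) M = av (fun n => (u n - μ) / 2 * G n) M -
      av (fun n => (c n - μ) / 2 * G n) M := by
    simp only [av]
    rw [← mul_sub, ← sum_sub_distrib]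
    congr 1
    exact sum_congr rfl fun n _ => by ring
  have h3 : ‖av (fun n => (c n - μ) / 2 * G n) M‖ ≤ e + 2 / K := by
    rw [av, norm_mul, norm_div, norm_one, Complex.norm_natCast, one_div_mul_eq_div,
      div_le_iff₀ hM0]
    refine ((norm_sum_le _ _).trans (sum_le_sum fun n _ => ?_)).trans h1
    rw [norm_mul, norm_div, Complex.norm_ofNat]
    have := mul_le_of_le_one_right (show 0 ≤ ‖c n - μ‖ / 2 by positivity) (hG n)
    linarith [norm_nonneg (c n - μ)]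
  rw [h2]
  linarith [norm_sub_le (av (fun n => (u n - μ) / 2 * G n) M) (av (fun n => (c n - μ) / 2 * G n) M)]

/-- the mean of the cubes -/
theorem cube_mean {φ : ℕ → ℝ} {B : Finset ℕ} {M : ℕ} {T e K : ℝ} (hM : 1 ≤ M) (hT : 1 ≤ T)
    (he : 0 ≤ e) (hK : 0 < K) (hφ : ∀ x, φ x ≤ T)
    (h : ∀ x ∈ Icc 1 M, (M : ℝ) ≤ K * x → x ∉ B → φ x ≤ e) :
    (∑ x ∈ Icc 1 M, φ x) / M ≤
      T * (e + 2 / K) + T * ((∑ x ∈ Icc 1 M, if x ∈ B then (1 : ℝ) else 0) / M) := by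
  have hM0 : (0 : ℝ) < M := by exact_mod_cast hM
  have hT0 : 0 < T := by linarith
  have h0 : ∀ x, φ x / T ≤ 1 := fun x => (div_le_one hT0).2 (hφ x)
  have h1 := av_dist_le (φ := fun x => φ x / T - if x ∈ B then (1 : ℝ) else 0) (M := M) he hK
    (fun x => by split_ifs <;> linarith [h0 x]) fun x hx hK => by
      split_ifs with c
      · linarith [h0 x]
      · rw [sub_zero, div_le_iff₀ hT0]
        nlinarith [h x hx hK c]
  rw [sum_sub_distrib, ← sum_div, sub_le_iff_le_add, div_le_iff₀ hT0] at h1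
  rw [div_le_iff₀ hM0]
  refine h1.trans (le_of_eq ?_)
  field_simp

theorem ind_sum (B : Finset ℕ) (X : ℕ) :
    ∑ x ∈ Icc 1 X, (1 / (x : ℝ)) * (if x ∈ B then (1 : ℝ) else 0) ≤ ∑ x ∈ B, 1 / (x : ℝ) := by
  simp only [mul_ite, mul_one, mul_zero]
  rw [← sum_filter]
  exact sum_le_sum_of_subset_of_nonneg (fun x hx => (mem_filter.1 hx).2) fun _ _ _ => by positivity

theorem sum_split (s t : Finset ℕ) (A B e C : ℝ) (b : ℕ → ℕ → ℝ) :
    ∑ L ∈ s, (1 / (L : ℝ)) * (A + B / L + ∑ m ∈ t, (e + C * b m L) / m) =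
      (A + e * ∑ m ∈ t, (1 / (m : ℝ))) * ∑ L ∈ s, (1 / (L : ℝ)) +
        B * ∑ L ∈ s, (1 / (L : ℝ)) * (1 / (L : ℝ)) +
        ∑ m ∈ t, C / m * ∑ L ∈ s, (1 / (L : ℝ)) * b m L := by
  have e2 : ∑ m ∈ t, C / m * ∑ L ∈ s, (1 / (L : ℝ)) * b m L =
      ∑ L ∈ s, (1 / (L : ℝ)) * ∑ m ∈ t, C * b m L / m := by
    simp only [mul_sum]
    rw [sum_comm]
    exact sum_congr rfl fun L _ => sum_congr rfl fun m _ => by ring
  rw [e2, mul_sum s _ B, mul_sum s _ (A + _), ← sum_add_distrib, ← sum_add_distrib]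
  refine sum_congr rfl fun L _ => ?_
  have e3 : ∑ m ∈ t, (e + C * b m L) / m =
      e * ∑ m ∈ t, (1 / (m : ℝ)) + ∑ m ∈ t, C * b m L / m := by
    rw [mul_sum, ← sum_add_distrib]
    exact sum_congr rfl fun m _ => by ring
  rw [e3]; ring

theorem dil (hD : V.S_Dil) {a : ℕ → ℂ} (ha : ∀ n, ‖a n‖ ≤ 1) {P : Finset ℕ}
    (hP : ∀ p ∈ P, p.Prime) (X : ℕ) :
    rs P * ∑ N ∈ Icc 1 X, (1 / (N : ℝ)) * ‖av a N‖ ≤ ∑ L ∈ Icc 1 (X / pv P), (1 / (L : ℝ)) *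
      (∑ p ∈ P, (1 / (p : ℝ)) * ‖av a (pv P / p * L)‖) + rs P * (2 * pv P + 4) := by
  have hQ0 : 0 < pv P := prod_pos fun p hp => (hP p hp).pos
  have e1 : ∑ L ∈ Icc 1 (X / pv P), (1 / (L : ℝ)) *
      (∑ p ∈ P, (1 / (p : ℝ)) * ‖av a (pv P / p * L)‖) + rs P * (2 * pv P + 4) =
      ∑ p ∈ P, (1 / (p : ℝ)) *
        (∑ L ∈ Icc 1 (X / pv P), (1 / (L : ℝ)) * ‖av a (pv P / p * L)‖ + (2 * pv P + 4)) := by
    simp only [mul_add (1 / (_ : ℝ)), sum_add_distrib, mul_sum]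
    rw [sum_comm, rs, sum_mul, ← sum_add_distrib, ← sum_add_distrib, ← sum_add_distrib]
    refine sum_congr rfl fun p _ => ?_
    rw [mul_add]
    congr 1
    exact sum_congr rfl fun L _ => by ring
  rw [e1, rs, sum_mul]
  refine sum_le_sum fun p hp => mul_le_mul_of_nonneg_left ?_ (by positivity)
  have hd : p ∣ pv P := dvd_prod_of_mem _ hp
  exact hD a (pv P / p) (pv P) X ha
    (Nat.div_pos (Nat.le_of_dvd hQ0 hd) (hP p hp).pos) (Nat.div_le_self _ _)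

theorem num {ε ρ C B Λ x Q S s1 s2 s3 : ℝ} (hε : 0 < ε) (hρ : 1 ≤ ρ) (hC : C ≤ ε * ρ) (hB : 0 ≤ B)
    (hΛ : Λ ≤ 2 * ρ) (hx : 1 ≤ x) (hX : (2 * B + ρ * (2 * Q + 4)) / (ε * ρ) ≤ x) (h10 : 0 ≤ s1)
    (h1 : s1 ≤ 2 * x) (h2 : s2 ≤ 2) (h3 : s3 ≤ 2 * ε * x * Λ)
    (h : ρ * S ≤ (C + 3 * ε * ρ + 3 * ε * Λ) * s1 + B * s2 + s3 + ρ * (2 * Q + 4)) :
    S ≤ 25 * ε * x := by
  have hερ : 0 < ε * ρ := by positivity
  rw [div_le_iff₀ hερ] at hX
  have hεΛ : ε * Λ ≤ 2 * (ε * ρ) := by nlinarith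
  have h4 : (C + 3 * ε * ρ + 3 * ε * Λ) * s1 ≤ (10 * (ε * ρ)) * (2 * x) :=
    mul_le_mul (by linarith) h1 h10 (by positivity)
  have h5 : B * s2 ≤ B * 2 := mul_le_mul_of_nonneg_left h2 hB
  have h6 : 2 * ε * x * Λ ≤ 4 * (ε * ρ) * x := by nlinarith
  have h7 : ρ * S ≤ ρ * (25 * ε * x) := by nlinarith
  exact le_of_mul_le_mul_left h7 (by linarith)

end VP

open VP V.Final

theorem vmain (h1 : Ch.S_M1) (hO : S_One) (hD : V.S_Dil) (hS : V.S_Swap) (hU : S_LU) (hs : S_SV) :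
    S_V := by
  classical
  intro r h0 p0 h η δ hne hη hδ
  obtain ⟨D, hD0, hOne⟩ := hO r h0 h hne
  obtain ⟨ε, hε⟩ : ∃ ε : ℝ, ε = δ / 50 := ⟨_, rfl⟩
  have hε0 : 0 < ε := by rw [hε]; positivity
  obtain ⟨C, hC, hOne⟩ := hOne ε hε0
  obtain ⟨T, hT⟩ : ∃ T : ℝ, T = 2 ^ r := ⟨_, rfl⟩
  have hT1 : 1 ≤ T := hT ▸ one_le_pow₀ (by norm_num)
  have hT0 : 0 < T := by linarith
  obtain ⟨e, H0, he, hH0⟩ := hU r η (ε / (C * T)) hη (by positivity)
  obtain ⟨M0, hM0⟩ : ∃ M0 : ℕ, M0 = H0 + p0 + 1 := ⟨_, rfl⟩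
  have hM01 : 1 ≤ M0 := by omega
  obtain ⟨M1, hM1, hR, hΛ⟩ := exists_top h1 (max (C / ε) 1) M0 hM01
  have hρ1 : 1 ≤ rs (PP M0 M1) := (le_max_right _ _).trans hR
  have hρC : C ≤ ε * rs (PP M0 M1) := by
    have := (le_max_left _ _).trans hR
    rwa [div_le_iff₀' hε0] at this
  obtain ⟨B, hB, hOne⟩ := hOne M0 M1 hM01 hM1
  have hlt : M0 < 2 ^ M0 := Nat.lt_two_pow_self
  have hpr : ∀ p ∈ PP M0 M1, p.Prime := fun p hp => (V.mem_PP.1 hp).1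
  have hdil := fun a ha => dil hD (a := a) ha hpr
  obtain ⟨Q, hQ⟩ : ∃ Q : ℕ, Q = pv (PP M0 M1) := ⟨_, rfl⟩
  have hQ0 : 0 < Q := hQ ▸ prod_pos fun p hp => (hpr p hp).pos
  have hQd : ∀ p ∈ PP M0 M1, 1 ≤ Q / p := fun p hp =>
    Nat.div_pos (Nat.le_of_dvd hQ0 (hQ ▸ dvd_prod_of_mem _ hp)) (hpr p hp).pos
  rw [← hQ] at hOne hdil
  have hQ1 : (1 : ℝ) ≤ Q := by exact_mod_cast hQ0
  obtain ⟨K, hK0, hK1, hK2⟩ : ∃ K : ℝ, 0 < K ∧ 2 / K ≤ ε ∧ C * T * (2 / K) ≤ ε := by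
    refine ⟨2 * (1 + C * T) / ε, by positivity, ?_, ?_⟩
    · rw [div_div_eq_mul_div, div_le_iff₀ (by positivity)]
      nlinarith [mul_pos hε0 (mul_pos hC hT0)]
    · rw [div_div_eq_mul_div, ← mul_div_assoc, div_le_iff₀ (by positivity)]
      nlinarith
  obtain ⟨Hm, hHm⟩ : ∃ Hm : ℕ, Hm = D * 2 ^ M1 := ⟨_, rfl⟩
  have hev1 := (eventually_all_finset (Ico M0 M1)).2 fun m hm => hH0 (D * 2 ^ m) (by
    have h2 : 2 ^ M0 ≤ 2 ^ m := Nat.pow_le_pow_right (by norm_num) (mem_Ico.1 hm).1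
    have h3 : 2 ^ m ≤ D * 2 ^ m := Nat.le_mul_of_pos_left _ hD0
    omega)
  have hlog : Tendsto (fun X : ℕ => Real.log X) atTop atTop :=
    Real.tendsto_log_atTop.comp tendsto_natCast_atTop_atTop
  have hpow : Tendsto (fun X : ℕ => (X : ℝ) ^ η) atTop atTop :=
    (tendsto_rpow_atTop hη).comp tendsto_natCast_atTop_atTop
  filter_upwards [hev1, hlog.eventually_ge_atTop 1,
    hlog.eventually_ge_atTop ((2 * B + rs (PP M0 M1) * (2 * Q + 4)) / (ε * rs (PP M0 M1))),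
    eventually_ge_atTop (Hm + 2), hpow.eventually_ge_atTop ((2 ^ M1 : ℕ) : ℝ),
    hs η (min e ε) ((K + Hm + 1) * Q) 2 hη (lt_min he hε0)] with X hX1 hX2 hX3 hX4 hX5 hX6
  intro f g hf hTr hg hgp
  have hX6 := hX6 f hf.1 hTr
  have hXX : X + Hm ≤ X ^ 2 := by nlinarith
  choose! Bm hBm1 hBm2 using fun m hm => hX1 m hm f hf hTr
  have huni : ∀ p ∈ PP M0 M1, f p = 1 ∧ ∀ j, ‖g j p‖ = 1 := fun p hp => by
    rw [V.mem_PP] at hp
    have hp2 : (p : ℝ) ≤ (X : ℝ) ^ η := le_trans (by exact_mod_cast hp.2.2) hX5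
    exact ⟨hTr p hp.1 hp2, fun j => hgp j p hp.1 (by omega) hp2⟩
  have hav : ∀ n, ‖av f n‖ ≤ 1 := V.norm_av_le hf.1.bd
  have hG : ∀ n, ‖∏ j, g j (n + h j)‖ ≤ 1 := fun n =>
    V.norm_prod_le_one _ fun j _ => (hg j).bd _
  have hZ1 : ∀ x : ℝ, 0 ≤ x → K * x ≤ (K + Hm + 1) * Q * x := fun x hx =>
    mul_le_mul_of_nonneg_right (by nlinarith [Nat.cast_nonneg (α := ℝ) Hm]) hx
  have hZ2 : ∀ x : ℝ, 0 ≤ x → (Hm + 1) * x ≤ (K + Hm + 1) * Q * x := fun x hx =>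
    mul_le_mul_of_nonneg_right (by nlinarith [Nat.cast_nonneg (α := ℝ) Hm]) hx
  have step2 : ∀ L ∈ Icc 1 (X / Q), ∑ p ∈ PP M0 M1, (1 / (p : ℝ)) *
      ‖av (fun n => (f (n + h0) - av f n) / 2 * ∏ j, g j (n + h j)) (Q / p * L)‖ ≤
      C + 3 * ε * rs (PP M0 M1) + B / L + ∑ m ∈ Ico M0 M1, (3 * ε + C * T *
        ((∑ x ∈ Icc 1 (Q * L), if x ∈ Bm m then (1 : ℝ) else 0) / ((Q * L : ℕ) : ℝ))) / m := by
    intro L hL
    have hL1 := (mem_Icc.1 hL).1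
    have hQL : Q * L ≤ X := (Nat.mul_le_mul_left Q (mem_Icc.1 hL).2).trans (Nat.mul_div_le X Q)
    have hQL1 : 1 ≤ Q * L := Nat.mul_pos hQ0 hL1
    have hQL2 : (1 : ℝ) ≤ ((Q * L : ℕ) : ℝ) := by exact_mod_cast hQL1
    have a1 : ∀ p ∈ PP M0 M1,
        ‖av (fun n => (f (n + h0) - av f n) / 2 * ∏ j, g j (n + h j)) (Q / p * L)‖ ≤
        ‖av (fun n => (f (n + h0) - av f (Q * L)) / 2 * ∏ j, g j (n + h j)) (Q / p * L)‖ +
          2 * ε := fun p hp => by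
      have b1 : Q / p * L ≤ Q * L := Nat.mul_le_mul_right L (Nat.div_le_self _ _)
      have b2 : Q * L ≤ Q * (Q / p * L) :=
        Nat.mul_le_mul_left Q (Nat.le_mul_of_pos_left L (hQd p hp))
      refine (av_swap (u := fun n => f (n + h0)) (μ := av f (Q * L)) (e := ε)
        (Nat.mul_pos (hQd p hp) hL1) hε0.le hK0 hG hav (hav _) fun n hn hK => ?_).trans
        (by linarith)
      have b3 := (mem_Icc.1 hn).2
      have b4 : (n : ℝ) ≤ ((Q * L : ℕ) : ℝ) := by exact_mod_cast b3.trans b1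
      refine (hX6 (Q * L) n hQL1 (mem_Icc.1 hn).1 (by omega) (by omega) ?_ ?_).trans
        (min_le_right _ _)
      · have b5 : ((Q * L : ℕ) : ℝ) ≤ Q * ((Q / p * L : ℕ) : ℝ) := by exact_mod_cast b2
        have b6 := mul_le_mul_of_nonneg_left hK (show (0 : ℝ) ≤ Q by linarith)
        have b7 : (0 : ℝ) ≤ (Hm + 1) * (Q * n) := by positivity
        linarith
      · have := hZ2 _ (show (0 : ℝ) ≤ ((Q * L : ℕ) : ℝ) by linarith)
        have b7 : (0 : ℝ) ≤ Hm * ((Q * L : ℕ) : ℝ) := by positivity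
        linarith
    have a2 : ∀ m ∈ Ico M0 M1, (∑ x ∈ Icc 1 (Q * L),
        cube r (fun n => (f n - av f (Q * L)) / 2) x (D * 2 ^ m)) / ((Q * L : ℕ) : ℝ) ≤
        T * (ε / (C * T) + 2 / K) + T *
          ((∑ x ∈ Icc 1 (Q * L), if x ∈ Bm m then (1 : ℝ) else 0) / ((Q * L : ℕ) : ℝ)) :=
      fun m hm => by
      refine cube_mean hQL1 hT1 (by positivity) hK0
        (fun x => hT ▸ V.cube_le r (fun n => half_le (hf.1.bd n) (hav _)) _ _) fun x hx hK hxB => ?_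
      have b1 := mem_Icc.1 hx
      refine hBm2 m hm x (mem_Icc.2 ⟨b1.1, b1.2.trans hQL⟩) hxB _ (hav _) fun n hn => ?_
      have b2 := mem_Ico.1 hn
      have b3 : D * 2 ^ m ≤ Hm :=
        hHm ▸ Nat.mul_le_mul_left D (Nat.pow_le_pow_right (by norm_num) (mem_Ico.1 hm).2.le)
      refine (hX6 n (Q * L) (by omega) hQL1 (by omega) (by omega) ?_ ?_).trans (min_le_left _ _)
      · have b4 : (n : ℝ) ≤ ((Q * L : ℕ) : ℝ) + Hm := by exact_mod_cast (by omega : n ≤ Q * L + Hm)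
        have := hZ2 _ (show (0 : ℝ) ≤ ((Q * L : ℕ) : ℝ) by linarith)
        have b5 := mul_le_mul_of_nonneg_left hQL2 (Nat.cast_nonneg (α := ℝ) Hm)
        linarith
      · have b4 : (x : ℝ) ≤ n := by exact_mod_cast b2.1
        have := hZ1 n (Nat.cast_nonneg n)
        have b5 := mul_le_mul_of_nonneg_left b4 hK0.le
        linarith
    have a3 := hOne f g (av f (Q * L)) hf.1 hg (hav _) huni L hL1
    have a4 := sum_le_sum fun p hp => mul_le_mul_of_nonneg_left (a1 p hp)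
      (show 0 ≤ 1 / (p : ℝ) by positivity)
    simp only [mul_add, sum_add_distrib] at a4
    rw [← sum_mul] at a4
    have a5 : ∑ p ∈ PP M0 M1, 1 / (p : ℝ) = rs (PP M0 M1) := rfl
    rw [a5] at a4
    have a6 := sum_le_sum fun m (hm : m ∈ Ico M0 M1) => div_le_div_of_nonneg_right
      (show ε + C * ((∑ x ∈ Icc 1 (Q * L),
        cube r (fun n => (f n - av f (Q * L)) / 2) x (D * 2 ^ m)) / ((Q * L : ℕ) : ℝ)) ≤
        3 * ε + C * T *
          ((∑ x ∈ Icc 1 (Q * L), if x ∈ Bm m then (1 : ℝ) else 0) / ((Q * L : ℕ) : ℝ)) by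
        have b1 := mul_le_mul_of_nonneg_left (a2 m hm) hC.le
        have b2 : C * (T * (ε / (C * T))) = ε := by field_simp
        linarith) (Nat.cast_nonneg (α := ℝ) m)
    linarith
  have step1 := hdil (fun n => (f (n + h0) - av f n) / 2 * ∏ j, g j (n + h j)) (fun n => by
    rw [norm_mul]
    exact mul_le_one₀ (half_le (hf.1.bd _) (hav _)) (norm_nonneg _) (hG n)) X
  have step3 := sum_le_sum fun L hL => mul_le_mul_of_nonneg_left (step2 L hL)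
    (show 0 ≤ 1 / (L : ℝ) by positivity)
  rw [sum_split] at step3
  have hb3 : ∑ m ∈ Ico M0 M1, C * T / m * ∑ L ∈ Icc 1 (X / Q), (1 / (L : ℝ)) *
      ((∑ x ∈ Icc 1 (Q * L), if x ∈ Bm m then (1 : ℝ) else 0) / ((Q * L : ℕ) : ℝ)) ≤
      2 * ε * Real.log X * ∑ m ∈ Ico M0 M1, (1 / (m : ℝ)) := by
    rw [mul_sum]
    refine sum_le_sum fun m hm => ?_
    have h2 := hS (fun x => if x ∈ Bm m then (1 : ℝ) else 0) Q X
      (fun x => by split_ifs <;> norm_num) hQ0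
    have h3 := (ind_sum (Bm m) X).trans (hBm1 m hm)
    calc _ ≤ C * T / m * (2 * (ε / (C * T) * Real.log X)) :=
          mul_le_mul_of_nonneg_left (h2.trans (by linarith)) (by positivity)
      _ = _ := by field_simp
  have fin := num hε0 hρ1 hρC hB hΛ hX2 hX3 (sum_nonneg fun _ _ => by positivity)
    (show ∑ L ∈ Icc 1 (X / Q), (1 / (L : ℝ)) ≤ 2 * Real.log X by
      linarith [harm_Icc (Nat.div_le_self X Q) (show 1 ≤ X by omega)])
    (sq_Icc (X / Q)) hb3 (step1.trans (add_le_add_left step3 _))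
  have e2 : ∀ N, av (fun n => (f (n + h0) - av f n) * ∏ j, g j (n + h j)) N =
      2 * av (fun n => (f (n + h0) - av f n) / 2 * ∏ j, g j (n + h j)) N := fun N => by
    simp only [av]
    rw [mul_left_comm, mul_sum _ _ (2 : ℂ)]
    congr 1
    exact sum_congr rfl fun n _ => by ring
  simp only [e2, norm_mul, Complex.norm_ofNat, mul_left_comm _ (2 : ℝ), ← mul_sum]
  rw [hε] at fin
  linarith

end Pool.Agent.P.MP_746f10_nt.LP
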