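import Pool.Agent.P.MP_a14ce1_nt.Top
import Pool.Agent.P.MP_746f10_nt.LP.RC
import Pool.Agent.P.MP_746f10_nt.LP.Conv
import Pool.Agent.P.MP_746f10_nt.LP.Cls
import Pool.Agent.P.MP_746f10_nt.LP.Lip
import Pool.Agent.P.MP_746f10_nt.LP.Part
import Pool.Agent.P.MP_746f10_nt.LP.High
import Pool.Agent.P.MP_746f10_nt.LP.LowF
import Pool.Agent.P.MP_746f10_nt.LP.MRc
import Pool.Agent.P.MP_746f10_nt.LP.RM
import Pool.Agent.P.MP_746f10_nt.LP.Major
import Pool.Agent.P.MP_746f10_nt.LP.Maj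
import Pool.Agent.P.MP_746f10_nt.LP.End
import Pool.Agent.P.MP_746f10_nt.LP.Low
import Pool.Agent.P.MP_746f10_nt.LP.Cell
import Pool.Agent.P.MP_746f10_nt.LP.Core
import Pool.Agent.P.MP_746f10_nt.LP.Tilt
import Pool.Agent.P.MP_746f10_nt.LP.Gain
import Pool.Agent.P.MP_746f10_nt.LP.Init
import Pool.Agent.P.MP_746f10_nt.LP.LU
import Pool.Agent.P.MP_746f10_nt.LP.One
import Pool.Agent.P.MP_746f10_nt.LP.V
import Pool.Agent.P.MP_746f10_nt.LP.Aff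
import Pool.Agent.P.MP_746f10_nt.LP.Ind
import Pool.Agent.P.MP_746f10_nt.LP.Den
import Pool.Agent.P.MP_746f10_nt.LP.Blk
import Pool.Agent.P.MP_746f10_nt.LP.Fin

/-! Assembly. -/

namespace Pool.Agent.P.MP_746f10_nt.LP

open Pool.Agent.P.MP_a14ce1_nt Pool.Agent.P.MP_e30989_nt

theorem rc_all : S_RC := rc (Ch.rough Ch.m1 Ch.sieve Ch.vdc)

theorem lip_all : S_Lip := lip rc_all conv

theorem sv_all : S_SV := sv lip_all

theorem mrc_all : S_MRc :=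
  mrc (Ch.reduce Ch.cauchy)
    (Ch.scales Ch.m1 Ch.tk Ch.mvt (Ch.separate Ch.fourier) (Ch.moment Ch.cauchy Ch.kernel) Ch.smReg)
    (high Ch.m1 Ch.tk Ch.mvt Ch.fourier (Ch.smPrimes Ch.cauchy Ch.m2) (Ch.hm Ch.vdc Ch.fourier)
      W.h1_all) lowF

theorem rm_all : S_RM := rm (part (cls rc_all conv) sv_all) mrc_all

theorem tilt_all : S_Tilt :=
  tilt IV.sec1_all (core (IV.w1 IV.bad IV.conv) (IV.w2 IV.bad) IV.ew) (cellc IV.conv) lip_all

theorem lift_all : S_Lift :=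
  lift IV.hull (IV.esw IV.hull Nil.ES.esc IV.fsW IV.extW) (endc IV.ew (maj IV.ew (major rm_all)))
    (low IV.hull IV.ew) tilt_all (IV.iter Pl.plain_all Ch.m1)

theorem gi_all : S_GI := fun k δ hδ => by
  obtain ⟨T, c, H0, hc, h⟩ := AxGI.gi_win (GI.gi_all k) hδ
  exact ⟨AxGI.AT T k, c, H0, ⟨⟨AxGI.at_res T k, Nil.ax_fs_of Top.s_fsK T k,
    Nil.ax_ext_of Top.s_extK T k, AxGI.conv_res T k⟩, Nil.Dc.decAx_AT T k⟩,
    AxGI.mem_res.2 ⟨_, T.at_one k, fun _ => rfl⟩, hc, h⟩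

theorem lu_all : S_LU := lu gi_all lift_all (init IV.hull (IV.w3 IV.conv) (base IV.conv) gain)

theorem g_all : S_G :=
  gthm (aff (vmain Ch.m1 (one (V.edapp (V.edfin V.ed)) V.gvn_all V.mult V.wrap) V.dil V.swap lu_all
    sv_all) sv_all)

theorem f_all : S_F := fin (blk (ind g_all) den)

end Pool.Agent.P.MP_746f10_nt.LP
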