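import Pool.Agent.P.MP_a14ce1_nt.IV.St
import Pool.Agent.P.MP_a14ce1_nt.Nil.Major

/-!
Large prime factors of systems of affine forms: definitions and the statements of the pieces.
The functions g depend on the scale X and take the value one at the primes up to a power of X;
everything is centred at the running mean of g.
Every piece is a theorem of the shape  S_a → S_b → S_c  in a file importing this one (and finished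
files of the directories MP_a14ce1_nt and MP_e30989_nt/W).
-/

open Finset Filter MeasureTheory
open scoped ComplexConjugate

namespace Pool.Agent.P.MP_746f10_nt.LP

open Pool.Agent.P.MP_a14ce1_nt
open Pool.Agent.P.MP_a14ce1_nt.Ch (CM rs om pr Fx pv)
open Pool.Agent.P.MP_a14ce1_nt.V (av cube PP)
open Pool.Agent.P.MP_a14ce1_nt.IV (Hull ESW App cell wa ws gn Ew pS)
open Pool.Agent.P.MP_e30989_nt.W (UCM tw)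

/-- g takes the value one at all primes up to y -/
def Tr (y : ℝ) (g : ℕ → ℂ) : Prop := ∀ p : ℕ, p.Prime → (p : ℝ) ≤ y → g p = 1

/-- mean over [Y, 2 Y) -/
noncomputable def dv (g : ℕ → ℂ) (Y : ℕ) : ℂ := (1 / (Y : ℂ)) * ∑ n ∈ Ico Y (2 * Y), g n

/-- logarithmic sum of the square of the running mean -/
noncomputable def en (f : ℕ → ℂ) (X : ℕ) : ℝ := ∑ n ∈ Icc 1 X, ‖av f n‖ ^ 2 / n

/-- f minus its running mean -/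
noncomputable def fc (f : ℕ → ℂ) (n : ℕ) : ℂ := f n - av f n

/-- μ j is within e of the mean of f at the scales seen by the cell j -/
def Near {ι : Type} [Fintype ι] [DecidableEq ι] (f : ℕ → ℂ) (P : ι → Finset ℕ) (S : Finset ι)
    (Λ : ℝ) (J : ℕ) (μ : ℕ → ℂ) (e : ℝ) : Prop :=
  ∀ j ∈ Ico 1 J, ∀ a ∈ Fintype.piFinset P, ∀ N : ℕ, (j : ℝ) * Λ ≤ 2 * pS S a * (N + 1) →
    (pS S a : ℝ) * N ≤ 4 * (j * Λ) → ‖av f N - μ j‖ ≤ e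

/-- n has a prime factor larger than y -/
def big (y : ℝ) (n : ℕ) : Prop := ∃ p : ℕ, p.Prime ∧ p ∣ n ∧ y < p

open Classical in
/-- proportion of the n in [1, N] at which all forms have a prime factor larger than y -/
noncomputable def dens {k : ℕ} (a b : Fin k → ℕ) (y : ℝ) (N : ℕ) : ℝ :=
  (((Icc 1 N).filter fun n => ∀ i, big y (a i * n + b i)).card : ℝ) / N

open Classical in
/-- proportion of the n in [1, N] with a prime factor larger than y -/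
noncomputable def den1 (y : ℝ) (N : ℕ) : ℝ := (((Icc 1 N).filter (big y)).card : ℝ) / N

/-! ### A. Long means -/

/-- integers without small prime factors -/
def S_RC : Prop := ∃ (C : ℝ) (y0 : ℕ), 0 < C ∧ ∀ y : ℕ, y0 ≤ y → ∀ N : ℕ,
  (((Ioc 1 N).filter fun d => Nat.Coprime d (primorial y)).card : ℝ) ≤ C * N / Real.log y

/-- g is the divisor sum of a function that lives on integers without small prime factors -/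
def S_Conv : Prop := ∀ (y : ℕ) (g : ℕ → ℂ), 2 ≤ y → CM g → Tr y g → ∃ h : ℕ → ℂ, h 1 = 1 ∧
  (∀ n, n ≠ 0 → g n = ∑ d ∈ n.divisors, h d) ∧
  (∀ d, ¬ Nat.Coprime d (primorial y) → h d = 0) ∧
  ∀ d K : ℕ, d ≠ 0 → d ≤ y ^ K → ‖h d‖ ≤ 2 ^ K

/-- equidistribution in residue classes -/
def S_Cls : Prop := ∀ (η : ℝ) (K : ℕ), 0 < η → ∃ C : ℝ, 0 < C ∧ ∀ᶠ X : ℕ in atTop,
  ∀ g, CM g → Tr ((X : ℝ) ^ η) g → ∀ b c N : ℕ, 0 < b → (b : ℝ) ≤ (X : ℝ) ^ η → N ≤ X ^ K →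
    ‖∑ n ∈ (Icc 1 N).filter (fun n => n ≡ c [MOD b]), g n - (N : ℂ) / b * av g N‖ ≤
      C * N / Real.log X + 2

/-- the mean varies slowly -/
def S_Lip : Prop := ∀ (η : ℝ) (K : ℕ), 0 < η → ∃ C : ℝ, 0 < C ∧ ∀ᶠ X : ℕ in atTop,
  ∀ g, CM g → Tr ((X : ℝ) ^ η) g → ∀ M N : ℕ, 1 ≤ M → M ≤ N → N ≤ X ^ K →
    ‖av g N - av g M‖ ≤ C * (1 + Real.log ((N : ℝ) / M)) / Real.log X

/-- the same for a bounded ratio -/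
def S_SV : Prop := ∀ (η e Z : ℝ) (K : ℕ), 0 < η → 0 < e → ∀ᶠ X : ℕ in atTop,
  ∀ g, CM g → Tr ((X : ℝ) ^ η) g → ∀ M N : ℕ, 1 ≤ M → 1 ≤ N → M ≤ X ^ K → N ≤ X ^ K →
    (M : ℝ) ≤ Z * N → (N : ℝ) ≤ Z * M → ‖av g N - av g M‖ ≤ e

/-- twisted partial sums -/
def S_Part : Prop := ∀ (b K : ℕ) (η : ℝ), 0 < K → 0 < η → ∀ᶠ X : ℕ in atTop,
  ∀ g, CM g → Tr ((X : ℝ) ^ η) g → ∀ Y : ℕ, (X : ℝ) ^ η ≤ Y → (Y : ℝ) ≤ (X : ℝ) ^ (1 / η) →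
    ∀ q : ℕ, 0 < q → q ≤ b → ∀ (χ : DirichletCharacter ℂ q) (N : ℕ), N ≤ 8 * Y →
      ‖∑ n ∈ Icc 1 N, tw (fun n => g n - dv g Y) χ n‖ ≤ (Y : ℝ) / K

/-! ### B. Short intervals -/

/-- high frequencies -/
def S_High : Prop := ∃ c : ℝ, 0 < c ∧ ∀ (b : ℕ) [NeZero b] (χ : DirichletCharacter ℂ b) (η δ : ℝ),
  0 < η → 0 < δ → ∃ (T : ℝ) (X0 : ℕ), 0 < T ∧ ∀ X : ℕ, X0 ≤ X → ∀ F : ℕ → ℂ, CM F →
    (∀ p : ℕ, p.Prime → (p : ℝ) ≤ (X : ℝ) ^ η → F p = χ (p : ZMod b)) →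
    ∀ U : Set ℝ, MeasurableSet U → U ⊆ Set.Icc (-(X : ℝ)) X → volume.real U ≤ (X : ℝ) ^ c →
      (∀ t ∈ U, T ≤ |t|) → ∫ t in U, ‖Fx F X t‖ ^ 2 ≤ δ

/-- low frequencies -/
def S_LowF : Prop := ∃ C : ℝ, 0 < C ∧ ∀ (a : ℕ → ℂ) (X : ℕ) (E : ℝ), 1 ≤ X →
  (∀ N ≤ 8 * X, ‖∑ n ∈ Icc 1 N, a n‖ ≤ E) → ∀ t : ℝ, ‖Fx a X t‖ ≤ C * (1 + |t|) * E / X

/-- short means of the centred twisted function -/
def S_MRc : Prop := ∀ (b : ℕ) [NeZero b] (χ : DirichletCharacter ℂ b) (η δ : ℝ), 0 < η → 0 < δ →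
  ∀ᶠ K : ℕ in atTop, ∀ Y : ℕ, K ≤ Y → ∀ (g : ℕ → ℂ) (M : ℂ), CM g → Tr ((Y : ℝ) ^ η) g → ‖M‖ ≤ 1 →
    (∀ N ≤ 8 * Y, ‖∑ n ∈ Icc 1 N, tw (fun n => g n - M) χ n‖ ≤ (Y : ℝ) / K) →
    ∀ R : ℕ, K ≤ R → K * R ≤ Y →
      ∑ x ∈ Ico Y (2 * Y), ‖∑ j ∈ range R, tw (fun n => g n - M) χ (x + j)‖ ≤ δ * R * Y

/-- short means in residue classes are close to the long mean -/
def S_RM : Prop := ∀ b : ℕ, 0 < b → ∀ δ : ℝ, 0 < δ → ∃ (R0 : ℕ) (ρ : ℝ), 0 < ρ ∧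
  ∀ᶠ X : ℕ in atTop, ∀ g, CM g → Tr ((X : ℝ) ^ δ) g → ∀ Y : ℕ, (X : ℝ) ^ δ ≤ Y →
    (Y : ℝ) ≤ (X : ℝ) ^ (1 / δ) → ∀ R : ℕ, R0 ≤ R → (R : ℝ) ≤ ρ * Y → ∀ c : ℕ,
      ∑ x ∈ Ico Y (2 * Y), ‖∑ j ∈ (range R).filter (fun j => x + j ≡ c [MOD b]),
        (g (x + j) - dv g Y)‖ ≤ δ * R * Y

/-! ### C. The last step of the lifting argument, centred -/

def S_Major : Prop := ∀ (ι : Type) [Fintype ι] (b : ℕ) (δ ε L : ℝ), 0 < b → 0 < δ → 0 < ε → 0 < L →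
  ∃ C : ℝ, 0 < C ∧ ∀ᶠ X : ℕ in atTop, ∀ f, UCM f → Tr ((X : ℝ) ^ δ) f → ∀ P : ι → Finset ℕ,
    (∀ k, ∀ p ∈ P k, p.Prime ∧ (X : ℝ) ^ δ < p) → (∀ k, L ≤ rs (P k)) → ∀ Y : ℕ,
    (X : ℝ) ^ δ ≤ Y → (Y : ℝ) ≤ (X : ℝ) ^ (1 / δ) →
    ∀ (κ : Type) (S : Finset κ) (s t : κ → ℕ) (ψ : κ → ℕ → ℂ), Nil.Grid Y b S s t ψ →
      ∑ i ∈ S, ‖∑ n ∈ Ico (s i) (t i), (f n * ((∏ k, om (P k) n / rs (P k) : ℝ) : ℂ) -
        dv (fun m => f m * ((∏ k, om (P k) m / rs (P k) : ℝ) : ℂ)) Y) * ψ i n‖ ≤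
        ε * Y + C * S.card

def S_Maj : Prop := ∀ (ι : Type) [Fintype ι] [DecidableEq ι] (W : ℕ) (δ ε lam : ℝ), 0 < W → 0 < δ →
  0 < ε → 0 < lam → ∀ᶠ X : ℕ in atTop, ∀ f, UCM f → Tr ((X : ℝ) ^ δ) f →
    ∀ (P : ι → Finset ℕ) (S : Finset ι) (Λ e : ℝ) (J : ℕ) (μ : ℕ → ℂ) (ψ : ℕ → ℤ → ℂ)
      (B : ℕ → Finset ℤ), (∀ k k', k ≠ k' → Disjoint (P k) (P k')) →
    (∀ k, ∀ p ∈ P k, p.Prime ∧ (X : ℝ) ^ δ < p ∧ f p = 1) → (∀ k, lam ≤ rs (P k)) →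
    Λ ≤ (X : ℝ) ^ (1 / δ) → J ≤ X → (∀ j n, ‖ψ j n‖ ≤ 1) → (∀ j, Nil.Maj W (B j) (ψ j)) →
    (∀ j, ((B j).card + 1) * (X : ℝ) ≤ Λ) → 0 ≤ e → (∀ j, ‖μ j‖ ≤ 1) → Near f P S Λ J μ e →
    ∑ j ∈ Ico 1 J, (1 / (j : ℝ)) * ‖wa Λ j fun n =>
      (f n - μ j) * ((∏ k ∈ S, om (P k) n / rs (P k) : ℝ) : ℂ) * conj (ψ j n)‖ ≤
      (ε + 16 * e) * Real.log X

def End (AA : Set (ℤ → ℂ)) : Prop := ∃ C : ℕ, ∀ (ι : Type) [Fintype ι] [DecidableEq ι]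
  (δ ε lam : ℝ), 0 < δ → 0 < ε → 0 < lam → ∀ᶠ X : ℕ in atTop, ∀ f, UCM f → Tr ((X : ℝ) ^ δ) f →
    ∀ (P : ι → Finset ℕ) (S S2 : Finset ι) (Λ e : ℝ) (J : ℕ) (μ : ℕ → ℂ) (ψ : ℕ → ℤ → ℂ),
    (∀ k k', k ≠ k' → Disjoint (P k) (P k')) →
    (∀ k, ∀ p ∈ P k, p.Prime ∧ (X : ℝ) ^ δ < p ∧ f p = 1) → (∀ k, lam ≤ rs (P k)) → S2 ⊆ S →
    (∀ a ∈ Fintype.piFinset P, X ^ C ≤ pS S2 a ∧ pS S2 a * (X : ℝ) ^ C ≤ Λ) →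
    Λ ≤ (X : ℝ) ^ (1 / δ) → J ≤ X → (∀ j, ψ j ∈ AA) → 0 ≤ e → (∀ j, ‖μ j‖ ≤ 1) →
    Near f P S Λ J μ e →
    ∑ j ∈ Ico 1 J, (1 / (j : ℝ)) * ‖Ew P fun a => wa (Λ / pS S a) j fun m =>
      (f (pS S a * m) - μ j) * conj (ψ j ((pS S a * m : ℕ) : ℤ))‖ ≤ (ε + 16 * e) * Real.log X

def S_End : Prop := ∀ AA, Nil.DecAx AA → End AA

def Low (XX : Set (ℕ → ℂ)) : Prop := ∃ C : ℕ, ∀ (n : ℕ) (δ ε lam : ℝ), 0 < δ → 0 < ε → 0 < lam →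
  ∀ᶠ X : ℕ in atTop, ∀ f, UCM f → Tr ((X : ℝ) ^ δ) f →
    ∀ (P : Fin (10 * n) → Finset ℕ) (y R e : ℝ) (J : ℕ) (μ : ℕ → ℂ)
      (M : ℕ → Finset (Fin (10 * n)) → (Fin (10 * n) → ℕ) → ℕ → ℂ),
    (∀ k k', k ≠ k' → Disjoint (P k) (P k')) → (X : ℝ) ^ δ ≤ y → (X : ℝ) ^ C ≤ y ^ n →
    (∀ k, ∀ p ∈ P k, p.Prime ∧ y < p ∧ (p : ℝ) ≤ y ^ 2) → (∀ k, ∀ p ∈ P k, f p = 1) →
    (∀ k, lam ≤ rs (P k)) → y ^ (10 * n) ≤ R → R ≤ (X : ℝ) ^ (1 / δ) → J ≤ X →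
    (∀ j T a, M j T a ∈ XX) → (∀ j T a a', (∀ k ∈ T, a k = a' k) → M j T a = M j T a') →
    0 ≤ e → (∀ j, ‖μ j‖ ≤ 1) → Near f P univ R J μ e →
    ∑ j ∈ Ico 1 J, (1 / (j : ℝ)) * ‖Ew P fun a => wa (R / pS univ a) j fun m =>
      (f (pS univ a * m) - μ j) * conj (∑ T, (Nil.ES.cf (Nil.ES.lo _ n) T : ℂ) *
        M j T a (pS univ a * m))‖ ≤ (ε + 16 * 4 ^ (10 * n) * e) * Real.log X

def S_Low : Prop := ∀ AA, Ax.At (Ax.res AA) → End AA → Low (Ax.hull (Ax.res AA))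

/-- the running mean on a grid, upper bound -/
def S_Cell : Prop := ∀ (f : ℕ → ℂ) (ρ : ℝ) (J X : ℕ), (∀ n, ‖f n‖ ≤ 1) → 1 ≤ ρ → J * ρ ≤ X →
  ∑ j ∈ Ico 1 J, (1 / (j : ℝ)) * ‖av f ⌈(j : ℝ) * ρ⌉₊‖ ^ 2 ≤ en f X + 30 + (1 + Real.log X) / ρ

/-- the gain of the running mean on a grid, lower bound -/
def S_Base : Prop := ∀ (f : ℕ → ℂ) (h X : ℕ), (∀ n, ‖f n‖ ≤ 1) → 1 ≤ h → h ≤ X →
  en f X - Real.log h - 60 ≤ ws h (X / h) fun j m => gn (f m) (av f (j * h))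

/-- the tilted step without parameters -/
def S_Core : Prop := ∀ XX, Hull XX → ∀ f, UCM f → ∀ (ι : Type) [Fintype ι] [DecidableEq ι]
  (P : ι → Finset ℕ) (X J l0 : ℕ) (R ρ Pm τ e η Q H : ℝ) (Ψ Ψ1 : ℕ → ℂ) (cT : Finset ι → ℂ)
  (μ : ℕ → ℂ), (∀ k, 0 < rs (P k)) → (∀ k, ∀ p ∈ P k, 0 < p ∧ (p : ℝ) ≤ Pm ∧ f p = 1) → 2 ≤ Pm →
  0 < τ → 0 < Q → IV.Gr XX (ρ * Pm ^ 2) Ψ → IV.Gr XX ρ Ψ1 → 1 ≤ J → J ≤ X → (∀ j, ‖μ j‖ ≤ 1) →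
  (∀ a ∈ Fintype.piFinset P, Pm ≤ R / pS univ a ∧ R / pS univ a ≤ 1 / Pm * ρ ∧
    J * (R / pS univ a) ≤ X ∧ X ≤ 2 * Pm * (J * (R / pS univ a)) ∧ R / pS univ a ≤ H) →
  (∀ k, IV.Ep (P k) (fun p => IV.dst X Ψ1 (IV.Up f p Ψ)) ≤ η) →
  (∀ (j : ℕ) (F : (ι → ℕ) → ℕ → ℂ) (G : ι → (ι → ℕ) → ℕ → ℂ), (∀ a, F a ∈ XX) →
    (∀ k a, G k a ∈ XX) → (∀ k a p, G k (Function.update a k p) = G k a) →
    ∃ M : Finset ι → (ι → ℕ) → ℕ → ℂ, (∀ T a, M T a ∈ XX) ∧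
      (∀ T a a', (∀ k ∈ T, a k = a' k) → M T a = M T a') ∧
      Ew P (fun a => wa (R / pS univ a) j fun m => ‖F a (pS univ a * m) -
          ∑ T, cT T * M T a (pS univ a * m)‖ ^ 2) ≤
        (∑ k, Ew P fun a => wa (R / pS univ a) j fun m =>
          ‖F a (pS univ a * m) - G k a (pS univ a * m)‖ ^ 2) / (l0 + 1) + 1 / Q) →
  (∀ M : ℕ → Finset ι → (ι → ℕ) → ℕ → ℂ, (∀ j T a, M j T a ∈ XX) →
    (∀ j T a a', (∀ k ∈ T, a k = a' k) → M j T a = M j T a') →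
    ∑ j ∈ Ico 1 J, (1 / (j : ℝ)) * ‖Ew P fun a => wa (R / pS univ a) j fun m =>
      (f (pS univ a * m) - μ j) * conj (∑ T, cT T * M j T a (pS univ a * m))‖ ≤ e) →
  Real.log X - IV.dst X f Ψ1 -
      30 * (1 / Pm * (1 + Real.log X) + Real.log H + Real.log (2 * Pm) + 1) ≤
    ∑ j ∈ Ico 1 J, (1 / (j : ℝ)) * ‖μ j‖ ^ 2 + (8 * τ + 1 / Pm) * (1 + Real.log X) + 2 * e +
      1 / τ * (Fintype.card ι * (2 * η + 32 * (1 / Pm) * (1 + Real.log X)) / (l0 + 1) +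
        1 / Q * (1 + Real.log X))

/-- nothing beyond the running mean can be gained on windows of length a small power of X -/
def S_Tilt : Prop := ∀ XX, Hull XX → ESW XX → Low XX → ∀ η c : ℝ, 0 < η → 0 < c →
  ∃ κ : ℝ, 0 < κ ∧ ∀ κ0 : ℝ, 0 < κ0 → κ0 ≤ κ → ∀ᶠ X : ℕ in atTop, ∀ f, UCM f →
    Tr ((X : ℝ) ^ η) f → ∀ H : ℝ, (X : ℝ) ^ κ0 ≤ H → H ≤ (X : ℝ) ^ (2 * κ0) →
      ¬ App XX f X H ((1 - c) * Real.log X - en f X)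

/-! ### D. First step and local uniformity, centred -/

/-- the gain on one cell -/
def S_Gain : Prop := ∀ XX, Hull XX → (fun _ => 1) ∈ XX → ∀ (f b : ℕ → ℂ) (μ : ℂ) (τ : ℝ) (h j : ℕ),
  (∀ n, ‖f n‖ ≤ 1) → b ∈ XX → ‖μ‖ ≤ 1 → 0 ≤ τ → τ ≤ 1 → 0 < h → ∃ u ∈ XX,
    wa (h : ℝ) j (fun m => gn (f m) μ) +
        τ * (‖∑ n ∈ cell (h : ℝ) j, (f n - μ) * conj (b n)‖ / h) - 4 * τ ^ 2 ≤
      wa (h : ℝ) j fun m => gn (f m) (u m)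

open Classical in
def S_Init : Prop := ∀ (A : Set (ℕ → ℂ)) (c ε : ℝ), Ax.At A → (fun _ => 1) ∈ A → 0 < c → 0 < ε →
  ∃ δ : ℝ, 0 < δ ∧ ∀ H1 : ℕ, ∃ H0 : ℕ, ∀ H : ℕ, H0 ≤ H → ∃ H' : ℕ, H1 ≤ H' ∧
    ∀ᶠ X : ℕ in atTop, ∀ f, UCM f → (1 - δ) * Real.log X - en f X ≤ Ax.dst A f H' X →
      ∑ x ∈ (Icc 1 X).filter (fun x => ∃ a ∈ A, c * H ≤ ‖∑ n ∈ Ico x (x + H), Ax.pc (fc f) a n‖),
        1 / (x : ℝ) ≤ ε * Real.log X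

/-- the inverse theorem, with an atom system that contains the constants -/
def S_GI : Prop := ∀ (k : ℕ) (δ : ℝ), 0 < δ → ∃ (A : Set (ℤ → ℂ)) (c : ℝ) (H0 : ℕ), Ax.Good A ∧
  (fun _ => 1) ∈ Ax.res A ∧ 0 < c ∧ ∀ (φ : ℕ → ℂ) (x H : ℕ), (∀ n, ‖φ n‖ ≤ 1) → H0 ≤ H →
    δ ≤ cube k φ x H → ∃ a ∈ Ax.res A, c * H ≤ ‖∑ n ∈ Ico x (x + H), Ax.pc φ a n‖

def S_Lift : Prop := ∀ A : Set (ℤ → ℂ), Ax.Good A → ∀ η δ : ℝ, 0 < η → 0 < δ → ∃ H0 : ℕ,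
  ∀ H : ℕ, H0 ≤ H → ∀ᶠ X : ℕ in atTop, ∀ f, UCM f → Tr ((X : ℝ) ^ η) f →
    (1 - δ) * Real.log X - en f X ≤ Ax.dst (Ax.res A) f H X

/-- centred local uniformity -/
def S_LU : Prop := ∀ (k : ℕ) (η δ : ℝ), 0 < η → 0 < δ → ∃ (e : ℝ) (H0 : ℕ), 0 < e ∧
  ∀ H : ℕ, H0 ≤ H → ∀ᶠ X : ℕ in atTop, ∀ f, UCM f → Tr ((X : ℝ) ^ η) f → ∃ B : Finset ℕ,
    ∑ x ∈ B, 1 / (x : ℝ) ≤ δ * Real.log X ∧ ∀ x ∈ Icc 1 X, x ∉ B → ∀ μ : ℂ, ‖μ‖ ≤ 1 →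
      (∀ n ∈ Ico x (x + H), ‖μ - av f n‖ ≤ e) → cube k (fun n => (f n - μ) / 2) x H ≤ δ

/-! ### E. Correlations, centred -/

def S_One : Prop := ∀ (r h0 : ℕ) (h : Fin r → ℕ), (∀ j, h j ≠ h0) → ∃ D : ℕ, 0 < D ∧
  ∀ ε : ℝ, 0 < ε → ∃ C : ℝ, 0 < C ∧ ∀ M0 M1 : ℕ, 1 ≤ M0 → M0 ≤ M1 → ∃ B : ℝ, 0 ≤ B ∧
    ∀ (f : ℕ → ℂ) (g : Fin r → ℕ → ℂ) (μ : ℂ), CM f → (∀ j, CM (g j)) → ‖μ‖ ≤ 1 →
      (∀ p ∈ PP M0 M1, f p = 1 ∧ ∀ j, ‖g j p‖ = 1) → ∀ L : ℕ, 1 ≤ L →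
      ∑ p ∈ PP M0 M1, (1 / (p : ℝ)) * ‖av (fun n => (f (n + h0) - μ) / 2 * ∏ j, g j (n + h j))
          (pv (PP M0 M1) / p * L)‖ ≤
        C + ε * rs (PP M0 M1) + B / L + ∑ m ∈ Ico M0 M1,
          (ε + C * ((∑ x ∈ Icc 1 (pv (PP M0 M1) * L),
            cube r (fun n => (f n - μ) / 2) x (D * 2 ^ m)) / ((pv (PP M0 M1) * L : ℕ) : ℝ))) / m

def S_V : Prop := ∀ (r h0 p0 : ℕ) (h : Fin r → ℕ) (η δ : ℝ), (∀ j, h j ≠ h0) → 0 < η → 0 < δ →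
  ∀ᶠ X : ℕ in atTop, ∀ (f : ℕ → ℂ) (g : Fin r → ℕ → ℂ), UCM f → Tr ((X : ℝ) ^ η) f →
    (∀ j, CM (g j)) → (∀ j, ∀ p : ℕ, p.Prime → p0 ≤ p → (p : ℝ) ≤ (X : ℝ) ^ η → ‖g j p‖ = 1) →
    ∑ N ∈ Icc 1 X, (1 / (N : ℝ)) *
      ‖av (fun n => (f (n + h0) - av f n) * ∏ j, g j (n + h j)) N‖ ≤ δ * Real.log X

def S_Aff : Prop := ∀ (r a0 b0 : ℕ) (a b : Fin r → ℕ) (η δ : ℝ), 0 < a0 → (∀ j, 0 < a j) →
  (∀ j, a0 * b j ≠ a j * b0) → 0 < η → 0 < δ →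
  ∀ᶠ X : ℕ in atTop, ∀ (f : ℕ → ℂ) (g : Fin r → ℕ → ℂ), UCM f → Tr ((X : ℝ) ^ η) f →
    (∀ j, UCM (g j)) → ∑ N ∈ Icc 1 X, (1 / (N : ℝ)) *
      ‖av (fun n => (f (a0 * n + b0) - av f N) * ∏ j, g j (a j * n + b j)) N‖ ≤ δ * Real.log X

/-- independence of the values along the forms -/
def S_G : Prop := ∀ (k : ℕ) (a b : Fin k → ℕ) (η δ : ℝ), (∀ i, 0 < a i) →
  (∀ i j, i ≠ j → a i * b j ≠ a j * b i) → 0 < η → 0 < δ →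
  ∀ᶠ X : ℕ in atTop, ∀ f : Fin k → ℕ → ℂ, (∀ i, UCM (f i) ∧ Tr ((X : ℝ) ^ η) (f i)) →
    ∑ N ∈ Icc 1 X, (1 / (N : ℝ)) *
      ‖av (fun n => ∏ i, f i (a i * n + b i)) N - ∏ i, av (f i) N‖ ≤ δ * Real.log X

/-! ### F. Large prime factors -/

open Classical in
def S_Ind : Prop := ∀ (k : ℕ) (a b : Fin k → ℕ) (η δ : ℝ), (∀ i, 0 < a i) →
  (∀ i j, i ≠ j → a i * b j ≠ a j * b i) → 0 < η → 0 < δ →
  ∀ᶠ X : ℕ in atTop, ∀ y : ℝ, (X : ℝ) ^ η ≤ y →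
    ∑ N ∈ (Icc 1 X).filter (fun N : ℕ => (N : ℝ) ≤ y ^ 2 ∧ ∀ i, ((a i * N + b i : ℕ) : ℝ) ≤ y ^ 2),
      (1 / (N : ℝ)) * |dens a b y N - den1 y N ^ k| ≤ δ * Real.log X

def S_Den : Prop := ∃ C : ℝ, 0 < C ∧ ∀ (y : ℝ) (N : ℕ), 2 ≤ y → y ≤ N → (N : ℝ) ≤ y ^ 2 →
  |den1 y N - Real.log (Real.log N / Real.log y)| ≤ C / Real.log y

def S_Blk : Prop := ∀ (k : ℕ) (a b : Fin k → ℕ) (δ lam ε : ℝ) (y : ℕ → ℝ), (∀ i, 0 < a i) →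
  (∀ i j, i ≠ j → a i * b j ≠ a j * b i) → 0 < δ → δ < 1 / 2 → 1 ≤ lam → 0 < ε →
  (∀ N : ℕ, 1 ≤ N → (N : ℝ) ^ (1 - δ) ≤ y N ∧ y N ≤ (lam * N) ^ (1 - δ)) →
  ∀ᶠ X : ℕ in atTop, ∑ N ∈ Icc 1 X, (1 / (N : ℝ)) *
    |dens a b (y N) N - (-Real.log (1 - δ)) ^ k| ≤ ε * Real.log X

/-- the target -/
def S_F : Prop := ∀ (k : ℕ) (a b : Fin k → ℕ), (∀ i, 0 < a i) →
  (∀ i j, i ≠ j → a i * b j ≠ a j * b i) → ∀ W : ℕ, 0 < W → ∀ δ : ℝ, 0 < δ → δ < 1 / 2 →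
  Asymptotics.IsLittleO atTop
    (fun X : ℕ => ∑ N ∈ Icc 1 X, (1 / (N : ℝ)) *
      |(Set.ncard {n : ℕ | 1 ≤ n ∧ n ≤ N ∧ ∀ i, Nat.Coprime (a i * n + b i) W ∧
          ∃ p : ℕ, p.Prime ∧ p ∣ a i * n + b i ∧ (N : ℝ) ^ (1 - δ) < p} : ℝ) / N -
        (Set.ncard {c : ℕ | c < W ∧ ∀ i, Nat.Coprime (a i * c + b i) W} : ℝ) / W *
          (-Real.log (1 - δ)) ^ k|)
    (fun X : ℕ => Real.log X)

/-! ### Small facts -/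

theorem Tr.mono {y z : ℝ} {g : ℕ → ℂ} (h : Tr z g) (hyz : y ≤ z) : Tr y g :=
  fun p hp hy => h p hp (hy.trans hyz)

theorem ucm_one : UCM fun _ => 1 := ⟨⟨fun _ _ _ _ => (mul_one _).symm, fun _ => by simp⟩, by simp⟩

theorem tr_one (y : ℝ) : Tr y fun _ => 1 := fun _ _ _ => rfl

theorem cm_one_eq {g : ℕ → ℂ} (hg : CM g) {p : ℕ} (hp : p ≠ 0) (h : g p = 1) : g 1 = 1 := by
  have := hg.mul p 1 hp one_ne_zero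
  rw [mul_one, h, one_mul] at this
  exact this.symm

theorem ucm_one_eq {g : ℕ → ℂ} (hg : UCM g) : g 1 = 1 := by
  have h0 : g 1 ≠ 0 := fun h => by simpa [h] using hg.2 1 one_ne_zero
  have := hg.1.mul 1 1 one_ne_zero one_ne_zero
  rw [mul_one] at this
  exact mul_left_cancel₀ h0 (this.symm.trans (mul_one _).symm)

/-- the value at an integer all of whose prime factors have the value one -/
theorem eq_one_of_primes {g : ℕ → ℂ} (hg : CM g) (h1 : g 1 = 1) {n : ℕ} (hn : n ≠ 0)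
    (h : ∀ p : ℕ, p.Prime → p ∣ n → g p = 1) : g n = 1 := by
  induction n using Nat.recOnMul with
  | zero => exact absurd rfl hn
  | one => exact h1
  | prime p hp => exact h p hp dvd_rfl
  | mul a b iha ihb =>
    have ha := left_ne_zero_of_mul hn
    have hb := right_ne_zero_of_mul hn
    rw [hg.mul a b ha hb, iha ha fun p hp hd => h p hp (hd.mul_right b),
      ihb hb fun p hp hd => h p hp (hd.mul_left a), one_mul]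

theorem Tr.eq_one {y : ℝ} {g : ℕ → ℂ} (h : Tr y g) (hg : CM g) (h1 : g 1 = 1) {n : ℕ} (hn : n ≠ 0)
    (hy : (n : ℝ) ≤ y) : g n = 1 :=
  eq_one_of_primes hg h1 hn fun p hp hd =>
    h p hp (le_trans (by exact_mod_cast Nat.le_of_dvd (Nat.pos_of_ne_zero hn) hd) hy)

/-- the value at a product of coordinates of the cube -/
theorem pS_eq_one {ι : Type} [Fintype ι] [DecidableEq ι] {P : ι → Finset ℕ} {f : ℕ → ℂ} (hf : UCM f)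
    (hP : ∀ k, ∀ p ∈ P k, 0 < p ∧ f p = 1) {a : ι → ℕ} (ha : a ∈ Fintype.piFinset P)
    (S : Finset ι) : 0 < pS S a ∧ f (pS S a) = 1 := by
  have h := fun k => hP k _ (Fintype.mem_piFinset.1 ha k)
  induction S using Finset.induction_on with
  | empty => exact ⟨Nat.one_pos, ucm_one_eq hf⟩
  | insert k S hk ih =>
    have e : pS (insert k S) a = a k * pS S a := prod_insert hk
    rw [e, hf.1.mul _ _ (h k).1.ne' ih.1.ne', (h k).2, ih.2, one_mul]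
    exact ⟨Nat.mul_pos (h k).1 ih.1, rfl⟩

theorem mul_av (f : ℕ → ℂ) (N : ℕ) : (N : ℂ) * av f N = ∑ n ∈ Icc 1 N, f n := by
  rcases Nat.eq_zero_or_pos N with rfl | hN
  · simp
  · have : (N : ℂ) ≠ 0 := by exact_mod_cast hN.ne'
    rw [av]; field_simp

theorem sum_sub_const (f : ℕ → ℂ) (μ : ℂ) (N : ℕ) :
    ∑ n ∈ Icc 1 N, (f n - μ) = N * (av f N - μ) := by
  rw [sum_sub_distrib, mul_sub, mul_av]; simp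

theorem av_const (z : ℂ) {N : ℕ} (hN : 1 ≤ N) : av (fun _ => z) N = z := by
  have : (N : ℂ) ≠ 0 := by exact_mod_cast (by omega : N ≠ 0)
  rw [av]; simp; field_simp

theorem norm_dv_le {g : ℕ → ℂ} {B : ℝ} (hB : 0 ≤ B) {Y : ℕ} (hg : ∀ n ∈ Ico Y (2 * Y), ‖g n‖ ≤ B) :
    ‖dv g Y‖ ≤ B := by
  rcases Nat.eq_zero_or_pos Y with rfl | hY
  · simpa [dv] using hB
  · have h1 : ‖∑ n ∈ Ico Y (2 * Y), g n‖ ≤ Y * B := by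
      refine (norm_sum_le _ _).trans ((sum_le_card_nsmul _ _ B hg).trans (le_of_eq ?_))
      rw [Nat.card_Ico, nsmul_eq_mul, show 2 * Y - Y = Y by omega]
    have h2 : (0 : ℝ) < Y := by exact_mod_cast hY
    rw [dv, norm_mul, norm_div, norm_one, Complex.norm_natCast, one_div_mul_eq_div,
      div_le_iff₀' h2]
    exact h1

/-- the trivial bound for the variation of the running mean -/
theorem av_sub_le {f : ℕ → ℂ} (hf : ∀ n, ‖f n‖ ≤ 1) {M N : ℕ} (hMN : M ≤ N) (hN : 1 ≤ N) :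
    ‖av f N - av f M‖ ≤ 2 * ((N : ℝ) - M) / N := by
  have h0 : (0 : ℝ) < N := by exact_mod_cast hN
  have h1 : (N : ℂ) * (av f N - av f M) = ∑ n ∈ Ioc M N, (f n - av f M) := by
    have e : ∀ K : ℕ, Icc 1 K = Ioc 0 K := fun K => by ext n; simp only [mem_Icc, mem_Ioc]; omega
    have h2 := sum_sub_const f (av f M) M
    rw [← sum_sub_const, e, ← sum_Ioc_consecutive _ (Nat.zero_le M) hMN, ← e, h2, sub_self,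
      mul_zero, zero_add]
  have h2 : ‖∑ n ∈ Ioc M N, (f n - av f M)‖ ≤ ((N : ℝ) - M) * 2 := by
    refine (norm_sum_le _ _).trans ((sum_le_card_nsmul _ _ 2 fun n _ => ?_).trans (le_of_eq ?_))
    · linarith [norm_sub_le (f n) (av f M), hf n, V.norm_av_le hf M]
    · rw [Nat.card_Ioc, nsmul_eq_mul, Nat.cast_sub hMN]
  rw [← h1, norm_mul, Complex.norm_natCast] at h2
  rw [le_div_iff₀' h0]
  linarith

/-- the mean distance of the running mean from a constant -/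
theorem av_dist_le {φ : ℕ → ℝ} {M : ℕ} {e K : ℝ} (he : 0 ≤ e) (hK : 0 < K)
    (h2 : ∀ n, φ n ≤ 2) (h : ∀ n ∈ Icc 1 M, (M : ℝ) ≤ K * n → φ n ≤ e) :
    ∑ n ∈ Icc 1 M, φ n ≤ (e + 2 / K) * M := by
  classical
  have h1 : ∀ n ∈ Icc 1 M, φ n ≤ e + if (n : ℝ) < M / K then 2 else 0 := fun n hn => by
    split_ifs with c
    · linarith [h2 n]
    · rw [not_lt, div_le_iff₀' hK] at c
      linarith [h n hn c]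
  refine (sum_le_sum h1).trans ?_
  rw [sum_add_distrib, ← sum_filter, sum_const, sum_const, Nat.card_Icc, Nat.add_sub_cancel,
    nsmul_eq_mul, nsmul_eq_mul]
  have h3 : (Icc 1 M).filter (fun n : ℕ => (n : ℝ) < M / K) ⊆ Icc 1 ⌊(M : ℝ) / K⌋₊ := fun n hn =>
    mem_Icc.2 ⟨(mem_Icc.1 (mem_filter.1 hn).1).1, Nat.le_floor (mem_filter.1 hn).2.le⟩
  have h4 := card_le_card h3
  rw [Nat.card_Icc, Nat.add_sub_cancel] at h4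
  have h5 : (((Icc 1 M).filter fun n : ℕ => (n : ℝ) < M / K).card : ℝ) ≤ M / K :=
    le_trans (by exact_mod_cast h4) (Nat.floor_le (by positivity))
  have e1 : (e + 2 / K) * M = M * e + M / K * 2 := by ring
  rw [e1]
  linarith

end Pool.Agent.P.MP_746f10_nt.LP
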