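import Pool.Agent.P.MP_746f10_nt.LP.St
import Pool.Agent.P.MP_a14ce1_nt.V.Aff

/-! Affine forms, centred, and the independence of the values along the forms. -/

open Finset Filter MeasureTheory
open scoped ComplexConjugate

namespace Pool.Agent.P.MP_746f10_nt.LP

open Pool.Agent.P.MP_a14ce1_nt
open Pool.Agent.P.MP_a14ce1_nt.Ch (CM rs om pr Fx pv)
open Pool.Agent.P.MP_a14ce1_nt.V (av cube PP)
open Pool.Agent.P.MP_e30989_nt.W (UCM tw)

namespace AffP

/-- the value of a character at a large prime -/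
theorem norm_char {A : ℕ} (hA : 0 < A) (χ : DirichletCharacter ℂ A) {p : ℕ} (hp : p.Prime)
    (hAp : A + 1 ≤ p) : ‖χ (p : ZMod A)‖ = 1 := by
  have hc : Nat.Coprime p A :=
    (Nat.Prime.coprime_iff_not_dvd hp).2 fun h => by have := Nat.le_of_dvd hA h; omega
  have hu : IsUnit (p : ZMod A) := (ZMod.isUnit_iff_coprime p A).2 hc
  obtain ⟨u, hu⟩ := hu
  rw [← hu]
  exact DirichletCharacter.unit_norm_eq_one χ u

/-- splitting off a constant -/
theorem av_split (u v : ℕ → ℂ) (μ : ℂ) (N : ℕ) :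
    av (fun n => u n * v n) N = av (fun n => (u n - μ) * v n) N + μ * av v N := by
  unfold av
  rw [mul_left_comm μ, ← mul_add, mul_sum _ _ μ, ← sum_add_distrib]
  congr 1
  exact sum_congr rfl fun n _ => by ring

/-- changing the centre -/
theorem av_centre (u v m : ℕ → ℂ) (μ : ℂ) (hv : ∀ n, ‖v n‖ ≤ 1) {N : ℕ} (hN : 1 ≤ N) {E : ℝ}
    (h : ∑ n ∈ Icc 1 N, ‖m n - μ‖ ≤ E * N) :
    ‖av (fun n => (u n - μ) * v n) N‖ ≤ ‖av (fun n => (u n - m n) * v n) N‖ + E := by
  have h0 : (0 : ℝ) < N := by exact_mod_cast hN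
  have e : av (fun n => (u n - μ) * v n) N =
      av (fun n => (u n - m n) * v n) N + av (fun n => (m n - μ) * v n) N := by
    unfold av
    rw [← mul_add, ← sum_add_distrib]
    congr 1
    exact sum_congr rfl fun n _ => by ring
  have h1 : ‖av (fun n => (m n - μ) * v n) N‖ ≤ E := by
    have h2 : ‖∑ n ∈ Icc 1 N, (m n - μ) * v n‖ ≤ E * N := by
      refine (norm_sum_le _ _).trans (le_trans (sum_le_sum fun n _ => ?_) h)
      rw [norm_mul]
      exact mul_le_of_le_one_right (norm_nonneg _) (hv n)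
    unfold av
    rw [norm_mul, norm_div, norm_one, Complex.norm_natCast, one_div_mul_eq_div, div_le_iff₀ h0]
    exact h2
  rw [e]
  linarith [norm_add_le (av (fun n => (u n - m n) * v n) N) (av (fun n => (m n - μ) * v n) N)]

theorem ev_log : ∀ᶠ X : ℕ in atTop, 1 ≤ Real.log X :=
  (Real.tendsto_log_atTop.comp tendsto_natCast_atTop_atTop).eventually_ge_atTop 1

theorem ev_rpow {η : ℝ} (hη : 0 < η) (B : ℝ) : ∀ᶠ X : ℕ in atTop, B ≤ (X : ℝ) ^ η :=
  ((tendsto_rpow_atTop hη).comp tendsto_natCast_atTop_atTop).eventually_ge_atTop B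

end AffP

theorem aff (h : S_V) (hs : S_SV) : S_Aff := by
  intro r a0 b0 a b η δ ha0 ha hne hη hδ
  set e0 : ℕ := ∏ j, a j with he0
  have he0p : 0 < e0 := prod_pos fun j _ => ha j
  set A : ℕ := a0 * e0 with hA
  have hAp : 0 < A := Nat.mul_pos ha0 he0p
  have : NeZero A := ⟨hAp.ne'⟩
  have hd : ∀ j, ∃ e, A = a j * e := fun j => (dvd_prod_of_mem a (mem_univ j)).mul_left a0
  choose e he using hd
  have hep : ∀ j, 0 < e j := fun j => Nat.pos_of_mul_pos_left (he j ▸ hAp)
  set c0 : ℕ := e0 * b0 with hc0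
  set c : Fin r → ℕ := fun j => e j * b j with hc
  have hcne : ∀ j, c j ≠ c0 := by
    intro j hj
    apply hne j
    have hj' : e j * b j = e0 * b0 := hj
    apply Nat.eq_of_mul_eq_mul_left hAp
    calc A * (a0 * b j) = a0 * a j * (e j * b j) := by rw [he j]; ring
      _ = a0 * a j * (e0 * b0) := by rw [hj']
      _ = A * (a j * b0) := by rw [hA]; ring
  set K : ℝ := (Fintype.card (DirichletCharacter ℂ A) : ℝ) with hK
  have hKp : 0 < K := by rw [hK]; exact_mod_cast Fintype.card_pos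
  have hA' : (0 : ℝ) < A := by exact_mod_cast hAp
  have hA1 : (1 : ℝ) ≤ A := by exact_mod_cast hAp
  have hδ' : 0 < δ / (4 * (A : ℝ) ^ 2 * K) := by positivity
  have key := h (r + 1) c0 (A + 1) (Fin.cons (A * (c0 + 1) + 1) c) (η / 2) _
    (fun j => Fin.cases (by
      have : c0 + 1 ≤ A * (c0 + 1) := Nat.le_mul_of_pos_left _ hAp
      simp only [Fin.cons_zero]; omega) hcne j) (by positivity) hδ'
  have hten : Tendsto (fun X : ℕ => A * X) atTop atTop := tendsto_id.const_mul_atTop' hAp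
  have hsv := hs η (δ / 8) (A + 16 / δ) 2 hη (by positivity)
  filter_upwards [hten.eventually key, eventually_ge_atTop A, hsv, AffP.ev_log,
    AffP.ev_rpow hη e0] with X hX hAX hS hL hE f g hf hT hg
  have hX' : (A : ℝ) ≤ X := by exact_mod_cast hAX
  have hX0 : (0 : ℝ) < X := by linarith
  have hTr : Tr ((((A * X : ℕ) : ℝ)) ^ (η / 2)) f := by
    refine hT.mono ?_
    have h1 : ((A * X : ℕ) : ℝ) ≤ (X : ℝ) ^ (2 : ℝ) := by
      push_cast
      rw [Real.rpow_two]
      nlinarith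
    calc ((A * X : ℕ) : ℝ) ^ (η / 2) ≤ ((X : ℝ) ^ (2 : ℝ)) ^ (η / 2) :=
          Real.rpow_le_rpow (by positivity) h1 (by positivity)
      _ = (X : ℝ) ^ η := by rw [← Real.rpow_mul hX0.le]; congr 1; ring
  have hfe : f e0 = 1 := hT.eq_one hf.1 (ucm_one_eq hf) he0p.ne' hE
  set F : ℕ → ℂ := fun m => (f (m + c0) - av f m) * ∏ j, g j (m + c j) with hF
  set T : ℕ → ℂ := fun n => (f (a0 * n + b0) - av f (A * n)) * ∏ j, g j (a j * n + b j) with hTT
  have hκ : ‖∏ j, g j (e j)‖ = 1 := by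
    rw [norm_prod]
    exact prod_eq_one fun j _ => (hg j).2 _ (hep j).ne'
  have hFT : ∀ n, 1 ≤ n → F (A * n) = (∏ j, g j (e j)) * T n := by
    intro n hn
    have e1 : f (A * n + c0) = f (a0 * n + b0) := by
      rw [← one_mul (f (a0 * n + b0)), ← hfe,
        ← hf.1.mul _ _ he0p.ne' (by have := Nat.mul_pos ha0 hn; omega)]
      congr 1
      rw [hA, hc0]; ring
    have e2 : ∀ j, g j (A * n + c j) = g j (e j) * g j (a j * n + b j) := by
      intro j
      rw [← (hg j).1.mul _ _ (hep j).ne' (by have := Nat.mul_pos (ha j) hn; omega)]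
      congr 1
      rw [he j]; simp only [hc]; ring
    simp only [hF, hTT, e1, e2, prod_mul_distrib]
    ring
  have hχ : ∀ χ : DirichletCharacter ℂ A, ∑ N ∈ Icc 1 (A * X), (1 / (N : ℝ)) *
      ‖av (fun m => χ ((m + (A * (c0 + 1) + 1) : ℕ) : ZMod A) * F m) N‖ ≤
      δ / (4 * (A : ℝ) ^ 2 * K) * Real.log ((A * X : ℕ) : ℝ) := by
    intro χ
    have h1 := hX f (Fin.cons (fun n : ℕ => χ (n : ZMod A)) g) hf hTr
      (fun j => Fin.cases (V.Aff.pcm_char hAp χ).cm (fun j => (hg j).1) j)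
      (fun j => Fin.cases (fun p hp hAp' _ => AffP.norm_char hAp χ hp hAp')
        (fun j p hp _ _ => (hg j).2 p hp.ne_zero) j)
    refine le_trans (le_of_eq ?_) h1
    refine sum_congr rfl fun N _ => ?_
    unfold av
    congr 3
    refine sum_congr rfl fun n _ => ?_
    simp only [Fin.prod_univ_succ, Fin.cons_zero, Fin.cons_succ, hF]
    unfold av
    ring
  have h2 := sum_le_card_nsmul univ _ _ fun χ _ => hχ χ
  rw [card_univ, nsmul_eq_mul, ← hK] at h2
  have h3 : Real.log ((A * X : ℕ) : ℝ) ≤ 2 * Real.log X := by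
    push_cast
    rw [Real.log_mul hA'.ne' hX0.ne']
    linarith [Real.log_le_log hA' hX']
  have h4 : ∑ N ∈ Icc 1 X, (1 / (N : ℝ)) * ‖av T N‖ ≤ δ / 2 * Real.log X := by
    refine (V.Aff.log_le T F _ hκ hFT (c0 + 1) X).trans ?_
    calc _ ≤ (A : ℝ) ^ 2 * (K * (δ / (4 * (A : ℝ) ^ 2 * K) * Real.log ((A * X : ℕ) : ℝ))) :=
          mul_le_mul_of_nonneg_left h2 (by positivity)
      _ ≤ (A : ℝ) ^ 2 * (K * (δ / (4 * (A : ℝ) ^ 2 * K) * (2 * Real.log X))) := by gcongr
      _ = δ / 2 * Real.log X := by field_simp; ring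
  have h5 : ∀ N ∈ Icc 1 X, (1 / (N : ℝ)) *
      ‖av (fun n => (f (a0 * n + b0) - av f N) * ∏ j, g j (a j * n + b j)) N‖ ≤
      (1 / (N : ℝ)) * ‖av T N‖ + δ / 4 * (1 / (N : ℝ)) := by
    intro N hN
    obtain ⟨hN1, hNX⟩ := mem_Icc.1 hN
    have hd : ∑ n ∈ Icc 1 N, ‖av f (A * n) - av f N‖ ≤ (δ / 8 + 2 / (16 / δ)) * N := by
      refine av_dist_le (by positivity) (by positivity) (fun n => ?_) fun n hn hK' => ?_
      · linarith [norm_sub_le (av f (A * n)) (av f N), V.norm_av_le hf.1.bd (A * n),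
          V.norm_av_le hf.1.bd N]
      · obtain ⟨hn1, hnN⟩ := mem_Icc.1 hn
        have hn' : (0 : ℝ) ≤ n := by positivity
        have hnN' : (n : ℝ) ≤ N := by exact_mod_cast hnN
        have hq : (0 : ℝ) < 16 / δ := by positivity
        refine hS f hf.1 hT N (A * n) hN1 (Nat.mul_pos hAp hn1) ?_ ?_ ?_ ?_
        · calc N ≤ X := hNX
            _ ≤ X ^ 2 := Nat.le_self_pow two_ne_zero X
        · rw [sq]; exact Nat.mul_le_mul hAX (hnN.trans hNX)
        · push_cast
          have h6 : (n : ℝ) ≤ A * n := le_mul_of_one_le_left hn' hA1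
          calc (N : ℝ) ≤ 16 / δ * n := hK'
            _ ≤ (A + 16 / δ) * (A * n) := by gcongr; linarith
        · push_cast
          calc (A : ℝ) * n ≤ A * N := by gcongr
            _ ≤ (A + 16 / δ) * N := by gcongr; linarith
    have h7 := AffP.av_centre (fun n => f (a0 * n + b0)) (fun n => ∏ j, g j (a j * n + b j))
      (fun n => av f (A * n)) (av f N) (fun n => V.norm_prod_le_one _ fun j _ => (hg j).1.bd _) hN1 hd
    have e3 : δ / 8 + 2 / (16 / δ) = δ / 4 := by field_simp; ring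
    rw [e3] at h7
    have h8 : (0 : ℝ) ≤ 1 / (N : ℝ) := by positivity
    have h9 := mul_le_mul_of_nonneg_left h7 h8
    rw [mul_add, mul_comm _ (δ / 4)] at h9
    exact h9
  refine (sum_le_sum h5).trans ?_
  rw [sum_add_distrib, ← mul_sum]
  have h10 : δ / 4 * ∑ N ∈ Icc 1 X, 1 / (N : ℝ) ≤ δ / 4 * (2 * Real.log X) :=
    mul_le_mul_of_nonneg_left (by linarith [IV.harm_le X]) (by positivity)
  linarith

theorem gthm (h : S_Aff) : S_G := by
  intro k
  induction k with
  | zero =>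
    intro a b η δ _ _ _ hδ
    refine Eventually.of_forall fun X f _ => ?_
    rw [sum_eq_zero fun N hN => ?_]
    · exact mul_nonneg hδ.le (Real.log_natCast_nonneg X)
    · simp only [univ_eq_empty, prod_empty]
      rw [av_const 1 (mem_Icc.1 hN).1, sub_self, norm_zero, mul_zero]
  | succ k ih =>
    intro a b η δ ha hne hη hδ
    have h1 := h k (a 0) (b 0) (fun j => a j.succ) (fun j => b j.succ) η (δ / 2) (ha 0)
      (fun j => ha _) (fun j => hne 0 j.succ (Fin.succ_ne_zero j).symm) hη (by positivity)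
    have h2 := ih (fun j => a j.succ) (fun j => b j.succ) η (δ / 2) (fun j => ha _)
      (fun i j hij => hne _ _ fun e => hij (Fin.succ_injective _ e)) hη (by positivity)
    filter_upwards [h1, h2] with X hX1 hX2 f hf
    have h3 := hX1 (f 0) (fun j => f j.succ) (hf 0).1 (hf 0).2 fun j => (hf _).1
    have h4 := hX2 (fun j => f j.succ) fun j => hf _
    have h5 : ∀ N ∈ Icc 1 X, (1 / (N : ℝ)) *
        ‖av (fun n => ∏ i, f i (a i * n + b i)) N - ∏ i, av (f i) N‖ ≤
        (1 / (N : ℝ)) * ‖av (fun n => (f 0 (a 0 * n + b 0) - av (f 0) N) *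
          ∏ j : Fin k, f j.succ (a j.succ * n + b j.succ)) N‖ +
        (1 / (N : ℝ)) * ‖av (fun n => ∏ j : Fin k, f j.succ (a j.succ * n + b j.succ)) N -
          ∏ j : Fin k, av (f j.succ) N‖ := by
      intro N _
      rw [← mul_add]
      refine mul_le_mul_of_nonneg_left ?_ (by positivity)
      simp only [Fin.prod_univ_succ]
      rw [AffP.av_split _ _ (av (f 0) N), add_sub_assoc, ← mul_sub]
      refine (norm_add_le _ _).trans (add_le_add le_rfl ?_)
      rw [norm_mul]
      exact mul_le_of_le_one_left (norm_nonneg _) (V.norm_av_le (hf 0).1.1.bd N)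
    refine (sum_le_sum h5).trans ?_
    rw [sum_add_distrib]
    linarith

end Pool.Agent.P.MP_746f10_nt.LP
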