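import Pool.Agent.P.MP_746f10_nt.LP.St
import Pool.Agent.P.MP_a14ce1_nt.IV.Maj
import Pool.Agent.P.MP_a14ce1_nt.IV.End
import Pool.Agent.P.MP_a14ce1_nt.IV.Init
import Pool.Agent.P.MP_a14ce1_nt.IV.Low

/-!
The major part on a grid, centred.
-/

open Finset Filter MeasureTheory
open scoped ComplexConjugate

namespace Pool.Agent.P.MP_746f10_nt.LP

open Pool.Agent.P.MP_a14ce1_nt
open Pool.Agent.P.MP_a14ce1_nt.Ch (CM rs om pr Fx pv)
open Pool.Agent.P.MP_a14ce1_nt.V (av cube PP)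
open Pool.Agent.P.MP_a14ce1_nt.IV (Hull ESW App cell wa ws gn Ew pS)
open Pool.Agent.P.MP_e30989_nt.W (UCM tw)

namespace MajP

/-- the centred mean over a dilated block -/
theorem one {f : ℕ → ℂ} {μ : ℂ} {p Y : ℕ} {e L : ℝ} (hf : CM f) (hp : 0 < p) (hfp : f p = 1)
    (hY : 0 < Y) (h1 : L ≤ 2 * Y) (h2 : (Y : ℝ) ≤ 2 * L)
    (h : ∀ N : ℕ, L ≤ 2 * p * (N + 1) → (p : ℝ) * N ≤ 4 * L → ‖av f N - μ‖ ≤ e) :
    ‖wa ((Y : ℝ) / p) 1 fun m => f (p * m) - μ‖ ≤ 3 * e := by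
  have hp' : (0 : ℝ) < p := by exact_mod_cast hp
  have hY' : (0 : ℝ) < Y := by exact_mod_cast hY
  have ht : (0 : ℝ) < (Y : ℝ) / p := by positivity
  have hpt : (p : ℝ) * ((Y : ℝ) / p) = Y := by field_simp
  generalize (Y : ℝ) / p = t at ht hpt
  obtain ⟨N1, e1⟩ : ∃ N, ⌈t⌉₊ = N + 1 := Nat.exists_eq_add_one.2 (Nat.ceil_pos.2 ht)
  obtain ⟨N2, e2⟩ : ∃ N, ⌈2 * t⌉₊ = N + 1 :=
    Nat.exists_eq_add_one.2 (Nat.ceil_pos.2 (by positivity))
  have a1 : (N1 : ℝ) < t := Nat.lt_ceil.1 (by omega)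
  have a2 : (N2 : ℝ) < 2 * t := Nat.lt_ceil.1 (by omega)
  have b1 : t ≤ (N1 : ℝ) + 1 := by exact_mod_cast Nat.ceil_le.1 e1.le
  have b2 : 2 * t ≤ (N2 : ℝ) + 1 := by exact_mod_cast Nat.ceil_le.1 e2.le
  have h12 : N1 ≤ N2 := by
    have := Nat.ceil_mono (show t ≤ 2 * t by linarith)
    omega
  have c1 := h N1 (by nlinarith) (by nlinarith)
  have c2 := h N2 (by nlinarith) (by nlinarith)
  have e3 : cell t 1 = Ioc N1 N2 := by
    rw [cell, Nat.cast_one, one_mul, one_add_one_eq_two, e1, e2]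
    ext n
    simp only [mem_Ico, mem_Ioc]
    omega
  have e4 : ∑ m ∈ Ioc N1 N2, (f (p * m) - μ) = N2 * (av f N2 - μ) - N1 * (av f N1 - μ) := by
    have e : ∀ K : ℕ, Icc 1 K = Ioc 0 K := fun K => by ext n; simp only [mem_Icc, mem_Ioc]; omega
    rw [← sum_sub_const, ← sum_sub_const, e, e, ← sum_Ioc_consecutive _ (Nat.zero_le N1) h12,
      add_sub_cancel_left]
    refine sum_congr rfl fun m hm => ?_
    rw [hf.mul p m hp.ne' (by have := (mem_Ioc.1 hm).1; omega), hfp, one_mul]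
  rw [wa, e3, e4, norm_smul, Real.norm_of_nonneg (by positivity), one_div_mul_eq_div,
    div_le_iff₀ ht]
  refine (norm_sub_le _ _).trans ?_
  rw [norm_mul, norm_mul, Complex.norm_natCast, Complex.norm_natCast]
  have d1 : (N1 : ℝ) * ‖av f N1 - μ‖ ≤ t * e := by gcongr
  have d2 : (N2 : ℝ) * ‖av f N2 - μ‖ ≤ 2 * t * e := by gcongr
  linarith

/-- the difference of the two block means -/
theorem third (hE : IV.S_Ew) {ι : Type} [Fintype ι] [DecidableEq ι] {P : ι → Finset ℕ}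
    (hP : ∀ k, 0 < rs (P k)) (hd : ∀ k k', k ≠ k' → Disjoint (P k) (P k')) {f : ℕ → ℂ} (hf : UCM f)
    (hp : ∀ k, ∀ p ∈ P k, p.Prime ∧ f p = 1) (S : Finset ι) {μ : ℂ} {Y : ℕ} {e L : ℝ} (hY : 0 < Y)
    (h1 : L ≤ 2 * Y) (h2 : (Y : ℝ) ≤ 2 * L)
    (h : ∀ a ∈ Fintype.piFinset P, ∀ N : ℕ, L ≤ 2 * pS S a * (N + 1) →
      (pS S a : ℝ) * N ≤ 4 * L → ‖av f N - μ‖ ≤ e) :
    ‖dv (fun m => f m * (IV.EndP.nu P S m : ℂ)) Y -
      μ * dv (fun m => 1 * (IV.EndP.nu P S m : ℂ)) Y‖ ≤ 3 * e := by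
  obtain ⟨E1, -, -, E4⟩ := hE ι P hP
  have h0 := fun a ha S => pS_eq_one hf (fun k p hk => ⟨(hp k p hk).1.pos, (hp k p hk).2⟩)
    (a := a) ha S
  have e1 : dv (fun m => f m * (IV.EndP.nu P S m : ℂ)) Y -
      μ * dv (fun m => 1 * (IV.EndP.nu P S m : ℂ)) Y =
      wa (Y : ℝ) 1 fun n => IV.EndP.nu P S n • (f n - μ) := by
    rw [wa, IV.InitP.cell_nat, one_mul, one_add_one_eq_two, dv, dv, mul_left_comm, ← mul_sub,
      mul_sum, ← sum_sub_distrib, Complex.real_smul]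
    congr 1
    · push_cast
      rfl
    · refine sum_congr rfl fun n _ => ?_
      rw [Complex.real_smul]
      ring
  rw [e1, ← IV.EndP.key (fun a ha S => (h0 a ha S).1) (E4 hd (fun k p hk => (hp k p hk).1) S)]
  refine (IV.LowP.norm_Ew_le hP _).trans (le_of_le_of_eq (IV.LowP.Ew_mono hP fun a ha => ?_)
    (E1 ℝ (3 * e)))
  exact one hf.1 (h0 a ha S).1 (h0 a ha S).2 hY h1 h2 (h a ha)

theorem split {T : Finset ℕ} {f ν ψ : ℕ → ℂ} {μ D1 D2 : ℂ} {b : ℝ} (hμ : ‖μ‖ ≤ 1)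
    (hψ : ∀ n, ‖ψ n‖ ≤ 1) (hb : T.Nonempty → ‖D1 - μ * D2‖ ≤ b) :
    ‖∑ n ∈ T, (f n - μ) * ν n * ψ n‖ ≤ ‖∑ n ∈ T, (f n * ν n - D1) * ψ n‖ +
      ‖∑ n ∈ T, (1 * ν n - D2) * ψ n‖ + ∑ _n ∈ T, b := by
  have e : ∑ n ∈ T, (f n - μ) * ν n * ψ n = ∑ n ∈ T, (f n * ν n - D1) * ψ n -
      μ * ∑ n ∈ T, (1 * ν n - D2) * ψ n + ∑ n ∈ T, (D1 - μ * D2) * ψ n := by
    rw [mul_sum, ← sum_sub_distrib, ← sum_add_distrib]
    exact sum_congr rfl fun n _ => by ring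
  rw [e]
  refine norm_add_le_of_le ((norm_sub_le _ _).trans ?_) ((norm_sum_le _ _).trans
    (sum_le_sum fun n hn => ?_))
  · rw [norm_mul]
    exact add_le_add le_rfl (mul_le_of_le_one_left (norm_nonneg _) hμ)
  · rw [norm_mul]
    exact (mul_le_of_le_one_right (norm_nonneg _) (hψ n)).trans (hb ⟨n, hn⟩)

end MajP

open MajP

theorem maj (hE : IV.S_Ew) (h : S_Major) : S_Maj := by
  intro ι _ _ W δ ε lam hW hδ hε hlam
  have hδ' : 0 < 1 / (2 + 1 / δ) := by positivity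
  have hd1 : 1 / (2 + 1 / δ) ≤ δ := by
    rw [div_le_iff₀ (by positivity), mul_add, mul_one_div_cancel hδ.ne']
    linarith
  have hd2 : 1 / (2 + 1 / δ) ≤ 1 / 2 :=
    one_div_le_one_div_of_le two_pos (le_add_of_nonneg_right (by positivity))
  have key := fun S : Finset ι => h {k // k ∈ S} W _ _ lam hW hδ'
    (show 0 < ε / 32 by positivity) hlam
  choose C hC key using key
  filter_upwards [eventually_all.2 key, eventually_ge_atTop 4, eventually_all.2 fun S =>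
    tendsto_natCast_atTop_atTop.eventually_ge_atTop (64 * C S / ε)]
    with X hX h4 hC' f hf hT P S Λ e J μ ψ B hdis hP hL hΛ hJ h1 h2 h3 he hμ hN
  have hX4 : (4 : ℝ) ≤ X := by exact_mod_cast h4
  have hX0 : (0 : ℝ) < X := by linarith
  have hXΛ : (X : ℝ) ≤ Λ :=
    le_trans (le_mul_of_one_le_left hX0.le (le_add_of_nonneg_left (by positivity))) (h3 0)
  have hΛ0 : 0 < Λ := by linarith
  have hlog : 1 ≤ Real.log X := by
    rw [Real.le_log_iff_exp_le hX0]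
    linarith [Real.exp_one_lt_d9]
  have hxd : (X : ℝ) ^ (1 / (2 + 1 / δ)) ≤ (X : ℝ) ^ δ :=
    Real.rpow_le_rpow_of_exponent_le (by linarith) hd1
  set i0 := Nat.log 2 ⌈Λ⌉₊ with hi0
  set m := Nat.log 2 X with hm
  have c0 : ⌈Λ⌉₊ ≠ 0 := (Nat.ceil_pos.2 hΛ0).ne'
  have c1 : (2 : ℝ) ^ i0 ≤ 2 * Λ := by
    have k1 : ((2 ^ i0 : ℕ) : ℝ) ≤ ⌈Λ⌉₊ := by exact_mod_cast Nat.pow_log_le_self 2 c0
    have k2 := Nat.ceil_lt_add_one hΛ0.le
    push_cast at k1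
    linarith
  have c2 : Λ ≤ 2 * (2 : ℝ) ^ i0 := by
    have k1 : (⌈Λ⌉₊ : ℝ) ≤ ((2 ^ (i0 + 1) : ℕ) : ℝ) := by
      exact_mod_cast (Nat.lt_pow_succ_log_self one_lt_two _).le
    push_cast at k1
    rw [pow_succ'] at k1
    exact (Nat.le_ceil Λ).trans k1
  have c3 : (2 : ℝ) ^ m ≤ X := by exact_mod_cast Nat.pow_log_le_self 2 (by omega : X ≠ 0)
  have c4 : (X : ℝ) ≤ 2 * 2 ^ m := by
    rw [← pow_succ']
    exact_mod_cast (Nat.lt_pow_succ_log_self one_lt_two X).le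
  have c5 : (m : ℝ) ≤ 2 * Real.log X := by
    have k1 := Real.log_le_log (by positivity) c3
    rw [Real.log_pow] at k1
    nlinarith [Real.log_two_gt_d9, (Nat.cast_nonneg m : (0 : ℝ) ≤ m)]
  let T : ℕ → ℕ → Finset ℕ := fun j i => (cell Λ j).filter (· ∈ Ico (2 ^ i) (2 * 2 ^ i))
  let Z : (ℕ → ℂ) → ℕ → ℕ → ℝ := fun g j i => (1 / (j : ℝ)) * (1 / Λ *
    ‖∑ n ∈ T j i, (g n * (IV.EndP.nu P S n : ℂ) -
      dv (fun m => g m * (IV.EndP.nu P S m : ℂ)) (2 ^ i)) * conj (ψ j n)‖)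
  have hb : ∀ g, UCM g → Tr ((X : ℝ) ^ δ) g → ∀ i ∈ Ico i0 (i0 + (m + 2)),
      ∑ j ∈ Ico 1 J, Z g j i ≤ ε / 8 := fun g hg hg' i hi => by
    obtain ⟨k1, k2⟩ := mem_Ico.1 hi
    have k3 := hX S g hg (hg'.mono hxd) (fun k => P k)
      (fun k p hp => ⟨(hP k p hp).1, hxd.trans_lt (hP k p hp).2.1⟩) (fun k => hL k)
      (2 ^ i) (by
        refine (Real.rpow_le_rpow_of_exponent_le (by linarith) hd2).trans ?_
        have k4 : (2 : ℝ) ^ i0 ≤ 2 ^ i := pow_le_pow_right₀ one_le_two k1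
        rw [← Real.sqrt_eq_rpow, Real.sqrt_le_iff]
        push_cast
        exact ⟨by positivity, by nlinarith⟩) (by
        have k4 : (2 : ℝ) ^ i ≤ 2 ^ (i0 + m + 1) := pow_le_pow_right₀ one_le_two (by omega)
        rw [one_div_one_div, Real.rpow_add hX0, Real.rpow_two]
        rw [pow_succ, pow_add] at k4
        push_cast
        calc (2 : ℝ) ^ i ≤ 2 ^ i0 * 2 ^ m * 2 := k4
          _ ≤ 2 * Λ * X * 2 := by gcongr
          _ = 4 * X * Λ := by ring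
          _ ≤ X * X * (X : ℝ) ^ (1 / δ) := by gcongr
          _ = _ := by ring)
    simp only [fun n => prod_coe_sort S fun k => om (P k) n / rs (P k)] at k3
    refine (IV.MajP.block (hC S).le (by positivity) hX0 hΛ0 k3 h1 h2 h3).trans ?_
    have k5 := hC' S
    rw [div_le_iff₀ hε] at k5
    have k6 : 4 * C S / X ≤ ε / 16 := by
      rw [div_le_iff₀ hX0]
      linarith
    linarith
  have hsum : ∀ g, UCM g → Tr ((X : ℝ) ^ δ) g →
      ∑ j ∈ Ico 1 J, ∑ i ∈ Ico i0 (i0 + (m + 2)), Z g j i ≤ ε / 2 * Real.log X := fun g hg hg' => by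
    rw [sum_comm]
    refine (sum_le_card_nsmul _ _ _ (hb g hg hg')).trans ?_
    rw [Nat.card_Ico, Nat.add_sub_cancel_left, nsmul_eq_mul]
    push_cast
    nlinarith
  have hsp : ∀ j ∈ Ico 1 J, ∀ (E : Type) [AddCommMonoid E] (F : ℕ → E),
      ∑ n ∈ cell Λ j, F n = ∑ i ∈ Ico i0 (i0 + (m + 2)), ∑ n ∈ T j i, F n := fun j hj E _ F => by
    obtain ⟨k1, k2⟩ := mem_Ico.1 hj
    have k3 : (1 : ℝ) ≤ j := by exact_mod_cast k1
    have k4 : (j : ℝ) + 1 ≤ X := by exact_mod_cast le_trans k2 hJ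
    have k5 : ∀ n ∈ cell Λ j, ⌈Λ⌉₊ ≤ n ∧ n < 2 ^ (i0 + (m + 2)) := fun n hn => by
      rw [IV.mem_cell] at hn
      refine ⟨Nat.ceil_le.2 (by nlinarith [hn.1]), ?_⟩
      have : (n : ℝ) < 2 ^ (i0 + (m + 2)) :=
        calc (n : ℝ) < (j + 1) * Λ := hn.2
          _ ≤ (2 * 2 ^ m) * (2 * 2 ^ i0) := by gcongr; linarith
          _ = _ := by ring
      exact_mod_cast this
    rw [← sum_fiberwise_of_maps_to (g := Nat.log 2) (t := Ico i0 (i0 + (m + 2))) fun n hn =>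
      mem_Ico.2 ⟨Nat.log_mono_right (k5 n hn).1,
        Nat.log_lt_of_lt_pow (by have := (k5 n hn).1; omega) (k5 n hn).2⟩]
    refine sum_congr rfl fun i _ => sum_congr (filter_congr fun n hn => ?_) fun _ _ => rfl
    rw [mem_Ico, ← pow_succ', Nat.log_eq_iff (Or.inr ⟨one_lt_two, by
      have := (k5 n hn).1; omega⟩)]
  have hh : ∑ j ∈ Ico 1 J, 1 / (j : ℝ) ≤ 2 * Real.log X :=
    (sum_le_sum_of_subset_of_nonneg (fun j hj => mem_Icc.2 ⟨(mem_Ico.1 hj).1,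
      (mem_Ico.1 hj).2.le.trans hJ⟩) fun _ _ _ => by positivity).trans
      ((IV.harm_le X).trans (by linarith))
  calc _ ≤ ∑ j ∈ Ico 1 J, (∑ i ∈ Ico i0 (i0 + (m + 2)), Z f j i +
        ∑ i ∈ Ico i0 (i0 + (m + 2)), Z (fun _ => 1) j i + 1 / (j : ℝ) * (6 * e)) := by
        refine sum_le_sum fun j hj => ?_
        have k3 : (1 : ℝ) ≤ j := by exact_mod_cast (mem_Ico.1 hj).1
        have k4 : 1 / Λ * ∑ i ∈ Ico i0 (i0 + (m + 2)), ∑ _n ∈ T j i, 3 * e ≤ 6 * e := by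
          rw [← hsp j hj ℝ fun _ => 3 * e, sum_const, nsmul_eq_mul, one_div_mul_eq_div,
            div_le_iff₀ hΛ0]
          nlinarith [IV.card_cell_le hΛ0.le j]
        simp only [Z, ← mul_sum, ← mul_add]
        refine mul_le_mul_of_nonneg_left (le_trans ?_ (add_le_add le_rfl k4)) (by positivity)
        rw [← mul_add, wa, norm_smul, Real.norm_of_nonneg (by positivity), hsp j hj,
          ← sum_add_distrib, ← sum_add_distrib]
        refine mul_le_mul_of_nonneg_left ((norm_sum_le _ _).trans (sum_le_sum fun i _ => ?_))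
          (by positivity)
        refine split (hμ j) (fun n => by rw [RCLike.norm_conj]; exact h1 j n) fun ⟨n, hn⟩ => ?_
        obtain ⟨k5, k6⟩ := mem_filter.1 hn
        rw [IV.mem_cell] at k5
        rw [mem_Ico] at k6
        have k7 : (((2 ^ i : ℕ) : ℕ) : ℝ) ≤ n := by exact_mod_cast k6.1
        have k8 : (n : ℝ) ≤ 2 * ((2 ^ i : ℕ) : ℝ) := by exact_mod_cast k6.2.le
        exact third hE (fun k => hlam.trans_le (hL k)) hdis hf
          (fun k p hp => ⟨(hP k p hp).1, (hP k p hp).2.2⟩) S (by positivity)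
          (by linarith [k5.1]) (by nlinarith [k5.2]) (hN j hj)
    _ ≤ ε / 2 * Real.log X + ε / 2 * Real.log X + 2 * Real.log X * (6 * e) := by
        rw [sum_add_distrib, sum_add_distrib, ← sum_mul]
        exact add_le_add (add_le_add (hsum f hf hT) (hsum _ ucm_one (tr_one _)))
          (mul_le_mul_of_nonneg_right hh (by positivity))
    _ ≤ _ := by nlinarith

end Pool.Agent.P.MP_746f10_nt.LP
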